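import Pool.Agent.Lib.MP_4fcc12_ag.AF.Spec

/-!
# Associated forms: invariants divided by powers of `JJ` give invariant regular functions on `Z`
-/

open MvPolynomial

namespace Pool.Agent.Lib.MP_4fcc12_ag.AF

open Pool.Agent.Lib.MP_4fcc12_ag.Quot

namespace DESCM

lemma isRegular_pow {V : Type} [AddCommGroup V] [Module ℂ V] {U : Set V} {φ : U → ℂ}
    (hφ : Quot.IsRegular U φ) (s : ℕ) : Quot.IsRegular U (φ ^ s) := by
  induction s with
  | zero =>
    rw [pow_zero]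
    exact Quot.IsRegular.const 1
  | succ s ih =>
    rw [pow_succ]
    exact ih.mul hφ

/-- values of homogeneous polynomials at a multiple -/
lemma eval_smul {σ : Type} {P : MvPolynomial σ ℂ} {d : ℕ} (hP : P.IsHomogeneous d) (t : ℂ)
    (x : σ → ℂ) : eval (fun i => t * x i) P = t ^ d * eval x P := by
  have h := aeval_mul_of_isHomogeneous hP t x
  rw [aeval_eq_eval, aeval_eq_eval] at h
  exact h

lemma key_pow (t x y : ℂ) (k s : ℕ) (ht : t ≠ 0) :
    t ^ (s * k) * x * (t ^ k * y)⁻¹ ^ s = x * y⁻¹ ^ s := by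
  have h1 : t ^ (s * k) * (t ^ k)⁻¹ ^ s = 1 := by
    rw [inv_pow, ← pow_mul, mul_comm k s]
    exact mul_inv_cancel₀ (pow_ne_zero _ ht)
  rw [mul_inv, mul_pow]
  linear_combination (x * y⁻¹ ^ s) * h1

variable {m a : ℕ}

/-- the value on a tuple -/
noncomputable def val (s : ℕ) (P : MvPolynomial (Mon (m + 1) ((m + 1) * (a - 1))) ℂ)
    (F : Fin (m + 1) → Form (m + 1) a) : ℂ :=
  eval (cc F) P * (eval (cc F) (JJ m a))⁻¹ ^ s

lemma cc_lcT (h2 : SpecEQV) (hm : 1 ≤ m) (ha : 2 ≤ a) {F : Fin (m + 1) → Form (m + 1) a}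
    (hF : F ∈ UU (m + 1) a) {A : Matrix (Fin (m + 1)) (Fin (m + 1)) ℂ} (hA : A.det ≠ 0) :
    cc (lcT A F) = fun i => A.det⁻¹ * cc F i := by
  rw [cc, (h2 m a hm ha F hF).2 A hA, cfL_smul]
  rfl

lemma val_lcT (h2 : SpecEQV) (hm : 1 ≤ m) (ha : 2 ≤ a) {s : ℕ}
    {P : MvPolynomial (Mon (m + 1) ((m + 1) * (a - 1))) ℂ}
    (hP : P.IsHomogeneous (s * Fintype.card (BL m a))) {F : Fin (m + 1) → Form (m + 1) a}
    (hF : F ∈ UU (m + 1) a) {A : Matrix (Fin (m + 1)) (Fin (m + 1)) ℂ} (hA : A.det ≠ 0) :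
    val s P (lcT A F) = val s P F := by
  unfold val
  rw [cc_lcT h2 hm ha hF hA, eval_smul hP, eval_smul (JJ_isHomogeneous m a)]
  exact key_pow _ _ _ _ _ (inv_ne_zero hA)

lemma val_trT (h2 : SpecEQV) (h3 : SpecINVJ) (hm : 1 ≤ m) (ha : 2 ≤ a) {s : ℕ}
    (P : invRing (m + 1) ((m + 1) * (a - 1))) {F : Fin (m + 1) → Form (m + 1) a}
    (hF : F ∈ UU (m + 1) a) (g : Matrix.SpecialLinearGroup (Fin (m + 1)) ℂ) :
    val s (P : MvPolynomial (Mon (m + 1) ((m + 1) * (a - 1))) ℂ) (trT g F) =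
      val s (P : MvPolynomial (Mon (m + 1) ((m + 1) * (a - 1))) ℂ) F := by
  unfold val
  have h4 : cc (trT g F) = cfL _ _ (sub (g⁻¹).transpose (psi F)) := by
    rw [cc, (h2 m a hm ha F hF).1 g]
  rw [h4, h3 m a hm ha F hF, P.2 (g⁻¹).transpose (psi F)]
  rfl

/-- the value on a subspace -/
noncomputable def valZ (s : ℕ) (P : MvPolynomial (Mon (m + 1) ((m + 1) * (a - 1))) ℂ)
    (W : ZZ (m + 1) a) : ℂ := val s P W.2.choose

lemma valZ_spanOf (h2 : SpecEQV) (hm : 1 ≤ m) (ha : 2 ≤ a) {s : ℕ}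
    {P : MvPolynomial (Mon (m + 1) ((m + 1) * (a - 1))) ℂ}
    (hP : P.IsHomogeneous (s * Fintype.card (BL m a))) {F : Fin (m + 1) → Form (m + 1) a}
    (hF : F ∈ UU (m + 1) a) : valZ s P (spanOf ⟨F, hF⟩) = val s P F := by
  have h1 : ∃ F' ∈ UU (m + 1) a, Submodule.span ℂ (Set.range F) =
      Submodule.span ℂ (Set.range F') := ⟨F, hF, rfl⟩
  obtain ⟨c, hc, hcF⟩ := exists_matrix h1.choose_spec.1.1 h1.choose_spec.2
  have h4 : h1.choose = lcT c F := funext hcF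
  show val s P h1.choose = val s P F
  rw [h4]
  exact val_lcT h2 hm ha hP hF hc

end DESCM

/-- MODULE DESC -/
theorem specDESC (h1 : SpecREG) (h2 : SpecEQV) (h3 : SpecINVJ) (h4 : SpecBM) : SpecDESC := by
  intro m a hm ha s P hP
  refine ⟨DESCM.valZ s P, ⟨?_, ?_⟩, ?_⟩
  · have h5 : (fun F : UU (m + 1) a => DESCM.valZ s
        (P : MvPolynomial (Mon (m + 1) ((m + 1) * (a - 1))) ℂ) (spanOf F)) =
        (fun F : UU (m + 1) a => eval (cc F.1)
          (P : MvPolynomial (Mon (m + 1) ((m + 1) * (a - 1))) ℂ)) *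
        (fun F : UU (m + 1) a => (eval (cc F.1) (JJ m a))⁻¹) ^ s := by
      funext F
      exact DESCM.valZ_spanOf h2 hm ha hP F.2
    rw [h5]
    exact ((h1 m a hm ha).1 _).mul (DESCM.isRegular_pow (h1 m a hm ha).2 s)
  · rintro g ⟨W, F, hF, rfl⟩ ⟨W', F', hF', rfl⟩ hW
    show DESCM.valZ s _ (spanOf ⟨F', hF'⟩) = DESCM.valZ s _ (spanOf ⟨F, hF⟩)
    rw [DESCM.valZ_spanOf h2 hm ha hP hF, DESCM.valZ_spanOf h2 hm ha hP hF']
    have h5 : Submodule.span ℂ (Set.range (trT g F)) = Submodule.span ℂ (Set.range F') := by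
      have h6 : Submodule.span ℂ (Set.range F') =
        (Submodule.span ℂ (Set.range F)).map (sub g) := hW
      rw [h6, Submodule.map_span]
      congr 1
      ext x
      simp [trT]
    obtain ⟨c, hc, hcF⟩ := exists_matrix hF'.1 h5
    have h6 : F' = lcT c (trT g F) := funext hcF
    rw [h6, DESCM.val_lcT h2 hm ha hP (trT_mem (by omega) g hF) hc,
      DESCM.val_trT h2 h3 hm ha P hF g]
  · intro F
    have h5 : DESCM.valZ s (P : MvPolynomial (Mon (m + 1) ((m + 1) * (a - 1))) ℂ) (spanOf F) =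
        DESCM.val s (P : MvPolynomial (Mon (m + 1) ((m + 1) * (a - 1))) ℂ) F.1 :=
      DESCM.valZ_spanOf h2 hm ha hP F.2
    have h6 : eval (cc F.1) (JJ m a) ≠ 0 := (h4 m a hm ha).2.2 F.1 F.2
    rw [h5, DESCM.val, mul_assoc, ← mul_pow, inv_mul_cancel₀ h6, one_pow, mul_one]

end Pool.Agent.Lib.MP_4fcc12_ag.AF
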