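import Pool.Agent.Lib.MP_4fcc12_ag.AF.Spec
import Mathlib.RingTheory.MvPolynomial.EulerIdentity

/-!
# Associated forms: the Dixon kernel on the diagonal
-/

set_option autoImplicit false

open MvPolynomial

namespace Pool.Agent.Lib.MP_4fcc12_ag.AF

namespace DIAGM

/-- roots and ring homomorphisms -/
lemma proot_map {m : ℕ} {R R' : Type*} [CommRing R] [CommRing R'] (φ : R →+* R') (y : Fin m → R)
    (i : Fin (m + 1)) : φ (proot y i) = proot (fun j => φ (y j)) i := by
  rw [proot, proot, ← Polynomial.coeff_map, Polynomial.map_prod]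
  simp

/-- chain rule -/
lemma chain_rule {σ A : Type*} [Fintype σ] [CommRing A] [Algebra ℂ A] (D : Derivation ℂ A A)
    (g : σ → A) (p : MvPolynomial σ ℂ) :
    D (aeval g p) = ∑ j, aeval g (pderiv j p) * D (g j) := by
  classical
  induction p using MvPolynomial.induction_on with
  | C c =>
    have h1 : (aeval g (C c : MvPolynomial σ ℂ) : A) = algebraMap ℂ A c := by
      rw [← MvPolynomial.algebraMap_eq, AlgHom.commutes]
    rw [h1, Derivation.map_algebraMap]
    simp
  | add p q hp hq =>
    simp only [map_add, hp, hq, add_mul, Finset.sum_add_distrib]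
  | mul_X p i hp =>
    rw [map_mul, aeval_X, Derivation.leibniz, hp]
    simp only [smul_eq_mul, pderiv_mul, pderiv_X, map_add, map_mul, aeval_X, add_mul,
      Finset.sum_add_distrib]
    rw [add_comm]
    congr 1
    · rw [Finset.mul_sum]
      apply Finset.sum_congr rfl
      intro j _
      ring
    · rw [Finset.sum_eq_single i]
      · simp
      · intro j _ hj
        rw [Pi.single_eq_of_ne (Ne.symm hj)]
        simp
      · intro h
        exact absurd (Finset.mem_univ i) h

variable {m : ℕ}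

/-- the restriction to the diagonal -/
noncomputable abbrev ev (m : ℕ) : S m →ₐ[ℂ] MvPolynomial (Fin m) ℂ :=
  aeval (Sum.elim X X : Fin m ⊕ Fin m → MvPolynomial (Fin m) ℂ)

lemma FX_eq (f : MvPolynomial (Fin (m + 1)) ℂ) (k : ℕ) : FX f k = aeval (chain m k) (FY f) := by
  rw [FX, FY, ← AlgHom.comp_apply]
  congr 1
  apply MvPolynomial.algHom_ext
  intro i
  rw [aeval_X, AlgHom.comp_apply, aeval_X]
  have h1 := proot_map ((aeval (chain m k) : MvPolynomial (Fin m) ℂ →ₐ[ℂ] S m).toRingHom) X i
  simp only [AlgHom.toRingHom_eq_coe, RingHom.coe_coe, aeval_X] at h1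
  exact h1.symm

lemma ev_FX (f : MvPolynomial (Fin (m + 1)) ℂ) (k : ℕ) : ev m (FX f k) = FY f := by
  rw [FX_eq, ← AlgHom.comp_apply]
  have h1 : (ev m).comp (aeval (chain m k)) = AlgHom.id ℂ (MvPolynomial (Fin m) ℂ) := by
    apply MvPolynomial.algHom_ext
    intro i
    rw [AlgHom.comp_apply, aeval_X, chain]
    split_ifs <;> simp
  rw [h1, AlgHom.id_apply]

/-- the restriction of the divided difference to the diagonal is the derivative -/
lemma ev_delta {f : Fin (m + 1) → MvPolynomial (Fin (m + 1)) ℂ} {δ : Fin m → Fin (m + 1) → S m}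
    (h : IsDiff f δ) (l : Fin m) (i : Fin (m + 1)) :
    ev m (δ l i) = pderiv l (FY (f i)) := by
  classical
  have h1 := congrArg (fun p => ev m (pderiv (Sum.inr l) p)) (h l i)
  have h0 : pderiv (Sum.inr l) (FX (f i) l) = 0 := by
    rw [FX_eq, chain_rule]
    apply Finset.sum_eq_zero
    intro j _
    have h2 : pderiv (Sum.inr l) (chain m l j) = 0 := by
      rw [chain]
      split_ifs with h3
      · rw [pderiv_X, Pi.single_eq_of_ne]
        intro h4
        have h5 := Sum.inr.inj h4
        rw [h5] at h3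
        exact lt_irrefl _ h3
      · rw [pderiv_X, Pi.single_eq_of_ne]
        exact Sum.inl_ne_inr
    rw [h2, mul_zero]
  have h2 : ev m (pderiv (Sum.inr l) (FX (f i) (l + 1))) = pderiv l (FY (f i)) := by
    have h3 : pderiv (Sum.inl l) (FX (f i) (l + 1)) = 0 := by
      rw [FX_eq, chain_rule]
      apply Finset.sum_eq_zero
      intro j _
      have h2 : pderiv (Sum.inl l) (chain m (l + 1) j) = 0 := by
        rw [chain]
        split_ifs with h3
        · rw [pderiv_X, Pi.single_eq_of_ne]
          exact Sum.inr_ne_inl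
        · rw [pderiv_X, Pi.single_eq_of_ne]
          intro h4
          have h5 := Sum.inl.inj h4
          rw [h5] at h3
          exact h3 (Nat.lt_succ_self _)
      rw [h2, mul_zero]
    have h4 := chain_rule (pderiv l) (Sum.elim X X : Fin m ⊕ Fin m → MvPolynomial (Fin m) ℂ)
      (FX (f i) (l + 1))
    have h5 : ev m (FX (f i) (l + 1)) = FY (f i) := ev_FX _ _
    rw [ev] at h5
    rw [h5] at h4
    rw [h4, Fintype.sum_sum_type]
    simp only [Sum.elim_inl, Sum.elim_inr, pderiv_X]
    rw [Finset.sum_eq_single l, Finset.sum_eq_single l, h3]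
    · simp [ev]
    · intro j _ hj
      rw [Pi.single_eq_of_ne hj, mul_zero]
    · intro h; exact absurd (Finset.mem_univ l) h
    · intro j _ hj
      rw [Pi.single_eq_of_ne hj, mul_zero]
    · intro h; exact absurd (Finset.mem_univ l) h
  simp only [map_sub, h0, h2, sub_zero, pderiv_mul, pderiv_X, map_add, map_mul] at h1
  rw [Pi.single_eq_same, Pi.single_eq_of_ne Sum.inl_ne_inr] at h1
  simpa [ev] using h1

end DIAGM

open DIAGM

theorem specDIAG (h1 : SpecDD) (h2 : SpecDIX) (h3 : SpecSYM) (h4 : SpecWR) : SpecDIAG := by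
  classical
  intro m a ha
  obtain ⟨c, hc, hW⟩ := h4 m
  have ha' : (a : ℂ) ≠ 0 := by
    have : a ≠ 0 := by omega
    exact_mod_cast this
  refine ⟨(-1) ^ m * (c * (a : ℂ)⁻¹), mul_ne_zero (pow_ne_zero _ (by norm_num))
    (mul_ne_zero hc (inv_ne_zero ha')), ?_⟩
  intro f hf Φ hΦ
  obtain ⟨δ, hδ, -⟩ := h1 m a f hf
  have h5 := ((h2 m f δ hδ).2 Φ hΦ).1
  set J : Matrix (Fin (m + 1)) (Fin (m + 1)) (MvPolynomial (Fin m) ℂ) :=
    Matrix.of fun i k => FY (pderiv k (f i)) with hJ
  set W : Matrix (Fin (m + 1)) (Fin (m + 1)) (MvPolynomial (Fin m) ℂ) :=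
    Matrix.of fun i k => Fin.cases (motive := fun _ => MvPolynomial (Fin m) ℂ)
      (proot X i) (fun l => pderiv l (proot X i)) k with hWdef
  set E : Matrix (Fin (m + 1)) (Fin (m + 1)) (MvPolynomial (Fin m) ℂ) :=
    Matrix.diagonal (Fin.cases (C ((a : ℂ)⁻¹)) (fun _ => 1)) with hE
  have hdetE : E.det = C ((a : ℂ)⁻¹) := by
    rw [hE, Matrix.det_diagonal, Fin.prod_univ_succ]
    simp
  have hdetJ : J.det = FY (jacP f) := by
    rw [jacP, FY, AlgHom.map_det]
    rfl
  have hmat : (dmat (fun i => FX (f i) 0) δ).map (ev m) = J * W * E := by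
    refine Matrix.ext fun i k => ?_
    rw [hE, Matrix.mul_diagonal, Matrix.mul_apply, Matrix.map_apply]
    refine Fin.cases ?_ (fun l => ?_) k
    · have e1 : dmat (fun i => FX (f i) 0) δ i 0 = FX (f i) 0 := rfl
      rw [e1, ev_FX]
      have e2 := (hf i).sum_X_mul_pderiv
      have e3 := congrArg (fun p => FY p) e2
      have e4 : FY (a • f i) = (a : ℂ) • FY (f i) := by
        rw [FY, map_nsmul, ← Nat.cast_smul_eq_nsmul ℂ]
        rfl
      have e5 : (∑ j, J i j * W j 0) = (a : ℂ) • FY (f i) := by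
        rw [← e4, ← e3]
        simp only [FY, map_sum, map_mul, aeval_X]
        apply Finset.sum_congr rfl
        intro j _
        rw [mul_comm]
        rfl
      rw [e5]
      show FY (f i) = (a : ℂ) • FY (f i) * C ((a : ℂ)⁻¹)
      rw [smul_mul_assoc, mul_comm (FY (f i)), ← smul_mul_assoc, smul_eq_C_mul, ← C_mul,
        mul_inv_cancel₀ ha', C_1, one_mul]
    · have e1 : dmat (fun i => FX (f i) 0) δ i l.succ = δ l i := rfl
      rw [e1, ev_delta hδ]
      show _ = (∑ j, J i j * W j l.succ) * 1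
      rw [mul_one, FY, chain_rule]
      rfl
  have hdet : ev m (dmat (fun i => FX (f i) 0) δ).det = FY (jacP f) * (C c * vdm m) * C ((a : ℂ)⁻¹) := by
    rw [AlgHom.map_det]
    have : (ev m).mapMatrix (dmat (fun i => FX (f i) 0) δ) = J * W * E := hmat
    rw [this, Matrix.det_mul, Matrix.det_mul, hdetE, hdetJ, hW]
  have h6 := congrArg (ev m) h5
  rw [map_mul, map_pow, map_neg, map_one, hdet] at h6
  rw [ev] at h6
  rw [h6, C_mul, C_mul, C_pow, C_neg, C_1]
  ring

end Pool.Agent.Lib.MP_4fcc12_ag.AF
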