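import Pool.Agent.Lib.MP_4fcc12_ag.QuotMain
import Mathlib.AlgebraicGeometry.ProjectiveSpectrum.Basic
import Mathlib.AlgebraicGeometry.ProjectiveSpectrum.Proper
import Mathlib.LinearAlgebra.Vandermonde
import Mathlib.Data.Nat.Choose.Multinomial

/-!
# Associated forms: the objects in the statement of the theorem
-/

open MvPolynomial

namespace Pool.Agent.Lib.MP_4fcc12_ag.AF

open Pool.Agent.Lib.MP_4fcc12_ag.Quot

/-- the Jacobian determinant of a tuple of forms -/
noncomputable def jac {n k : ℕ} (F : Fin n → Form n k) : MvPolynomial (Fin n) ℂ :=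
  (Matrix.of fun i j => pderiv j (F i : MvPolynomial (Fin n) ℂ)).det

/-- the ideal `(F_1, …, F_n)` -/
noncomputable def idl {n k : ℕ} (F : Fin n → Form n k) : Ideal (MvPolynomial (Fin n) ℂ) :=
  Ideal.span (Set.range fun i => (F i : MvPolynomial (Fin n) ℂ))

/-- the number `μ_i(F)` with `z^i = μ_i(F) Jac(F)` in `ℂ[z]/(F_1, …, F_n)` -/
noncomputable def mu {n k : ℕ} (F : Fin n → Form n k) (i : Fin n →₀ ℕ) : ℂ :=
  Classical.epsilon fun c : ℂ => monomial i 1 - C c * jac F ∈ idl F

/-- the associated form `Ψ(F) = ∑ N!/(i_1! ⋯ i_n!) μ_i(F) e^i`, the sum over `|i| = N = n (k - 1)` -/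
noncomputable def psi {n k : ℕ} (F : Fin n → Form n k) : Form n (n * (k - 1)) :=
  frmF fun i : Mon n (n * (k - 1)) => (Nat.multinomial Finset.univ i.1 : ℂ) * mu F i.1

/-- the ring of `SL_n`-invariant polynomials in the coefficients of forms of degree `N` -/
noncomputable def invRing (n N : ℕ) : Subalgebra ℂ (MvPolynomial (Mon n N) ℂ) where
  carrier := {P | ∀ (g : Matrix.SpecialLinearGroup (Fin n) ℂ) (q : Form n N),
    eval (cfL n N (sub g q)) P = eval (cfL n N q) P}
  mul_mem' := by
    intro P Q hP hQ g q
    rw [map_mul, map_mul, hP, hQ]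
  add_mem' := by
    intro P Q hP hQ g q
    rw [map_add, map_add, hP, hQ]
  algebraMap_mem' := by
    intro c g q
    rw [algebraMap_eq, eval_C, eval_C]

/-- the grading of the ring of invariants by the degree -/
noncomputable def invGr (n N : ℕ) (m : ℕ) : Submodule ℂ (invRing n N) :=
  (homogeneousSubmodule (Mon n N) ℂ m).comap (invRing n N).val.toLinearMap

lemma mem_invGr {n N m : ℕ} (P : invRing n N) :
    P ∈ invGr n N m ↔ (P : MvPolynomial (Mon n N) ℂ).IsHomogeneous m := Iff.rfl

lemma cfL_smul {n N : ℕ} (t : ℂ) (q : Form n N) : cfL n N (t • q) = fun i => t * cfL n N q i := by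
  funext i
  simp [cfL, cf]

lemma homogeneousComponent_mem_invRing {n N : ℕ} (P : invRing n N) (m : ℕ) :
    homogeneousComponent m (P : MvPolynomial (Mon n N) ℂ) ∈ invRing n N := by
  intro g q
  -- the polynomials `t ↦ P (t q)` and `t ↦ P (t (g q))` agree
  have key : ∀ x : Mon n N → ℂ, ∀ t : ℂ,
      Polynomial.eval t (∑ i ∈ Finset.range ((P : MvPolynomial (Mon n N) ℂ).totalDegree + 1),
        Polynomial.C (eval x (homogeneousComponent i (P : MvPolynomial (Mon n N) ℂ))) *
          Polynomial.X ^ i) = eval (fun j => t * x j) (P : MvPolynomial (Mon n N) ℂ) := by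
    intro x t
    conv_rhs => rw [← sum_homogeneousComponent (P : MvPolynomial (Mon n N) ℂ)]
    rw [map_sum, Polynomial.eval_finsetSum]
    apply Finset.sum_congr rfl
    intro i _
    have h3 := aeval_mul_of_isHomogeneous (homogeneousComponent_isHomogeneous i
      (P : MvPolynomial (Mon n N) ℂ)) t x
    rw [aeval_eq_eval, aeval_eq_eval] at h3
    rw [h3, Polynomial.eval_mul, Polynomial.eval_C, Polynomial.eval_pow, Polynomial.eval_X, mul_comm]
  have h1 := Polynomial.funext (p := ∑ i ∈ Finset.range
      ((P : MvPolynomial (Mon n N) ℂ).totalDegree + 1),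
        Polynomial.C (eval (cfL n N (sub g q)) (homogeneousComponent i
          (P : MvPolynomial (Mon n N) ℂ))) * Polynomial.X ^ i)
    (q := ∑ i ∈ Finset.range ((P : MvPolynomial (Mon n N) ℂ).totalDegree + 1),
        Polynomial.C (eval (cfL n N q) (homogeneousComponent i
          (P : MvPolynomial (Mon n N) ℂ))) * Polynomial.X ^ i) (by
    intro t
    rw [key, key, ← cfL_smul, ← cfL_smul, ← map_smul]
    exact P.2 g (t • q))
  by_cases hm : m < (P : MvPolynomial (Mon n N) ℂ).totalDegree + 1
  · have h2 := congrArg (fun p => Polynomial.coeff p m) h1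
    simpa [Polynomial.finsetSum_coeff, Polynomial.coeff_C_mul, Polynomial.coeff_X_pow, hm]
      using h2
  · rw [homogeneousComponent_eq_zero _ _ (by omega), map_zero, map_zero]

instance (n N : ℕ) : SetLike.GradedMonoid (invGr n N) where
  one_mem := isHomogeneous_one _ _
  mul_mem := fun _ _ _ _ h1 h2 => IsHomogeneous.mul h1 h2

/-- the homogeneous component of an invariant polynomial -/
noncomputable def hcI {n N : ℕ} (P : invRing n N) (m : ℕ) : invGr n N m :=
  ⟨⟨homogeneousComponent m (P : MvPolynomial (Mon n N) ℂ), homogeneousComponent_mem_invRing P m⟩,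
    homogeneousComponent_isHomogeneous _ _⟩

/-- the decomposition of an invariant polynomial -/
noncomputable def decI {n N : ℕ} (P : invRing n N) : DirectSum ℕ fun m => invGr n N m :=
  DirectSum.mk (fun m => invGr n N m)
    (Finset.range ((P : MvPolynomial (Mon n N) ℂ).totalDegree + 1)) fun m => hcI P m.1

lemma decI_apply {n N : ℕ} (P : invRing n N) (m : ℕ) : decI P m = hcI P m := by
  by_cases hm : m ∈ Finset.range ((P : MvPolynomial (Mon n N) ℂ).totalDegree + 1)
  · exact DirectSum.mk_apply_of_mem hm
  · rw [decI, DirectSum.mk_apply_of_notMem hm]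
    apply Subtype.ext
    apply Subtype.ext
    show 0 = homogeneousComponent m (P : MvPolynomial (Mon n N) ℂ)
    rw [homogeneousComponent_eq_zero]
    simpa using hm

noncomputable instance (n N : ℕ) : GradedAlgebra (invGr n N) where
  decompose' := decI
  left_inv := by
    intro P
    apply Subtype.ext
    have h1 : ∀ x : DirectSum ℕ fun m => invGr n N m, ∀ M : ℕ, (∀ m, M ≤ m → x m = 0) →
        ((DirectSum.coeAddMonoidHom (fun m => invGr n N m)) x : invRing n N) =
        ∑ m ∈ Finset.range M, (x m : invRing n N) := by
      intro x M hx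
      rw [DirectSum.coeAddMonoidHom_eq_dfinsuppSum, DFinsupp.sum]
      apply Finset.sum_subset
      · intro m hm
        rw [DFinsupp.mem_support_iff] at hm
        rw [Finset.mem_range]
        by_contra h2
        exact hm (hx m (not_lt.1 h2))
      · intro m _ hm
        rw [DFinsupp.notMem_support_iff] at hm
        rw [hm]
        rfl
    rw [h1 (decI P) ((P : MvPolynomial (Mon n N) ℂ).totalDegree + 1)]
    · rw [AddSubmonoidClass.coe_finsetSum]
      conv_rhs => rw [← sum_homogeneousComponent (P : MvPolynomial (Mon n N) ℂ)]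
      apply Finset.sum_congr rfl
      intro m _
      rw [decI_apply]
      rfl
    · intro m hm
      rw [decI_apply]
      apply Subtype.ext
      apply Subtype.ext
      exact homogeneousComponent_eq_zero _ _ (by omega)
  right_inv := by
    intro x
    ext m : 1
    rw [decI_apply]
    apply Subtype.ext
    apply Subtype.ext
    show homogeneousComponent m ((DirectSum.coeAddMonoidHom (fun m => invGr n N m)) x :
      MvPolynomial (Mon n N) ℂ) = ((x m : invRing n N) : MvPolynomial (Mon n N) ℂ)
    induction x using DirectSum.induction_on with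
    | zero => simp
    | of i y =>
      rw [DirectSum.coeAddMonoidHom_of]
      by_cases him : i = m
      · subst him
        rw [DirectSum.of_eq_same]
        exact homogeneousComponent_of_mem y.2 |>.trans (if_pos rfl)
      · rw [DirectSum.of_eq_of_ne _ _ _ (Ne.symm him)]
        exact homogeneousComponent_of_mem y.2 |>.trans (if_neg (Ne.symm him))
    | add x y hx hy =>
      rw [map_add, DirectSum.add_apply]
      push_cast
      rw [map_add, hx, hy]

/-- The quotient `ℙ(ℂ[e]_N)^{ss} // SL_n`: the projective spectrum of the graded ring of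
`SL_n`-invariant polynomials. -/
noncomputable def quotSS (n N : ℕ) : AlgebraicGeometry.Scheme := AlgebraicGeometry.Proj (invGr n N)

/-- the ring of regular functions on the set of tuples with nonzero resultant -/
def ringUU (n k : ℕ) : Subring (UU n k → ℂ) where
  carrier := {φ | Quot.IsRegular (UU n k) φ}
  mul_mem' := Quot.IsRegular.mul
  one_mem' := Quot.IsRegular.const 1
  add_mem' := Quot.IsRegular.add
  zero_mem' := Quot.IsRegular.const 0
  neg_mem' := by
    intro φ hφ
    have h : -φ = (fun _ => (-1 : ℂ)) * φ := by
      funext x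
      simp
    rw [h]
    exact (Quot.IsRegular.const _).mul hφ

/-- pull back of functions on `Z_n^k` to tuples -/
noncomputable def spanStar (n k : ℕ) : ringZZ n k →+* ringUU n k :=
  ((pullBack fun F : UU n k => spanOf F).comp (ringZZ n k).subtype).codRestrict (ringUU n k)
    fun ψ => ψ.2.1

open AlgebraicGeometry CategoryTheory

/-- the ring of regular functions on the set of tuples with nonzero resultant -/
noncomputable def catUU (n k : ℕ) : CommRingCat := CommRingCat.of (ringUU n k)

/-- The morphism from the variety of tuples with nonzero resultant to `Z_n^k // SL_n`. -/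
noncomputable def projZZ (n k : ℕ) : Spec (catUU n k) ⟶ quotZZ n k :=
  Spec.map (CommRingCat.ofHom (spanStar n k))

end Pool.Agent.Lib.MP_4fcc12_ag.AF
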