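import Pool.Agent.Lib.MP_4fcc12_ag.AF.Spec
import Mathlib.Algebra.MvPolynomial.NoZeroDivisors
import Mathlib.Algebra.MvPolynomial.Coeff
import Mathlib.RingTheory.MvPolynomial.EulerIdentity
import Pool.Agent.Lib.MP_4fcc12_ag.ResChar
import Mathlib.LinearAlgebra.Matrix.Transvection

section
/-!
# Associated forms: determinants of values at a basis are in `BB`
-/
open MvPolynomial

namespace Pool.Agent.Lib.MP_4fcc12_ag.AF

open Pool.Agent.Lib.MP_4fcc12_ag.Quot

namespace BASM

variable {m a : ℕ}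

/-- the vectors of the chain -/
noncomputable def w0 (x y : Fin m → ℂ) (k : Fin (m + 1)) : Fin (m + 1) → ℂ :=
  proot fun j => if (j : ℕ) < (k : ℕ) then y j else x j

lemma mem_chain (h2 : SpecEVAL) (h3 : SpecBM) (hm : 1 ≤ m) (ha : 2 ≤ a) (x y : Fin m → ℂ) :
    (fun F : UU (m + 1) a => (Matrix.of fun i k => eval (w0 x y k) (tp F.1 i)).det) ∈ BB m a := by
  have h5 : (fun F : UU (m + 1) a => (Matrix.of fun i k => eval (w0 x y k) (tp F.1 i)).det) =
      ∑ α : BL m a, ∑ β : BR m a,
        ((∏ j, (x j - y j)) * ((∏ j, x j ^ (α j : ℕ)) * ∏ j, y j ^ (β j : ℕ))) •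
          (fun F : UU (m + 1) a => MD a (tp F.1) α ((eBB m a).symm β)) := by
    funext F
    have h6 := h2 m a hm ha (tp F.1) (fun i => (F.1 i).2) x y
    refine h6.trans ?_
    rw [Finset.sum_apply, Finset.mul_sum]
    apply Finset.sum_congr rfl
    intro α _
    rw [Finset.sum_apply, Finset.mul_sum]
    apply Finset.sum_congr rfl
    intro β _
    rw [Pi.smul_apply, smul_eq_mul]
    have h7 : MD a (tp F.1) α ((eBB m a).symm β) = coeff (eLR α β) (DX (tp F.1)) := by
      show coeff (eLR α (eBB m a ((eBB m a).symm β))) (DX (tp F.1)) = _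
      rw [Equiv.apply_symm_apply]
    rw [h7]
    ring
  rw [h5]
  exact sum_mem fun α _ => sum_mem fun β _ =>
    Subalgebra.smul_mem _ ((h3 m a hm ha).1 α _) _

end BASM

open BASM in
/-- MODULE BAS -/
theorem specBAS (h1 : SpecCH) (h2 : SpecEVAL) (h3 : SpecBM) (h4 : SpecSTAB) : SpecBAS := by
  intro m a hm ha w hw
  obtain ⟨x, y, hxy⟩ := h1 m
  have hW0 : IsUnit (Matrix.of fun i k => w0 x y k i).det := isUnit_iff_ne_zero.2 hxy
  -- the matrix `h` with `w k = h (w0 k)`
  let W : Matrix (Fin (m + 1)) (Fin (m + 1)) ℂ := (Matrix.of w).transpose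
  let h : Matrix (Fin (m + 1)) (Fin (m + 1)) ℂ := W * (Matrix.of fun i k => w0 x y k i)⁻¹
  have hmul : h * (Matrix.of fun i k => w0 x y k i) = W := by
    rw [Matrix.mul_assoc, Matrix.nonsing_inv_mul _ hW0, Matrix.mul_one]
  have hdet : h.det ≠ 0 := by
    intro h0
    have h5 := congrArg Matrix.det hmul
    rw [Matrix.det_mul, h0, zero_mul, Matrix.det_transpose] at h5
    exact hw h5.symm
  have hwk : ∀ k, w k = h.mulVec (w0 x y k) := by
    intro k
    funext i
    exact (congrFun (congrFun hmul i) k).symm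
  obtain ⟨μ, hμ⟩ := IsAlgClosed.exists_pow_nat_eq h.det (show 0 < m + 1 by omega)
  have hμ0 : μ ≠ 0 := by
    rintro rfl
    rw [zero_pow (by omega)] at hμ
    exact hdet hμ.symm
  let g : Matrix.SpecialLinearGroup (Fin (m + 1)) ℂ := ⟨μ⁻¹ • h, by
    rw [Matrix.det_smul, Fintype.card_fin, inv_pow, hμ, inv_mul_cancel₀ hdet]⟩
  have hval : ∀ (f : Form (m + 1) a) (k : Fin (m + 1)),
      eval (w k) (f : MvPolynomial (Fin (m + 1)) ℂ) =
        μ ^ a * eval (w0 x y k) (sub g f : MvPolynomial (Fin (m + 1)) ℂ) := by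
    intro f k
    have h6 : w k = fun j => μ * (g.1.mulVec (w0 x y k)) j := by
      rw [hwk]
      funext j
      show (h.mulVec (w0 x y k)) j = μ * ((μ⁻¹ • h).mulVec (w0 x y k)) j
      rw [Matrix.smul_mulVec, Pi.smul_apply, smul_eq_mul, mul_inv_cancel_left₀ hμ0]
    have h7 := aeval_mul_of_isHomogeneous ((mem_homogeneousSubmodule a _).1 f.2) μ
      (g.1.mulVec (w0 x y k))
    rw [aeval_eq_eval, aeval_eq_eval] at h7
    rw [coe_sub, eval_subst, h6]
    exact h7
  have h8 : (fun F : UU (m + 1) a => (Matrix.of fun i k => eval (w k) (tp F.1 i)).det) =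
      ((μ ^ a) ^ (m + 1)) • fun F : UU (m + 1) a =>
        (Matrix.of fun i k => eval (w0 x y k) (tp (trT g F.1) i)).det := by
    funext F
    have h9 : (Matrix.of fun i k => eval (w k) (tp F.1 i)) =
        (μ ^ a) • Matrix.of fun i k => eval (w0 x y k) (tp (trT g F.1) i) := by
      ext i k
      exact hval (F.1 i) k
    rw [h9, Matrix.det_smul, Fintype.card_fin]
    rfl
  rw [h8]
  exact Subalgebra.smul_mem _ (h4 m a hm ha _ (mem_chain h2 h3 hm ha x y) g) _

end Pool.Agent.Lib.MP_4fcc12_ag.AF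
end

section
/-!
# Associated forms: the entries of the matrix `MD` as functions of the associated form

The identity `MD * BGᵀ = c₁ 1` (module `MB`) shows that the determinant of `BG`, which is the value of
the polynomial `JJ` at the coefficients of the associated form, does not vanish, and that the entries
of `MD` and the inverse of the determinant of `MD` are quotients of polynomials in these
coefficients by powers of `JJ`.
-/
open MvPolynomial

namespace Pool.Agent.Lib.MP_4fcc12_ag.AF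

open Pool.Agent.Lib.MP_4fcc12_ag.Quot

namespace BMM

/-- the matrix `BG` as a matrix of polynomials -/
noncomputable def BP (m a : ℕ) :
    Matrix (BL m a) (BL m a) (MvPolynomial (Mon (m + 1) ((m + 1) * (a - 1))) ℂ) :=
  Matrix.of fun α β : BL m a => ∑ i : Mon (m + 1) ((m + 1) * (a - 1)),
    C (coeff i.1 (Top m ((m + 1) * (a - 1)) (monomial (eL α + eR (eBB m a β)) 1)) /
      (Nat.multinomial Finset.univ i.1 : ℂ)) * X i

lemma map_BP (m a : ℕ) (c : Mon (m + 1) ((m + 1) * (a - 1)) → ℂ) :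
    (eval c).mapMatrix (BP m a) = BG m a c := by
  refine Matrix.ext fun α β => ?_
  simp only [BP, RingHom.mapMatrix_apply, Matrix.map_apply, Matrix.of_apply, map_sum, map_mul,
    eval_C, eval_X, BG, Bm, GC, Matrix.submatrix_apply, id_eq, LinearMap.comp_apply,
    LinearMap.sum_apply, LinearMap.smul_apply, lcoeff_apply, smul_eq_mul]
  apply Finset.sum_congr rfl
  intro i _
  ring

/-- entries of the adjugate of the transpose of `BG` are values of polynomials -/
lemma eval_adj (m a : ℕ) (c : Mon (m + 1) ((m + 1) * (a - 1)) → ℂ) (α β : BL m a) :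
    eval c ((BP m a).transpose.adjugate α β) = (BG m a c).transpose.adjugate α β := by
  have h1 := RingHom.map_adjugate (eval c) (BP m a).transpose
  have h2 : (eval c).mapMatrix (BP m a).transpose = (BG m a c).transpose := by
    rw [← map_BP]
    rfl
  rw [h2] at h1
  rw [← h1]
  rfl

/-- if `A * B = c 1` then `det A * det B = c ^ card` -/
lemma det_of_mul {ι : Type*} [Fintype ι] [DecidableEq ι] {A B : Matrix ι ι ℂ} {c : ℂ}
    (h : A * B.transpose = c • 1) : A.det * B.det = c ^ Fintype.card ι := by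
  have h1 := congrArg Matrix.det h
  rwa [Matrix.det_mul, Matrix.det_transpose, Matrix.det_smul, Matrix.det_one, mul_one] at h1

/-- if `A * Bᵀ = c 1` then `det B * A = c adj (Bᵀ)` -/
lemma adj_of_mul {ι : Type*} [Fintype ι] [DecidableEq ι] {A B : Matrix ι ι ℂ} {c : ℂ}
    (h : A * B.transpose = c • 1) (α β : ι) :
    A α β * B.det = c * B.transpose.adjugate α β := by
  have h1 : A * B.transpose * B.transpose.adjugate = (c • (1 : Matrix ι ι ℂ)) *
      B.transpose.adjugate := by rw [h]
  rw [Matrix.mul_assoc, Matrix.mul_adjugate, Matrix.det_transpose, Matrix.mul_smul,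
    Matrix.mul_one, Matrix.smul_mul, Matrix.one_mul] at h1
  have h2 := congrFun (congrFun h1 α) β
  rw [Matrix.smul_apply, Matrix.smul_apply, smul_eq_mul, smul_eq_mul] at h2
  rw [mul_comm, h2]

end BMM

open BMM in
/-- The entries of `MD`, the inverse of its determinant are in `BB`, and `JJ` does not vanish at
the associated forms. -/
theorem specBM (h1 : SpecMB) (h2 : SpecK1) : SpecBM := by
  intro m a hm ha
  obtain ⟨c₁, hc⟩ := h2 m a hm ha
  have hne : c₁ ^ Fintype.card (BL m a) ≠ 0 := pow_ne_zero _ hc.1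
  have hdet : ∀ F ∈ UU (m + 1) a,
      (MD a (tp F)).det * eval (cc F) (JJ m a) = c₁ ^ Fintype.card (BL m a) := by
    intro F hF
    rw [eval_JJ]
    exact det_of_mul (h1 m a hm ha c₁ hc F hF)
  refine ⟨fun α β => ?_, ?_, ?_⟩
  · refine ⟨1, C c₁ * (BP m a).transpose.adjugate α β, fun F => ?_⟩
    rw [pow_one, eval_JJ, map_mul, eval_C, eval_adj]
    exact adj_of_mul (h1 m a hm ha c₁ hc F.1 F.2) α β
  · refine ⟨0, C (c₁ ^ Fintype.card (BL m a))⁻¹ * JJ m a, fun F => ?_⟩
    have h3 := hdet F.1 F.2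
    have h4 : (MD a (tp F.1)).det ≠ 0 := by
      intro h5
      rw [h5, zero_mul] at h3
      exact hne h3.symm
    rw [pow_zero, mul_one, map_mul, eval_C]
    rw [inv_eq_iff_eq_inv, mul_inv, inv_inv, ← h3]
    have h6 : eval (cc F.1) (JJ m a) ≠ 0 := by
      intro h5
      rw [h5, mul_zero] at h3
      exact hne h3.symm
    rw [mul_assoc, mul_inv_cancel₀ h6, mul_one]
  · intro F hF h5
    have h3 := hdet F hF
    rw [h5, mul_zero] at h3
    exact hne h3.symm

end Pool.Agent.Lib.MP_4fcc12_ag.AF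
end

section
/-!
# Module CH: one chain is a basis
-/
open MvPolynomial

namespace Pool.Agent.Lib.MP_4fcc12_ag.AF

open Pool.Agent.Lib.MP_4fcc12_ag.Quot

namespace CHM

lemma card_lt {m : ℕ} (k : Fin (m + 1)) :
    (Finset.univ.filter fun j : Fin m => (j : ℕ) < (k : ℕ)).card = k := by
  have h := Fin.card_filter_val_lt (n := m) (m := (k : ℕ))
  rw [h]
  omega

lemma prod_eq {m : ℕ} (k : Fin (m + 1)) :
    (∏ j : Fin m, (Polynomial.X - Polynomial.C (if (j : ℕ) < (k : ℕ) then (1 : ℂ) else 0))) =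
      (Polynomial.X - Polynomial.C 1) ^ (k : ℕ) * Polynomial.X ^ (m - (k : ℕ)) := by
  have h1 : ∀ j : Fin m, (Polynomial.X - Polynomial.C (if (j : ℕ) < (k : ℕ) then (1 : ℂ) else 0)) =
      if (j : ℕ) < (k : ℕ) then (Polynomial.X - Polynomial.C (1 : ℂ)) else Polynomial.X := by
    intro j
    split_ifs <;> simp
  rw [Finset.prod_congr rfl fun j _ => h1 j, Finset.prod_ite, Finset.prod_const, Finset.prod_const,
    card_lt]
  congr 2
  have h2 := Finset.card_filter_add_card_filter_not (s := (Finset.univ : Finset (Fin m)))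
    (fun j : Fin m => (j : ℕ) < (k : ℕ))
  rw [card_lt, Finset.card_univ, Fintype.card_fin] at h2
  omega

end CHM

theorem specCH : SpecCH := by
  intro m
  refine ⟨fun _ => 0, fun _ => 1, fun hdet => ?_⟩
  obtain ⟨v, hv0, hv⟩ := Matrix.exists_mulVec_eq_zero_iff.2 hdet
  -- the polynomial identity
  have h1 : ∑ k : Fin (m + 1), Polynomial.C (v k) *
      ((Polynomial.X - Polynomial.C (1 : ℂ)) ^ (k : ℕ) * Polynomial.X ^ (m - (k : ℕ))) = 0 := by
    ext i
    rw [Polynomial.finsetSum_coeff, Polynomial.coeff_zero]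
    by_cases hi : i < m + 1
    · have h2 := congrFun hv ⟨i, hi⟩
      rw [Matrix.mulVec, dotProduct, Pi.zero_apply] at h2
      rw [← h2]
      apply Finset.sum_congr rfl
      intro k _
      rw [Polynomial.coeff_C_mul, ← CHM.prod_eq, Matrix.of_apply, proot, mul_comm]
    · apply Finset.sum_eq_zero
      intro k _
      rw [Polynomial.coeff_C_mul, Polynomial.coeff_eq_zero_of_natDegree_lt, mul_zero]
      have h3 : ((Polynomial.X - Polynomial.C (1 : ℂ)) ^ (k : ℕ) *
          Polynomial.X ^ (m - (k : ℕ))).natDegree = (k : ℕ) + (m - (k : ℕ)) := by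
        rw [Polynomial.Monic.natDegree_mul ((Polynomial.monic_X_sub_C 1).pow _)
          (Polynomial.monic_X_pow _), Polynomial.Monic.natDegree_pow (Polynomial.monic_X_sub_C 1),
          Polynomial.natDegree_X_sub_C, Polynomial.natDegree_X_pow, mul_one]
      rw [h3]
      have := k.2
      omega
  apply hv0
  -- all coefficients vanish
  have key : ∀ n : ℕ, ∀ k : Fin (m + 1), (k : ℕ) = n → v k = 0 := by
    intro n
    induction n using Nat.strong_induction_on with
    | _ n ih =>
      intro k hk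
      have h4 : (Polynomial.X - Polynomial.C (1 : ℂ)) ^ n * ∑ l ∈ Finset.univ.filter
          (fun l : Fin (m + 1) => n ≤ (l : ℕ)), Polynomial.C (v l) *
          ((Polynomial.X - Polynomial.C (1 : ℂ)) ^ ((l : ℕ) - n) *
            Polynomial.X ^ (m - (l : ℕ))) = 0 := by
        rw [Finset.mul_sum, ← h1, ← Finset.sum_filter_add_sum_filter_not Finset.univ
          (fun l : Fin (m + 1) => n ≤ (l : ℕ)), eq_comm]
        have h5 : ∑ l ∈ Finset.univ.filter (fun l : Fin (m + 1) => ¬ n ≤ (l : ℕ)),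
            Polynomial.C (v l) * ((Polynomial.X - Polynomial.C (1 : ℂ)) ^ (l : ℕ) *
              Polynomial.X ^ (m - (l : ℕ))) = 0 := by
          apply Finset.sum_eq_zero
          intro l hl
          rw [Finset.mem_filter] at hl
          rw [ih l (by omega) l rfl, Polynomial.C_0, zero_mul]
        rw [h5, add_zero]
        apply Finset.sum_congr rfl
        intro l hl
        rw [Finset.mem_filter] at hl
        have h6 : (l : ℕ) = n + ((l : ℕ) - n) := by omega
        conv_lhs => rw [h6]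
        rw [pow_add, ← h6]
        ring
      have h7 := (mul_eq_zero.1 h4).resolve_left
        (pow_ne_zero _ (Polynomial.X_sub_C_ne_zero 1))
      have h8 := congrArg (Polynomial.eval 1) h7
      rw [Polynomial.eval_finsetSum, Polynomial.eval_zero, Finset.sum_eq_single k] at h8
      · simpa [hk] using h8
      · intro l hl hlk
        rw [Finset.mem_filter] at hl
        have h9 : (l : ℕ) - n ≠ 0 := by
          have : (l : ℕ) ≠ (k : ℕ) := fun h => hlk (Fin.ext h)
          omega
        simp [h9]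
      · intro h10
        exact absurd (Finset.mem_filter.2 ⟨Finset.mem_univ _, by omega⟩) h10
  funext k
  exact key k k rfl

end Pool.Agent.Lib.MP_4fcc12_ag.AF
end

section
open MvPolynomial

namespace Pool.Agent.Lib.MP_4fcc12_ag.AF

open Pool.Agent.Lib.MP_4fcc12_ag.Quot

namespace CHIM

/-- the value of a form is a linear polynomial in its coefficients -/
lemma eval_form {n a : ℕ} (F : Fin n → Form n a) (w : Fin n → ℂ) (i : Fin n) :
    eval (ctL n a F) (∑ α : Mon n a, C (∏ j, w j ^ α.1 j) * X (i, α) :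
      MvPolynomial (Fin n × Mon n a) ℂ) = eval w (tp F i) := by
  have h1 : tp F i = frm (cfL n a (F i)) := (frm_cfL (F i)).symm
  rw [h1, frm, map_sum, map_sum]
  apply Finset.sum_congr rfl
  intro α _
  rw [map_mul, eval_C, eval_X, eval_monomial, Finsupp.prod_fintype _ _ (fun _ => pow_zero _),
    mul_comm]
  rfl

end CHIM

theorem specCHI (h : SpecCOEF) : SpecCHI := by
  intro m a hm ha α β
  obtain ⟨ι, hι, c, x, y, hc⟩ := h m a hm ha α (eBB m a β)
  refine ⟨∑ s, C (c s) * (Matrix.of fun i k : Fin (m + 1) => ∑ γ : Mon (m + 1) a,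
    C (∏ j, (proot (fun j => if (j : ℕ) < (k : ℕ) then y s j else x s j) j) ^ γ.1 j) *
      X (i, γ)).det, fun F => ?_⟩
  have h1 : MD a (tp F) α β = coeff (eLR α (eBB m a β)) (DX (tp F)) := rfl
  rw [h1, hc (tp F) (fun i => (mem_homogeneousSubmodule a _).1 (F i).2), map_sum]
  apply Finset.sum_congr rfl
  intro s _
  rw [map_mul, eval_C, RingHom.map_det]
  congr 2
  refine Matrix.ext fun i k => ?_
  rw [RingHom.mapMatrix_apply, Matrix.map_apply, Matrix.of_apply, Matrix.of_apply]
  exact CHIM.eval_form F _ i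

end Pool.Agent.Lib.MP_4fcc12_ag.AF
end

section
/-!
# Associated forms: module COEF, the coefficients of the Dixon kernel as combinations of values
-/
open MvPolynomial

namespace Pool.Agent.Lib.MP_4fcc12_ag.AF

open Pool.Agent.Lib.MP_4fcc12_ag.Quot

namespace COEFM

/-- one-dimensional interpolation -/
lemma one {n : ℕ} (t : Fin n → ℂ) (ht : Function.Injective t) (γ : Fin n) :
    ∃ c : Fin n → ℂ, ∀ δ : ℕ, δ < n → ∑ i, c i * t i ^ δ = if δ = (γ : ℕ) then 1 else 0 := by
  have hdet : IsUnit (Matrix.vandermonde t).det := by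
    rw [isUnit_iff_ne_zero]
    exact Matrix.det_vandermonde_ne_zero_iff.2 ht
  refine ⟨fun i => (Matrix.vandermonde t)⁻¹ γ i, fun δ hδ => ?_⟩
  have h1 := congrFun (congrFun (Matrix.nonsing_inv_mul (Matrix.vandermonde t) hdet) γ) ⟨δ, hδ⟩
  rw [Matrix.mul_apply, Matrix.one_apply] at h1
  simp only [Matrix.vandermonde_apply] at h1
  rw [h1]
  by_cases h : δ = (γ : ℕ)
  · rw [if_pos h, if_pos (Fin.ext h.symm)]
  · rw [if_neg h, if_neg (fun h2 => h (by rw [h2]))]

/-- interpolation in several variables -/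
lemma multi {σ : Type*} [Fintype σ] [DecidableEq σ] (n : σ → ℕ) (t : ∀ v, Fin (n v) → ℂ)
    (ht : ∀ v, Function.Injective (t v)) (γ : ∀ v, Fin (n v)) :
    ∃ c : (∀ v, Fin (n v)) → ℂ, ∀ Φ : MvPolynomial σ ℂ, (∀ v, degreeOf v Φ < n v) →
      coeff (Finsupp.equivFunOnFinite.symm fun v => (γ v : ℕ)) Φ =
        ∑ s, c s * eval (fun v => t v (s v)) Φ := by
  choose c hc using fun v => one (t v) (ht v) (γ v)
  refine ⟨fun s => ∏ v, c v (s v), fun Φ hΦ => ?_⟩
  have h1 : ∀ s : ∀ v, Fin (n v), (∏ v, c v (s v)) * eval (fun v => t v (s v)) Φ =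
      ∑ δ ∈ Φ.support, coeff δ Φ * ∏ v, (c v (s v) * t v (s v) ^ δ v) := by
    intro s
    rw [eval_eq', Finset.mul_sum]
    apply Finset.sum_congr rfl
    intro δ _
    rw [Finset.prod_mul_distrib]
    ring
  rw [Finset.sum_congr rfl fun s _ => h1 s, Finset.sum_comm]
  have h2 : ∀ δ ∈ Φ.support, ∑ s : ∀ v, Fin (n v), coeff δ Φ * ∏ v, (c v (s v) * t v (s v) ^ δ v) =
      if δ = (Finsupp.equivFunOnFinite.symm fun v => (γ v : ℕ)) then coeff δ Φ else 0 := by
    intro δ hδ
    rw [← Finset.mul_sum]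
    have h3 : ∑ s : ∀ v, Fin (n v), ∏ v, (c v (s v) * t v (s v) ^ δ v) =
        ∏ v, ∑ i, (c v i * t v i ^ δ v) := by
      rw [Finset.prod_univ_sum]
      apply Finset.sum_congr
      · ext s; simp
      · intros; rfl
    rw [h3]
    have h4 : ∀ v, δ v < n v := by
      intro v
      refine lt_of_le_of_lt ?_ (hΦ v)
      exact monomial_le_degreeOf v hδ
    rw [Finset.prod_congr rfl fun v _ => hc v (δ v) (h4 v)]
    by_cases h : δ = (Finsupp.equivFunOnFinite.symm fun v => (γ v : ℕ))
    · rw [if_pos h, Finset.prod_eq_one, mul_one]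
      intro v _
      rw [if_pos]
      rw [h]; rfl
    · rw [if_neg h]
      have h5 : ∃ v, δ v ≠ (γ v : ℕ) := by
        by_contra h6
        push Not at h6
        apply h
        ext v
        rw [h6 v]; rfl
      obtain ⟨v, hv⟩ := h5
      rw [Finset.prod_eq_zero (Finset.mem_univ v) (if_neg hv), mul_zero]
  rw [Finset.sum_congr rfl h2, Finset.sum_ite_eq']
  split_ifs with h
  · rfl
  · exact notMem_support_iff.1 h

/-- ring homomorphisms and `proot` -/
lemma map_proot {m : ℕ} {R T : Type*} [CommRing R] [CommRing T] (φ : R →+* T) (y : Fin m → R)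
    (i : Fin (m + 1)) : φ (proot y i) = proot (fun j => φ (y j)) i := by
  rw [proot, proot, ← Polynomial.coeff_map, Polynomial.map_prod]
  simp

/-- the value of `FX` -/
lemma eval_FX {m : ℕ} (f : MvPolynomial (Fin (m + 1)) ℂ) (k : ℕ) (x y : Fin m → ℂ) :
    eval (Sum.elim x y) (FX f k) = eval (proot fun j => if (j : ℕ) < k then y j else x j) f := by
  have h1 : (eval (Sum.elim x y)).comp ((aeval (proot (chain m k)) :
      MvPolynomial (Fin (m + 1)) ℂ →ₐ[ℂ] S m) : MvPolynomial (Fin (m + 1)) ℂ →+* S m) =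
      eval (proot fun j => if (j : ℕ) < k then y j else x j) := by
    apply MvPolynomial.ringHom_ext
    · intro r
      simp
    · intro i
      simp only [RingHom.comp_apply, RingHom.coe_coe, aeval_X, eval_X]
      rw [map_proot]
      congr 1
      funext j
      unfold chain
      split_ifs <;> simp
  exact congrArg (fun g => g f) h1

lemma isDix_DX (h2 : SpecDD) (h3 : SpecDIX) {m a : ℕ} (f : Fin (m + 1) → MvPolynomial (Fin (m + 1)) ℂ)
    (hf : ∀ i, (f i).IsHomogeneous a) : IsDix f (DX f) := by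
  obtain ⟨δ, hδ, _⟩ := h2 m a f hf
  have h : ∃ Φ, IsDix f Φ := ⟨_, (h3 m f δ hδ).1⟩
  rw [DX, dif_pos h]
  exact h.choose_spec

/-- evaluation of the kernel -/
lemma eval_isDix {m : ℕ} {f : Fin (m + 1) → MvPolynomial (Fin (m + 1)) ℂ} {Φ : S m} (h : IsDix f Φ)
    (x y : Fin m → ℂ) : (∏ j, (x j - y j)) * eval (Sum.elim x y) Φ =
      (Matrix.of fun i k : Fin (m + 1) =>
        eval (proot fun j => if (j : ℕ) < (k : ℕ) then y j else x j) (f i)).det := by
  have h1 := congrArg (eval (Sum.elim x y)) h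
  rw [map_mul, map_prod, RingHom.map_det] at h1
  simp only [map_sub, eval_X, Sum.elim_inl, Sum.elim_inr] at h1
  rw [h1]
  congr 1
  refine Matrix.ext fun i k => ?_
  simp only [RingHom.mapMatrix_apply, Matrix.map_apply, Matrix.of_apply]
  exact eval_FX _ _ _ _

end COEFM

open COEFM in
theorem specCOEF (h1 : SpecDEG) (h2 : SpecDD) (h3 : SpecDIX) : SpecCOEF := by
  intro m a hm ha α β
  obtain ⟨c, hc⟩ := multi (σ := Fin m ⊕ Fin m)
    (Sum.elim (fun j : Fin m => ((j : ℕ) + 1) * a) (fun j : Fin m => (m - (j : ℕ)) * a))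
    (fun v => match v with
      | Sum.inl _ => fun i => 2 * ((i : ℕ) : ℂ)
      | Sum.inr _ => fun i => 2 * ((i : ℕ) : ℂ) + 1)
    (by
      rintro (v | v)
      · intro i j hij
        have h : (2 * ((i : ℕ) : ℂ)) = 2 * ((j : ℕ) : ℂ) := hij
        have h5 : ((i : ℕ) : ℂ) = ((j : ℕ) : ℂ) := mul_left_cancel₀ two_ne_zero h
        exact Fin.ext (by exact_mod_cast h5)
      · intro i j hij
        have h : (2 * ((i : ℕ) : ℂ) + 1) = 2 * ((j : ℕ) : ℂ) + 1 := hij
        have h5 : ((i : ℕ) : ℂ) = ((j : ℕ) : ℂ) := mul_left_cancel₀ two_ne_zero (add_right_cancel h)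
        exact Fin.ext (by exact_mod_cast h5))
    (fun v => match v with
      | Sum.inl j => α j
      | Sum.inr j => β j)
  set x : (∀ v : Fin m ⊕ Fin m, Fin (Sum.elim (fun j : Fin m => ((j : ℕ) + 1) * a)
      (fun j : Fin m => (m - (j : ℕ)) * a) v)) → Fin m → ℂ := fun s j =>
      2 * ((s (Sum.inl j) : ℕ) : ℂ) with hx
  set y : (∀ v : Fin m ⊕ Fin m, Fin (Sum.elim (fun j : Fin m => ((j : ℕ) + 1) * a)
      (fun j : Fin m => (m - (j : ℕ)) * a) v)) → Fin m → ℂ := fun s j =>
      2 * ((s (Sum.inr j) : ℕ) : ℂ) + 1 with hy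
  have hxy : ∀ s, (∏ j, (x s j - y s j)) ≠ 0 := by
    intro s
    rw [Finset.prod_ne_zero_iff]
    intro j _ h
    have h5 : (2 * ((s (Sum.inl j) : ℕ) : ℂ)) = 2 * ((s (Sum.inr j) : ℕ) : ℂ) + 1 := by
      have := sub_eq_zero.1 h
      exact this
    have h6 : 2 * (s (Sum.inl j) : ℕ) = 2 * (s (Sum.inr j) : ℕ) + 1 := by exact_mod_cast h5
    omega
  refine ⟨_, inferInstance, fun s => c s / ∏ j, (x s j - y s j), x, y, fun f hf => ?_⟩
  have hD := isDix_DX h2 h3 f hf
  have hdeg := h1 m a (by omega) f hf _ hD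
  have h4 := hc (DX f) (by
    rintro (j | j)
    · refine lt_of_le_of_lt (hdeg j).1 ?_
      have : 0 < ((j : ℕ) + 1) * a := by positivity
      show ((j : ℕ) + 1) * a - 1 < ((j : ℕ) + 1) * a
      omega
    · refine lt_of_le_of_lt (hdeg j).2 ?_
      have h7 : 0 < m - (j : ℕ) := by omega
      have : 0 < (m - (j : ℕ)) * a := by positivity
      show (m - (j : ℕ)) * a - 1 < (m - (j : ℕ)) * a
      omega)
  have h5 : (eLR α β : Fin m ⊕ Fin m →₀ ℕ) = Finsupp.equivFunOnFinite.symm
      (fun v : Fin m ⊕ Fin m => ((match v with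
        | Sum.inl j => α j
        | Sum.inr j => β j :
        Fin (Sum.elim (fun j : Fin m => ((j : ℕ) + 1) * a) (fun j : Fin m => (m - (j : ℕ)) * a) v)) : ℕ)) := by
    ext v
    rcases v with j | j <;> rfl
  rw [h5, h4]
  apply Finset.sum_congr rfl
  intro s _
  have h6 : (fun v : Fin m ⊕ Fin m => (match v with
      | Sum.inl _ => fun i => 2 * ((i : ℕ) : ℂ)
      | Sum.inr _ => fun i => 2 * ((i : ℕ) : ℂ) + 1 :
        Fin (Sum.elim (fun j : Fin m => ((j : ℕ) + 1) * a) (fun j : Fin m => (m - (j : ℕ)) * a) v) → ℂ)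
      (s v)) = Sum.elim (x s) (y s) := by
    funext v
    rcases v with j | j <;> rfl
  rw [h6, ← eval_isDix hD]
  have h7 := hxy s
  field_simp

end Pool.Agent.Lib.MP_4fcc12_ag.AF
end

section
/-!
# Associated forms, module DD: divided differences along the chain (helper25)
-/
set_option autoImplicit false

open MvPolynomial

namespace Pool.Agent.Lib.MP_4fcc12_ag.AF

namespace DDM

theorem proot_map {R R' : Type*} [CommRing R] [CommRing R'] (g : R →+* R') {m : ℕ}
    (w : Fin m → R) (i : Fin (m + 1)) : g (proot w i) = proot (fun j => g (w j)) i := by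
  unfold proot
  rw [← Polynomial.coeff_map, Polynomial.map_prod]
  simp only [Polynomial.map_sub, Polynomial.map_X, Polynomial.map_C]

theorem dvd {m : ℕ} (f : MvPolynomial (Fin (m + 1)) ℂ) (l : Fin m) :
    (X (Sum.inr l) - X (Sum.inl l) : S m) ∣ FX f (l + 1) - FX f l := by
  obtain ⟨I, hI⟩ : ∃ I : Ideal (S m), I = Ideal.span {X (Sum.inr l) - X (Sum.inl l)} := ⟨_, rfl⟩
  have h : ∀ k, Ideal.Quotient.mkₐ ℂ I (FX f k) =
      aeval (proot (fun j => Ideal.Quotient.mkₐ ℂ I (chain m k j))) f := by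
    intro k
    unfold FX
    rw [comp_aeval_apply]
    congr 2
    funext i
    exact proot_map (Ideal.Quotient.mkₐ ℂ I : S m →+* S m ⧸ I) _ _
  have hc : ∀ j, Ideal.Quotient.mkₐ ℂ I (chain m (l + 1) j) =
      Ideal.Quotient.mkₐ ℂ I (chain m l j) := by
    intro j
    unfold chain
    rcases lt_trichotomy (j : ℕ) l with h1 | h1 | h1
    · rw [if_pos (by omega), if_pos h1]
    · obtain rfl : j = l := Fin.ext h1
      rw [if_pos (by omega), if_neg (by omega), Ideal.Quotient.mkₐ_eq_mk, Ideal.Quotient.eq, hI]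
      exact Ideal.subset_span rfl
    · rw [if_neg (by omega), if_neg (by omega)]
  rw [← Ideal.mem_span_singleton, ← hI, ← Ideal.Quotient.eq, ← Ideal.Quotient.mkₐ_eq_mk ℂ, h, h]
  simp only [hc]

theorem one_le {m : ℕ} (l : Fin m) :
    1 ≤ degreeOf (Sum.inr l) (X (Sum.inr l) - X (Sum.inl l) : S m) := by
  have h1 : (Finsupp.single (Sum.inr l : Fin m ⊕ Fin m) 1) ∈
      (X (Sum.inr l) - X (Sum.inl l) : S m).support := by
    rw [mem_support_iff, coeff_sub, coeff_X', coeff_X', if_pos rfl, if_neg, sub_zero]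
    · exact one_ne_zero
    · intro h
      have h2 := Finsupp.single_left_injective one_ne_zero h
      simp at h2
  have h2 := monomial_le_degreeOf (Sum.inr l) h1
  rwa [Finsupp.single_eq_same] at h2

end DDM

open DDM in
theorem specDD (h : SpecDEGX) : SpecDD := by
  intro m a f hf
  choose δ hδ using fun (l : Fin m) i => dvd (f i) l
  refine ⟨δ, fun l i => (hδ l i).symm, fun l i => ?_⟩
  by_cases h0 : δ l i = 0
  · rw [h0]
    refine ⟨?_, fun _ _ => ?_, fun _ _ => ?_⟩ <;> rw [degreeOf_zero]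
    · exact Nat.zero_le _
    · exact Nat.zero_le _
  have hd : (X (Sum.inr l) - X (Sum.inl l) : S m) ≠ 0 := by
    intro h1
    have h2 := one_le l
    rw [h1, degreeOf_zero] at h2
    omega
  have key : ∀ v, degreeOf v (X (Sum.inr l) - X (Sum.inl l) : S m) + degreeOf v (δ l i) ≤
      max (degreeOf v (FX (f i) (l + 1))) (degreeOf v (FX (f i) l)) := by
    intro v
    rw [← degreeOf_mul_eq hd h0, ← hδ l i]
    exact degreeOf_sub_le _ _ _
  refine ⟨?_, fun j _ => ?_, fun j hj => ?_⟩
  · have h1 := key (Sum.inr l)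
    have h2 := one_le l
    have h3 := (h m a (f i) (hf i) (l + 1) l).2.1
    have h4 := (h m a (f i) (hf i) l l).2.1
    omega
  · have h1 := key (Sum.inr j)
    have h3 := (h m a (f i) (hf i) (l + 1) j).2.1
    have h4 := (h m a (f i) (hf i) l j).2.1
    omega
  · have h1 := key (Sum.inr j)
    have hj' : (l : ℕ) < j := hj
    have h3 := (h m a (f i) (hf i) (l + 1) j).2.2.2 hj'
    have h4 := (h m a (f i) (hf i) l j).2.2.2 hj'.le
    omega

end Pool.Agent.Lib.MP_4fcc12_ag.AF
end

section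
/-!
# Associated forms, module DEG: degrees of the Dixon kernel (helper25)
-/
set_option autoImplicit false

open MvPolynomial

namespace Pool.Agent.Lib.MP_4fcc12_ag.AF

namespace DEGM

theorem one_le {τ : Type*} {a b : τ} (hab : a ≠ b) :
    1 ≤ degreeOf a (X a - X b : MvPolynomial τ ℂ) ∧
      1 ≤ degreeOf b (X a - X b : MvPolynomial τ ℂ) := by
  classical
  constructor
  · have h1 : (Finsupp.single a 1) ∈ (X a - X b : MvPolynomial τ ℂ).support := by
      rw [mem_support_iff, coeff_sub, coeff_X', coeff_X', if_pos rfl, if_neg, sub_zero]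
      · exact one_ne_zero
      · intro h
        exact hab (Finsupp.single_left_injective one_ne_zero h).symm
    have h2 := monomial_le_degreeOf a h1
    rwa [Finsupp.single_eq_same] at h2
  · have h1 : (Finsupp.single b 1) ∈ (X a - X b : MvPolynomial τ ℂ).support := by
      rw [mem_support_iff, coeff_sub, coeff_X', coeff_X', if_neg, if_pos rfl, zero_sub,
        neg_ne_zero]
      · exact one_ne_zero
      · intro h
        exact hab (Finsupp.single_left_injective one_ne_zero h)
    have h2 := monomial_le_degreeOf b h1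
    rwa [Finsupp.single_eq_same] at h2

/-- the degree of a determinant -/
theorem degreeOf_det_le {n : ℕ} {τ : Type*} (v : τ)
    (M : Matrix (Fin n) (Fin n) (MvPolynomial τ ℂ)) {b : Fin n → ℕ}
    (hb : ∀ i k, degreeOf v (M i k) ≤ b k) : degreeOf v M.det ≤ ∑ k, b k := by
  rw [Matrix.det_apply]
  refine (degreeOf_sum_le _ _ _).trans (Finset.sup_le fun σ _ => ?_)
  have h1 : ∀ (u : ℤˣ) (p : MvPolynomial τ ℂ), degreeOf v (u • p) ≤ degreeOf v p := by
    intro u p
    rcases Int.units_eq_one_or u with h | h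
    · rw [h, one_smul]
    · rw [h, Units.neg_smul, one_smul, degreeOf_neg]
  refine (h1 _ _).trans ((degreeOf_prod_le _ _ _).trans ?_)
  exact Finset.sum_le_sum fun k _ => hb _ _

theorem sum_le (m a j : ℕ) (hj : j < m) :
    ∑ k : Fin (m + 1), (if j < (k : ℕ) then 0 else a) = (j + 1) * a := by
  rw [Fin.sum_univ_eq_sum_range (fun k => if j < k then 0 else a) (m + 1), Finset.sum_ite,
    Finset.sum_const_zero, zero_add, Finset.sum_const, smul_eq_mul]
  congr 1
  have h1 : (Finset.range (m + 1)).filter (fun k => ¬ j < k) = Finset.range (j + 1) := by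
    ext k
    rw [Finset.mem_filter, Finset.mem_range, Finset.mem_range]
    omega
  rw [h1, Finset.card_range]

theorem sum_ge (m a j : ℕ) (hj : j < m) :
    ∑ k : Fin (m + 1), (if j < (k : ℕ) then a else 0) = (m - j) * a := by
  rw [Fin.sum_univ_eq_sum_range (fun k => if j < k then a else 0) (m + 1), Finset.sum_ite,
    Finset.sum_const_zero, add_zero, Finset.sum_const, smul_eq_mul]
  congr 1
  have h1 : (Finset.range (m + 1)).filter (fun k => j < k) = Finset.Ico (j + 1) (m + 1) := by
    ext k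
    rw [Finset.mem_filter, Finset.mem_range, Finset.mem_Ico]
    omega
  rw [h1, Nat.card_Ico]
  omega

end DEGM

open DEGM in
theorem specDEG (h : SpecDEGX) : SpecDEG := by
  intro m a ha f hf Φ hΦ j
  by_cases h0 : Φ = 0
  · rw [h0]
    simp only [degreeOf_zero]
    exact ⟨Nat.zero_le _, Nat.zero_le _⟩
  have hne : ∀ l : Fin m, (X (Sum.inl l) - X (Sum.inr l) : S m) ≠ 0 := by
    intro l h1
    have h2 := (one_le (a := (Sum.inl l : Fin m ⊕ Fin m)) (b := Sum.inr l) (by simp)).1
    rw [h1, degreeOf_zero] at h2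
    omega
  have hprod : (∏ l : Fin m, (X (Sum.inl l) - X (Sum.inr l) : S m)) ≠ 0 :=
    Finset.prod_ne_zero_iff.2 fun l _ => hne l
  have key : ∀ v, degreeOf v (X (Sum.inl j) - X (Sum.inr j) : S m) + degreeOf v Φ ≤
      degreeOf v (Matrix.of fun i k : Fin (m + 1) => FX (f i) k).det := by
    intro v
    rw [← hΦ, degreeOf_mul_eq hprod h0, degreeOf_prod_eq _ _ (fun l _ => hne l)]
    exact Nat.add_le_add_right (Finset.single_le_sum
      (f := fun l => degreeOf v (X (Sum.inl l) - X (Sum.inr l) : S m))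
      (fun _ _ => Nat.zero_le _) (Finset.mem_univ j)) _
  have h1 := one_le (a := (Sum.inl j : Fin m ⊕ Fin m)) (b := Sum.inr j) (by simp)
  constructor
  · have h2 := key (Sum.inl j)
    have h3 := degreeOf_det_le (Sum.inl j) (Matrix.of fun i k : Fin (m + 1) => FX (f i) k)
      (b := fun k => if (j : ℕ) < (k : ℕ) then 0 else a) (fun i k => by
        rw [Matrix.of_apply]
        split_ifs with h4
        · exact ((h m a (f i) (hf i) k j).2.2.1 h4).le
        · exact (h m a (f i) (hf i) k j).1)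
    rw [sum_le m a j j.2] at h3
    omega
  · have h2 := key (Sum.inr j)
    have h3 := degreeOf_det_le (Sum.inr j) (Matrix.of fun i k : Fin (m + 1) => FX (f i) k)
      (b := fun k => if (j : ℕ) < (k : ℕ) then a else 0) (fun i k => by
        rw [Matrix.of_apply]
        split_ifs with h4
        · exact (h m a (f i) (hf i) k j).2.1
        · exact ((h m a (f i) (hf i) k j).2.2.2 (not_lt.1 h4)).le)
    rw [sum_ge m a j j.2] at h3
    omega

end Pool.Agent.Lib.MP_4fcc12_ag.AF
end

section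
/-!
# Associated forms, module DEGX: degrees of `FX` (helper25)
-/
set_option autoImplicit false

open MvPolynomial

namespace Pool.Agent.Lib.MP_4fcc12_ag.AF

namespace DEGXM

/-- the degree of a form in elements of bounded degree -/
theorem degreeOf_aeval_le {σ τ : Type*} [Fintype σ] (v : τ) {y : σ → MvPolynomial τ ℂ} {d : ℕ}
    (hy : ∀ i, degreeOf v (y i) ≤ d) {f : MvPolynomial σ ℂ} {a : ℕ} (hf : f.IsHomogeneous a) :
    degreeOf v (aeval y f) ≤ a * d := by
  rw [aeval_def, eval₂_eq']
  refine (degreeOf_sum_le _ _ _).trans (Finset.sup_le fun γ hγ => ?_)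
  refine (degreeOf_mul_le _ _ _).trans ?_
  rw [algebraMap_eq, degreeOf_C, zero_add]
  refine (degreeOf_prod_le _ _ _).trans ?_
  have h1 : ∑ i, γ i = a := by
    have h2 := hf (mem_support_iff.1 hγ)
    rw [Finsupp.weight_apply, Finsupp.sum_fintype _ _ (fun i => by simp)] at h2
    simpa using h2
  calc ∑ i, degreeOf v (y i ^ γ i) ≤ ∑ i, γ i * d := Finset.sum_le_sum fun i _ =>
        (degreeOf_pow_le _ _ _).trans (Nat.mul_le_mul_left _ (hy i))
    _ = a * d := by rw [← Finset.sum_mul, h1]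

/-- the degrees of the coefficients of a product of linear polynomials -/
theorem degreeOf_coeff_le {ι τ : Type*} (v : τ) (w : ι → MvPolynomial τ ℂ) (s : Finset ι)
    (i : ℕ) :
    degreeOf v ((∏ j ∈ s, (Polynomial.X - Polynomial.C (w j))).coeff i) ≤
      ∑ j ∈ s, degreeOf v (w j) := by
  classical
  induction s using Finset.induction_on generalizing i with
  | empty =>
    rw [Finset.prod_empty, Finset.sum_empty, Polynomial.coeff_one]
    split_ifs
    · rw [← C_1, degreeOf_C]
    · rw [degreeOf_zero]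
  | insert j s hj ih =>
    rw [Finset.prod_insert hj, Finset.sum_insert hj, sub_mul, Polynomial.coeff_sub,
      Polynomial.coeff_C_mul]
    refine (degreeOf_sub_le _ _ _).trans (max_le ?_ ?_)
    · rcases i with _ | i
      · rw [Polynomial.coeff_X_mul_zero, degreeOf_zero]
        exact Nat.zero_le _
      · rw [Polynomial.coeff_X_mul]
        exact (ih i).trans (Nat.le_add_left _ _)
    · exact (degreeOf_mul_le _ _ _).trans (Nat.add_le_add_left (ih i) _)

theorem sum_chain_inl (m k : ℕ) (j : Fin m) :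
    ∑ l, degreeOf (Sum.inl j) (chain m k l) = if (j : ℕ) < k then 0 else 1 := by
  classical
  rw [Finset.sum_eq_single j]
  · unfold chain
    split_ifs with h
    · rw [degreeOf_X, if_neg (by simp)]
    · rw [degreeOf_X, if_pos rfl]
  · intro l _ hl
    unfold chain
    split_ifs with h
    · rw [degreeOf_X, if_neg (by simp)]
    · rw [degreeOf_X, if_neg (by simpa using hl.symm)]
  · intro h
    exact absurd (Finset.mem_univ _) h

theorem sum_chain_inr (m k : ℕ) (j : Fin m) :
    ∑ l, degreeOf (Sum.inr j) (chain m k l) = if (j : ℕ) < k then 1 else 0 := by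
  classical
  rw [Finset.sum_eq_single j]
  · unfold chain
    split_ifs with h
    · rw [degreeOf_X, if_pos rfl]
    · rw [degreeOf_X, if_neg (by simp)]
  · intro l _ hl
    unfold chain
    split_ifs with h
    · rw [degreeOf_X, if_neg (by simpa using hl.symm)]
    · rw [degreeOf_X, if_neg (by simp)]
  · intro h
    exact absurd (Finset.mem_univ _) h

end DEGXM

open DEGXM in
theorem specDEGX : SpecDEGX := by
  intro m a f hf k j
  have hl : ∀ i, degreeOf (Sum.inl j) (proot (chain m k) i) ≤ if (j : ℕ) < k then 0 else 1 :=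
    fun i => (degreeOf_coeff_le _ _ _ _).trans (sum_chain_inl m k j).le
  have hr : ∀ i, degreeOf (Sum.inr j) (proot (chain m k) i) ≤ if (j : ℕ) < k then 1 else 0 :=
    fun i => (degreeOf_coeff_le _ _ _ _).trans (sum_chain_inr m k j).le
  have h1 := degreeOf_aeval_le _ hl hf
  have h2 := degreeOf_aeval_le _ hr hf
  refine ⟨h1.trans ?_, h2.trans ?_, fun h => ?_, fun h => ?_⟩
  · split_ifs <;> simp
  · split_ifs <;> simp
  · rw [if_pos h, mul_zero, Nat.le_zero] at h1
    exact h1
  · rw [if_neg (by omega), mul_zero, Nat.le_zero] at h2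
    exact h2

end Pool.Agent.Lib.MP_4fcc12_ag.AF
end

section
/-!
# Associated forms, module DIX: the Dixon kernel and divided differences
-/
set_option autoImplicit false

open MvPolynomial

namespace Pool.Agent.Lib.MP_4fcc12_ag.AF

namespace DIXM

variable {m : ℕ}

/-- the cofactors of the first column -/
noncomputable def cof (δ : Fin m → Fin (m + 1) → S m) (i : Fin (m + 1)) : S m :=
  (-1) ^ (i : ℕ) * (Matrix.of fun p q : Fin m => δ q (i.succAbove p)).det

theorem dmat_zero (c : Fin (m + 1) → S m) (δ : Fin m → Fin (m + 1) → S m) (i : Fin (m + 1)) :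
    dmat c δ i 0 = c i := rfl

theorem dmat_succ (c : Fin (m + 1) → S m) (δ : Fin m → Fin (m + 1) → S m) (i : Fin (m + 1))
    (l : Fin m) : dmat c δ i l.succ = δ l i := rfl

theorem det_dmat (c : Fin (m + 1) → S m) (δ : Fin m → Fin (m + 1) → S m) :
    (dmat c δ).det = ∑ i, c i * cof δ i := by
  rw [Matrix.det_succ_column_zero]
  refine Finset.sum_congr rfl fun i _ => ?_
  rw [dmat_zero, cof]
  have h : (dmat c δ).submatrix i.succAbove Fin.succ =
      Matrix.of fun p q : Fin m => δ q (i.succAbove p) := rfl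
  rw [h]
  ring

theorem sum_delta (δ : Fin m → Fin (m + 1) → S m) (l : Fin m) :
    ∑ i, δ l i * cof δ i = 0 := by
  rw [← det_dmat]
  exact Matrix.det_zero_of_column_eq (Fin.succ_ne_zero l).symm fun i => rfl

theorem tele (f : MvPolynomial (Fin (m + 1)) ℂ) :
    ∑ l : Fin m, (FX f ((l : ℕ) + 1) - FX f (l : ℕ)) = FX f m - FX f 0 := by
  rw [Fin.sum_univ_eq_sum_range (fun l => FX f (l + 1) - FX f l) m, Finset.sum_range_sub]

theorem prod_ne : (∏ j : Fin m, ((X (Sum.inl j) : S m) - X (Sum.inr j))) ≠ 0 := by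
  rw [Finset.prod_ne_zero_iff]
  intro j _ h
  rw [sub_eq_zero] at h
  have := X_injective (R := ℂ) h
  simp at this

theorem det_chain (f : Fin (m + 1) → MvPolynomial (Fin (m + 1)) ℂ)
    (δ : Fin m → Fin (m + 1) → S m) (h : IsDiff f δ) :
    (Matrix.of fun i k : Fin (m + 1) => FX (f i) k).det =
      (∏ l : Fin m, (X (Sum.inr l) - X (Sum.inl l))) * (dmat (fun i => FX (f i) 0) δ).det := by
  have h1 : (Matrix.of fun i k : Fin (m + 1) => FX (f i) k).det =
      (Matrix.of fun i k : Fin (m + 1) => (Fin.cases (motive := fun _ => S m) 1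
        (fun l => X (Sum.inr l) - X (Sum.inl l)) k) * dmat (fun i => FX (f i) 0) δ i k).det := by
    refine Matrix.det_eq_of_forall_col_eq_smul_add_pred (fun _ => 1) ?_ ?_
    · intro i
      simp only [Matrix.of_apply, Fin.cases_zero, one_mul, dmat_zero, Fin.val_zero]
    · intro i j
      simp only [Matrix.of_apply, Fin.cases_succ, dmat_succ, one_mul, Fin.val_succ,
        Fin.val_castSucc]
      rw [h j i]
      ring
  rw [h1, Matrix.det_mul_row, Fin.prod_univ_succ]
  simp only [Fin.cases_zero, Fin.cases_succ, one_mul]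

theorem prod_neg : (∏ l : Fin m, ((X (Sum.inr l) : S m) - X (Sum.inl l))) =
    (-1) ^ m * ∏ j : Fin m, (X (Sum.inl j) - X (Sum.inr j)) := by
  have h : ∀ l : Fin m, ((X (Sum.inr l) : S m) - X (Sum.inl l)) =
      (-1) * (X (Sum.inl l) - X (Sum.inr l)) := fun l => by ring
  rw [Finset.prod_congr rfl fun l _ => h l, Finset.prod_mul_distrib, Finset.prod_const,
    Finset.card_univ, Fintype.card_fin]

theorem isDix_zero (f : Fin (m + 1) → MvPolynomial (Fin (m + 1)) ℂ)
    (δ : Fin m → Fin (m + 1) → S m) (h : IsDiff f δ) :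
    IsDix f ((-1) ^ m * (dmat (fun i => FX (f i) 0) δ).det) := by
  unfold IsDix
  rw [det_chain f δ h, prod_neg]
  generalize (dmat (fun i => FX (f i) 0) δ).det = D
  generalize (∏ j : Fin m, ((X (Sum.inl j) : S m) - X (Sum.inr j))) = P
  ring

theorem unique (f : Fin (m + 1) → MvPolynomial (Fin (m + 1)) ℂ) {Φ Ψ : S m} (h : IsDix f Φ)
    (h' : IsDix f Ψ) : Φ = Ψ := by
  unfold IsDix at h h'
  exact mul_left_cancel₀ prod_ne (h.trans h'.symm)

theorem det_eq (f : Fin (m + 1) → MvPolynomial (Fin (m + 1)) ℂ)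
    (δ : Fin m → Fin (m + 1) → S m) (h : IsDiff f δ) :
    (dmat (fun i => FX (f i) m) δ).det = (dmat (fun i => FX (f i) 0) δ).det := by
  rw [det_dmat, det_dmat, ← sub_eq_zero, ← Finset.sum_sub_distrib]
  have h3 : ∀ i, FX (f i) m * cof δ i - FX (f i) 0 * cof δ i =
      ∑ l : Fin m, (X (Sum.inr l) - X (Sum.inl l)) * (δ l i * cof δ i) := by
    intro i
    rw [← sub_mul, ← tele, Finset.sum_mul]
    refine Finset.sum_congr rfl fun l _ => ?_
    rw [← h l i, mul_assoc]
  rw [Finset.sum_congr rfl fun i _ => h3 i, Finset.sum_comm]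
  refine Finset.sum_eq_zero fun l _ => ?_
  rw [← Finset.mul_sum, sum_delta, mul_zero]

end DIXM

open DIXM in
theorem specDIX : SpecDIX := by
  intro m f δ h
  refine ⟨isDix_zero f δ h, fun Φ hΦ => ?_⟩
  have h2 := unique f hΦ (isDix_zero f δ h)
  exact ⟨h2, h2.trans (congrArg (fun D => (-1) ^ m * D) (det_eq f δ h).symm)⟩

end Pool.Agent.Lib.MP_4fcc12_ag.AF
end

section
/-!
# Module EQV: equivariance of the associated form
-/
open MvPolynomial

namespace Pool.Agent.Lib.MP_4fcc12_ag.AF

open Pool.Agent.Lib.MP_4fcc12_ag.Quot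

namespace EQVM

variable {n k : ℕ}

/-- the linear form with coefficients `e` -/
noncomputable def lf (e : Fin n → ℂ) : MvPolynomial (Fin n) ℂ := ∑ j, C (e j) * X j

lemma lf_hom (e : Fin n → ℂ) (N : ℕ) : (lf e ^ N).IsHomogeneous N := by
  have h : (lf e).IsHomogeneous 1 := by
    apply IsHomogeneous.sum
    intro j _
    have := (isHomogeneous_C (Fin n) (e j)).mul (isHomogeneous_X ℂ j)
    simpa using this
  simpa using h.pow N

lemma subst_lf (g : Matrix (Fin n) (Fin n) ℂ) (e : Fin n → ℂ) :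
    subst g (lf e) = lf (g.transpose.mulVec e) := by
  simp only [lf, map_sum, map_mul, subst_C, subst_X, Matrix.mulVec, dotProduct,
    Matrix.transpose_apply, Finset.mul_sum, Finset.sum_mul]
  rw [Finset.sum_comm]
  apply Finset.sum_congr rfl
  intro j _
  apply Finset.sum_congr rfl
  intro i _
  ring

lemma coeff_lf_pow (e : Fin n → ℂ) (N : ℕ) (i : Mon n N) :
    coeff i.1 (lf e ^ N) = (Nat.multinomial Finset.univ i.1 : ℂ) * ∏ j, e j ^ (i.1 j) := by
  have h1 : lf e = ∑ j, e j • (X j : MvPolynomial (Fin n) ℂ) := by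
    simp only [lf, smul_eq_C_mul]
  have h2 : i.1.sum (fun _ m => m) = N := i.2
  rw [h1, coeff_linearCombination_X_pow_of_fintype, if_pos h2,
    Finsupp.multinomial_of_support_subset (Finset.subset_univ _), Finsupp.prod_fintype]
  intro j
  rw [pow_zero]

lemma GC_apply {N : ℕ} (c : Mon n N → ℂ) (h : MvPolynomial (Fin n) ℂ) :
    GC c h = ∑ i : Mon n N, (c i / (Nat.multinomial Finset.univ i.1 : ℂ)) * coeff i.1 h := by
  simp only [GC, LinearMap.sum_apply, LinearMap.smul_apply, lcoeff_apply, smul_eq_mul]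

lemma mult_ne (i : Fin n →₀ ℕ) : (Nat.multinomial Finset.univ i : ℂ) ≠ 0 := by
  exact_mod_cast (Nat.multinomial_pos Finset.univ i).ne'

/-- values of a form as values of the functional at powers of linear forms -/
lemma GC_lf_pow {N : ℕ} (c : Mon n N → ℂ) (e : Fin n → ℂ) :
    GC c (lf e ^ N) = eval e (frm c) := by
  rw [GC_apply, frm, map_sum]
  apply Finset.sum_congr rfl
  intro i _
  rw [coeff_lf_pow, eval_monomial, Finsupp.prod_fintype _ _ (fun j => pow_zero _)]
  field_simp [mult_ne i.1]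

lemma cc_eq (F : Fin n → Form n k) : cc F = fun i : Mon n (n * (k - 1)) =>
    (Nat.multinomial Finset.univ i.1 : ℂ) * mu F i.1 := by
  rw [cc, psi, cfL_frmF]

lemma psi_coe (F : Fin n → Form n k) : (psi F : MvPolynomial (Fin n) ℂ) = frm (cc F) := by
  rw [cc_eq]
  rfl

lemma jac_trT (g : Matrix.SpecialLinearGroup (Fin n) ℂ) (F : Fin n → Form n k) :
    jac (trT g F) = subst g.1 (jac F) := by
  have h1 : (Matrix.of fun i j => pderiv j ((trT g F) i : MvPolynomial (Fin n) ℂ)) =
      (Matrix.of fun i j => subst g.1 (pderiv j (F i : MvPolynomial (Fin n) ℂ))) * g.1.map C := by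
    refine Matrix.ext fun i j => ?_
    rw [Matrix.mul_apply, Matrix.of_apply, trT, coe_sub, pderiv_subst]
    apply Finset.sum_congr rfl
    intro l _
    rw [Matrix.of_apply, Matrix.map_apply, mul_comm]
  have h2 : (g.1.map (C : ℂ →+* MvPolynomial (Fin n) ℂ)).det = 1 := by
    have := (RingHom.map_det (C : ℂ →+* MvPolynomial (Fin n) ℂ) g.1).symm
    rw [RingHom.mapMatrix_apply] at this
    rw [this, g.2, map_one]
  have h3 : (Matrix.of fun i j => subst g.1 (pderiv j (F i : MvPolynomial (Fin n) ℂ))).det =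
      subst g.1 (jac F) := by
    rw [jac, AlgHom.map_det]
    rfl
  rw [jac, h1, Matrix.det_mul, h2, mul_one, h3]

lemma idl_trT (g : Matrix.SpecialLinearGroup (Fin n) ℂ) (F : Fin n → Form n k)
    {h : MvPolynomial (Fin n) ℂ} (hh : h ∈ idl F) : subst g.1 h ∈ idl (trT g F) := by
  have h1 : idl F ≤ (idl (trT g F)).comap (subst g.1).toRingHom := by
    rw [idl, Ideal.span_le]
    rintro _ ⟨i, rfl⟩
    show subst g.1 (F i : MvPolynomial (Fin n) ℂ) ∈ idl (trT g F)
    exact Ideal.subset_span ⟨i, rfl⟩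
  exact h1 hh

lemma jac_lcT (A : Matrix (Fin n) (Fin n) ℂ) (F : Fin n → Form n k) :
    jac (lcT A F) = C A.det * jac F := by
  have h1 : (Matrix.of fun i j => pderiv j ((lcT A F) i : MvPolynomial (Fin n) ℂ)) =
      A.map C * (Matrix.of fun i j => pderiv j (F i : MvPolynomial (Fin n) ℂ)) := by
    refine Matrix.ext fun i j => ?_
    rw [Matrix.mul_apply, Matrix.of_apply, lcT, AddSubmonoidClass.coe_finsetSum, map_sum]
    apply Finset.sum_congr rfl
    intro l _
    rw [Matrix.of_apply, Matrix.map_apply, SetLike.val_smul, smul_eq_C_mul, pderiv_C_mul]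
  have h2 : (A.map (C : ℂ →+* MvPolynomial (Fin n) ℂ)).det = C A.det := by
    have := (RingHom.map_det (C : ℂ →+* MvPolynomial (Fin n) ℂ) A).symm
    rwa [RingHom.mapMatrix_apply] at this
  rw [jac, h1, Matrix.det_mul, h2, jac]

lemma idl_lcT (A : Matrix (Fin n) (Fin n) ℂ) (F : Fin n → Form n k) :
    idl (lcT A F) ≤ idl F := by
  rw [idl, Ideal.span_le]
  rintro _ ⟨i, rfl⟩
  show ((lcT A F) i : MvPolynomial (Fin n) ℂ) ∈ idl F
  rw [lcT, AddSubmonoidClass.coe_finsetSum]
  apply Ideal.sum_mem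
  intro j _
  rw [SetLike.val_smul, smul_eq_C_mul]
  exact Ideal.mul_mem_left _ _ (Ideal.subset_span ⟨j, rfl⟩)

end EQVM

open EQVM

theorem specEQV (h1 : SpecMU) (h2 : SpecGF) : SpecEQV := by
  intro m a hm ha F hF
  refine ⟨fun g => ?_, fun A hA => ?_⟩
  · -- the functionals
    have hF' : trT g F ∈ UU (m + 1) a := trT_mem (by omega) g hF
    have key : ∀ h : MvPolynomial (Fin (m + 1)) ℂ, h.IsHomogeneous ((m + 1) * (a - 1)) →
        GC (cc (trT g F)) (subst g.1 h) = GC (cc F) h := by
      intro h hh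
      have e1 := (h2 m a hm ha F hF).1 h hh
      have e2 := (h2 m a hm ha _ hF').1 _ (isHomogeneous_subst g.1 hh)
      have e3 := idl_trT g F e1
      rw [map_sub, map_mul, subst_C, ← jac_trT] at e3
      exact (h1 m a hm ha _ hF' _ (isHomogeneous_subst g.1 hh)).unique e2 e3
    apply Subtype.ext
    rw [coe_sub, psi_coe, psi_coe]
    apply MvPolynomial.funext
    intro e
    rw [eval_subst, ← GC_lf_pow, ← GC_lf_pow, ← key _ (lf_hom _ _), map_pow (subst g.1), subst_lf]
    congr 3
    have h3 : (g.1.transpose).mulVec (((g⁻¹).transpose).1.mulVec e) = e := by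
      rw [Matrix.mulVec_mulVec]
      have h4 : g.1.transpose * ((g⁻¹).transpose).1 = 1 := by
        have h5 : ((g⁻¹).transpose).1 = (g⁻¹).1.transpose := rfl
        rw [h5, ← Matrix.transpose_mul, ← Matrix.SpecialLinearGroup.coe_mul, inv_mul_cancel,
          Matrix.SpecialLinearGroup.coe_one, Matrix.transpose_one]
      rw [h4, Matrix.one_mulVec]
    exact h3.symm
  · have hF' : lcT A F ∈ UU (m + 1) a := lcT_mem (by omega) hA hF
    have key : ∀ i : Mon (m + 1) ((m + 1) * (a - 1)), mu (lcT A F) i.1 = A.det⁻¹ * mu F i.1 := by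
      intro i
      have hi : (monomial i.1 (1 : ℂ) : MvPolynomial (Fin (m + 1)) ℂ).IsHomogeneous
          ((m + 1) * (a - 1)) := isHomogeneous_monomial _ i.2
      have e1 : monomial i.1 1 - C (mu F i.1) * jac F ∈ idl F :=
        Classical.epsilon_spec (h1 m a hm ha F hF _ hi).exists
      have e2 : monomial i.1 1 - C (mu (lcT A F) i.1) * jac (lcT A F) ∈ idl (lcT A F) :=
        Classical.epsilon_spec (h1 m a hm ha _ hF' _ hi).exists
      have e3 := idl_lcT A F e2
      rw [jac_lcT, ← mul_assoc, ← map_mul] at e3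
      have e4 := (h1 m a hm ha F hF _ hi).unique e1 e3
      rw [e4]
      field_simp
    apply Subtype.ext
    rw [SetLike.val_smul, psi_coe, psi_coe, cc_eq, cc_eq, smul_eq_C_mul]
    rw [← frm_smul]
    congr 1
    funext i
    rw [key i]
    ring

end Pool.Agent.Lib.MP_4fcc12_ag.AF
end

section
open MvPolynomial

namespace Pool.Agent.Lib.MP_4fcc12_ag.AF

open Pool.Agent.Lib.MP_4fcc12_ag.Quot

namespace EVALM

variable {m : ℕ}

lemma map_proot {R S' : Type*} [CommRing R] [CommRing S'] (φ : R →+* S') (y : Fin m → R)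
    (i : Fin (m + 1)) : φ (proot y i) = proot (fun j => φ (y j)) i := by
  rw [proot, proot, ← Polynomial.coeff_map, Polynomial.map_prod]
  congr 2
  funext j
  rw [Polynomial.map_sub, Polynomial.map_X, Polynomial.map_C]

lemma eval_FX (f : MvPolynomial (Fin (m + 1)) ℂ) (k : ℕ) (x y : Fin m → ℂ) :
    eval (Sum.elim x y) (FX f k) =
      eval (proot fun j => if (j : ℕ) < k then y j else x j) f := by
  have h1 := DFunLike.congr_fun (comp_aeval (proot (chain m k))
    (aeval (Sum.elim x y) : S m →ₐ[ℂ] ℂ)) f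
  rw [AlgHom.comp_apply, aeval_eq_eval] at h1
  rw [FX]
  refine h1.trans ?_
  rw [aeval_eq_eval]
  have h3 : (fun i => eval (Sum.elim x y) (proot (chain m k) i)) =
      proot fun j => if (j : ℕ) < k then y j else x j := by
    funext i
    rw [map_proot]
    congr 1
    funext j
    rw [chain]
    split_ifs with h2
    · exact eval_X _
    · exact eval_X _
  rw [h3]

lemma eval_box {a : ℕ} (ha : 1 ≤ a) (Φ : S m)
    (h : ∀ j : Fin m, degreeOf (Sum.inl j) Φ ≤ ((j : ℕ) + 1) * a - 1 ∧
      degreeOf (Sum.inr j) Φ ≤ (m - (j : ℕ)) * a - 1) (x y : Fin m → ℂ) :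
    eval (Sum.elim x y) Φ = ∑ α : BL m a, ∑ β : BR m a,
      coeff (eLR α β) Φ * ((∏ j, x j ^ (α j : ℕ)) * ∏ j, y j ^ (β j : ℕ)) := by
  classical
  have hinj : Function.Injective fun p : BL m a × BR m a => eLR p.1 p.2 := by
    rintro ⟨α, β⟩ ⟨α', β'⟩ h1
    have h2 : ∀ t, eLR α β t = eLR α' β' t := fun t => DFunLike.congr_fun h1 t
    have h3 : α = α' := by
      funext j
      exact Fin.ext (h2 (Sum.inl j))
    have h4 : β = β' := by
      funext j
      exact Fin.ext (h2 (Sum.inr j))
    rw [h3, h4]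
  have hsub : Φ.support ⊆ Finset.univ.image fun p : BL m a × BR m a => eLR p.1 p.2 := by
    intro γ hγ
    have hl : ∀ j : Fin m, γ (Sum.inl j) < ((j : ℕ) + 1) * a := by
      intro j
      have h1 := (monomial_le_degreeOf (Sum.inl j) hγ).trans (h j).1
      have h2 : 0 < ((j : ℕ) + 1) * a := Nat.mul_pos (Nat.succ_pos _) ha
      omega
    have hr : ∀ j : Fin m, γ (Sum.inr j) < (m - (j : ℕ)) * a := by
      intro j
      have h1 := (monomial_le_degreeOf (Sum.inr j) hγ).trans (h j).2
      have h2 : 0 < (m - (j : ℕ)) * a := Nat.mul_pos (by have := j.2; omega) ha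
      omega
    rw [Finset.mem_image]
    refine ⟨(fun j => ⟨γ (Sum.inl j), hl j⟩, fun j => ⟨γ (Sum.inr j), hr j⟩),
      Finset.mem_univ _, ?_⟩
    ext t
    rcases t with j | j <;> rfl
  rw [eval_eq', Finset.sum_subset hsub, Finset.sum_image hinj.injOn, ← Finset.univ_product_univ,
    Finset.sum_product]
  · apply Finset.sum_congr rfl
    intro α _
    apply Finset.sum_congr rfl
    intro β _
    rw [Fintype.prod_sum_type]
    rfl
  · intro γ _ hγ
    rw [notMem_support_iff.1 hγ, zero_mul]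

end EVALM

theorem specEVAL (h1 : SpecDEG) (h2 : SpecDD) (h3 : SpecDIX) : SpecEVAL := by
  intro m a hm ha f hf x y
  obtain ⟨δ, hδ, -⟩ := h2 m a f hf
  have hex : ∃ Φ, IsDix f Φ := ⟨_, (h3 m f δ hδ).1⟩
  have hD : IsDix f (DX f) := by
    rw [DX, dif_pos hex]
    exact hex.choose_spec
  have hdeg := h1 m a (by omega) f hf (DX f) hD
  have h4 := congrArg (eval (Sum.elim x y)) hD
  rw [map_mul, map_prod, RingHom.map_det] at h4
  rw [← EVALM.eval_box (by omega) (DX f) hdeg x y]
  simp only [map_sub, eval_X, Sum.elim_inl, Sum.elim_inr] at h4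
  rw [h4]
  congr 1
  refine Matrix.ext fun i k => ?_
  rw [RingHom.mapMatrix_apply, Matrix.map_apply, Matrix.of_apply, Matrix.of_apply,
    EVALM.eval_FX]

end Pool.Agent.Lib.MP_4fcc12_ag.AF
end

section
/-!
# Expansion of the Dixon kernel in the boxes of exponents
-/
open MvPolynomial

namespace Pool.Agent.Lib.MP_4fcc12_ag.AF

variable {m a : ℕ}

lemma eL_apply (α : BL m a) (j : Fin m) : eL α j = (α j : ℕ) := rfl

lemma eR_apply (β : BR m a) (j : Fin m) : eR β j = (β j : ℕ) := rfl

lemma eLR_inl (α : BL m a) (β : BR m a) (j : Fin m) : eLR α β (Sum.inl j) = (α j : ℕ) := rfl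

lemma eLR_inr (α : BL m a) (β : BR m a) (j : Fin m) : eLR α β (Sum.inr j) = (β j : ℕ) := rfl

lemma exL_eLR (α : BL m a) (β : BR m a) : exL (eLR α β) = eL α := rfl

lemma exR_eLR (α : BL m a) (β : BR m a) : exR (eLR α β) = eR β := rfl

lemma eL_injective : Function.Injective (eL : BL m a → Fin m →₀ ℕ) := by
  intro α α' h
  funext j
  apply Fin.ext
  exact DFunLike.congr_fun h j

lemma eR_injective : Function.Injective (eR : BR m a → Fin m →₀ ℕ) := by
  intro β β' h
  funext j
  apply Fin.ext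
  exact DFunLike.congr_fun h j

lemma eLR_injective {α α' : BL m a} {β β' : BR m a} (h : eLR α β = eLR α' β') :
    α = α' ∧ β = β' := by
  constructor
  · funext j
    apply Fin.ext
    exact DFunLike.congr_fun h (Sum.inl j)
  · funext j
    apply Fin.ext
    exact DFunLike.congr_fun h (Sum.inr j)

lemma exists_eLR {γ : Fin m ⊕ Fin m →₀ ℕ} (h1 : ∀ j : Fin m, γ (Sum.inl j) < ((j : ℕ) + 1) * a)
    (h2 : ∀ j : Fin m, γ (Sum.inr j) < (m - (j : ℕ)) * a) :
    ∃ (α : BL m a) (β : BR m a), eLR α β = γ := by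
  refine ⟨fun j => ⟨γ (Sum.inl j), h1 j⟩, fun j => ⟨γ (Sum.inr j), h2 j⟩, ?_⟩
  ext v
  rcases v with j | j <;> rfl

lemma exists_eL {γ : Fin m →₀ ℕ} (h1 : ∀ j : Fin m, γ j < ((j : ℕ) + 1) * a) :
    ∃ α : BL m a, eL α = γ := ⟨fun j => ⟨γ j, h1 j⟩, by ext j; rfl⟩

lemma exists_eR {γ : Fin m →₀ ℕ} (h1 : ∀ j : Fin m, γ j < (m - (j : ℕ)) * a) :
    ∃ β : BR m a, eR β = γ := ⟨fun j => ⟨γ j, h1 j⟩, by ext j; rfl⟩

/-- exponents `≤ (m + 1) a - 2` are sums of exponents in the two boxes -/
lemma exists_eL_add_eR (ha : 1 ≤ a) {γ : Fin m →₀ ℕ} (h : ∀ j, γ j ≤ (m + 1) * a - 2) :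
    ∃ (α : BL m a) (β : BR m a), eL α + eR β = γ := by
  have key : ∀ j : Fin m, ((j : ℕ) + 1) * a + (m - (j : ℕ)) * a = (m + 1) * a := by
    intro j
    rw [← add_mul]
    congr 1
    omega
  have hl : ∀ j : Fin m, 1 ≤ ((j : ℕ) + 1) * a := fun j => Nat.mul_pos (by omega) ha
  have hr : ∀ j : Fin m, 1 ≤ (m - (j : ℕ)) * a := fun j => Nat.mul_pos (by omega) ha
  refine ⟨fun j => ⟨min (γ j) (((j : ℕ) + 1) * a - 1), ?_⟩,
    fun j => ⟨γ j - min (γ j) (((j : ℕ) + 1) * a - 1), ?_⟩, ?_⟩
  · have := hl j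
    omega
  · have h1 := key j
    have h2 := hl j
    have h3 := hr j
    have h4 := h j
    omega
  · ext j
    show min (γ j) (((j : ℕ) + 1) * a - 1) + (γ j - min (γ j) (((j : ℕ) + 1) * a - 1)) = γ j
    omega

/-- expansion of a polynomial with degrees in the boxes -/
theorem expand (ha : 1 ≤ a) {Φ : S m}
    (h : ∀ j : Fin m, degreeOf (Sum.inl j) Φ ≤ ((j : ℕ) + 1) * a - 1 ∧
      degreeOf (Sum.inr j) Φ ≤ (m - (j : ℕ)) * a - 1) :
    Φ = ∑ α : BL m a, ∑ β : BR m a, monomial (eLR α β) (coeff (eLR α β) Φ) := by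
  have hl : ∀ j : Fin m, 1 ≤ ((j : ℕ) + 1) * a := fun j => Nat.mul_pos (by omega) ha
  have hr : ∀ j : Fin m, 1 ≤ (m - (j : ℕ)) * a := fun j => Nat.mul_pos (by omega) ha
  ext γ
  simp only [coeff_sum, coeff_monomial]
  by_cases hγ : coeff γ Φ = 0
  · rw [hγ]
    symm
    apply Finset.sum_eq_zero
    intro α _
    apply Finset.sum_eq_zero
    intro β _
    split_ifs with h1
    · rw [h1, hγ]
    · rfl
  · have hs : γ ∈ Φ.support := mem_support_iff.2 hγ
    obtain ⟨α, β, rfl⟩ := exists_eLR (a := a) (γ := γ)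
      (fun j => by
        have h1 := monomial_le_degreeOf (Sum.inl j) hs
        have h2 := (h j).1
        have h3 := hl j
        omega)
      (fun j => by
        have h1 := monomial_le_degreeOf (Sum.inr j) hs
        have h2 := (h j).2
        have h3 := hr j
        omega)
    rw [Finset.sum_eq_single α, Finset.sum_eq_single β]
    · rw [if_pos rfl]
    · intro β' _ hβ'
      rw [if_neg]
      intro h1
      exact hβ' (eLR_injective h1).2
    · intro h1
      exact absurd (Finset.mem_univ _) h1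
    · intro α' _ hα'
      apply Finset.sum_eq_zero
      intro β' _
      rw [if_neg]
      intro h1
      exact hα' (eLR_injective h1).1
    · intro h1
      exact absurd (Finset.mem_univ _) h1

lemma card_BL (m a : ℕ) : Fintype.card (BL m a) = m.factorial * a ^ m := by
  rw [Fintype.card_pi]
  simp only [Fintype.card_fin]
  rw [Finset.prod_mul_distrib, Finset.prod_const, Finset.card_univ, Fintype.card_fin]
  congr 1
  rw [Fin.prod_univ_eq_prod_range (fun j => j + 1) m, Finset.prod_range_add_one_eq_factorial]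

end Pool.Agent.Lib.MP_4fcc12_ag.AF
end

section
/-!
# Module FIN: every invariant regular function on `Z` is a quotient of invariants
-/
open MvPolynomial

namespace Pool.Agent.Lib.MP_4fcc12_ag.AF

open Pool.Agent.Lib.MP_4fcc12_ag.Quot

namespace FINM

lemma span_lcT {n k : ℕ} {A : Matrix (Fin n) (Fin n) ℂ} (hA : A.det ≠ 0) (F : Fin n → Form n k) :
    Submodule.span ℂ (Set.range (lcT A F)) = Submodule.span ℂ (Set.range F) := by
  have h1 : ∀ (A : Matrix (Fin n) (Fin n) ℂ) (F : Fin n → Form n k),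
      Submodule.span ℂ (Set.range (lcT A F)) ≤ Submodule.span ℂ (Set.range F) := by
    intro A F
    rw [Submodule.span_le]
    rintro _ ⟨i, rfl⟩
    exact Submodule.sum_mem _ fun j _ => Submodule.smul_mem _ _ (Submodule.subset_span ⟨j, rfl⟩)
  apply le_antisymm (h1 A F)
  have h2 : lcT A⁻¹ (lcT A F) = F := by
    funext i
    have h3 : ∀ j, A⁻¹ i j • lcT A F j = ∑ l, (A⁻¹ i j * A j l) • F l := by
      intro j
      rw [lcT, Finset.smul_sum]
      exact Finset.sum_congr rfl fun l _ => smul_smul _ _ _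
    show ∑ j, A⁻¹ i j • lcT A F j = F i
    rw [Finset.sum_congr rfl fun j _ => h3 j, Finset.sum_comm]
    have h4 : ∀ l, ∑ j, (A⁻¹ i j * A j l) • F l = (1 : Matrix (Fin n) (Fin n) ℂ) i l • F l := by
      intro l
      rw [← Finset.sum_smul, ← Matrix.nonsing_inv_mul A (isUnit_iff_ne_zero.2 hA), Matrix.mul_apply]
    rw [Finset.sum_congr rfl fun l _ => h4 l]
    simp [Matrix.one_apply]
  calc Submodule.span ℂ (Set.range F) = Submodule.span ℂ (Set.range (lcT A⁻¹ (lcT A F))) := by
        rw [h2]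
    _ ≤ _ := h1 _ _

lemma eval_scale {κ : Type} [Finite κ] {P : MvPolynomial κ ℂ} {r : ℕ} (hP : P.IsHomogeneous r)
    (t : ℂ) (x : κ → ℂ) : eval (fun i => t * x i) P = t ^ r * eval x P := by
  have h := aeval_mul_of_isHomogeneous hP t x
  rwa [aeval_eq_eval, aeval_eq_eval] at h

/-- extraction of a homogeneous component -/
lemma eval_component {κ : Type} [Finite κ] (P : MvPolynomial κ ℂ) (r : ℕ) (x : κ → ℂ)
    (h : ∀ t : ℂ, t ≠ 0 → eval (fun i => t * x i) P = t ^ r * eval x P) :
    eval x (homogeneousComponent r P) = eval x P := by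
  have key : ∀ t : ℂ, Polynomial.eval t (∑ i ∈ Finset.range (P.totalDegree + 1),
      Polynomial.C (eval x (homogeneousComponent i P)) * Polynomial.X ^ i) =
      eval (fun j => t * x j) P := by
    intro t
    conv_rhs => rw [← sum_homogeneousComponent P]
    rw [map_sum, Polynomial.eval_finsetSum]
    apply Finset.sum_congr rfl
    intro i _
    rw [eval_scale (homogeneousComponent_isHomogeneous i P) t x, Polynomial.eval_mul,
      Polynomial.eval_C, Polynomial.eval_pow, Polynomial.eval_X, mul_comm]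
  have h1 : Polynomial.X * (∑ i ∈ Finset.range (P.totalDegree + 1),
      Polynomial.C (eval x (homogeneousComponent i P)) * Polynomial.X ^ i) =
      Polynomial.X * (Polynomial.C (eval x P) * Polynomial.X ^ r) := by
    apply Polynomial.funext
    intro t
    rw [Polynomial.eval_mul, Polynomial.eval_mul, Polynomial.eval_X, key]
    by_cases ht : t = 0
    · rw [ht, zero_mul, zero_mul]
    · rw [h t ht, Polynomial.eval_mul, Polynomial.eval_C,
        Polynomial.eval_pow, Polynomial.eval_X, mul_comm (t ^ r)]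
  have h2 := mul_left_cancel₀ Polynomial.X_ne_zero h1
  have h3 := congrArg (fun p => Polynomial.coeff p r) h2
  simp only [Polynomial.finsetSum_coeff, Polynomial.coeff_C_mul, Polynomial.coeff_X_pow] at h3
  by_cases hr : r < P.totalDegree + 1
  · simpa [hr] using h3
  · rw [homogeneousComponent_eq_zero _ _ (by omega), map_zero]
    rw [Finset.sum_eq_zero] at h3
    · simpa using h3
    · intro i hi
      have : r ≠ i := by
        rintro rfl
        exact hr (Finset.mem_range.1 hi)
      simp [this]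

end FINM

open FINM in
theorem specFIN (h1 : SpecMEM) (h2 : SpecEQV) (h3 : SpecINVJ) (h4 : SpecREY) (h5 : SpecBM) :
    SpecFIN := by
  intro m a hm ha ψ hψ
  let _ := h5
  let φ : UU (m + 1) a → ℂ := fun F => ψ (spanOf F)
  have hφ : φ ∈ BB m a := by
    apply h1 m a hm ha φ hψ.1
    intro A hA F
    show ψ (spanOf _) = ψ (spanOf F)
    congr 1
    apply Subtype.ext
    exact span_lcT hA F.1
  obtain ⟨s, P, hP⟩ := hφ
  -- scaling
  have hscale : ∀ F : UU (m + 1) a, ∀ t : ℂ, t ≠ 0 →
      eval (fun i => t * cc F.1 i) P = t ^ (s * Fintype.card (BL m a)) * eval (cc F.1) P := by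
    intro F t ht
    let A : Matrix (Fin (m + 1)) (Fin (m + 1)) ℂ :=
      Matrix.diagonal (Function.update (1 : Fin (m + 1) → ℂ) 0 t⁻¹)
    have hA : A.det = t⁻¹ := by
      rw [Matrix.det_diagonal, Finset.prod_update_of_mem (Finset.mem_univ _)]
      simp
    have hA0 : A.det ≠ 0 := by
      rw [hA]
      exact inv_ne_zero ht
    have e1 : cc (lcT A F.1) = fun i => t * cc F.1 i := by
      rw [cc, (h2 m a hm ha F.1 F.2).2 A hA0, hA, inv_inv, cfL_smul]
      rfl
    have e2 := hP ⟨lcT A F.1, lcT_mem (by omega) hA0 F.2⟩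
    have e3 : φ ⟨lcT A F.1, lcT_mem (by omega) hA0 F.2⟩ = φ F := by
      show ψ (spanOf _) = ψ (spanOf F)
      congr 1
      apply Subtype.ext
      exact span_lcT hA0 F.1
    rw [e3] at e2
    dsimp only at e2
    rw [e1, eval_scale (JJ_isHomogeneous m a)] at e2
    rw [← e2, ← hP F, mul_pow, ← pow_mul, mul_comm (Fintype.card (BL m a)) s]
    ring
  have hcomp : ∀ F : UU (m + 1) a,
      eval (cc F.1) (homogeneousComponent (s * Fintype.card (BL m a)) P) = eval (cc F.1) P :=
    fun F => eval_component P _ _ (hscale F)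
  obtain ⟨P', hP', hP''⟩ := h4 m a hm ha (s * Fintype.card (BL m a))
    (homogeneousComponent (s * Fintype.card (BL m a)) P) (homogeneousComponent_isHomogeneous _ _)
  refine ⟨s, P', hP', fun F => ?_⟩
  have hinv : eval (cc F.1) (P' : MvPolynomial (Mon (m + 1) ((m + 1) * (a - 1))) ℂ) =
      eval (cc F.1) (homogeneousComponent (s * Fintype.card (BL m a)) P) := by
    apply hP'' (psi F.1)
    intro g
    have e1 := (h2 m a hm ha F.1 F.2).1 (g.transpose)⁻¹
    have e2 : (((g.transpose)⁻¹)⁻¹).transpose = g := by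
      rw [inv_inv]
      apply Subtype.ext
      exact Matrix.transpose_transpose _
    rw [e2] at e1
    have e3 := hcomp ⟨trT (g.transpose)⁻¹ F.1, trT_mem (by omega) _ F.2⟩
    have e4 := hP ⟨trT (g.transpose)⁻¹ F.1, trT_mem (by omega) _ F.2⟩
    have e5 : φ ⟨trT (g.transpose)⁻¹ F.1, trT_mem (by omega) _ F.2⟩ = φ F := by
      apply hψ.2 (g.transpose)⁻¹ (spanOf F)
      show Submodule.span ℂ (Set.range (trT (g.transpose)⁻¹ F.1)) =
        (Submodule.span ℂ (Set.range F.1)).map (sub (g.transpose)⁻¹)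
      rw [Submodule.map_span]
      congr 1
      ext x
      simp [trT]
    have e6 : cc (trT (g.transpose)⁻¹ F.1) = cfL _ _ (sub g (psi F.1)) := by
      rw [cc, e1]
    dsimp only at e3 e4
    rw [e6] at e3 e4
    rw [e5, h3 m a hm ha F.1 F.2 g, hP F, ← hcomp F] at e4
    rw [e3, ← e4]
    rfl
  rw [hinv, hcomp F]
  exact hP F

end Pool.Agent.Lib.MP_4fcc12_ag.AF
end

section
/-!
# `Proj.fromOfGlobalSections` if a homogeneous element becomes a unit
-/
open MvPolynomial AlgebraicGeometry CategoryTheory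

namespace Pool.Agent.Lib.MP_4fcc12_ag.AF

theorem specFOG : SpecFOG := by
  intro A _ _ 𝒜 _ B f hf r hr J hJ hu
  set g : A →+* Γ(Spec B, ⊤) := (Scheme.ΓSpecIso B).inv.hom.comp f with hg
  have hgu : IsUnit (g J) := hu.map (Scheme.ΓSpecIso B).inv.hom
  have hU : (Spec B).basicOpen (g J) = ⊤ := by
    exact Scheme.basicOpen_of_isUnit _ hgu
  have hiso : IsIso ((Spec B).basicOpen (g J)).ι := by
    rw [hU, ← Scheme.topIso_hom]
    infer_instance
  rw [← cancel_epi ((Spec B).basicOpen (g J)).ι]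
  have h1 : ((Spec B).basicOpen (g J)).ι ≫ Proj.fromOfGlobalSections 𝒜 g hf =
      Proj.toBasicOpenOfGlobalSections 𝒜 g rfl hr hJ ≫ (Proj.basicOpen 𝒜 J).ι :=
    (Proj.openCoverOfMapIrrelevantEqTop 𝒜 g hf).ι_glueMorphisms _ _ ⟨_, _, hr, hJ⟩
  rw [h1]
  have h2 : (IsLocalization.map (M := Submonoid.powers J) (T := Submonoid.powers (g J))
      (Localization.Away (g J)) g (by
        rw [← Submonoid.map_le_iff_le_comap, Submonoid.map_powers]) :
        Localization.Away J →+* Localization.Away (g J)) =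
      ((algebraMap Γ(Spec B, ⊤) (Localization.Away (g J))).comp (Scheme.ΓSpecIso B).inv.hom).comp
        (IsLocalization.Away.lift (S := Localization.Away J) J hu) := by
    apply IsLocalization.ringHom_ext (M := .powers J)
    ext x
    simp [hg]
  have h3 : Spec.map (CommRingCat.ofHom ((IsLocalization.map (M := Submonoid.powers J)
      (T := Submonoid.powers (g J)) (Localization.Away (g J)) g (by
        rw [← Submonoid.map_le_iff_le_comap, Submonoid.map_powers]) :
        Localization.Away J →+* Localization.Away (g J)).comp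
        (algebraMap (HomogeneousLocalization.Away 𝒜 J) (Localization.Away J)))) =
      Spec.map (CommRingCat.ofHom (algebraMap Γ(Spec B, ⊤) (Localization.Away (g J)))) ≫
      Spec.map (Scheme.ΓSpecIso B).inv ≫
      Spec.map (CommRingCat.ofHom ((IsLocalization.Away.lift (S := Localization.Away J) J hu).comp
        (algebraMap (HomogeneousLocalization.Away 𝒜 J) (Localization.Away J)))) := by
    rw [h2, ← Spec.map_comp, ← Spec.map_comp]
    congr 1
  rw [Proj.toBasicOpenOfGlobalSections]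
  simp only [Category.assoc, Proj.basicOpenIsoSpec_inv_ι]
  have h4 := congrArg (fun t => t ≫ Proj.awayι 𝒜 J hJ hr) h3
  simp only [Category.assoc] at h4
  erw [h4]
  rw [basicOpenIsoSpecAway_hom_SpecMap_assoc]
  erw [morphismRestrict_ι_assoc]
  rw [Scheme.isoOfEq_inv_ι_assoc, ← SpecMap_ΓSpecIso_hom]
  congr 1
  rw [← Category.assoc, ← Spec.map_comp, Iso.inv_hom_id, Spec.map_id, Category.id_comp]

end Pool.Agent.Lib.MP_4fcc12_ag.AF
end

section
/-!
# Assembly
-/
open MvPolynomial AlgebraicGeometry CategoryTheory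
open Pool.Agent.Lib.MP_4fcc12_ag.Quot

namespace Pool.Agent.Lib.MP_4fcc12_ag.AF

/-- invariant polynomials as functions of the tuple, via the associated form -/
noncomputable def psiFun (n k : ℕ) : invRing n (n * (k - 1)) →+* (UU n k → ℂ) where
  toFun P F := eval (cfL n (n * (k - 1)) (psi F.1)) (P : MvPolynomial (Mon n (n * (k - 1))) ℂ)
  map_one' := by
    funext F
    exact map_one _
  map_mul' P Q := by
    funext F
    exact map_mul _ _ _
  map_zero' := by
    funext F
    exact map_zero _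
  map_add' P Q := by
    funext F
    exact map_add _ _ _

lemma psiFun_mem (hREG : SpecREG) {n k : ℕ} (hn : 2 ≤ n) (hk : 2 ≤ k)
    (P : invRing n (n * (k - 1))) : psiFun n k P ∈ ringUU n k := by
  obtain ⟨m, rfl⟩ : ∃ m, n = m + 1 := ⟨n - 1, by omega⟩
  exact (hREG m k (by omega) hk).1 (P : MvPolynomial (Mon (m + 1) ((m + 1) * (k - 1))) ℂ)

/-- `P ↦ P ∘ Ψ` -/
noncomputable def psiStar' (hREG : SpecREG) {n k : ℕ} (hn : 2 ≤ n) (hk : 2 ≤ k) :
    invRing n (n * (k - 1)) →+* ringUU n k :=
  (psiFun n k).codRestrict (ringUU n k) (psiFun_mem hREG hn hk)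

lemma exists_unit (hREG : SpecREG) (hJN : SpecJN) {m k : ℕ} (hm : 1 ≤ m) (hk : 2 ≤ k) :
    ∃ (r : ℕ) (J : invRing (m + 1) ((m + 1) * (k - 1))), r = Fintype.card (BL m k) ∧ 0 < r ∧
      J ∈ invGr (m + 1) ((m + 1) * (k - 1)) r ∧
      (∀ F ∈ UU (m + 1) k,
        eval (cc F) (J : MvPolynomial (Mon (m + 1) ((m + 1) * (k - 1))) ℂ) =
          eval (cc F) (JJ m k) ∧ eval (cc F) (JJ m k) ≠ 0) ∧
      IsUnit (psiStar' hREG (show 2 ≤ m + 1 by omega) hk J) := by
  obtain ⟨J, hJ, hJ'⟩ := hJN m k hm hk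
  refine ⟨_, J, rfl, ?_, hJ, hJ', ?_⟩
  · rw [card_BL]
    exact Nat.mul_pos (Nat.factorial_pos _) (Nat.pow_pos (by omega))
  · refine IsUnit.of_mul_eq_one ⟨_, (hREG m k hm hk).2⟩ ?_
    apply Subtype.ext
    funext F
    show eval (cc F.1) (J : MvPolynomial (Mon (m + 1) ((m + 1) * (k - 1))) ℂ) *
      (eval (cc F.1) (JJ m k))⁻¹ = 1
    rw [(hJ' F.1 F.2).1]
    exact mul_inv_cancel₀ (hJ' F.1 F.2).2

lemma irrelevant_map (hREG : SpecREG) (hJN : SpecJN) {n k : ℕ} (hn : 2 ≤ n) (hk : 2 ≤ k) :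
    (HomogeneousIdeal.irrelevant (invGr n (n * (k - 1)))).toIdeal.map
      ((Scheme.ΓSpecIso (catUU n k)).inv.hom.comp (psiStar' hREG hn hk)) = ⊤ := by
  obtain ⟨m, rfl⟩ : ∃ m, n = m + 1 := ⟨n - 1, by omega⟩
  obtain ⟨r, J, _, hr, hJ, _, hu⟩ := exists_unit hREG hJN (show 1 ≤ m by omega) hk
  refine Ideal.eq_top_of_isUnit_mem _ (Ideal.mem_map_of_mem _
    (HomogeneousIdeal.mem_irrelevant_of_mem _ hr hJ)) ?_
  exact hu.map (Scheme.ΓSpecIso (catUU (m + 1) k)).inv.hom

/-- the morphism from tuples to `ℙ(ℂ[e]_N)^{ss} // SL_n` -/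
noncomputable def psiMor' (hREG : SpecREG) (hJN : SpecJN) {n k : ℕ} (hn : 2 ≤ n) (hk : 2 ≤ k) :
    Spec (catUU n k) ⟶ quotSS n (n * (k - 1)) :=
  Proj.fromOfGlobalSections (invGr n (n * (k - 1)))
    ((Scheme.ΓSpecIso (catUU n k)).inv.hom.comp (psiStar' hREG hn hk))
    (irrelevant_map hREG hJN hn hk)

lemma spanStar_injective (n k : ℕ) : Function.Injective (spanStar n k) := by
  intro ψ ψ' h
  apply Subtype.ext
  funext W
  obtain ⟨W, F, hF, rfl⟩ := W
  exact congrFun (congrArg Subtype.val h) ⟨F, hF⟩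

/-- assembly -/
theorem final (hREG : SpecREG) (hJN : SpecJN) (hFIN : SpecFIN) (hDESC : SpecDESC)
    (hFOG : SpecFOG) (hUNIQ : SpecUNIQ) {n k : ℕ} (hn : 2 ≤ n) (hk : 2 ≤ k) :
    ∃ φ : quotZZ n k ⟶ quotSS n (n * (k - 1)),
      (projZZ n k ≫ φ = psiMor' hREG hJN hn hk ∧
        ∀ φ', projZZ n k ≫ φ' = psiMor' hREG hJN hn hk → φ' = φ) ∧
      ∃ (r : ℕ) (J : invRing n (n * (k - 1))), r = (n - 1).factorial * k ^ (n - 1) ∧ 0 < r ∧
        J ∈ invGr n (n * (k - 1)) r ∧
        IsAffineOpen (Proj.basicOpen (invGr n (n * (k - 1))) J) ∧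
        ∃ i : quotZZ n k ⟶ (Proj.basicOpen (invGr n (n * (k - 1))) J).toScheme,
          IsClosedImmersion i ∧ i ≫ (Proj.basicOpen (invGr n (n * (k - 1))) J).ι = φ := by
  obtain ⟨m, rfl⟩ : ∃ m, n = m + 1 := ⟨n - 1, by omega⟩
  have hm : 1 ≤ m := by omega
  obtain ⟨r, J, hrJ, hr, hJ, hJJ, hu⟩ := exists_unit hREG hJN hm hk
  let 𝒜 := invGr (m + 1) ((m + 1) * (k - 1))
  let e : HomogeneousLocalization.Away 𝒜 J →+* ringUU (m + 1) k :=
    (IsLocalization.Away.lift (S := Localization.Away J) J hu).comp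
      (algebraMap (HomogeneousLocalization.Away 𝒜 J) (Localization.Away J))
  have he : ∀ (s : ℕ) (P : invRing (m + 1) ((m + 1) * (k - 1))) (hP : P ∈ 𝒜 (s • r)),
      e (HomogeneousLocalization.Away.mk 𝒜 hJ s P hP) *
        psiStar' hREG (show 2 ≤ m + 1 by omega) hk J ^ s =
      psiStar' hREG (show 2 ≤ m + 1 by omega) hk P := by
    intro s P hP
    show IsLocalization.Away.lift (S := Localization.Away J) J hu
      (HomogeneousLocalization.Away.mk 𝒜 hJ s P hP).val * _ = _
    rw [HomogeneousLocalization.Away.val_mk, Localization.mk_eq_mk', ← map_pow,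
      ← IsLocalization.Away.lift_eq (S := Localization.Away J) J hu (J ^ s), ← map_mul,
      IsLocalization.mk'_spec _ P (⟨J ^ s, _⟩ : Submonoid.powers J), IsLocalization.Away.lift_eq]
  have hrange : ∀ x, e x ∈ (spanStar (m + 1) k).range := by
    intro x
    obtain ⟨s, P, hP, rfl⟩ := HomogeneousLocalization.Away.mk_surjective 𝒜 hJ x
    obtain ⟨ψ, hψ, hψ'⟩ := hDESC m k hm hk s P (by
      have h1 := (mem_invGr P).1 hP
      rwa [smul_eq_mul, hrJ] at h1)
    refine ⟨⟨ψ, hψ⟩, ?_⟩
    have h1 := he s P hP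
    apply (IsUnit.mul_left_inj (hu.pow s)).1
    rw [h1]
    apply Subtype.ext
    funext F
    have h2 := hψ' F
    rw [← (hJJ F.1 F.2).1] at h2
    exact h2
  let e' : HomogeneousLocalization.Away 𝒜 J →+* (spanStar (m + 1) k).range :=
    e.codRestrict _ hrange
  let ρ : ringZZ (m + 1) k ≃+* (spanStar (m + 1) k).range :=
    RingEquiv.ofBijective (spanStar (m + 1) k).rangeRestrict
      ⟨fun x y h => spanStar_injective _ _ (congrArg Subtype.val h),
        (spanStar (m + 1) k).rangeRestrict_surjective⟩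
  let θ : HomogeneousLocalization.Away 𝒜 J →+* ringZZ (m + 1) k := ρ.symm.toRingHom.comp e'
  have hθ : ∀ x, spanStar (m + 1) k (θ x) = e x := by
    intro x
    have h1 : ρ (θ x) = e' x := ρ.apply_symm_apply (e' x)
    exact congrArg Subtype.val h1
  have hθs : Function.Surjective θ := by
    intro ψ
    obtain ⟨s, P, hP, hP'⟩ := hFIN m k hm hk ψ.1 ψ.2
    have hP1 : P ∈ 𝒜 (s • r) := by
      rw [smul_eq_mul, hrJ]
      exact hP
    refine ⟨HomogeneousLocalization.Away.mk 𝒜 hJ s P hP1, ?_⟩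
    apply spanStar_injective
    rw [hθ]
    apply (IsUnit.mul_left_inj (hu.pow s)).1
    rw [he s P hP1]
    apply Subtype.ext
    funext F
    have h2 := hP' F
    rw [← (hJJ F.1 F.2).1] at h2
    exact h2.symm
  have hcl : IsClosedImmersion (Spec.map (CommRingCat.ofHom θ)) :=
    IsClosedImmersion.spec_of_surjective (CommRingCat.ofHom θ) hθs
  let i : quotZZ (m + 1) k ⟶ (Proj.basicOpen 𝒜 J).toScheme :=
    Spec.map (CommRingCat.ofHom θ) ≫ (Proj.basicOpenIsoSpec 𝒜 J hJ hr).inv
  have hcomm : projZZ (m + 1) k ≫ (i ≫ (Proj.basicOpen 𝒜 J).ι) =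
      psiMor' hREG hJN (show 2 ≤ m + 1 by omega) hk := by
    rw [psiMor', hFOG (invRing (m + 1) ((m + 1) * (k - 1))) 𝒜 (catUU (m + 1) k)
      (psiStar' hREG (show 2 ≤ m + 1 by omega) hk) _ r hr J hJ hu]
    show Spec.map (CommRingCat.ofHom (spanStar (m + 1) k)) ≫
      ((Spec.map (CommRingCat.ofHom θ) ≫ (Proj.basicOpenIsoSpec 𝒜 J hJ hr).inv) ≫
        (Proj.basicOpen 𝒜 J).ι) = _
    rw [Category.assoc, Proj.basicOpenIsoSpec_inv_ι, ← Category.assoc, ← Spec.map_comp,
      ← CommRingCat.ofHom_comp]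
    congr 3
    refine RingHom.ext fun x => ?_
    exact hθ x
  refine ⟨i ≫ (Proj.basicOpen 𝒜 J).ι, ⟨hcomm, ?_⟩, r, J, by
    rw [hrJ, card_BL, Nat.add_sub_cancel], hr, hJ,
    Proj.isAffineOpen_basicOpen 𝒜 J hJ hr, i, ?_, rfl⟩
  · intro φ' hφ'
    exact hUNIQ _ _ _ _ _ (hφ'.trans hcomm.symm)
  · show IsClosedImmersion (Spec.map (CommRingCat.ofHom θ) ≫
      (Proj.basicOpenIsoSpec 𝒜 J hJ hr).inv)
    infer_instance

end Pool.Agent.Lib.MP_4fcc12_ag.AF
end

section
/-!
# Associated forms: the functional of the associated form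
-/
open MvPolynomial

namespace Pool.Agent.Lib.MP_4fcc12_ag.AF

open Pool.Agent.Lib.MP_4fcc12_ag.Quot

namespace GFM

lemma isHomogeneous_det {n d : ℕ} {σ : Type*} (M : Matrix (Fin n) (Fin n) (MvPolynomial σ ℂ))
    (hM : ∀ i j, (M i j).IsHomogeneous d) : M.det.IsHomogeneous (n * d) := by
  rw [Matrix.det_apply]
  apply IsHomogeneous.sum
  intro τ _
  have h2 : (∏ i, M (τ i) i).IsHomogeneous (∑ _i : Fin n, d) :=
    IsHomogeneous.prod _ _ _ fun i _ => hM _ _
  rw [Finset.sum_const, Finset.card_univ, Fintype.card_fin, smul_eq_mul] at h2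
  rcases Int.units_eq_one_or (Equiv.Perm.sign τ) with hs | hs
  · rw [hs, one_smul]
    exact h2
  · rw [hs, Units.neg_smul, one_smul]
    exact h2.neg

lemma isHomogeneous_jac {n k : ℕ} (F : Fin n → Form n k) :
    (jac F).IsHomogeneous (n * (k - 1)) := by
  apply isHomogeneous_det
  intro i j
  exact IsHomogeneous.pderiv (F i).2

lemma mult_ne_zero {n N : ℕ} (i : Mon n N) : (Nat.multinomial Finset.univ i.1 : ℂ) ≠ 0 := by
  rw [Nat.cast_ne_zero]
  exact (Nat.multinomial_pos _ _).ne'

lemma cc_apply {n k : ℕ} (F : Fin n → Form n k) (i : Mon n (n * (k - 1))) :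
    cc F i = (Nat.multinomial Finset.univ i.1 : ℂ) * mu F i.1 := by
  rw [cc, psi, cfL_frmF]

lemma GC_apply {n k : ℕ} (F : Fin n → Form n k) (h : MvPolynomial (Fin n) ℂ) :
    GC (cc F) h = ∑ i : Mon n (n * (k - 1)), mu F i.1 * coeff i.1 h := by
  rw [GC, LinearMap.sum_apply]
  apply Finset.sum_congr rfl
  intro i _
  rw [LinearMap.smul_apply, lcoeff_apply, smul_eq_mul, cc_apply,
    mul_div_cancel_left₀ _ (mult_ne_zero i)]

lemma mu_spec (h : SpecMU) {m a : ℕ} (hm : 1 ≤ m) (ha : 2 ≤ a) {F : Fin (m + 1) → Form (m + 1) a}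
    (hF : F ∈ UU (m + 1) a) (i : Mon (m + 1) ((m + 1) * (a - 1))) :
    monomial i.1 1 - C (mu F i.1) * jac F ∈ idl F := by
  obtain ⟨c, hc, _⟩ := h m a hm ha F hF (monomial i.1 1) (isHomogeneous_monomial _ i.2)
  exact Classical.epsilon_spec (p := fun c : ℂ => monomial i.1 1 - C c * jac F ∈ idl F) ⟨c, hc⟩

end GFM

open GFM in
theorem specGF (h : SpecMU) : SpecGF := by
  intro m a hm ha F hF
  have h1 : ∀ g : MvPolynomial (Fin (m + 1)) ℂ, g.IsHomogeneous ((m + 1) * (a - 1)) →
      g - C (GC (cc F) g) * jac F ∈ idl F := by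
    intro g hg
    have e1 : g - C (GC (cc F) g) * jac F =
        ∑ i : Mon (m + 1) ((m + 1) * (a - 1)),
          C (coeff i.1 g) * (monomial i.1 1 - C (mu F i.1) * jac F) := by
      have e2 : g = ∑ i : Mon (m + 1) ((m + 1) * (a - 1)), monomial i.1 (coeff i.1 g) :=
        (frm_cf hg).symm
      rw [GC_apply, map_sum, Finset.sum_mul]
      conv_lhs => rw [e2]
      rw [← Finset.sum_sub_distrib]
      apply Finset.sum_congr rfl
      intro i _
      rw [← e2, mul_sub, C_mul_monomial, mul_one, C_mul]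
      ring
    rw [e1]
    exact Ideal.sum_mem _ fun i _ => Ideal.mul_mem_left _ _ (mu_spec h hm ha hF i)
  refine ⟨h1, ?_, ?_⟩
  · intro i q hq
    have hN : a + ((m + 1) * (a - 1) - a) = (m + 1) * (a - 1) := by
      obtain ⟨m', rfl⟩ : ∃ m', m = m' + 1 := ⟨m - 1, by omega⟩
      obtain ⟨a', rfl⟩ : ∃ a', a = a' + 2 := ⟨a - 2, by omega⟩
      have : a' + 2 ≤ (m' + 1 + 1) * (a' + 2 - 1) := by
        rw [show a' + 2 - 1 = a' + 1 by omega]
        nlinarith
      omega
    have e1 : (tp F i * q).IsHomogeneous ((m + 1) * (a - 1)) := by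
      have := IsHomogeneous.mul (F i).2 hq
      rwa [hN] at this
    have e2 : tp F i * q - C (0 : ℂ) * jac F ∈ idl F := by
      rw [C_0, zero_mul, sub_zero]
      exact Ideal.mul_mem_right _ _ (Ideal.subset_span ⟨i, rfl⟩)
    exact (h m a hm ha F hF _ e1).unique (h1 _ e1) e2
  · have e1 := isHomogeneous_jac F
    have e2 : jac F - C (1 : ℂ) * jac F ∈ idl F := by
      rw [C_1, one_mul, sub_self]
      exact Ideal.zero_mem _
    exact (h m a hm ha F hF _ e1).unique (h1 _ e1) e2

end Pool.Agent.Lib.MP_4fcc12_ag.AF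
end

section
/-!
# Associated forms: regular functions on the set of tuples with nonzero resultant
-/
open MvPolynomial

namespace Pool.Agent.Lib.MP_4fcc12_ag.AF

open Pool.Agent.Lib.MP_4fcc12_ag.Quot

namespace GLOBM

variable {n k : ℕ}

/-- the tuple of forms with the given coefficients -/
noncomputable def tupF (x : Fin n × Mon n k → ℂ) : Fin n → Form n k :=
  fun i => frmF fun α => x (i, α)

lemma ctL_tupF (x : Fin n × Mon n k → ℂ) : ctL n k (tupF x) = x := ct_tup x

/-- polynomial functions on tuples are polynomials in the coefficients -/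
lemma exists_polyT {P : (Fin n → Form n k) → ℂ} (hP : P ∈ PolyFun (Fin n → Form n k)) :
    ∃ P' : MvPolynomial (Fin n × Mon n k) ℂ, ∀ F, P F = eval (ctL n k F) P' := by
  refine Algebra.adjoin_induction (p := fun P _ => ∃ P' : MvPolynomial (Fin n × Mon n k) ℂ,
    ∀ F, P F = eval (ctL n k F) P') ?_ ?_ ?_ ?_ hP
  · rintro _ ⟨l, rfl⟩
    let e : Fin n × Mon n k → (Fin n → Form n k) := fun p => Pi.single p.1
      ⟨monomial p.2.1 1, (mem_homogeneousSubmodule k _).2 (isHomogeneous_monomial _ p.2.2)⟩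
    refine ⟨∑ p, C (l (e p)) * X p, ?_⟩
    intro F
    have h1 : F = ∑ p, ctL n k F p • e p := by
      funext i
      apply Subtype.ext
      rw [Finset.sum_apply, AddSubmonoidClass.coe_finsetSum, Fintype.sum_prod_type,
        Finset.sum_eq_single i]
      · conv_lhs => rw [← frm_cfL (F i)]
        rw [frm]
        apply Finset.sum_congr rfl
        intro α _
        show _ = ((ctL n k F (i, α) • (e (i, α) i) : Form n k) : MvPolynomial (Fin n) ℂ)
        rw [SetLike.val_smul]
        show _ = ctL n k F (i, α) • ((Pi.single i _ : Fin n → Form n k) i : MvPolynomial (Fin n) ℂ)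
        rw [Pi.single_eq_same, smul_monomial, smul_eq_mul, mul_one]
        rfl
      · intro j _ hj
        apply Finset.sum_eq_zero
        intro α _
        show ((ctL n k F (j, α) • (Pi.single j _ : Fin n → Form n k) i : Form n k) :
          MvPolynomial (Fin n) ℂ) = 0
        rw [Pi.single_eq_of_ne (Ne.symm hj), smul_zero]
        rfl
      · intro h
        exact absurd (Finset.mem_univ i) h
    show l F = _
    conv_lhs => rw [h1]
    rw [map_sum, map_sum]
    apply Finset.sum_congr rfl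
    intro p _
    rw [map_smul, map_mul, eval_C, eval_X, smul_eq_mul, mul_comm]
  · intro c
    exact ⟨C c, fun F => (eval_C _).symm⟩
  · rintro P Q _ _ ⟨P', h1⟩ ⟨Q', h2⟩
    refine ⟨P' + Q', fun F => ?_⟩
    rw [map_add, ← h1, ← h2]
    rfl
  · rintro P Q _ _ ⟨P', h1⟩ ⟨Q', h2⟩
    refine ⟨P' * Q', fun F => ?_⟩
    rw [map_mul, ← h1, ← h2]
    rfl

/-- the determinant of `MD` is a polynomial in the coefficients -/
lemma exists_det (h : SpecCHI) {m a : ℕ} (hm : 1 ≤ m) (ha : 2 ≤ a) :
    ∃ D : MvPolynomial (Fin (m + 1) × Mon (m + 1) a) ℂ, ∀ F : Fin (m + 1) → Form (m + 1) a,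
      eval (ctL (m + 1) a F) D = (MD a (tp F)).det := by
  choose P hP using h m a hm ha
  refine ⟨(Matrix.of P).det, fun F => ?_⟩
  rw [RingHom.map_det]
  congr 1
  ext α β
  exact hP α β F

/-- a regular function on the locus of a nonzero polynomial is a quotient of a polynomial by a power
of that polynomial -/
lemma global {φ : UU n k → ℂ} {D : MvPolynomial (Fin n × Mon n k) ℂ}
    (hD : ∀ F : Fin n → Form n k, eval (ctL n k F) D ≠ 0 → F ∈ UU n k)
    (hφ : Quot.IsRegular (UU n k) φ) :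
    ∃ (t : ℕ) (P : MvPolynomial (Fin n × Mon n k) ℂ), ∀ F : UU n k,
      φ F * eval (ctL n k F.1) D ^ t = eval (ctL n k F.1) P := by
  let I : Ideal (MvPolynomial (Fin n × Mon n k) ℂ) :=
    { carrier := {Q | ∃ P : MvPolynomial (Fin n × Mon n k) ℂ, ∀ F : UU n k,
        φ F * eval (ctL n k F.1) Q = eval (ctL n k F.1) P}
      add_mem' := by
        rintro Q Q' ⟨P, hP⟩ ⟨P', hP'⟩
        refine ⟨P + P', fun f => ?_⟩
        rw [map_add, map_add, ← hP, ← hP', mul_add]
      zero_mem' := ⟨0, fun f => by rw [map_zero, mul_zero]⟩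
      smul_mem' := by
        rintro c Q ⟨P, hP⟩
        refine ⟨c * P, fun f => ?_⟩
        rw [smul_eq_mul, map_mul, map_mul, ← hP]
        ring }
  have h1 : D ∈ I.radical := by
    by_contra h2
    obtain ⟨y, hy, hyD⟩ := exists_zero_of_not_mem_radical h2
    have h3 : ctL n k (tupF y) = y := ctL_tupF y
    have h4 : tupF y ∈ UU n k := hD _ (by rw [h3]; exact hyD)
    obtain ⟨P, hP, Q, hQ, hu, hPQ⟩ := hφ ⟨_, h4⟩
    obtain ⟨P', hP'⟩ := exists_polyT hP
    obtain ⟨Q', hQ'⟩ := exists_polyT hQ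
    have h5 : Q' * Q' ∈ I := by
      refine ⟨P' * Q', fun F => ?_⟩
      rw [map_mul, map_mul, ← hP', ← hQ']
      by_cases h6 : Q F.1 = 0
      · rw [h6]
        ring
      · rw [hPQ F h6]
        field_simp
    have h6 := hy _ h5
    rw [map_mul, ← h3, ← hQ'] at h6
    exact hu (mul_self_eq_zero.1 h6)
  obtain ⟨t, P, hP⟩ := h1
  refine ⟨t, P, fun F => ?_⟩
  rw [← hP F, map_pow]

end GLOBM

open GLOBM in
theorem specGLOB (h1 : SpecUUX) (h2 : SpecCHI) : SpecGLOB := by
  intro m a hm ha φ hφ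
  obtain ⟨D, hD⟩ := exists_det h2 hm ha
  obtain ⟨t, P, hP⟩ := global (D := D) (fun F hF => (h1 m a hm ha F).2 (by rw [← hD F]; exact hF)) hφ
  refine ⟨t, P, fun F => ?_⟩
  rw [← hP F, hD]

end Pool.Agent.Lib.MP_4fcc12_ag.AF
end

section
/-!
# Associated forms, module INJ
-/
open MvPolynomial

namespace Pool.Agent.Lib.MP_4fcc12_ag.AF

namespace INJM

/-- `proot` is natural in the ring -/
lemma map_proot {R R' : Type*} [CommRing R] [CommRing R'] (φ : R →+* R') {m : ℕ} (y : Fin m → R)
    (i : Fin (m + 1)) : φ (proot y i) = proot (fun j => φ (y j)) i := by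
  unfold proot
  rw [← Polynomial.coeff_map, Polynomial.map_prod]
  congr 2
  funext j
  simp

lemma eval_FY {m : ℕ} (y : Fin m → ℂ) (g : MvPolynomial (Fin (m + 1)) ℂ) :
    eval y (FY g) = eval (proot y) g := by
  unfold FY
  have h : (eval y).comp (aeval (proot (X : Fin m → MvPolynomial (Fin m) ℂ)) :
      MvPolynomial (Fin (m + 1)) ℂ →ₐ[ℂ] MvPolynomial (Fin m) ℂ).toRingHom = eval (proot y) := by
    apply MvPolynomial.ringHom_ext
    · intro r
      simp
    · intro i
      have := map_proot (eval y) (X : Fin m → MvPolynomial (Fin m) ℂ) i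
      simp only [eval_X] at this
      simpa using this
  exact congrArg (fun φ => φ g) h

/-- every monic polynomial over `ℂ` is a product -/
lemma exists_proot {m : ℕ} (z : Fin (m + 1) → ℂ) (hz : z (Fin.last m) = 1) :
    ∃ y : Fin m → ℂ, proot y = z := by
  set p : Polynomial ℂ := ∑ i : Fin (m + 1), Polynomial.C (z i) * Polynomial.X ^ (i : ℕ) with hp
  have hcoeff : ∀ i : Fin (m + 1), p.coeff i = z i := by
    intro i
    rw [hp, Polynomial.finsetSum_coeff]
    rw [Finset.sum_eq_single i]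
    · simp
    · intro j _ hj
      rw [Polynomial.coeff_C_mul, Polynomial.coeff_X_pow, if_neg, mul_zero]
      intro h
      exact hj (Fin.ext h.symm)
    · intro h
      exact absurd (Finset.mem_univ i) h
  have hdeg : p.natDegree ≤ m := by
    rw [hp]
    apply Polynomial.natDegree_sum_le_of_forall_le
    intro i _
    refine (Polynomial.natDegree_C_mul_X_pow_le _ _).trans ?_
    have := i.2
    omega
  have hlast : p.coeff m = 1 := by
    have := hcoeff (Fin.last m)
    rw [hz] at this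
    simpa using this
  have hmonic : p.Monic := Polynomial.monic_of_natDegree_le_of_coeff_eq_one m hdeg hlast
  have hnat : p.natDegree = m := by
    apply le_antisymm hdeg
    apply Polynomial.le_natDegree_of_ne_zero
    rw [hlast]
    exact one_ne_zero
  have hsplit : p.Splits := IsAlgClosed.splits p
  have hcard : Multiset.card p.roots = m := by
    rw [← hnat]
    exact (Polynomial.splits_iff_card_roots.1 hsplit)
  have hprod : p = (p.roots.map fun a => Polynomial.X - Polynomial.C a).prod := by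
    have := Polynomial.prod_multiset_X_sub_C_of_monic_of_roots_card_eq hmonic (by rw [hcard, hnat])
    exact this.symm
  -- enumerate the roots
  set l := p.roots.toList with hl
  have hlen : l.length = m := by
    rw [hl, Multiset.length_toList, hcard]
  refine ⟨fun j => l.get (Fin.cast hlen.symm j), ?_⟩
  funext i
  rw [← hcoeff i]
  unfold proot
  congr 1
  have h2 : (p.roots.map fun a => Polynomial.X - Polynomial.C a).prod =
      ((l.map fun a => Polynomial.X - Polynomial.C a)).prod := by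
    conv_lhs => rw [← Multiset.coe_toList p.roots]
    rw [← hl, Multiset.map_coe, Multiset.prod_coe]
  rw [hprod, h2]
  rw [← List.prod_ofFn]
  congr 1
  apply List.ext_get
  · simp [hlen]
  · intro n h1 h2
    simp

end INJM

open INJM in
theorem specINJ : SpecINJ := by
  intro m N g hg hF
  have h1 : ∀ z : Fin (m + 1) → ℂ, z (Fin.last m) ≠ 0 → eval z g = 0 := by
    intro z hz
    set c := z (Fin.last m) with hc
    obtain ⟨y, hy⟩ := exists_proot (fun i => c⁻¹ * z i) (by
      rw [← hc]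
      exact inv_mul_cancel₀ hz)
    have h2 : eval (fun i => c⁻¹ * z i) g = 0 := by
      rw [← hy, ← eval_FY, hF, map_zero]
    have h3 := aeval_mul_of_isHomogeneous hg c⁻¹ z
    rw [aeval_eq_eval, aeval_eq_eval] at h3
    have h4 : eval (fun i => c⁻¹ * z i) g = c⁻¹ ^ N * eval z g := h3
    rw [h2] at h4
    rcases mul_eq_zero.1 h4.symm with h5 | h5
    · exact absurd h5 (pow_ne_zero _ (inv_ne_zero hz))
    · exact h5
  have h2 : X (Fin.last m) * g = 0 := by
    apply MvPolynomial.funext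
    intro z
    rw [map_mul, eval_X, map_zero]
    by_cases hz : z (Fin.last m) = 0
    · rw [hz, zero_mul]
    · rw [h1 z hz, mul_zero]
  rcases mul_eq_zero.1 h2 with h3 | h3
  · exact absurd h3 (X_ne_zero _)
  · exact h3

end Pool.Agent.Lib.MP_4fcc12_ag.AF
end

section
/-!
# Module INVJ: `JJ` is constant on the `SL`-orbit of an associated form
-/
open MvPolynomial

namespace Pool.Agent.Lib.MP_4fcc12_ag.AF

open Pool.Agent.Lib.MP_4fcc12_ag.Quot

namespace INVJM

open Matrix

section gen

variable {n : ℕ}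

/-- Whitehead's formula -/
lemma whitehead {i j : Fin n} (hij : i ≠ j) {t : ℂ} (ht : t ≠ 0) :
    (transvection i j (t - 1) * transvection j i 1) *
      (transvection i j (t⁻¹ - 1) * transvection j i (-t)) =
    (diagonal fun l => if l = i then t else if l = j then t⁻¹ else 1 : Matrix (Fin n) (Fin n) ℂ) := by
  have hji : j ≠ i := Ne.symm hij
  have h1 : transvection i j (t - 1) * transvection j i (1 : ℂ) =
      1 + single i j (t - 1) + single j i 1 + single i i (t - 1) := by
    simp only [transvection, Matrix.add_mul, Matrix.mul_add, Matrix.one_mul, Matrix.mul_one,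
      single_mul_single_same, mul_one]
    abel
  have h2 : transvection i j (t⁻¹ - 1) * transvection j i (-t) =
      1 + single i j (t⁻¹ - 1) + single j i (-t) + single i i ((t⁻¹ - 1) * (-t)) := by
    simp only [transvection, Matrix.add_mul, Matrix.mul_add, Matrix.one_mul, Matrix.mul_one,
      single_mul_single_same]
    abel
  rw [h1, h2]
  simp only [Matrix.add_mul, Matrix.mul_add, Matrix.one_mul, Matrix.mul_one,
    single_mul_single_same, single_mul_single_of_ne _ _ _ _ hij,
    single_mul_single_of_ne _ _ _ _ hji]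
  ext a b
  simp only [Matrix.add_apply, Matrix.one_apply, single_apply, diagonal_apply, Matrix.zero_apply]
  by_cases hab : a = b
  · subst hab
    by_cases hai : a = i
    · subst hai
      simp [hij, hji]
      field_simp
      ring
    · by_cases haj : a = j
      · subst haj
        simp [hij, hji, Ne.symm hai]
      · simp [hai, haj, Ne.symm hai, Ne.symm haj]
  · by_cases h3 : a = i ∧ b = j
    · obtain ⟨rfl, rfl⟩ := h3
      simp [hij, hji]
      field_simp
      ring
    · by_cases h4 : a = j ∧ b = i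
      · obtain ⟨rfl, rfl⟩ := h4
        simp [hij, hji]
        field_simp
        ring
      · have e1 : ¬ (i = a ∧ j = b) := fun h => h3 ⟨h.1.symm, h.2.symm⟩
        have e2 : ¬ (j = a ∧ i = b) := fun h => h4 ⟨h.1.symm, h.2.symm⟩
        have e3 : ¬ (i = a ∧ i = b) := fun h => hab (h.1.symm.trans h.2)
        have e4 : ¬ (j = a ∧ j = b) := fun h => hab (h.1.symm.trans h.2)
        simp [hab, e1, e2, e3, e4]

/-- a multiplicative property of transvections holds for matrices of determinant one -/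
lemma sl_gen (P : Matrix (Fin n) (Fin n) ℂ → Prop) (h1 : P 1)
    (htr : ∀ (i j : Fin n), i ≠ j → ∀ c : ℂ, P (transvection i j c))
    (hmul : ∀ A B, P A → P B → P (A * B)) (M : Matrix (Fin n) (Fin n) ℂ) (hM : M.det = 1) : P M := by
  apply diagonal_transvection_induction P M
  · intro D hD
    rw [hM, det_diagonal] at hD
    rcases Nat.eq_zero_or_pos n with rfl | hn
    · have : (diagonal D : Matrix (Fin 0) (Fin 0) ℂ) = 1 := by
        ext i
        exact i.elim0
      rw [this]
      exact h1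
    · let o : Fin n := ⟨0, hn⟩
      have hD0 : ∀ i, D i ≠ 0 := by
        intro i h0
        rw [Finset.prod_eq_zero (Finset.mem_univ i) h0] at hD
        exact zero_ne_one hD
      have key : ∀ s : Finset (Fin n), o ∉ s →
          P (diagonal fun l => if l = o then (∏ i ∈ s, D i)⁻¹ else if l ∈ s then D l else 1) := by
        intro s
        induction s using Finset.induction_on with
        | empty =>
          intro _
          have : (diagonal fun l : Fin n => if l = o then (∏ i ∈ (∅ : Finset (Fin n)), D i)⁻¹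
              else if l ∈ (∅ : Finset (Fin n)) then D l else 1) = 1 := by
            rw [← diagonal_one]
            congr 1
            funext l
            simp
          rw [this]
          exact h1
        | insert i s his ih =>
          intro ho
          rw [Finset.mem_insert, not_or] at ho
          have hP := hmul _ _ (hmul _ _ (hmul _ _ (htr i o (Ne.symm ho.1) (D i - 1))
            (htr o i ho.1 1)) (hmul _ _ (htr i o (Ne.symm ho.1) ((D i)⁻¹ - 1))
            (htr o i ho.1 (-(D i))))) (ih ho.2)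
          rw [whitehead (Ne.symm ho.1) (hD0 i), diagonal_mul_diagonal] at hP
          have e : (fun l => if l = o then (∏ i ∈ insert i s, D i)⁻¹ else
              if l ∈ insert i s then D l else 1) = fun l => (if l = i then D i else
                if l = o then (D i)⁻¹ else 1) *
                if l = o then (∏ i ∈ s, D i)⁻¹ else if l ∈ s then D l else 1 := by
            funext l
            rw [Finset.prod_insert his]
            by_cases hlo : l = o
            · rw [hlo, if_pos rfl, if_pos rfl, if_neg ho.1, if_pos rfl, mul_inv]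
            · by_cases hli : l = i
              · subst hli
                simp [hlo, his]
              · simp [hlo, hli]
          rw [e]
          exact hP
      have h2 := key (Finset.univ.erase o) (Finset.notMem_erase o _)
      have e : D = fun l => if l = o then (∏ i ∈ Finset.univ.erase o, D i)⁻¹ else
          if l ∈ Finset.univ.erase o then D l else 1 := by
        funext l
        by_cases hlo : l = o
        · rw [if_pos hlo, hlo]
          have h3 := Finset.mul_prod_erase Finset.univ D (Finset.mem_univ o)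
          rw [hD] at h3
          exact eq_inv_of_mul_eq_one_left h3
        · simp [hlo]
      rw [e]
      exact h2
  · intro t
    exact htr t.i t.j t.hij t.c
  · exact hmul

end gen

/-- the value of a polynomial along a curve of transvections is a polynomial -/
lemma exists_curve {n N : ℕ} (J : MvPolynomial (Mon n N) ℂ) (q : Form n N)
    (h : SpecialLinearGroup (Fin n) ℂ) {i j : Fin n} (hij : i ≠ j) :
    ∃ u : Polynomial ℂ, ∀ t, u.eval t =
      eval (cfL n N (sub (h * SpecialLinearGroup.transvection hij t) q)) J := by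
  let φ : ℂ →+* Polynomial ℂ := Polynomial.C
  let v : Mon n N → Polynomial ℂ := cf N (subst (h.1.map Polynomial.C *
    transvection i j (Polynomial.X : Polynomial ℂ)) (MvPolynomial.map Polynomial.C
      (q : MvPolynomial (Fin n) ℂ)))
  obtain ⟨u, hu⟩ := exists_poly_curve J v
  refine ⟨u, fun t => ?_⟩
  rw [hu t]
  congr 2
  funext α
  have h1 : (v α).eval t = coeff α.1 (MvPolynomial.map (Polynomial.evalRingHom t)
      (subst (h.1.map Polynomial.C * transvection i j (Polynomial.X : Polynomial ℂ))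
        (MvPolynomial.map Polynomial.C (q : MvPolynomial (Fin n) ℂ)))) := by
    rw [coeff_map]
    rfl
  rw [h1, map_subst, MvPolynomial.map_map]
  have h2 : (Polynomial.evalRingHom t).comp (Polynomial.C : ℂ →+* Polynomial ℂ) = RingHom.id ℂ := by
    ext x
    simp
  rw [h2, MvPolynomial.map_id, Matrix.map_mul]
  have h3 : (h.1.map (Polynomial.C : ℂ → Polynomial ℂ)).map (Polynomial.evalRingHom t) = h.1 := by
    ext a b
    simp
  have h4 : (transvection i j (Polynomial.X : Polynomial ℂ)).map (Polynomial.evalRingHom t) =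
      transvection i j t := by
    ext a b
    simp only [transvection, Matrix.map_apply, Matrix.add_apply, Matrix.one_apply,
      Matrix.single_apply, map_add]
    split_ifs <;> simp
  rw [h3, h4]
  rfl

end INVJM

open INVJM in
theorem specINVJ (h1 : SpecEQV) (h2 : SpecMB) (h3 : SpecK1) : SpecINVJ := by
  intro m a hm ha F hF g
  obtain ⟨c₁, hc₁⟩ := h3 m a hm ha
  have hne : ∀ F ∈ UU (m + 1) a, eval (cc F) (JJ m a) ≠ 0 := by
    intro F hF h0
    rw [eval_JJ] at h0
    have h4 := congrArg Matrix.det (h2 m a hm ha c₁ hc₁ F hF)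
    rw [Matrix.det_mul, Matrix.det_transpose, h0, mul_zero, Matrix.det_smul, Matrix.det_one,
      mul_one] at h4
    exact pow_ne_zero _ hc₁.1 h4.symm
  have hne2 : ∀ g : Matrix.SpecialLinearGroup (Fin (m + 1)) ℂ,
      eval (cfL _ _ (sub g (psi F))) (JJ m a) ≠ 0 := by
    intro g
    have h4 := (h1 m a hm ha F hF).1 (g.transpose)⁻¹
    have h5 : (((g.transpose)⁻¹)⁻¹).transpose = g := by
      rw [inv_inv]
      apply Subtype.ext
      exact Matrix.transpose_transpose _
    rw [h5] at h4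
    rw [← h4]
    exact hne _ (trT_mem (by omega) _ hF)
  -- the property of the matrices
  let f : Matrix.SpecialLinearGroup (Fin (m + 1)) ℂ → ℂ := fun g =>
    eval (cfL _ _ (sub g (psi F))) (JJ m a)
  let P : Matrix (Fin (m + 1)) (Fin (m + 1)) ℂ → Prop := fun M =>
    ∃ g : Matrix.SpecialLinearGroup (Fin (m + 1)) ℂ, g.1 = M ∧ ∀ h, f (h * g) = f h
  have hP : P g.1 := by
    apply sl_gen P
    · exact ⟨1, rfl, fun h => by rw [mul_one]⟩
    · intro i j hij c
      refine ⟨Matrix.SpecialLinearGroup.transvection hij c, rfl, fun h => ?_⟩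
      obtain ⟨u, hu⟩ := exists_curve (JJ m a) (psi F) h hij
      obtain ⟨c', hc'⟩ := poly_const_of_ne_zero u (fun t => by
        rw [hu]
        exact hne2 _)
      have e1 := hu c
      have e2 := hu 0
      rw [hc', Polynomial.eval_C] at e1 e2
      rw [Matrix.SpecialLinearGroup.transvection_coeff_zero, mul_one] at e2
      exact e1.symm.trans e2
    · rintro A B ⟨g, rfl, hg⟩ ⟨g', rfl, hg'⟩
      refine ⟨g * g', Matrix.SpecialLinearGroup.coe_mul g g', fun h => ?_⟩
      rw [← mul_assoc, hg', hg]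
    · exact g.2
  obtain ⟨g', hg', h6⟩ := hP
  obtain rfl : g' = g := Subtype.ext hg'
  have h7 := h6 1
  rw [one_mul] at h7
  have h8 : sub (1 : Matrix.SpecialLinearGroup (Fin (m + 1)) ℂ) (psi F) = psi F := by
    apply Subtype.ext
    rw [coe_sub, Matrix.SpecialLinearGroup.coe_one, subst_one]
  have h9 : f g' = f 1 := h7
  show f g' = _
  rw [h9]
  show eval (cfL _ _ (sub 1 (psi F))) (JJ m a) = _
  rw [h8]
  rfl

end Pool.Agent.Lib.MP_4fcc12_ag.AF
end

section
open MvPolynomial

namespace Pool.Agent.Lib.MP_4fcc12_ag.AF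

open Pool.Agent.Lib.MP_4fcc12_ag.Quot

theorem specJN (h1 : SpecREY) (h2 : SpecINVJ) (h3 : SpecBM) : SpecJN := by
  intro m a hm ha
  obtain ⟨J, hJ, h⟩ := h1 m a hm ha (Fintype.card (BL m a)) (JJ m a) (JJ_isHomogeneous m a)
  exact ⟨J, hJ, fun F hF => ⟨h (psi F) (fun g => h2 m a hm ha F hF g), (h3 m a hm ha).2.2 F hF⟩⟩

end Pool.Agent.Lib.MP_4fcc12_ag.AF
end

section
/-!
# Module K1: the universal constant of the key identity
-/
open MvPolynomial

namespace Pool.Agent.Lib.MP_4fcc12_ag.AF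

open Pool.Agent.Lib.MP_4fcc12_ag.Quot

namespace K1M

lemma jacP_isHomogeneous {m a : ℕ} (f : Fin (m + 1) → MvPolynomial (Fin (m + 1)) ℂ)
    (hf : ∀ i, (f i).IsHomogeneous a) : (jacP f).IsHomogeneous ((m + 1) * (a - 1)) := by
  rw [jacP, Matrix.det_apply]
  apply IsHomogeneous.sum
  intro σ _
  rw [Units.smul_def, zsmul_eq_mul]
  have h1 : ((((Equiv.Perm.sign σ : ℤˣ) : ℤ) : MvPolynomial (Fin (m + 1)) ℂ)) =
      C (((Equiv.Perm.sign σ : ℤˣ) : ℤ) : ℂ) := by simp
  rw [h1]
  have h2 : (∏ i : Fin (m + 1), (Matrix.of fun i j => pderiv j (f i)) (σ i) i).IsHomogeneous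
      (∑ _i : Fin (m + 1), (a - 1)) := by
    apply IsHomogeneous.prod
    intro i _
    exact (hf (σ i)).pderiv
  have h3 := (isHomogeneous_C (Fin (m + 1)) (((Equiv.Perm.sign σ : ℤˣ) : ℤ) : ℂ)).mul h2
  simpa using h3

lemma isDix_DX {m : ℕ} {f : Fin (m + 1) → MvPolynomial (Fin (m + 1)) ℂ}
    (h : ∃ Φ, IsDix f Φ) : IsDix f (DX f) := by
  rw [DX, dif_pos h]
  exact h.choose_spec

lemma isT_Top {m N : ℕ} (h : ∃ T, IsT m N T) : IsT m N (Top m N) := by
  rw [Top, dif_pos h]
  exact h.choose_spec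

end K1M

open K1M in
theorem specK1 (h1 : SpecMAT) (h2 : SpecDIAG) (h3 : SpecTM) (h4 : SpecTS) (h5 : SpecTDET)
    (h6 : SpecDD) (h7 : SpecDIX) : SpecK1 := by
  intro m a hm ha
  obtain ⟨c₀, hc₀, hdiag⟩ := h2 m a (by omega)
  have ha0 : (a : ℂ) ≠ 0 := Nat.cast_ne_zero.2 (by omega)
  have ham : (a : ℂ) ^ m ≠ 0 := pow_ne_zero _ ha0
  have hmf : (m.factorial : ℂ) ≠ 0 := Nat.cast_ne_zero.2 (Nat.factorial_ne_zero m)
  refine ⟨c₀ / (a : ℂ) ^ m, div_ne_zero hc₀ ham, ?_⟩
  intro f hf G hG
  have hT : IsT m ((m + 1) * (a - 1)) (Top m ((m + 1) * (a - 1))) := isT_Top (h5 m _ hm)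
  obtain ⟨δ, hδ, _⟩ := h6 m a f hf
  have hDX : IsDix f (DX f) := isDix_DX ⟨_, (h7 m f δ hδ).1⟩
  -- arithmetic of the degrees
  obtain ⟨a, rfl⟩ : ∃ b, a = b + 2 := ⟨a - 2, by omega⟩
  obtain ⟨m, rfl⟩ : ∃ l, m = l + 1 := ⟨m - 1, by omega⟩
  have hN0 : (m + 1 + 1) * (a + 2 - 1) = m * a + m + 2 * a + 2 := by
    have : a + 2 - 1 = a + 1 := by omega
    rw [this]
    ring
  have hN : (m + 1 + 1) * (a + 2 - 1) - (a + 2) + (a + 2) = (m + 1 + 1) * (a + 2 - 1) := by
    have h8 : a + 2 ≤ (m + 1 + 1) * (a + 2 - 1) := by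
      rw [hN0]
      have : 0 ≤ m * a := Nat.zero_le _
      omega
    omega
  have hD : (m + 1 + 1) * (a + 2 - 1) - (a + 2) + (m + 1) - 1 = (m + 1) * (a + 2) - 2 := by
    rw [hN0]
    have : (m + 1) * (a + 2) = m * a + 2 * m + a + 2 := by ring
    rw [this]
    omega
  have hH : ∀ i h, (∀ l, degreeOf l h ≤ (m + 1) * (a + 2) - 2) →
      (G ∘ₗ Top (m + 1) ((m + 1 + 1) * (a + 2 - 1))) (FY (f i) * h) = 0 := by
    intro i h hh
    obtain ⟨q, hq, hq'⟩ := h3 (m + 1) ((m + 1 + 1) * (a + 2 - 1) - (a + 2)) (a + 2) hm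
      (Top (m + 1) ((m + 1 + 1) * (a + 2 - 1))) (by rw [hN]; exact hT) (f i) (hf i) h
      (by rw [hD]; exact hh)
    rw [LinearMap.comp_apply, hq']
    exact hG i q hq
  obtain ⟨κ, hκ1, hκ2⟩ := h1 (m + 1) (a + 2) hm ha f hf (DX f) hDX
    (G ∘ₗ Top (m + 1) ((m + 1 + 1) * (a + 2 - 1))) hH
  rw [hκ1]
  congr 1
  rw [hdiag f hf (DX f) hDX, ← smul_eq_C_mul, map_smul, LinearMap.comp_apply,
    (h4 (m + 1) ((m + 1 + 1) * (a + 2 - 1)) hm _ hT (jacP f) (jacP_isHomogeneous f hf)).2,
    map_smul, smul_eq_mul, smul_eq_mul] at hκ2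
  rw [div_mul_eq_mul_div, eq_div_iff ham]
  apply mul_right_cancel₀ hmf
  linear_combination hκ2

end Pool.Agent.Lib.MP_4fcc12_ag.AF
end

section
/-!
# Matrix form of the key identity
-/
open MvPolynomial

namespace Pool.Agent.Lib.MP_4fcc12_ag.AF

namespace MATM

variable {m a : ℕ}

lemma degreeOf_monomial_eL (α : BL m a) (j : Fin m) :
    degreeOf j (monomial (eL α) (1 : ℂ)) ≤ ((j : ℕ) + 1) * a - 1 := by
  rw [degreeOf_monomial_eq _ _ one_ne_zero]
  have h1 : (eL α) j < ((j : ℕ) + 1) * a := (α j).2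
  omega

lemma rename_inr_monomial (δ : Fin m →₀ ℕ) (γ : Fin m ⊕ Fin m →₀ ℕ) (c : ℂ) :
    ∃ γ' : Fin m ⊕ Fin m →₀ ℕ, exL γ' = exL γ ∧ exR γ' = δ + exR γ ∧
      rename Sum.inr (monomial δ (1 : ℂ)) * monomial γ c = (monomial γ' c : S m) := by
  refine ⟨Finsupp.mapDomain Sum.inr δ + γ, ?_, ?_, ?_⟩
  · ext j
    show (Finsupp.mapDomain Sum.inr δ + γ : Fin m ⊕ Fin m →₀ ℕ) (Sum.inl j) = γ (Sum.inl j)
    rw [Finsupp.add_apply, Finsupp.mapDomain_of_notMem_range _ _ (by simp), zero_add]
  · ext j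
    show (Finsupp.mapDomain Sum.inr δ + γ : Fin m ⊕ Fin m →₀ ℕ) (Sum.inr j) = δ j + γ (Sum.inr j)
    rw [Finsupp.add_apply, Finsupp.mapDomain_apply Sum.inr_injective]
  · rw [rename_monomial, monomial_mul, one_mul]

lemma TT_expand (H : MvPolynomial (Fin m) ℂ →ₗ[ℂ] ℂ) (ha : 1 ≤ a) {Φ : S m}
    (h : ∀ j : Fin m, degreeOf (Sum.inl j) Φ ≤ ((j : ℕ) + 1) * a - 1 ∧
      degreeOf (Sum.inr j) Φ ≤ (m - (j : ℕ)) * a - 1) (α : BL m a) :
    TT H (rename Sum.inr (monomial (eL α) (1 : ℂ)) * Φ) =
      ∑ α' : BL m a, ∑ β : BR m a, monomial (eL α') (Mm a Φ α' β * Bm a H α β) := by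
  conv_lhs => rw [expand ha h]
  rw [Finset.mul_sum, map_sum]
  apply Finset.sum_congr rfl
  intro α' _
  rw [Finset.mul_sum, map_sum]
  apply Finset.sum_congr rfl
  intro β _
  obtain ⟨γ', h1, h2, h3⟩ := rename_inr_monomial (eL α) (eLR α' β) (coeff (eLR α' β) Φ)
  rw [h3, TT_monomial, h1, h2, exL_eLR, exR_eLR]
  rfl

end MATM

open MATM

theorem specMAT (h1 : SpecKEY) (_h2 : SpecTTP) (h3 : SpecDEG) : SpecMAT := by
  intro m a hm ha f hf Φ hΦ H hH
  obtain ⟨κ, hκ⟩ := h1 m a hm ha f hf Φ hΦ H hH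
  have hdeg := h3 m a (by omega) f hf Φ hΦ
  have hentry : Mm a Φ * (Bm a H).transpose = κ • 1 := by
    refine Matrix.ext fun α' α => ?_
    have h4 := hκ (monomial (eL α) (1 : ℂ)) (fun j => degreeOf_monomial_eL α j)
    rw [TT_expand H (by omega) hdeg α] at h4
    have h5 := congrArg (coeff (eL α')) h4
    simp only [coeff_sum, coeff_monomial, C_mul_monomial, mul_one] at h5
    rw [Finset.sum_eq_single α'] at h5
    · simp only [if_true] at h5
      rw [Matrix.mul_apply, Matrix.smul_apply, Matrix.one_apply, smul_eq_mul]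
      simp only [Matrix.transpose_apply]
      rw [h5]
      by_cases h6 : α = α'
      · subst h6
        simp
      · rw [if_neg (fun h => h6 (eL_injective h)), if_neg (Ne.symm h6), mul_zero]
    · intro α'' _ hα
      apply Finset.sum_eq_zero
      intro β _
      rw [if_neg (fun h => hα (eL_injective h))]
    · intro h6
      exact absurd (Finset.mem_univ _) h6
  refine ⟨κ, hentry, ?_⟩
  have htr := congrArg Matrix.trace hentry
  rw [Matrix.trace_smul, Matrix.trace_one, card_BL] at htr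
  have h7 : aeval (Sum.elim X X : Fin m ⊕ Fin m → MvPolynomial (Fin m) ℂ) Φ =
      ∑ α : BL m a, ∑ β : BR m a, Mm a Φ α β • monomial (eL α + eR β) (1 : ℂ) := by
    conv_lhs => rw [expand (a := a) (by omega) hdeg]
    rw [map_sum]
    apply Finset.sum_congr rfl
    intro α _
    rw [map_sum]
    apply Finset.sum_congr rfl
    intro β _
    rw [aeval_monomial, smul_monomial, smul_eq_mul, mul_one, Finsupp.prod_fintype _ _ (by simp),
      Fintype.prod_sum_type]
    simp only [Sum.elim_inl, Sum.elim_inr, eLR_inl, eLR_inr]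
    rw [← Finset.prod_mul_distrib]
    conv_rhs => rw [monomial_eq, Finsupp.prod_fintype _ _ (by simp)]
    rw [algebraMap_eq]
    congr 1
    apply Finset.prod_congr rfl
    intro j _
    rw [← pow_add]
    rfl
  rw [h7, map_sum]
  push_cast at htr
  rw [← smul_eq_mul, ← htr, Matrix.trace]
  apply Finset.sum_congr rfl
  intro α _
  rw [Matrix.diag_apply, Matrix.mul_apply, map_sum]
  apply Finset.sum_congr rfl
  intro β _
  rw [map_smul, smul_eq_mul]
  rfl

end Pool.Agent.Lib.MP_4fcc12_ag.AF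
end

section
/-!
# The coefficients of the associated form are rational functions of the tuple
-/
open MvPolynomial

namespace Pool.Agent.Lib.MP_4fcc12_ag.AF

open Pool.Agent.Lib.MP_4fcc12_ag.Quot

namespace MURM

variable {m a : ℕ}

lemma GC_monomial {n N : ℕ} (c : Mon n N → ℂ) (i : Mon n N) :
    GC c (monomial i.1 (1 : ℂ)) = c i / (Nat.multinomial Finset.univ i.1 : ℂ) := by
  rw [GC, LinearMap.sum_apply, Finset.sum_eq_single i]
  · rw [LinearMap.smul_apply, lcoeff_apply, coeff_monomial, if_pos rfl, smul_eq_mul, mul_one]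
  · intro j _ hj
    rw [LinearMap.smul_apply, lcoeff_apply, coeff_monomial, if_neg, smul_zero]
    intro h
    exact hj (Subtype.ext h.symm)
  · intro h
    exact absurd (Finset.mem_univ _) h

lemma isT_Top (h : SpecTDET) (m N : ℕ) (hm : 1 ≤ m) : IsT m N (Top m N) := by
  rw [Top, dif_pos (h m N hm)]
  exact (h m N hm).choose_spec

/-- a polynomial with bounded degrees is a combination of monomials in the boxes -/
lemma sum_box (ha : 1 ≤ a) {u : MvPolynomial (Fin m) ℂ}
    (hu : ∀ j, degreeOf j u ≤ (m + 1) * a - 2) :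
    ∃ (s : Finset (Fin m →₀ ℕ)) (k : (Fin m →₀ ℕ) → ℂ) (p : (Fin m →₀ ℕ) → BL m a)
      (q : (Fin m →₀ ℕ) → BR m a), u = ∑ γ ∈ s, k γ • monomial (eL (p γ) + eR (q γ)) (1 : ℂ) := by
  classical
  have h1 : ∀ γ : Fin m →₀ ℕ, ∃ (α : BL m a) (β : BR m a), γ ∈ u.support → eL α + eR β = γ := by
    intro γ
    by_cases hγ : γ ∈ u.support
    · obtain ⟨α, β, h⟩ := exists_eL_add_eR (m := m) ha (γ := γ)
        (fun j => (monomial_le_degreeOf j hγ).trans (hu j))
      exact ⟨α, β, fun _ => h⟩
    · exact ⟨fun j => ⟨0, Nat.mul_pos (by omega) ha⟩, fun j => ⟨0, Nat.mul_pos (by omega) ha⟩,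
        fun h => absurd h hγ⟩
  choose p q hpq using h1
  refine ⟨u.support, fun γ => coeff γ u, p, q, ?_⟩
  conv_lhs => rw [u.as_sum]
  apply Finset.sum_congr rfl
  intro γ hγ
  rw [hpq γ hγ, smul_monomial, smul_eq_mul, mul_one]

end MURM

open MURM

theorem specMUR (h1 : SpecMB) (h2 : SpecK1) (h3 : SpecTS) (h4 : SpecTDET) (h5 : SpecCHI) :
    SpecMUR := by
  intro m a hm ha i
  obtain ⟨c₁, hc₁⟩ := h2 m a hm ha
  choose Q hQ using h5 m a hm ha
  -- the matrix of polynomials
  let MQ : Matrix (BL m a) (BL m a) (MvPolynomial (Fin (m + 1) × Mon (m + 1) a) ℂ) :=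
    Matrix.of fun α β => Q α β
  have hMQ : ∀ F : Fin (m + 1) → Form (m + 1) a,
      (eval (ctL (m + 1) a F)).mapMatrix MQ = MD a (tp F) := by
    intro F
    refine Matrix.ext fun α β => ?_
    rw [RingHom.mapMatrix_apply, Matrix.map_apply]
    exact hQ α β F
  have hadj : ∀ (F : Fin (m + 1) → Form (m + 1) a) (α β : BL m a),
      eval (ctL (m + 1) a F) (MQ.adjugate α β) = (MD a (tp F)).adjugate α β := by
    intro F α β
    rw [← hMQ F, ← RingHom.map_adjugate, RingHom.mapMatrix_apply, Matrix.map_apply]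
  have hBG : ∀ F ∈ UU (m + 1) a, ∀ α β : BL m a,
      BG m a (cc F) α β * (MD a (tp F)).det = c₁ * (MD a (tp F)).adjugate β α := by
    intro F hF α β
    have e1 := h1 m a hm ha c₁ hc₁ F hF
    have e2 : (MD a (tp F)).adjugate * (MD a (tp F) * (BG m a (cc F)).transpose) =
        (MD a (tp F)).adjugate * (c₁ • 1) := by rw [e1]
    rw [← mul_assoc, Matrix.adjugate_mul, Matrix.smul_mul, one_mul, Matrix.mul_smul,
      mul_one] at e2
    have e3 := congrFun (congrFun e2 β) α
    rw [Matrix.smul_apply, Matrix.smul_apply, Matrix.transpose_apply, smul_eq_mul,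
      smul_eq_mul] at e3
    rw [mul_comm, e3]
  obtain ⟨hd, hT⟩ := h3 m ((m + 1) * (a - 1)) hm (Top m ((m + 1) * (a - 1))) (isT_Top h4 m ((m + 1) * (a - 1)) hm) (monomial i.1 (1 : ℂ))
    (isHomogeneous_monomial _ i.2)
  have hN2 : (m + 1) * (a - 1) + m - 1 = (m + 1) * a - 2 := by
    have e0 : (m + 1) * a = (m + 1) * (a - 1) + (m + 1) := by
      rw [← Nat.mul_succ]
      congr 1
      omega
    omega
  obtain ⟨s, k, p, q, hu⟩ := sum_box (a := a) (by omega)
    (fun j => (hd j).trans (le_of_eq hN2))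
  -- the functional of the associated form
  have hGC : ∀ c : Mon (m + 1) ((m + 1) * (a - 1)) → ℂ, (m.factorial : ℂ) * GC c (monomial i.1 (1 : ℂ)) =
      ∑ γ ∈ s, k γ * BG m a c (p γ) ((eBB m a).symm (q γ)) := by
    intro c
    have e1 := congrArg (GC c) hT
    rw [map_smul, smul_eq_mul] at e1
    rw [← e1, hu, map_sum, map_sum]
    apply Finset.sum_congr rfl
    intro γ _
    rw [map_smul, map_smul, smul_eq_mul]
    congr 1
    rw [BG, Matrix.submatrix_apply, Equiv.apply_symm_apply]
    rfl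
  have hfac : (m.factorial : ℂ) ≠ 0 := by exact_mod_cast m.factorial_ne_zero
  have hmul : (Nat.multinomial Finset.univ i.1 : ℂ) ≠ 0 := by
    exact_mod_cast (Nat.multinomial_pos _ _).ne'
  refine ⟨C ((Nat.multinomial Finset.univ i.1 : ℂ) / (m.factorial : ℂ)) *
    ∑ γ ∈ s, C (k γ * c₁) * MQ.adjugate ((eBB m a).symm (q γ)) (p γ), ?_⟩
  intro F hF
  rw [map_mul, eval_C, map_sum]
  have e5 : cc F i = (Nat.multinomial Finset.univ i.1 : ℂ) / (m.factorial : ℂ) *
      ∑ γ ∈ s, k γ * BG m a (cc F) (p γ) ((eBB m a).symm (q γ)) := by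
    rw [← hGC (cc F), GC_monomial]
    field_simp
  rw [e5, mul_assoc, Finset.sum_mul]
  congr 1
  apply Finset.sum_congr rfl
  intro γ _
  rw [map_mul, eval_C, hadj, mul_assoc, hBG F hF, mul_assoc]

end Pool.Agent.Lib.MP_4fcc12_ag.AF
end
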