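import Pool.Agent.Lib.MP_4fcc12_ag.AF.Spec
import Mathlib.RingTheory.MvPolynomial.Ideal

open MvPolynomial

namespace Pool.Agent.Lib.MP_4fcc12_ag.AF

namespace SOCM

variable {n : ℕ}

/-- the monomial ideal generated by the `z_j ^ b`, `j ∈ s` -/
noncomputable def W (s : Set (Fin n)) (b : ℕ) : Ideal (MvPolynomial (Fin n) ℂ) :=
  Ideal.span ((fun j => (X j : MvPolynomial (Fin n) ℂ) ^ b) '' s)

lemma mem_W {s : Set (Fin n)} {b : ℕ} {p : MvPolynomial (Fin n) ℂ} :
    p ∈ W s b ↔ ∀ e ∈ p.support, ∃ j ∈ s, b ≤ e j := by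
  have h1 : ((fun j => (X j : MvPolynomial (Fin n) ℂ) ^ b) '' s) =
      ((fun e => monomial e (1 : ℂ)) '' ((fun j => Finsupp.single j b) '' s)) := by
    rw [Set.image_image]
    apply Set.image_congr
    intro j _
    exact X_pow_eq_monomial
  rw [W, h1, mem_ideal_span_monomial_image]
  constructor
  · intro h e he
    obtain ⟨x, ⟨j, hj, rfl⟩, hx⟩ := h e he
    exact ⟨j, hj, by simpa using hx j⟩
  · intro h e he
    obtain ⟨j, hj, hx⟩ := h e he
    refine ⟨_, ⟨j, hj, rfl⟩, ?_⟩
    simpa using hx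

lemma mul_X_mem {i : Fin n} {s : Set (Fin n)} (hi : i ∉ s) {b : ℕ} {p : MvPolynomial (Fin n) ℂ}
    (h : X i * p ∈ W s b) : p ∈ W s b := by
  rw [mem_W] at h ⊢
  intro e he
  obtain ⟨j, hj, hb⟩ := h (e + Finsupp.single i 1) (by
    rw [mem_support_iff, add_comm, coeff_X_mul]
    exact mem_support_iff.1 he)
  refine ⟨j, hj, ?_⟩
  have hji : i ≠ j := by
    rintro rfl
    exact hi hj
  simpa [Finsupp.single_apply, hji] using hb

lemma X_pow_mem {s : Set (Fin n)} {b : ℕ} {j : Fin n} (hj : j ∈ s) :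
    (X j : MvPolynomial (Fin n) ℂ) ^ b ∈ W s b := Ideal.subset_span ⟨j, hj, rfl⟩

/-- one row replaced -/
lemma one_row {b : ℕ} (S : Matrix (Fin n) (Fin n) (MvPolynomial (Fin n) ℂ)) (i : Fin n)
    (h1 : ∀ j, j ≠ i → S.mulVec X j = X j ^ b) (h2 : S.mulVec X i = 0) :
    S.det ∈ W (Set.univ : Set (Fin n)) b := by
  have h3 : (S.adjugate.mulVec (S.mulVec X)) i = S.det * X i := by
    rw [Matrix.mulVec_mulVec, Matrix.adjugate_mul, Matrix.smul_mulVec, Matrix.one_mulVec]
    rfl
  have h4 : X i * S.det ∈ W {j | j ≠ i} b := by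
    rw [mul_comm, ← h3, Matrix.mulVec, dotProduct]
    apply Ideal.sum_mem
    intro j _
    by_cases hj : j = i
    · rw [hj, h2, mul_zero]
      exact Ideal.zero_mem _
    · rw [h1 j hj]
      exact Ideal.mul_mem_left _ _ (X_pow_mem hj)
  have h5 := mul_X_mem (by simp) h4
  rw [mem_W] at h5 ⊢
  intro e he
  obtain ⟨j, _, h6⟩ := h5 e he
  exact ⟨j, trivial, h6⟩

lemma det_sub {b : ℕ} (M M' : Matrix (Fin n) (Fin n) (MvPolynomial (Fin n) ℂ))
    (h1 : ∀ j, M.mulVec X j = X j ^ b) (h2 : ∀ j, M'.mulVec X j = X j ^ b) :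
    M.det - M'.det ∈ W (Set.univ : Set (Fin n)) b := by
  classical
  -- hybrid matrices
  obtain ⟨H, hH⟩ : ∃ H : Finset (Fin n) → Matrix (Fin n) (Fin n) (MvPolynomial (Fin n) ℂ),
      ∀ s i j, H s i j = if i ∈ s then M' i j else M i j :=
    ⟨fun s => Matrix.of fun i j => if i ∈ s then M' i j else M i j, fun _ _ _ => rfl⟩
  have hrow : ∀ s j, (H s).mulVec X j = X j ^ b := by
    intro s j
    by_cases hj : j ∈ s
    · have : (H s).mulVec X j = M'.mulVec X j := by
        rw [Matrix.mulVec, Matrix.mulVec, dotProduct, dotProduct]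
        exact Finset.sum_congr rfl fun l _ => by rw [hH, if_pos hj]
      rw [this, h2]
    · have : (H s).mulVec X j = M.mulVec X j := by
        rw [Matrix.mulVec, Matrix.mulVec, dotProduct, dotProduct]
        exact Finset.sum_congr rfl fun l _ => by rw [hH, if_neg hj]
      rw [this, h1]
  have key : ∀ s : Finset (Fin n), M.det - (H s).det ∈ W (Set.univ : Set (Fin n)) b := by
    intro s
    induction s using Finset.induction_on with
    | empty =>
      have : H ∅ = M := by
        apply Matrix.ext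
        intro i j
        rw [hH, if_neg (Finset.notMem_empty i)]
      rw [this, sub_self]
      exact Ideal.zero_mem _
    | insert i s hi ih =>
      have h3 : H (insert i s) = (H s).updateRow i (M' i) := by
        apply Matrix.ext
        intro k l
        rw [hH, Matrix.updateRow_apply, hH]
        by_cases hk : k = i
        · subst hk
          simp
        · simp [hk]
      have h4 : H s = (H s).updateRow i (M i) := by
        have : (H s) i = M i := by
          funext l
          rw [hH, if_neg hi]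
        rw [← this, Matrix.updateRow_eq_self]
      have h5 : (H s).det - (H (insert i s)).det = ((H s).updateRow i (M i - M' i)).det := by
        have h6 := Matrix.det_updateRow_add (H s) i (M i - M' i) (M' i)
        rw [sub_add_cancel, ← h4, ← h3] at h6
        rw [h6]
        ring
      have h7 : ((H s).updateRow i (M i - M' i)).det ∈ W (Set.univ : Set (Fin n)) b := by
        apply one_row _ i
        · intro j hj
          rw [← hrow s j, Matrix.mulVec, Matrix.mulVec, Matrix.updateRow_ne hj]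
        · rw [Matrix.mulVec, Matrix.updateRow_self]
          have h8 := h1 i
          have h9 := h2 i
          rw [Matrix.mulVec] at h8 h9
          rw [sub_dotProduct, h8, h9, sub_self]
      have h10 : M.det - (H (insert i s)).det =
          (M.det - (H s).det) + ((H s).det - (H (insert i s)).det) := by ring
      rw [h10, h5]
      exact Ideal.add_mem _ ih h7
  have h11 := key Finset.univ
  have h12 : H Finset.univ = M' := by
    apply Matrix.ext
    intro i j
    rw [hH, if_pos (Finset.mem_univ i)]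
  rwa [h12] at h11

/-- Nullstellensatz -/
lemma exists_pow (F : Fin n → MvPolynomial (Fin n) ℂ)
    (h0 : ∀ p : Fin n → ℂ, (∀ i, eval p (F i) = 0) → p = 0) :
    ∃ b : ℕ, 1 ≤ b ∧ ∀ i, (X i : MvPolynomial (Fin n) ℂ) ^ b ∈ Ideal.span (Set.range F) := by
  classical
  have h1 : ∀ i, (X i : MvPolynomial (Fin n) ℂ) ∈ (Ideal.span (Set.range F)).radical := by
    intro i
    rw [← vanishingIdeal_zeroLocus_eq_radical (K := ℂ), mem_vanishingIdeal_iff]
    intro x hx
    have h2 : x = 0 := by
      apply h0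
      intro j
      have := (mem_zeroLocus_iff.1 hx) (F j) (Ideal.subset_span ⟨j, rfl⟩)
      rwa [aeval_eq_eval] at this
    rw [h2, aeval_X]
    rfl
  have h3 : ∀ i, ∃ b : ℕ, (X i : MvPolynomial (Fin n) ℂ) ^ b ∈ Ideal.span (Set.range F) := h1
  choose b hb using h3
  refine ⟨∑ i, b i + 1, by omega, fun i => ?_⟩
  have h4 : b i ≤ ∑ i, b i + 1 :=
    (Finset.single_le_sum (f := b) (fun _ _ => Nat.zero_le _) (Finset.mem_univ i)).trans
      (Nat.le_succ _)
  exact Ideal.pow_mem_of_pow_mem _ (hb i) h4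

end SOCM

open SOCM in
theorem specSOC : SpecSOC := by
  classical
  intro n k hk F hF h0 hjac
  obtain ⟨b, hb, hb'⟩ := exists_pow F h0
  have hB : ∀ i, ∃ c : Fin n → MvPolynomial (Fin n) ℂ, ∑ j, c j * F j = X i ^ b := by
    intro i
    exact (Ideal.mem_span_range_iff_exists_fun).1 (hb' i)
  choose B hB using hB
  obtain ⟨BM, hBM⟩ : ∃ BM : Matrix (Fin n) (Fin n) (MvPolynomial (Fin n) ℂ), ∀ i j, BM i j = B i j :=
    ⟨Matrix.of B, fun _ _ => rfl⟩
  obtain ⟨JM, hJM⟩ : ∃ JM : Matrix (Fin n) (Fin n) (MvPolynomial (Fin n) ℂ),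
      JM = Matrix.of fun i j => pderiv j (F i) := ⟨_, rfl⟩
  have hBF : ∀ i, BM.mulVec F i = X i ^ b := by
    intro i
    rw [← hB i, Matrix.mulVec, dotProduct]
    exact Finset.sum_congr rfl fun j _ => by rw [hBM]
  have hk0 : (k : ℂ) ≠ 0 := by exact_mod_cast (by omega : k ≠ 0)
  -- Euler
  have hE : ∀ j, JM.mulVec X j = (k : MvPolynomial (Fin n) ℂ) * F j := by
    intro j
    have h1 := (hF j).sum_X_mul_pderiv
    rw [nsmul_eq_mul] at h1
    rw [← h1, Matrix.mulVec, dotProduct]
    apply Finset.sum_congr rfl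
    intro l _
    rw [hJM, Matrix.of_apply, mul_comm]
  obtain ⟨D, hD⟩ : ∃ D : Matrix (Fin n) (Fin n) (MvPolynomial (Fin n) ℂ),
      D = (C ((k : ℂ)⁻¹) : MvPolynomial (Fin n) ℂ) • (BM * JM) := ⟨_, rfl⟩
  have hDX : ∀ i, D.mulVec X i = X i ^ b := by
    intro i
    have h1 : JM.mulVec X = (C (k : ℂ) : MvPolynomial (Fin n) ℂ) • F := by
      funext j
      rw [hE, Pi.smul_apply, smul_eq_mul, map_natCast]
    rw [hD, Matrix.smul_mulVec, ← Matrix.mulVec_mulVec, h1, Matrix.mulVec_smul, Pi.smul_apply,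
      Pi.smul_apply, hBF, smul_eq_mul, smul_eq_mul, ← mul_assoc, ← C_mul, inv_mul_cancel₀ hk0, C_1,
      one_mul]
  -- the diagonal matrix
  obtain ⟨E, hE'⟩ : ∃ E : Matrix (Fin n) (Fin n) (MvPolynomial (Fin n) ℂ),
      E = Matrix.diagonal fun i => X i ^ (b - 1) := ⟨_, rfl⟩
  have hEX : ∀ i, E.mulVec X i = X i ^ b := by
    intro i
    rw [hE', Matrix.mulVec_diagonal, ← pow_succ, Nat.sub_add_cancel hb]
  have h1 := det_sub E D hEX hDX
  -- `det D ∈ W`
  have h2 : ∀ p ∈ Ideal.span (Set.range F), BM.det * p ∈ W (Set.univ : Set (Fin n)) b := by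
    intro p hp
    obtain ⟨c, hc⟩ := (Ideal.mem_span_range_iff_exists_fun).1 hp
    rw [← hc, Finset.mul_sum]
    apply Ideal.sum_mem
    intro j _
    have h3 : (BM.adjugate.mulVec (BM.mulVec F)) j = BM.det * F j := by
      rw [Matrix.mulVec_mulVec, Matrix.adjugate_mul, Matrix.smul_mulVec, Matrix.one_mulVec]
      rfl
    have h4 : BM.det * (c j * F j) = c j * (BM.adjugate.mulVec (BM.mulVec F)) j := by
      rw [h3]
      ring
    rw [h4]
    apply Ideal.mul_mem_left
    rw [Matrix.mulVec, dotProduct]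
    apply Ideal.sum_mem
    intro l _
    rw [hBF]
    exact Ideal.mul_mem_left _ _ (X_pow_mem trivial)
  have h5 : D.det ∈ W (Set.univ : Set (Fin n)) b := by
    rw [hD, Matrix.det_smul, Matrix.det_mul]
    apply Ideal.mul_mem_left
    rw [hJM]
    exact h2 _ hjac
  have h6 : E.det ∈ W (Set.univ : Set (Fin n)) b := by
    have := Ideal.add_mem _ h1 h5
    rwa [sub_add_cancel] at this
  rw [hE', Matrix.det_diagonal] at h6
  have h7 : (∏ i : Fin n, (X i : MvPolynomial (Fin n) ℂ) ^ (b - 1)) =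
      monomial (Finsupp.equivFunOnFinite.symm fun _ => b - 1) 1 := by
    rw [monomial_eq, C_1, one_mul, Finsupp.prod_fintype _ _ (by simp)]
    simp
  rw [h7, mem_W] at h6
  obtain ⟨j, _, hj⟩ := h6 (Finsupp.equivFunOnFinite.symm fun _ => b - 1) (by
    rw [mem_support_iff, coeff_monomial, if_pos rfl]
    exact one_ne_zero)
  rw [Finsupp.equivFunOnFinite_symm_apply_apply] at hj
  omega

end Pool.Agent.Lib.MP_4fcc12_ag.AF
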