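import Pool.Agent.Lib.MP_4fcc12_ag.AF.Defs

/-!
# Associated forms: statements of the modules (work split)

Paper: /team-store/MP_4fcc12_ag_Q2_h66.md. Numbers: `n = m + 1` variables `z_0, …, z_m`, forms of
degree `a ≥ 2`, `N = (m + 1) (a - 1)`. The variables `x_j, y_j` (`j : Fin m`) are
`X (Sum.inl j)`, `X (Sum.inr j)` in `S m`.
-/

open MvPolynomial

namespace Pool.Agent.Lib.MP_4fcc12_ag.AF

open Pool.Agent.Lib.MP_4fcc12_ag.Quot

section defs

variable {m : ℕ}

/-- `proot y i` is the coefficient of `s ^ i` in `∏ j, (s - y j)` -/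
noncomputable def proot {R : Type*} [CommRing R] (y : Fin m → R) (i : Fin (m + 1)) : R :=
  (∏ j, (Polynomial.X - Polynomial.C (y j))).coeff i

/-- `f (π (y))` -/
noncomputable def FY (f : MvPolynomial (Fin (m + 1)) ℂ) : MvPolynomial (Fin m) ℂ :=
  aeval (proot X) f

/-- polynomials in `x_j = X (inl j)`, `y_j = X (inr j)` -/
abbrev S (m : ℕ) := MvPolynomial (Fin m ⊕ Fin m) ℂ

/-- the chain `X_k = (y_1, …, y_k, x_{k+1}, …, x_m)` -/
noncomputable def chain (m k : ℕ) (j : Fin m) : S m :=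
  if (j : ℕ) < k then X (Sum.inr j) else X (Sum.inl j)

/-- `f (π (X_k))` -/
noncomputable def FX (f : MvPolynomial (Fin (m + 1)) ℂ) (k : ℕ) : S m := aeval (proot (chain m k)) f

/-- `Φ` is the Dixon kernel of the tuple `f` -/
def IsDix (f : Fin (m + 1) → MvPolynomial (Fin (m + 1)) ℂ) (Φ : S m) : Prop :=
  (∏ j : Fin m, (X (Sum.inl j) - X (Sum.inr j))) * Φ =
    (Matrix.of fun i k : Fin (m + 1) => FX (f i) k).det

/-- divided differences of the tuple along the chain -/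
def IsDiff (f : Fin (m + 1) → MvPolynomial (Fin (m + 1)) ℂ) (δ : Fin m → Fin (m + 1) → S m) : Prop :=
  ∀ l i, (X (Sum.inr l) - X (Sum.inl l)) * δ l i = FX (f i) (l + 1) - FX (f i) l

/-- the matrix with first column `c` and further columns `δ l` -/
noncomputable def dmat (c : Fin (m + 1) → S m) (δ : Fin m → Fin (m + 1) → S m) :
    Matrix (Fin (m + 1)) (Fin (m + 1)) (S m) :=
  Matrix.of fun i k => Fin.cases (c i) (fun l => δ l i) k

/-- the Jacobian determinant -/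
noncomputable def jacP (f : Fin (m + 1) → MvPolynomial (Fin (m + 1)) ℂ) :
    MvPolynomial (Fin (m + 1)) ℂ := (Matrix.of fun i j => pderiv j (f i)).det

/-- the Vandermonde determinant -/
noncomputable def vdm (m : ℕ) : MvPolynomial (Fin m) ℂ :=
  (Matrix.vandermonde (X : Fin m → MvPolynomial (Fin m) ℂ)).det

/-- alternation -/
noncomputable def alt (h : MvPolynomial (Fin m) ℂ) : MvPolynomial (Fin m) ℂ :=
  ∑ σ : Equiv.Perm (Fin m), ((Equiv.Perm.sign σ : ℤˣ) : ℤ) • rename σ h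

/-- the defining property of the operators `T_N` -/
structure IsT (m N : ℕ) (T : MvPolynomial (Fin m) ℂ →ₗ[ℂ] MvPolynomial (Fin (m + 1)) ℂ) :
    Prop where
  hom : ∀ h, (T h).IsHomogeneous N
  alt : ∀ h, (∀ j, degreeOf j h ≤ N + m - 1) → FY (T h) * vdm m = alt h

open Classical in
/-- the operator `T_N` -/
noncomputable def Top (m N : ℕ) : MvPolynomial (Fin m) ℂ →ₗ[ℂ] MvPolynomial (Fin (m + 1)) ℂ :=
  if h : ∃ T, IsT m N T then h.choose else 0

open Classical in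
/-- the Dixon kernel -/
noncomputable def DX (f : Fin (m + 1) → MvPolynomial (Fin (m + 1)) ℂ) : S m :=
  if h : ∃ Φ, IsDix f Φ then h.choose else 0

/-- the `x`-part of an exponent -/
noncomputable def exL (γ : Fin m ⊕ Fin m →₀ ℕ) : Fin m →₀ ℕ :=
  Finsupp.equivFunOnFinite.symm fun j => γ (Sum.inl j)

/-- the `y`-part of an exponent -/
noncomputable def exR (γ : Fin m ⊕ Fin m →₀ ℕ) : Fin m →₀ ℕ :=
  Finsupp.equivFunOnFinite.symm fun j => γ (Sum.inr j)

/-- the `ℂ[x]`-linear extension of a functional `H` on `ℂ[y]` -/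
noncomputable def TT (H : MvPolynomial (Fin m) ℂ →ₗ[ℂ] ℂ) : S m →ₗ[ℂ] MvPolynomial (Fin m) ℂ :=
  (basisMonomials (Fin m ⊕ Fin m) ℂ).constr ℂ fun γ =>
    monomial (exL γ) (H (monomial (exR γ) 1))

lemma TT_monomial (H : MvPolynomial (Fin m) ℂ →ₗ[ℂ] ℂ) (γ : Fin m ⊕ Fin m →₀ ℕ) (c : ℂ) :
    TT H (monomial γ c) = monomial (exL γ) (c * H (monomial (exR γ) 1)) := by
  have h1 : (monomial γ c : S m) = c • basisMonomials (Fin m ⊕ Fin m) ℂ γ := by
    rw [coe_basisMonomials, smul_monomial, smul_eq_mul, mul_one]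
  rw [h1, map_smul, TT, Module.Basis.constr_basis, smul_monomial, smul_eq_mul]

/-- exponents `α` with `α j ≤ (j + 1) a - 1` -/
abbrev BL (m a : ℕ) := (j : Fin m) → Fin (((j : ℕ) + 1) * a)

/-- exponents `β` with `β j ≤ (m - j) a - 1` -/
abbrev BR (m a : ℕ) := (j : Fin m) → Fin ((m - (j : ℕ)) * a)

/-- the exponent -/
noncomputable def eL {a : ℕ} (α : BL m a) : Fin m →₀ ℕ := Finsupp.equivFunOnFinite.symm fun j => (α j : ℕ)

/-- the exponent -/
noncomputable def eR {a : ℕ} (β : BR m a) : Fin m →₀ ℕ := Finsupp.equivFunOnFinite.symm fun j => (β j : ℕ)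

/-- the exponent of `x ^ α y ^ β` -/
noncomputable def eLR {a : ℕ} (α : BL m a) (β : BR m a) : Fin m ⊕ Fin m →₀ ℕ :=
  Finsupp.equivFunOnFinite.symm (Sum.elim (fun j => (α j : ℕ)) fun j => (β j : ℕ))

lemma card_BL_BR (m a : ℕ) : Fintype.card (BL m a) = Fintype.card (BR m a) := by
  rw [Fintype.card_pi, Fintype.card_pi]
  simp only [Fintype.card_fin]
  apply Fintype.prod_equiv Fin.revPerm
  intro j
  congr 1
  rw [Fin.revPerm_apply, Fin.val_rev]
  omega

/-- a bijection between the two boxes of exponents -/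
noncomputable def eBB (m a : ℕ) : BL m a ≃ BR m a := Fintype.equivOfCardEq (card_BL_BR m a)

/-- coefficients of the kernel -/
noncomputable def Mm (a : ℕ) (Φ : S m) : Matrix (BL m a) (BR m a) ℂ :=
  Matrix.of fun α β => coeff (eLR α β) Φ

/-- the matrix `H (y ^ (α + β))` -/
noncomputable def Bm (a : ℕ) (H : MvPolynomial (Fin m) ℂ →ₗ[ℂ] ℂ) : Matrix (BL m a) (BR m a) ℂ :=
  Matrix.of fun α β => H (monomial (eL α + eR β) 1)

/-- square version of `Mm` -/
noncomputable def MD (a : ℕ) (f : Fin (m + 1) → MvPolynomial (Fin (m + 1)) ℂ) :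
    Matrix (BL m a) (BL m a) ℂ := (Mm a (DX f)).submatrix id (eBB m a)

/-- the functional on forms of degree `N` given by the coefficients `c` of a form in the dual
variables -/
noncomputable def GC {n N : ℕ} (c : Mon n N → ℂ) : MvPolynomial (Fin n) ℂ →ₗ[ℂ] ℂ :=
  ∑ i : Mon n N, (c i / (Nat.multinomial Finset.univ i.1 : ℂ)) • MvPolynomial.lcoeff ℂ i.1

/-- square version of `Bm` -/
noncomputable def BG (m a : ℕ) (c : Mon (m + 1) ((m + 1) * (a - 1)) → ℂ) :
    Matrix (BL m a) (BL m a) ℂ :=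
  (Bm a (GC c ∘ₗ Top m ((m + 1) * (a - 1)))).submatrix id (eBB m a)

/-- the determinant of `BG`, as a polynomial -/
noncomputable def JJ (m a : ℕ) : MvPolynomial (Mon (m + 1) ((m + 1) * (a - 1))) ℂ :=
  (Matrix.of fun α β : BL m a => ∑ i : Mon (m + 1) ((m + 1) * (a - 1)),
    C (coeff i.1 (Top m ((m + 1) * (a - 1)) (monomial (eL α + eR (eBB m a β)) 1)) /
      (Nat.multinomial Finset.univ i.1 : ℂ)) * X i).det

lemma eval_JJ (m a : ℕ) (c : Mon (m + 1) ((m + 1) * (a - 1)) → ℂ) :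
    eval c (JJ m a) = (BG m a c).det := by
  rw [JJ, RingHom.map_det]
  congr 1
  refine Matrix.ext fun α β => ?_
  simp only [RingHom.mapMatrix_apply, Matrix.map_apply, Matrix.of_apply, map_sum, map_mul, eval_C,
    eval_X, BG, Bm, GC, Matrix.submatrix_apply, id_eq, LinearMap.comp_apply, LinearMap.sum_apply,
    LinearMap.smul_apply, lcoeff_apply, smul_eq_mul]
  apply Finset.sum_congr rfl
  intro i _
  ring

lemma JJ_isHomogeneous (m a : ℕ) : (JJ m a).IsHomogeneous (Fintype.card (BL m a)) := by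
  rw [JJ, Matrix.det_apply]
  apply IsHomogeneous.sum
  intro σ _
  rw [Units.smul_def, zsmul_eq_mul]
  have h1 : ((((Equiv.Perm.sign σ : ℤˣ) : ℤ) : MvPolynomial (Mon (m + 1) ((m + 1) * (a - 1))) ℂ)) =
      C (((Equiv.Perm.sign σ : ℤˣ) : ℤ) : ℂ) := by simp
  rw [h1]
  have h2 : (∏ i : BL m a, (Matrix.of fun α β : BL m a => ∑ i : Mon (m + 1) ((m + 1) * (a - 1)),
    C (coeff i.1 (Top m ((m + 1) * (a - 1)) (monomial (eL α + eR (eBB m a β)) 1)) /
      (Nat.multinomial Finset.univ i.1 : ℂ)) * X i) (σ i) i).IsHomogeneous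
      (∑ _i : BL m a, 1) := by
    apply IsHomogeneous.prod
    intro i _
    apply IsHomogeneous.sum
    intro j _
    exact isHomogeneous_C_mul_X _ _
  have h3 := (isHomogeneous_C (Mon (m + 1) ((m + 1) * (a - 1)))
    (((Equiv.Perm.sign σ : ℤˣ) : ℤ) : ℂ)).mul h2
  simpa using h3

/-- `c₁` is the universal constant of the key identity -/
def IsC1 (m a : ℕ) (c₁ : ℂ) : Prop :=
  c₁ ≠ 0 ∧ ∀ f : Fin (m + 1) → MvPolynomial (Fin (m + 1)) ℂ, (∀ i, (f i).IsHomogeneous a) →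
    ∀ G : MvPolynomial (Fin (m + 1)) ℂ →ₗ[ℂ] ℂ,
    (∀ i q, q.IsHomogeneous ((m + 1) * (a - 1) - a) → G (f i * q) = 0) →
    Mm a (DX f) * (Bm a (G ∘ₗ Top m ((m + 1) * (a - 1)))).transpose = (c₁ * G (jacP f)) • 1

/-- the polynomials of the tuple -/
noncomputable def tp {n k : ℕ} (F : Fin n → Form n k) : Fin n → MvPolynomial (Fin n) ℂ :=
  fun i => (F i : MvPolynomial (Fin n) ℂ)

/-- the coefficient vector of the associated form -/
noncomputable def cc {n k : ℕ} (F : Fin n → Form n k) : Mon n (n * (k - 1)) → ℂ :=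
  cfL n (n * (k - 1)) (psi F)

/-- translation of a tuple -/
noncomputable def trT {n k : ℕ} (g : Matrix.SpecialLinearGroup (Fin n) ℂ) (F : Fin n → Form n k) :
    Fin n → Form n k := fun i => sub g (F i)

/-- linear combinations of a tuple -/
noncomputable def lcT {n k : ℕ} (A : Matrix (Fin n) (Fin n) ℂ) (F : Fin n → Form n k) :
    Fin n → Form n k := fun i => ∑ j, A i j • F j

lemma trT_mem {n k : ℕ} (hk : 1 ≤ k) (g : Matrix.SpecialLinearGroup (Fin n) ℂ)
    {F : Fin n → Form n k} (hF : F ∈ UU n k) : trT g F ∈ UU n k := by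
  have h1 : NoCommonZero (trT g F) := by
    intro p hp
    have h2 : g.1.mulVec p = 0 := by
      apply hF.2
      intro i
      have h3 := hp i
      rw [trT, coe_sub, eval_subst] at h3
      exact h3
    have h4 := congrArg (fun v => (g⁻¹).1.mulVec v) h2
    simp only [Matrix.mulVec_zero, Matrix.mulVec_mulVec] at h4
    rw [← Matrix.SpecialLinearGroup.coe_mul, inv_mul_cancel, Matrix.SpecialLinearGroup.coe_one,
      Matrix.one_mulVec] at h4
    exact h4
  exact ⟨linearIndependent_of_noCommonZero hk h1, h1⟩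

lemma lcT_mem {n k : ℕ} (hk : 1 ≤ k) {A : Matrix (Fin n) (Fin n) ℂ} (hA : A.det ≠ 0)
    {F : Fin n → Form n k} (hF : F ∈ UU n k) : lcT A F ∈ UU n k := by
  have h1 : NoCommonZero (lcT A F) := by
    intro p hp
    apply hF.2
    have h2 : A.mulVec (fun j => eval p (F j : MvPolynomial (Fin n) ℂ)) = 0 := by
      funext i
      have h3 := hp i
      rw [lcT, AddSubmonoidClass.coe_finsetSum, map_sum] at h3
      rw [Matrix.mulVec, dotProduct, Pi.zero_apply, ← h3]
      apply Finset.sum_congr rfl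
      intro j _
      rw [SetLike.val_smul, smul_eval]
    have h4 := Matrix.eq_zero_of_mulVec_eq_zero hA h2
    exact fun i => congrFun h4 i
  exact ⟨linearIndependent_of_noCommonZero hk h1, h1⟩

/-- The functions `P (Ψ(F)) / J (Ψ(F)) ^ s` of the tuple `F`. -/
def BB (m a : ℕ) : Subalgebra ℂ (UU (m + 1) a → ℂ) where
  carrier := {φ | ∃ (s : ℕ) (P : MvPolynomial (Mon (m + 1) ((m + 1) * (a - 1))) ℂ),
    ∀ F : UU (m + 1) a, φ F * eval (cc F.1) (JJ m a) ^ s = eval (cc F.1) P}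
  mul_mem' := by
    rintro φ φ' ⟨s, P, h⟩ ⟨s', P', h'⟩
    refine ⟨s + s', P * P', fun F => ?_⟩
    rw [map_mul, ← h, ← h', Pi.mul_apply, pow_add]
    ring
  add_mem' := by
    rintro φ φ' ⟨s, P, h⟩ ⟨s', P', h'⟩
    refine ⟨s + s', P * JJ m a ^ s' + P' * JJ m a ^ s, fun F => ?_⟩
    rw [map_add, map_mul, map_mul, map_pow, map_pow, ← h, ← h', Pi.add_apply, pow_add]
    ring
  algebraMap_mem' := by
    intro c
    refine ⟨0, C c, fun F => ?_⟩
    rw [pow_zero, mul_one, eval_C]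
    rfl

end defs

/-! ### Modules. File `AF/XXX.lean` proves `theorem specXXX (h : SpecYYY) … : SpecXXX`. -/

/-- MODULE SOC (no dependencies): the Jacobian determinant of a tuple of forms without common zero
is not in the ideal of the tuple. Proof. By the Nullstellensatz (`MvPolynomial.vanishingIdeal_zeroLocus_eq_radical`)
`z_i ^ b ∈ (F)` for some `b ≥ 1` and all `i`: `z_i ^ b = ∑ j, B i j * F j`. Euler:
`k F_j = ∑ l, (∂_l F_j) z_l`, so with `A' j l = (1/k) ∂_l F_j` and `C = B A'`: `C z = (z_i ^ b)`.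
LEMMA D: `C z = (z_i ^ b)` implies `det C - ∏ z_i ^ (b-1) ∈ (z_0^b, …)`: replace the rows of `C` one
at a time by the rows of `diag (z_i ^ (b-1))` (both matrices satisfy the equation); if two such
matrices differ only in row `i`, the difference of the determinants is `det S` with
`(S z)_j = z_j ^ b` (`j ≠ i`), `(S z)_i = 0` (`Matrix.det_updateRow_add`). Cramer
(`Matrix.adjugate_mul`): `z_i det S = ∑ j, (adj S) i j (S z)_j ∈ (z_j ^ b : j ≠ i)`, and `z_i` is a
nonzerodivisor modulo this monomial ideal (`MvPolynomial.mem_ideal_span_X_image`-like: membership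
in a monomial ideal is tested on the monomials of the support, `MvPolynomial.mem_ideal_span_monomial_image`).
If `Jac = k^n det A'` were in `(F)`: `det B * F_j ∈ (z^b)` (Cramer), so
`det B * det A' = det C ∈ (z^b)`, hence `∏ z_i ^ (b-1) ∈ (z^b)`, false. -/
def SpecSOC : Prop :=
  ∀ (n k : ℕ), 1 ≤ k → ∀ F : Fin n → MvPolynomial (Fin n) ℂ, (∀ i, (F i).IsHomogeneous k) →
    (∀ p : Fin n → ℂ, (∀ i, eval p (F i) = 0) → p = 0) →
    (Matrix.of fun i j => pderiv j (F i)).det ∉ Ideal.span (Set.range F)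

/-- MODULE TDET (no dependencies): existence of the operators `T_N`. For an exponent `β` with all
`β j ≤ D := N + m - 1` let `T (y ^ β)` be (up to a universal sign) the determinant of the square
matrix of size `N + m` (columns `k = 0, …, D`): rows `i < N`: the coefficients of `s^k` in
`s^i g(s)`, `g(s) = ∑ l, z_l s^l` (entry `X l` at `k = i + l`); rows `N + j`: the unit vector
`e_{β j}`; `T (y ^ β) := 0` for the other exponents. Homogeneous of degree `N`. Apply
`aeval (proot X)`: then row `i < N` is the coefficient vector of `s^i ∏ (s - y_j)`. Multiply on the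
right by the matrix `W` with columns `(y_l ^ k)_k` (`l < m`) and `e_k`, `k = m, …, D`. The product
is block triangular: rows `i < N`: `0` in the first `m` columns (`y_l` is a root), and a
unitriangular `N × N` block (`∏ (s - y_j)` is monic of degree `m`); rows `N + j`: `y_l ^ β j`. So the
determinant is `± det (y_l ^ β j) = ± alt (y ^ β)`, and `det W = ± vdm m`. Signs only depend on
`m, N`. Use index types `Fin N ⊕ Fin m` / `Fin m ⊕ Fin N` and `Matrix.det_fromBlocks_zero₁₂`,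
`Matrix.det_reindex…`. Extend linearly (`(basisMonomials _ _).constr`). -/
def SpecTDET : Prop := ∀ (m N : ℕ), 1 ≤ m → ∃ T, IsT m N T

/-- MODULE INJ (no dependencies): a homogeneous `g` with `g (π (y)) = 0` is zero: for
`z : Fin (m+1) → ℂ` with `z_m = 1` the monic polynomial `∑ z_l s^l` splits over `ℂ`, so
`z = proot y` for some `y : Fin m → ℂ` and `eval z g = eval y (FY g) = 0`. So `g` vanishes on
`z_m = 1`, by homogeneity on `z_m ≠ 0`, so `X_m * g = 0` (`MvPolynomial.funext`). -/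
def SpecINJ : Prop :=
  ∀ (m N : ℕ) (g : MvPolynomial (Fin (m + 1)) ℂ), g.IsHomogeneous N → FY g = 0 → g = 0

/-- MODULE SYM (no dependencies): symmetry and degrees of `FY`, ends of the chain. (For the degree:
`proot X i` has degree `≤ 1` in every variable; a homogeneous polynomial of degree `a` in such
elements has degree `≤ a`.) -/
def SpecSYM : Prop :=
  ∀ (m : ℕ) (f : MvPolynomial (Fin (m + 1)) ℂ), (∀ σ : Equiv.Perm (Fin m), rename σ (FY f) = FY f) ∧
    (∀ a, f.IsHomogeneous a → ∀ j, degreeOf j (FY f) ≤ a) ∧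
    FX f m = rename Sum.inr (FY f) ∧ FX f 0 = rename Sum.inl (FY f)

/-- MODULE TM: `T_{N+a} (F h) = f q`. With `T'` an operator for `N`: `q := T' h`;
`FY (T (FY f * h)) * vdm = alt (FY f * h) = FY f * alt h = FY f * FY (T' h) * vdm`, cancel `vdm ≠ 0`,
and `INJ`. -/
def SpecTM : Prop :=
  ∀ (m N a : ℕ), 1 ≤ m → ∀ T, IsT m (N + a) T → ∀ f : MvPolynomial (Fin (m + 1)) ℂ,
    f.IsHomogeneous a → ∀ h : MvPolynomial (Fin m) ℂ, (∀ j, degreeOf j h ≤ N + m - 1) →
    ∃ q : MvPolynomial (Fin (m + 1)) ℂ, q.IsHomogeneous N ∧ T (FY f * h) = f * q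

/-- MODULE TS: `T_N (Δ g(π)) = m! g`. `vdm m` has degree `≤ m - 1` in every variable;
`alt (vdm * FY g) = m! vdm * FY g` (`rename σ (vdm m) = sign σ • vdm m`, `Matrix.det_permute`),
cancel `vdm`, and `INJ`. -/
def SpecTS : Prop :=
  ∀ (m N : ℕ), 1 ≤ m → ∀ T, IsT m N T → ∀ g : MvPolynomial (Fin (m + 1)) ℂ, g.IsHomogeneous N →
    (∀ j, degreeOf j (vdm m * FY g) ≤ N + m - 1) ∧ T (vdm m * FY g) = (m.factorial : ℂ) • g

/-- MODULE DEGX (no dependencies): degrees of `FX`. -/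
def SpecDEGX : Prop :=
  ∀ (m a : ℕ) (f : MvPolynomial (Fin (m + 1)) ℂ), f.IsHomogeneous a → ∀ (k : ℕ) (j : Fin m),
    degreeOf (Sum.inl j) (FX f k) ≤ a ∧ degreeOf (Sum.inr j) (FX f k) ≤ a ∧
    ((j : ℕ) < k → degreeOf (Sum.inl j) (FX f k) = 0) ∧
    (k ≤ (j : ℕ) → degreeOf (Sum.inr j) (FX f k) = 0)

/-- MODULE DD: divided differences along the chain, with their degrees. `FX f l` is obtained from
`FX f (l+1)` by the substitution `y_l → x_l` (`chain m l`, `chain m (l+1)` differ at `l` only), so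
the difference is divisible by `y_l - x_l` (e.g. `MvPolynomial` version of `sub_dvd_eval_sub`, or:
the difference `∏_j (s - w_j) - ∏_j (s - w'_j)` of the two products is `(x_l - y_l) ∏_{j ≠ l}`, then
induction on `f`). The degrees of the quotient follow from the additivity of `degreeOf` in the
domain `S m` (`degreeOf_mul_eq`) and `DEGX`. -/
def SpecDD : Prop :=
  ∀ (m a : ℕ) (f : Fin (m + 1) → MvPolynomial (Fin (m + 1)) ℂ), (∀ i, (f i).IsHomogeneous a) →
    ∃ δ, IsDiff f δ ∧ ∀ (l : Fin m) i, degreeOf (Sum.inr l) (δ l i) ≤ a - 1 ∧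
      (∀ j < l, degreeOf (Sum.inr j) (δ l i) ≤ a) ∧ ∀ j, l < j → degreeOf (Sum.inr j) (δ l i) = 0

/-- MODULE DIX (no dependencies): `det [FX f 0 | … | FX f m] = ∏ (y_l - x_l) det [FX f 0 | δ_0 | …]`
(column operations: subtract column `l` from column `l + 1`, beginning with the last one, e.g.
`Matrix.det_eq_of_forall_col_eq_smul_add_pred`; then take out the factors, `Matrix.det_mul_row`…), and
`FX f m - FX f 0 = ∑ (y_l - x_l) δ_l` is a combination of the other columns. Cancel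
`∏ (x_j - y_j) ≠ 0` for the uniqueness. -/
def SpecDIX : Prop :=
  ∀ (m : ℕ) (f : Fin (m + 1) → MvPolynomial (Fin (m + 1)) ℂ) (δ : Fin m → Fin (m + 1) → S m),
    IsDiff f δ → IsDix f ((-1) ^ m * (dmat (fun i => FX (f i) 0) δ).det) ∧
      ∀ Φ, IsDix f Φ → Φ = (-1) ^ m * (dmat (fun i => FX (f i) 0) δ).det ∧
        Φ = (-1) ^ m * (dmat (fun i => FX (f i) m) δ).det

/-- MODULE DEG: degrees of the Dixon kernel. `x_j` occurs in the columns `FX f k`, `k ≤ j` (that is
`j + 1` columns), `y_j` in the columns `k > j` (`m - j` columns). So the determinant has degree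
`≤ (j+1) a` resp. `≤ (m-j) a` (`Matrix.det_apply`, `degreeOf_sum_le`, `degreeOf_prod_le`), and the
factor `x_j - y_j` has degree one in `x_j` and in `y_j`; `degreeOf` is additive. -/
def SpecDEG : Prop :=
  ∀ (m a : ℕ), 1 ≤ a → ∀ f : Fin (m + 1) → MvPolynomial (Fin (m + 1)) ℂ,
    (∀ i, (f i).IsHomogeneous a) → ∀ Φ, IsDix f Φ → ∀ j : Fin m,
      degreeOf (Sum.inl j) Φ ≤ ((j : ℕ) + 1) * a - 1 ∧
      degreeOf (Sum.inr j) Φ ≤ (m - (j : ℕ)) * a - 1

/-- MODULE REL: `(y_j - x_j) Φ = ∑ i, FX (f i) m * c i`. From `DIX`: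
`Φ = (-1)^m det [FX m | δ_0 …]`; `(y_j - x_j) δ_j = (FX m - FX 0) - ∑_{l ≠ j} (y_l - x_l) δ_l`
(telescoping), so `(y_j - x_j) det [FX m | δ] = - det [FX m | δ with FX 0 at place j]`; expand along
the first column (`Matrix.det_succ_column_zero`). The minors have entries `FX 0` (no `y`) and
`δ_l`, `l ≠ j`; degrees in `y_l` from `DD`: the columns `δ_{l'}`, `l' > l`, give `≤ a` each, `δ_l`
gives `≤ a - 1`. (`l < j`: `(m-2-l) a + (a-1)`; `l = j`: `(m-1-j) a`; `l > j`: `(m-1-l) a + (a-1)`.) -/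
def SpecREL : Prop :=
  ∀ (m a : ℕ), 1 ≤ a → ∀ f : Fin (m + 1) → MvPolynomial (Fin (m + 1)) ℂ,
    (∀ i, (f i).IsHomogeneous a) → ∀ Φ, IsDix f Φ → ∀ j : Fin m, ∃ c : Fin (m + 1) → S m,
      (X (Sum.inr j) - X (Sum.inl j)) * Φ = ∑ i, FX (f i) m * c i ∧
      ∀ i, (∀ l < j, degreeOf (Sum.inr l) (c i) ≤ (m - 1 - (l : ℕ)) * a - 1) ∧
        degreeOf (Sum.inr j) (c i) ≤ (m - 1 - (j : ℕ)) * a ∧
        ∀ l, j < l → degreeOf (Sum.inr l) (c i) ≤ (m - (l : ℕ)) * a - 1

/-- MODULE WR (no dependencies): `det [π | ∂_1 π | … | ∂_m π] = c Δ`, `c = ± 1`. In the basis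
`1, s, …, s^m`: column 0 is `P(s) = ∏ (s - y_j)` (last entry `1`), column `l + 1` is
`- ∏_{j ≠ l} (s - y_j) =: - P_l`, of degree `m - 1` (last entry `0`). So the determinant is
`±` the determinant of the coefficient matrix `(P_l)_k`, `k < m`, and
`(coefficients of P_l)_k * (y_j ^ k)` is the diagonal matrix `∏_{j ≠ l} (y_l - y_j)` with determinant
`± Δ^2` (`Matrix.det_vandermonde`); cancel `Δ`. -/
def SpecWR : Prop :=
  ∀ m : ℕ, ∃ c : ℂ, c ≠ 0 ∧
    (Matrix.of fun i k : Fin (m + 1) => Fin.cases (motive := fun _ => MvPolynomial (Fin m) ℂ)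
      (proot X i) (fun l => pderiv l (proot X i)) k).det = C c * vdm m

/-- MODULE DIAG: the kernel on the diagonal. By `DIX` (first formula, `δ` from `DD`) and
`aeval (Sum.elim X X)` (a ring homomorphism `S m → ℂ[y]`), which maps `FX f k` to `FY f` and `δ_l`
to `∂_l (FY f)` (apply `pderiv (inr l)` to `IsDiff` and then `aeval (Sum.elim X X)`; the left side
gives `δ_l`, the right side `∂_{y_l} FX f (l+1)` as `FX f l` does not contain `y_l`). Chain rule:
`∂_l (FY f) = ∑ k, FY (∂_k f) * ∂_l (proot X k)`; Euler: `a FY f = ∑ k, FY (∂_k f) * proot X k`. So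
the matrix is `(FY (∂_k f_i)) * [π / a | ∂_l π]`, whose determinant is `FY (jacP f) * (1/a) * c * vdm`
by `WR`. -/
def SpecDIAG : Prop :=
  ∀ (m a : ℕ), 1 ≤ a → ∃ c₀ : ℂ, c₀ ≠ 0 ∧ ∀ f : Fin (m + 1) → MvPolynomial (Fin (m + 1)) ℂ,
    (∀ i, (f i).IsHomogeneous a) → ∀ Φ, IsDix f Φ →
      aeval (Sum.elim X X : Fin m ⊕ Fin m → MvPolynomial (Fin m) ℂ) Φ = C c₀ * (vdm m * FY (jacP f))

/-- MODULE TTP (no dependencies): properties of the `ℂ[x]`-linear extension `TT H` (check on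
monomials with `TT_monomial`; for the last one write `h` as the sum of its monomials `x^α y^β` with
`β l ≤ D l`). -/
def SpecTTP : Prop :=
  ∀ (m : ℕ) (H : MvPolynomial (Fin m) ℂ →ₗ[ℂ] ℂ),
    (∀ (p : MvPolynomial (Fin m) ℂ) (h : S m), TT H (rename Sum.inl p * h) = p * TT H h) ∧
    (∀ h : MvPolynomial (Fin m) ℂ, TT H (rename Sum.inr h) = C (H h)) ∧
    (∀ (h : S m) (j : Fin m), degreeOf j (TT H h) ≤ degreeOf (Sum.inl j) h) ∧
    ∀ (p : MvPolynomial (Fin m) ℂ) (D : Fin m → ℕ),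
      (∀ h : MvPolynomial (Fin m) ℂ, (∀ l, degreeOf l h ≤ D l) → H (p * h) = 0) →
      ∀ h : S m, (∀ l, degreeOf (Sum.inr l) h ≤ D l) → TT H (rename Sum.inr p * h) = 0

/-- MODULE UDD (no dependencies): `u(y) - u(x) = ∑ j, (y_j - x_j) v_j` with
`v_j = (u(X_{j+1}) - u(X_j)) / (y_j - x_j)`. (For a monomial `u = ∏ y_l^{e_l}`:
`v_j = ∏_{l<j} y_l^{e_l} ∏_{l>j} x_l^{e_l} ∑_{p+q=e_j-1} y_j^p x_j^q`; extend linearly. Or existence
by divisibility, and additivity of `degreeOf`.) -/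
def SpecUDD : Prop :=
  ∀ (m : ℕ) (u : MvPolynomial (Fin m) ℂ), ∃ v : Fin m → S m,
    rename Sum.inr u - rename Sum.inl u = ∑ j, (X (Sum.inr j) - X (Sum.inl j)) * v j ∧
    ∀ j, (∀ l < j, degreeOf (Sum.inr l) (v j) ≤ degreeOf l u) ∧
      degreeOf (Sum.inr j) (v j) ≤ degreeOf j u - 1 ∧
      ∀ l, j < l → degreeOf (Sum.inr l) (v j) = 0

/-- MODULE TEL: `H_y (u(y) Φ(x, y)) = u(x) H_y (Φ)`. By `UDD`, `u(y) Φ = u(x) Φ + ∑ v_j (y_j - x_j) Φ`
and by `REL` `v_j (y_j - x_j) Φ = ∑ i, FX (f i) m * (c_i v_j)` with degrees of `c_i v_j` in `y_l`: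
`l < j`: `(m-1-l)a - 1 + (l+1)a - 1 = m a - 2`; `l = j`: `(m-1-j)a + (j+1)a - 2 = m a - 2` (if
`degreeOf j u = 0` then `v_j` has degree `0` too; be careful with the truncated subtraction:
`(m-1-j) a ≤ m a - a ≤ m a - 2`, here `a ≥ 2` is used); `l > j`: `(m-l)a - 1 ≤ m a - 2`. Then `TTP`
(last part) and `SYM` (`FX f m = rename inr (FY f)`). -/
def SpecTEL : Prop :=
  ∀ (m a : ℕ), 1 ≤ m → 2 ≤ a → ∀ f : Fin (m + 1) → MvPolynomial (Fin (m + 1)) ℂ,
    (∀ i, (f i).IsHomogeneous a) → ∀ Φ, IsDix f Φ → ∀ H : MvPolynomial (Fin m) ℂ →ₗ[ℂ] ℂ,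
    (∀ i h, (∀ l, degreeOf l h ≤ m * a - 2) → H (FY (f i) * h) = 0) →
    ∀ u : MvPolynomial (Fin m) ℂ, (∀ j : Fin m, degreeOf j u ≤ ((j : ℕ) + 1) * a - 1) →
      TT H (rename Sum.inr u * Φ) = u * TT H Φ

/-- MODULE KEY: the factor is a constant: take `u = ∏ x_j^{(j+1)a-1}` in `TEL`: by `TTP` (degrees)
and `DEG`, `u * TT H Φ` has degree `≤ (j+1)a - 1` in `x_j`, so `TT H Φ` (zero or) has degree `0` in
every variable, hence is a constant. -/
def SpecKEY : Prop :=
  ∀ (m a : ℕ), 1 ≤ m → 2 ≤ a → ∀ f : Fin (m + 1) → MvPolynomial (Fin (m + 1)) ℂ,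
    (∀ i, (f i).IsHomogeneous a) → ∀ Φ, IsDix f Φ → ∀ H : MvPolynomial (Fin m) ℂ →ₗ[ℂ] ℂ,
    (∀ i h, (∀ l, degreeOf l h ≤ m * a - 2) → H (FY (f i) * h) = 0) →
    ∃ κ : ℂ, ∀ u : MvPolynomial (Fin m) ℂ, (∀ j : Fin m, degreeOf j u ≤ ((j : ℕ) + 1) * a - 1) →
      TT H (rename Sum.inr u * Φ) = C κ * u

/-- MODULE MAT: matrix form of `KEY`. By `DEG`, `Φ = ∑ α β, Mm α β • x^α y^β` (sum over the boxes), so
the coefficient of `x ^ (eL α')` in `TT H (y ^ (eL α) Φ)` is `∑ β, Mm α' β * H (y ^ (eL α + eR β))`,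
which is `κ` if `α = α'` and `0` otherwise. Trace: `κ * card (BL m a) = ∑ α β, Mm α β * H (y ^ (α+β))
= H (Φ(y, y))`, `card (BL m a) = m! a^m`. -/
def SpecMAT : Prop :=
  ∀ (m a : ℕ), 1 ≤ m → 2 ≤ a → ∀ f : Fin (m + 1) → MvPolynomial (Fin (m + 1)) ℂ,
    (∀ i, (f i).IsHomogeneous a) → ∀ Φ, IsDix f Φ → ∀ H : MvPolynomial (Fin m) ℂ →ₗ[ℂ] ℂ,
    (∀ i h, (∀ l, degreeOf l h ≤ m * a - 2) → H (FY (f i) * h) = 0) →
    ∃ κ : ℂ, Mm a Φ * (Bm a H).transpose = κ • 1 ∧
      κ * ((m.factorial : ℂ) * (a : ℂ) ^ m) =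
        H (aeval (Sum.elim X X : Fin m ⊕ Fin m → MvPolynomial (Fin m) ℂ) Φ)

/-- MODULE K1: the universal constant. `H = G ∘ Top`: the hypothesis of `MAT` holds by `TM` (with
`N' = (m+1)(a-1) - a`, `N' + m - 1 = m a - 2`); `κ m! a^m = H (c₀ vdm FY(jac)) = c₀ m! G (jac)` by
`DIAG`, `TS`. `DX f` is a kernel by `DD`, `DIX` (`Classical` choice), `Top` is an operator by `TDET`.
`c₁ = c₀ / a^m`. -/
def SpecK1 : Prop := ∀ (m a : ℕ), 1 ≤ m → 2 ≤ a → ∃ c₁, IsC1 m a c₁

/-- MODULE ND: a functional with `Bm = 0` vanishes on forms of degree `N`: `m! g = T (vdm FY g)` and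
`vdm FY g` is a combination of `y ^ γ`, `γ_j ≤ N + m - 1 = (m+1) a - 2`, and such a `γ` is
`eL α + eR β`. -/
def SpecND : Prop :=
  ∀ (m a : ℕ), 1 ≤ m → 2 ≤ a → ∀ G : MvPolynomial (Fin (m + 1)) ℂ →ₗ[ℂ] ℂ,
    Bm a (G ∘ₗ Top m ((m + 1) * (a - 1))) = 0 → ∀ g, g.IsHomogeneous ((m + 1) * (a - 1)) → G g = 0

/-- MODULE MU: existence and uniqueness of `μ`. `I_N := (F) ∩ A_N = ∑ F_i A_{N-a}` (homogeneous
components, `N ≥ a`). Uniqueness of `c`: `SOC`. Existence: `jac F ∉ I_N` by `SOC`, so there is a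
functional `G₀` with `G₀ (I_N) = 0`, `G₀ (jac F) = 1`. If `h ∉ I_N + ℂ jac F` there is a functional
`G` vanishing on `I_N + ℂ jac F` (and, composing with the projection to the homogeneous component,
on the whole ideal) with `G h = 1`. By `K1` for `G₀` the matrix `Mm (DX F)` is invertible (square
after `eBB`), by `K1` for `G`: `Mm (DX F) * (Bm G)ᵀ = 0`, so `Bm G = 0`, and `G h = 0` by `ND`. -/
def SpecMU : Prop :=
  ∀ (m a : ℕ), 1 ≤ m → 2 ≤ a → ∀ F ∈ UU (m + 1) a, ∀ h : MvPolynomial (Fin (m + 1)) ℂ,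
    h.IsHomogeneous ((m + 1) * (a - 1)) → ∃! c : ℂ, h - C c * jac F ∈ idl F

/-- MODULE GF: the functional of the associated form. `cc F i = multinomial * mu F i`,
`GC (cc F) (z^i) = mu F i` for `|i| = N` and `z^i - mu Jac ∈ (F)` by `MU` and `Classical.epsilon_spec`;
extend linearly. The others follow by the uniqueness in `MU` (`F_i q ∈ (F)`: `c = 0`; `h = jac`:
`c = 1`). -/
def SpecGF : Prop :=
  ∀ (m a : ℕ), 1 ≤ m → 2 ≤ a → ∀ F ∈ UU (m + 1) a,
    (∀ h : MvPolynomial (Fin (m + 1)) ℂ, h.IsHomogeneous ((m + 1) * (a - 1)) →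
      h - C (GC (cc F) h) * jac F ∈ idl F) ∧
    (∀ i q, q.IsHomogeneous ((m + 1) * (a - 1) - a) → GC (cc F) (tp F i * q) = 0) ∧
    GC (cc F) (jac F) = 1

/-- MODULE MB: `MD * BGᵀ = c₁ 1` on tuples with nonzero resultant. From `GF` and `IsC1`
(`jacP (tp F) = jac F`), reindexed by `eBB`. -/
def SpecMB : Prop :=
  ∀ (m a : ℕ), 1 ≤ m → 2 ≤ a → ∀ c₁, IsC1 m a c₁ → ∀ F ∈ UU (m + 1) a,
    MD a (tp F) * (BG m a (cc F)).transpose = c₁ • 1

/-- MODULE K2: a common zero `p ≠ 0` gives `det MD = 0`. If `p_m ≠ 0`, `p = p_m • proot x` for some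
`x : Fin m → ℂ` (roots), the polynomial `Φ(x, y)` in `y` vanishes (the first column `FX f 0` vanishes
at `x`; `∏ (x_j - y_j) ≠ 0` as a polynomial in `y`), so the row vector `(x ^ (eL α))_α`, which is
nonzero (`α = 0`), is in the left kernel of `Mm a Φ` (`DEG` for the expansion of `Φ` in the boxes).
If `p_m = 0`, choose `l` with `p_l ≠ 0` and `f_t(z) = f(z_0, …, z_m + t z_l)`; `f_t` has the common
zero `p - t p_l e_m`, so `det MD (f_t) = 0` for `t ≠ 0`, and `t ↦ det MD (f_t)` is a polynomial (`CHI`: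
`det MD` is a polynomial in the coefficients), so it vanishes at `t = 0`. -/
def SpecK2 : Prop :=
  ∀ (m a : ℕ), 1 ≤ m → 2 ≤ a → ∀ f : Fin (m + 1) → MvPolynomial (Fin (m + 1)) ℂ,
    (∀ i, (f i).IsHomogeneous a) → (∃ p, p ≠ 0 ∧ ∀ i, eval p (f i) = 0) → (MD a f).det = 0

/-- MODULE COEF: the coefficients of the kernel are linear combinations, independent of `f`, of
values of `Φ` at points with `x_j ≠ y_j`, that is of determinants `det (f_i (w_k))`. (`Φ` is a
polynomial with degrees in the boxes by `DEG`; take `N_j` many distinct values for every variable,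
all distinct (Lagrange interpolation in each variable), or: the evaluations at points with
`∏ (x_j - y_j) ≠ 0` span the dual of the finite dimensional space of polynomials with these degree
bounds, as a polynomial vanishing at all of them is zero.) -/
def SpecCOEF : Prop :=
  ∀ (m a : ℕ), 1 ≤ m → 2 ≤ a → ∀ (α : BL m a) (β : BR m a),
    ∃ (ι : Type) (_ : Fintype ι) (c : ι → ℂ) (x y : ι → Fin m → ℂ),
    ∀ f : Fin (m + 1) → MvPolynomial (Fin (m + 1)) ℂ, (∀ i, (f i).IsHomogeneous a) →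
      coeff (eLR α β) (DX f) = ∑ s, c s * (Matrix.of fun i k : Fin (m + 1) =>
        eval (proot fun j => if (j : ℕ) < (k : ℕ) then y s j else x s j) (f i)).det

/-- MODULE EVAL: values of the kernel (evaluate `IsDix` at `(x, y)`; expansion of `Φ` in the boxes by
`DEG`). -/
def SpecEVAL : Prop :=
  ∀ (m a : ℕ), 1 ≤ m → 2 ≤ a → ∀ f : Fin (m + 1) → MvPolynomial (Fin (m + 1)) ℂ,
    (∀ i, (f i).IsHomogeneous a) → ∀ x y : Fin m → ℂ,
    (Matrix.of fun i k : Fin (m + 1) =>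
      eval (proot fun j => if (j : ℕ) < (k : ℕ) then y j else x j) (f i)).det =
    (∏ j, (x j - y j)) * ∑ α : BL m a, ∑ β : BR m a,
      coeff (eLR α β) (DX f) * ((∏ j, x j ^ (α j : ℕ)) * ∏ j, y j ^ (β j : ℕ))

/-- MODULE CH (no dependencies): one chain is a basis of `ℂ^(m+1)`. For `x = 0`, `y = 1` the
vectors are the coefficient vectors of `(s - 1)^k s^(m-k)`, `k = 0, …, m` (linearly independent:
evaluate at `s = 0` and divide by `s`). -/
def SpecCH : Prop :=
  ∀ m : ℕ, ∃ x y : Fin m → ℂ, (Matrix.of fun i k : Fin (m + 1) =>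
    proot (fun j => if (j : ℕ) < (k : ℕ) then y j else x j) i).det ≠ 0

/-- MODULE CHI: the entries of `MD` are polynomials in the coefficients of the tuple (from `COEF`:
determinants of values). -/
def SpecCHI : Prop :=
  ∀ (m a : ℕ), 1 ≤ m → 2 ≤ a → ∀ α β : BL m a,
    ∃ P : MvPolynomial (Fin (m + 1) × Mon (m + 1) a) ℂ, ∀ F : Fin (m + 1) → Form (m + 1) a,
      eval (ctL (m + 1) a F) P = MD a (tp F) α β

/-- MODULE UUX: `UU = {det MD ≠ 0}`: `MB` (with `K1`) and `K2`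
(`linearIndependent_of_noCommonZero`). -/
def SpecUUX : Prop :=
  ∀ (m a : ℕ), 1 ≤ m → 2 ≤ a → ∀ F : Fin (m + 1) → Form (m + 1) a,
    F ∈ UU (m + 1) a ↔ (MD a (tp F)).det ≠ 0

/-- MODULE GLOB: regular functions on `UU` are polynomials divided by powers of `det MD`. As
`exists_global` in `QuotMain.lean`. -/
def SpecGLOB : Prop :=
  ∀ (m a : ℕ), 1 ≤ m → 2 ≤ a → ∀ φ : UU (m + 1) a → ℂ, Quot.IsRegular (UU (m + 1) a) φ →
    ∃ (t : ℕ) (P : MvPolynomial (Fin (m + 1) × Mon (m + 1) a) ℂ), ∀ F : UU (m + 1) a,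
      φ F * (MD a (tp F.1)).det ^ t = eval (ctL (m + 1) a F.1) P

/-- MODULE MUR: the coefficients of the associated form are polynomials divided by `det MD`. From
`MB`: `BGᵀ = c₁ MD⁻¹ = c₁ adj (MD) / det (MD)`, and `cc F i = multinomial * GC (cc F) (z^i)`,
`m! GC (z^i) = GC (T (vdm FY z^i))` (`TS`) is a combination (independent of `F`) of the entries
`GC (T (y^(eL α + eR β)))` of `BG`; `CHI`. -/
def SpecMUR : Prop :=
  ∀ (m a : ℕ), 1 ≤ m → 2 ≤ a → ∀ i : Mon (m + 1) ((m + 1) * (a - 1)),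
    ∃ P : MvPolynomial (Fin (m + 1) × Mon (m + 1) a) ℂ, ∀ F ∈ UU (m + 1) a,
      cc F i * (MD a (tp F)).det = eval (ctL (m + 1) a F) P

/-- MODULE EQV: equivariance of `psi` (from `MU`, `GF`). (i) For `g ∈ SL`:
`z^i - μ Jac ∈ (F)` implies `(z^i)(g z) - μ Jac(F)(g z) ∈ (F ∘ g)` and `Jac (F ∘ g) = Jac(F)(g z)`
(chain rule, `det g = 1`), so `GC (cc (F ∘ g)) (h (g z)) = GC (cc F) h` for forms `h` of degree `N`.
`psi F (e) = GC (cc F) ((∑ z_j e_j)^N)` for `e : Fin n → ℂ` (multinomial theorem), and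
`(∑ z_j e_j)^N = h (g z)` for `h = (∑ z_j (g⁻ᵀ e)_j)^N`. (ii) `Jac (A F) = det A Jac F`, same
ideal: `mu (A F) i = mu F i / det A`. -/
def SpecEQV : Prop :=
  ∀ (m a : ℕ), 1 ≤ m → 2 ≤ a → ∀ F ∈ UU (m + 1) a,
    (∀ g : Matrix.SpecialLinearGroup (Fin (m + 1)) ℂ,
      psi (trT g F) = sub (g⁻¹).transpose (psi F)) ∧
    ∀ A : Matrix (Fin (m + 1)) (Fin (m + 1)) ℂ, A.det ≠ 0 → psi (lcT A F) = A.det⁻¹ • psi F

/-- MODULE INVJ: `JJ` is constant on the `SL`-orbit of an associated form. For a transvection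
`u(t)`: `t ↦ JJ (u(t) psi F)` is a polynomial in `t`, and its values are `JJ (psi (F ∘ u'(t)))` by
`EQV`, nonzero by `MB`, `K1` (`eval_JJ`, `det MD * det BG = c₁^card ≠ 0`), so it is constant
(`poly_const_of_ne_zero` in `ResChar.lean`, see the proof of `char_det` there). `SL` is generated by
transvections (`Matrix.Pivot…`/`diagonal_transvection_induction`, or: the function
`g ↦ JJ (g psi F)` on `SL`; every element of `SL_n` over a field is a product of transvections). -/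
def SpecINVJ : Prop :=
  ∀ (m a : ℕ), 1 ≤ m → 2 ≤ a → ∀ F ∈ UU (m + 1) a,
    ∀ g : Matrix.SpecialLinearGroup (Fin (m + 1)) ℂ,
      eval (cfL _ _ (sub g (psi F))) (JJ m a) = eval (cc F) (JJ m a)

/-- MODULE BM: the entries of `MD`, the determinant of `MD` and its inverse are in `BB`. From `MB`:
`MD = c₁ (BGᵀ)⁻¹ = c₁ adj (BGᵀ) / det BG`, the entries of `BG` are polynomials (linear) in `cc F`,
`det BG = eval (cc F) JJ` is nonzero on `UU`, `(det MD)⁻¹ = det BG / c₁^card`. -/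
def SpecBM : Prop :=
  ∀ (m a : ℕ), 1 ≤ m → 2 ≤ a → (∀ α β : BL m a,
    (fun F : UU (m + 1) a => MD a (tp F.1) α β) ∈ BB m a) ∧
    (fun F : UU (m + 1) a => ((MD a (tp F.1)).det)⁻¹) ∈ BB m a ∧
    ∀ F ∈ UU (m + 1) a, eval (cc F) (JJ m a) ≠ 0

/-- MODULE STAB: `BB` is stable under translations by `SL` (`EQV`: `cc (trT g F)` is a linear
function of `cc F`; `INVJ`). -/
def SpecSTAB : Prop :=
  ∀ (m a : ℕ) (_ : 1 ≤ m) (ha : 2 ≤ a) (φ : UU (m + 1) a → ℂ), φ ∈ BB m a →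
    ∀ g : Matrix.SpecialLinearGroup (Fin (m + 1)) ℂ,
      (fun F : UU (m + 1) a => φ ⟨trT g F.1, trT_mem (by omega) g F.2⟩) ∈ BB m a

/-- MODULE BAS: `det (f_i (w_k))` is in `BB` for every basis `w`. For the chain of `CH` by `EVAL`
(right side: combination of entries of `Mm (DX f)`, i.e. of `MD` after `eBB`) and `BM`. A basis `w` is
`h w⁰` with `h` invertible, `h = λ g`, `λ^(m+1) = det h`, `g ∈ SL`, and
`det (f_i (h w⁰_k)) = λ^(a (m+1)) det ((f_i ∘ g) (w⁰_k))`; `STAB`. -/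
def SpecBAS : Prop :=
  ∀ (m a : ℕ), 1 ≤ m → 2 ≤ a → ∀ w : Fin (m + 1) → Fin (m + 1) → ℂ, (Matrix.of w).det ≠ 0 →
    (fun F : UU (m + 1) a => (Matrix.of fun i k => eval (w k) (tp F.1 i)).det) ∈ BB m a

/-- MODULE SPAN (no dependencies): a Pluecker coordinate is a linear combination, independent of
`F`, of determinants of values at bases. `det (F_i (w_k)) = ∑_T p_T(F) ∏_k w_k^{T k}` over all
`T : Fin n → Mon n k` (multilinearity, `Matrix.det_apply`…). The monomials `∏_k w_k^{T k}` are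
linearly independent functions on `{det w ≠ 0}` (a polynomial `Q` in the `w_{k j}` with `Q * det = 0`
as a function is `0`), so the vectors `(∏_k w_k^{T k})_T`, `det w ≠ 0`, span `ℂ^T`. -/
def SpecSPAN : Prop :=
  ∀ (n k : ℕ) (T : Fin n → Mon n k), ∃ (ι : Type) (_ : Fintype ι) (c : ι → ℂ)
    (w : ι → Fin n → Fin n → ℂ), (∀ s, (Matrix.of (w s)).det ≠ 0) ∧ ∀ F : Fin n → Form n k,
      (Matrix.of fun i j => coeff (T j).1 (tp F i)).det =
        ∑ s, c s * (Matrix.of fun i l => eval (w s l) (tp F i)).det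

/-- MODULE PLU: Pluecker coordinates are in `BB` (`BAS`, `SPAN`). -/
def SpecPLU : Prop :=
  ∀ (m a : ℕ), 1 ≤ m → 2 ≤ a → ∀ T : Fin (m + 1) → Mon (m + 1) a,
    (fun F : UU (m + 1) a => (Matrix.of fun i j => coeff (T j).1 (tp F.1 i)).det) ∈ BB m a

/-- MODULE UNI: partition of unity. The `(α, α)` entry of `MB`: `∑ β, MD α β * BG α β = c₁` (some
`α : BL m a`, e.g. `0`), `BG α β` is linear in `cc F`, so in `BB`, and `MD α β` is a combination
of determinants of values (`COEF`), which are combinations of Pluecker coordinates (expansion of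
the determinant). -/
def SpecUNI : Prop :=
  ∀ (m a : ℕ), 1 ≤ m → 2 ≤ a → ∃ b : (Fin (m + 1) → Mon (m + 1) a) → UU (m + 1) a → ℂ,
    (∀ T, b T ∈ BB m a) ∧ ∀ F : UU (m + 1) a,
      ∑ T, b T F * (Matrix.of fun i j => coeff (T j).1 (tp F.1 i)).det = 1

/-- MODULE MEM: regular functions on `UU`, invariant under linear combinations of the tuple, are in
`BB`. `GLOB`: `φ F * χ(F)^t = P(F)`, `χ = det MD`. For `T`: let `A = adj (F_T)`,
`F_T = (coeff (T j) (F i))`. The coefficients of `lcT A F` are Pluecker coordinates (Cramer: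
`(adj (F_T) v)_i = det (F_T with column i replaced by v)`), so `F ↦ P (lcT A F)` is in `BB` (`PLU`),
and if `p_T(F) ≠ 0`: `P (lcT A F) = φ F * χ (lcT A F)^t`, `χ (lcT A F) = det(A)^r χ(F)`,
`r = card (BL m a)` (`DX (A F) = det A • DX F`: uniqueness of the kernel, `DD`, `DIX`),
`det A = p_T^m`. So `p_T^(m r t + 1) φ = p_T * P (lcT A F) * χ^(-t) ∈ BB` (also when `p_T(F) = 0`).
Then `{b ∈ BB | b φ ∈ BB}` is an ideal of `BB` containing a power of each `p_T`, and the `p_T`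
generate the unit ideal (`UNI`): `Ideal.span_pow_eq_top`. -/
def SpecMEM : Prop :=
  ∀ (m a : ℕ) (_ : 1 ≤ m) (ha : 2 ≤ a) (φ : UU (m + 1) a → ℂ),
    Quot.IsRegular (UU (m + 1) a) φ →
    (∀ (A : Matrix (Fin (m + 1)) (Fin (m + 1)) ℂ) (hA : A.det ≠ 0) (F : UU (m + 1) a),
      φ ⟨lcT A F.1, lcT_mem (by omega) hA F.2⟩ = φ F) → φ ∈ BB m a

/-- MODULE REY (no dependencies inside `AF`): Reynolds operator. Use `Actn.rey` of
`Reynolds.lean` for `actS (m+1) N`, `N = (m+1)(a-1)`: for `P` homogeneous of degree `r` the weight is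
`w = r (a - 1)`: if `q` is as in the hypothesis, `P (g q) = det(g)^w P(q)` for all invertible `g`
(`g = λ g₁`, `λ^(m+1) = det g`; `λ^(N r) = det(g)^((a-1) r)`). `P' := rey …` with
`Semi w 0 P'` (`semi_rey`), and `eval q P' = eval q P` by `aeval_rey` and `Lam_dd` (the integrand is
`det^w P(q)` as a polynomial in `g`: two polynomials in the entries of `g` which agree for
invertible `g`). `Semi w 0` gives `SL`-invariance and (scalar matrices: `P'(t^N q) = t^((m+1) w) P'(q)`,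
`N ≥ 1`) homogeneity of degree `r`. -/
def SpecREY : Prop :=
  ∀ (m a : ℕ), 1 ≤ m → 2 ≤ a → ∀ (r : ℕ)
    (P : MvPolynomial (Mon (m + 1) ((m + 1) * (a - 1))) ℂ), P.IsHomogeneous r →
    ∃ P' : invRing (m + 1) ((m + 1) * (a - 1)),
      (P' : MvPolynomial (Mon (m + 1) ((m + 1) * (a - 1))) ℂ).IsHomogeneous r ∧
      ∀ q : Form (m + 1) ((m + 1) * (a - 1)),
        (∀ g : Matrix.SpecialLinearGroup (Fin (m + 1)) ℂ,
          eval (cfL _ _ (sub g q)) P = eval (cfL _ _ q) P) →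
        eval (cfL _ _ q) (P' : MvPolynomial (Mon (m + 1) ((m + 1) * (a - 1))) ℂ) =
          eval (cfL _ _ q) P

/-- MODULE FIN: every invariant regular function on `Z` is a quotient. `φ F = ψ (spanOf F)` is in
`BB` (`MEM`; invariance: the span is the same): `φ F * JJ^s = P (cc F)`. Scaling `F → lcT A F` with
`det A = t⁻¹` (`EQV` (ii)): `P (t cc F) = t^(s r) P (cc F)`, `r = card (BL m a) = deg JJ`, for all
`t ≠ 0`, so the homogeneous component `P₀` of degree `s r` has `P₀ (cc F) = P (cc F)`. By `EQV` (i),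
`INVJ` and the `SL`-invariance of `ψ`: `P₀ (g psi F) = P₀ (psi F)`. `REY` for `P₀`. -/
def SpecFIN : Prop :=
  ∀ (m a : ℕ), 1 ≤ m → 2 ≤ a → ∀ ψ : ZZ (m + 1) a → ℂ, InvRegZZ ψ →
    ∃ (s : ℕ) (P : invRing (m + 1) ((m + 1) * (a - 1))),
      (P : MvPolynomial (Mon (m + 1) ((m + 1) * (a - 1))) ℂ).IsHomogeneous
        (s * Fintype.card (BL m a)) ∧
      ∀ F : UU (m + 1) a, ψ (spanOf F) * eval (cc F.1) (JJ m a) ^ s =
        eval (cc F.1) (P : MvPolynomial (Mon (m + 1) ((m + 1) * (a - 1))) ℂ)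

/-- MODULE JN: the invariant `J` (`REY` for `JJ`, with `INVJ`; nonvanishing by `BM`). -/
def SpecJN : Prop :=
  ∀ (m a : ℕ), 1 ≤ m → 2 ≤ a → ∃ J : invRing (m + 1) ((m + 1) * (a - 1)),
    (J : MvPolynomial (Mon (m + 1) ((m + 1) * (a - 1))) ℂ).IsHomogeneous
      (Fintype.card (BL m a)) ∧
    ∀ F ∈ UU (m + 1) a, eval (cc F) (J : MvPolynomial (Mon (m + 1) ((m + 1) * (a - 1))) ℂ) =
      eval (cc F) (JJ m a) ∧ eval (cc F) (JJ m a) ≠ 0

/-- MODULE REG: `F ↦ P (cc F)` and `F ↦ 1 / JJ (cc F)` are regular on `UU` (`MUR`: the coordinates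
`cc F i` are regular, `polyFun_tuple`; `CHI`, `UUX` for the denominators; `JJ (cc F) = c₁^card / det MD`
by `MB`, `K1`). -/
def SpecREG : Prop :=
  ∀ (m a : ℕ), 1 ≤ m → 2 ≤ a →
    (∀ P : MvPolynomial (Mon (m + 1) ((m + 1) * (a - 1))) ℂ,
      Quot.IsRegular (UU (m + 1) a) fun F => eval (cc F.1) P) ∧
    Quot.IsRegular (UU (m + 1) a) fun F => (eval (cc F.1) (JJ m a))⁻¹

/-- MODULE DESC: homogeneous invariants of degree `s deg JJ`, divided by `JJ^s`, give invariant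
regular functions on `Z`. (Well defined on spans: two bases of a span differ by an invertible `A`,
`exists_matrix`; `EQV` (ii) and homogeneity. Regular: `REG`. Invariant: `EQV` (i), `INVJ`.) -/
def SpecDESC : Prop :=
  ∀ (m a : ℕ), 1 ≤ m → 2 ≤ a → ∀ (s : ℕ) (P : invRing (m + 1) ((m + 1) * (a - 1))),
    (P : MvPolynomial (Mon (m + 1) ((m + 1) * (a - 1))) ℂ).IsHomogeneous
      (s * Fintype.card (BL m a)) →
    ∃ ψ : ZZ (m + 1) a → ℂ, InvRegZZ ψ ∧ ∀ F : UU (m + 1) a,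
      ψ (spanOf F) * eval (cc F.1) (JJ m a) ^ s =
        eval (cc F.1) (P : MvPolynomial (Mon (m + 1) ((m + 1) * (a - 1))) ℂ)

open AlgebraicGeometry CategoryTheory in
/-- MODULE FOG (no dependencies): if `f J` is a unit, `Proj.fromOfGlobalSections` is
`Spec B ⟶ Spec A_(J) ⟶ Proj A`. (`D(f J) = ⊤`; use `fromOfGlobalSections_resLE` /
`fromOfGlobalSections_morphismRestrict` and the definition of `toBasicOpenOfGlobalSections`, or the
open cover `openCoverOfMapIrrelevantEqTop`.) -/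
def SpecFOG : Prop :=
  ∀ (A : Type) [CommRing A] [Algebra ℂ A] (𝒜 : ℕ → Submodule ℂ A) [GradedAlgebra 𝒜]
    (B : CommRingCat.{0}) (f : A →+* B)
    (hf : (HomogeneousIdeal.irrelevant 𝒜).toIdeal.map
      ((Scheme.ΓSpecIso B).inv.hom.comp f) = ⊤) (r : ℕ) (hr : 0 < r) (J : A) (hJ : J ∈ 𝒜 r)
    (hu : IsUnit (f J)),
    Proj.fromOfGlobalSections 𝒜 ((Scheme.ΓSpecIso B).inv.hom.comp f) hf =
      Spec.map (CommRingCat.ofHom ((IsLocalization.Away.lift (S := Localization.Away J) J hu).comp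
        (algebraMap (HomogeneousLocalization.Away 𝒜 J) (Localization.Away J)))) ≫
      Proj.awayι 𝒜 J hJ hr

open AlgebraicGeometry CategoryTheory in
/-- MODULE UNIQ (no dependencies): morphisms from `Z // SL_n` to a separated scheme are determined
by the composition with `projZZ` (which is dominant, as `spanStar` is injective, `spanOf` being
surjective; `quotZZ` is reduced; `ext_of_isDominant_of_isSeparated…`). -/
def SpecUNIQ : Prop :=
  ∀ (n k N : ℕ) (φ φ' : quotZZ n k ⟶ quotSS n N), projZZ n k ≫ φ = projZZ n k ≫ φ' → φ = φ'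

end Pool.Agent.Lib.MP_4fcc12_ag.AF
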