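import Pool.Agent.Lib.MP_4fcc12_ag.AF.Defs

/-!
# Associated forms: the graded ring of invariants and its projective spectrum
-/

open MvPolynomial AlgebraicGeometry CategoryTheory
open Pool.Agent.Lib.MP_4fcc12_ag.Quot

namespace Pool.Agent.Lib.MP_4fcc12_ag.AFS

open Pool.Agent.Lib.MP_4fcc12_ag.AF

/-- The ring of `SL_n`-invariant polynomials in the coefficients of a form of degree `N` in `n`
variables. -/
def Inv (n N : ℕ) : Type := invRing n N

/-- the ring structure -/
noncomputable def invCommRing (n N : ℕ) : CommRing (Inv n N) := Subalgebra.toCommRing (invRing n N)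

attribute [instance] invCommRing

/-- the algebra structure -/
noncomputable def invAlgebra (n N : ℕ) : Algebra ℂ (Inv n N) := Subalgebra.algebra (invRing n N)

attribute [instance] invAlgebra

/-- the underlying polynomial of an invariant -/
noncomputable def val (n N : ℕ) : Inv n N →ₐ[ℂ] MvPolynomial (Mon n N) ℂ := (invRing n N).val

/-- the invariants that are homogeneous of degree `m` -/
noncomputable def gr (n N m : ℕ) : Submodule ℂ (Inv n N) :=
  (homogeneousSubmodule (Mon n N) ℂ m).comap (val n N).toLinearMap

/-- The grading; a `GradedRing` structure is unique if there is one. -/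
theorem graded (n N : ℕ) : Nonempty (GradedRing (gr n N)) := by
  have h : GradedRing (invGr n N) := inferInstance
  exact ⟨h⟩

noncomputable instance (n N : ℕ) : GradedRing (gr n N) := Classical.choice (graded n N)

/-- The quotient `ℙ(ℂ[e]_N)^{ss} // SL_n`: the projective spectrum of the graded ring of
`SL_n`-invariant polynomials. -/
noncomputable def PSS (n N : ℕ) : Scheme := Proj (gr n N)

/-- the open subset `{J ≠ 0}` of `ℙ(ℂ[e]_N)^{ss} // SL_n` -/
noncomputable def DJ {n N : ℕ} (J : Inv n N) : (PSS n N).Opens := Proj.basicOpen (gr n N) J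

/-- the value of a regular function at a tuple -/
noncomputable def ev {n k : ℕ} (F : UU n k) : catUU n k →+* ℂ :=
  (Pi.evalRingHom (fun _ : UU n k => ℂ) F).comp (ringUU n k).subtype

/-- homomorphisms from the ring of invariants to the ring of regular functions on the variety of
tuples with nonzero resultant -/
def Hm (n k : ℕ) : Type := Inv n (n * (k - 1)) →+* catUU n k

/-- `ψ P = P ∘ Ψ`, `Ψ` = associated form -/
def IsComp {n k : ℕ} (ψ : Hm n k) : Prop :=
  ∀ (P : Inv n (n * (k - 1))) (F : UU n k),
    ev F (DFunLike.coe (F := Inv n (n * (k - 1)) →+* catUU n k) ψ P) =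
      eval (cfL n (n * (k - 1)) (psi F.1)) (val n (n * (k - 1)) P)

/-- the ring of global sections `Γ(X, ⊤)` -/
noncomputable def glob (X : Scheme.{0}) : CommRingCat.{0} := Γ(X, ⊤)

/-- the isomorphism from `R` to the global sections of `Spec R` -/
noncomputable def toGlob (R : CommRingCat.{0}) : R ⟶ glob (Spec R) := (Scheme.ΓSpecIso R).inv

/-- `ψ` as a homomorphism to global sections -/
noncomputable def sec {n k : ℕ} (ψ : Hm n k) :
    Inv n (n * (k - 1)) →+* glob (Spec (catUU n k)) :=
  (toGlob (catUU n k)).hom.comp (ψ : Inv n (n * (k - 1)) →+* catUU n k)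

/-- the images of the invariants of positive degree generate the unit ideal -/
def NoBase {X : Scheme.{0}} {n N : ℕ} (f : Inv n N →+* glob X) : Prop :=
  (HomogeneousIdeal.irrelevant (gr n N)).toIdeal.map f = ⊤

/-- the morphism to `ℙ(ℂ[e]_N)^{ss} // SL_n` given by a homomorphism from invariants to global
sections -/
noncomputable def toPSS {X : Scheme.{0}} {n N : ℕ} (f : Inv n N →+* glob X) (h : NoBase f) :
    X ⟶ PSS n N :=
  Proj.fromOfGlobalSections (gr n N) f h

/-- `φ` is a closed immersion into the affine open subscheme `U` -/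
def ClosedInto {X Y : Scheme.{0}} (φ : X ⟶ Y) (U : Y.Opens) : Prop :=
  IsAffineOpen U ∧ ∃ i : X ⟶ U.toScheme, IsClosedImmersion i ∧ i ≫ U.ι = φ

end Pool.Agent.Lib.MP_4fcc12_ag.AFS
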