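import Pool.Agent.Lib.MP_4fcc12_ag.AF.Spec

/-!
# Module TDET: existence of the operators `T_N`

`T (y ^ β)` is the determinant of the matrix `PM` of size `m + N` with the rows `e_{β j}` (`j < m`)
and the coefficient vectors of `s ^ i ∑ z_l s ^ l` (`i < N`). At `z = π (y)` it is multiplied by the
matrix `WM` with the columns `(y_l ^ k)_k` and `e_k` (`k ≥ m`).
-/

open MvPolynomial

namespace Pool.Agent.Lib.MP_4fcc12_ag.AF

namespace TDETM

/-- the number of a column -/
def kk {m N : ℕ} : Fin m ⊕ Fin N → ℕ := Sum.elim (fun a => (a : ℕ)) fun b => m + (b : ℕ)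

lemma sum_kk {m N : ℕ} {R : Type*} [AddCommMonoid R] (f : ℕ → R) :
    ∑ x : Fin m ⊕ Fin N, f (kk x) = ∑ k ∈ Finset.range (m + N), f k := by
  rw [Fintype.sum_sum_type, Finset.sum_range, Fin.sum_univ_add]
  rfl

section gen

variable {m N : ℕ} {R : Type*} [CommRing R]

/-- extension by zero -/
def gg (g : Fin (m + 1) → R) (k : ℕ) : R := if h : k ≤ m then g ⟨k, by omega⟩ else 0

/-- the matrix with the rows `e_{β j}` and `s ^ i g (s)` -/
def PM (N : ℕ) (g : Fin (m + 1) → R) (β : Fin m → ℕ) :
    Matrix (Fin m ⊕ Fin N) (Fin m ⊕ Fin N) R :=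
  Matrix.of fun r c => Sum.elim (fun j : Fin m => if kk c = β j then (1 : R) else 0)
    (fun i : Fin N => if (i : ℕ) ≤ kk c then gg g (kk c - i) else 0) r

/-- the matrix with the columns `(y_l ^ k)_k` and `e_k` -/
def WM (N : ℕ) (y : Fin m → R) : Matrix (Fin m ⊕ Fin N) (Fin m ⊕ Fin N) R :=
  Matrix.of fun k c => Sum.elim (fun l : Fin m => y l ^ kk k)
    (fun b : Fin N => if k = Sum.inr b then (1 : R) else 0) c

lemma det_WM (y : Fin m → R) : (WM N y).det = (Matrix.vandermonde y).det := by
  have h1 : WM N y = Matrix.fromBlocks (Matrix.vandermonde y).transpose 0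
      (Matrix.of fun (b : Fin N) (l : Fin m) => y l ^ (m + (b : ℕ))) 1 := by
    refine Matrix.ext fun k c => ?_
    rcases k with k | k <;> rcases c with c | c
    · simp [WM, kk, Matrix.vandermonde_apply]
    · simp [WM]
    · simp [WM, kk]
    · simp [WM, Matrix.one_apply]
  rw [h1, Matrix.det_fromBlocks_zero₁₂, Matrix.det_transpose, Matrix.det_one, mul_one]

/-- the monic polynomial -/
noncomputable def pol (y : Fin m → R) : Polynomial R := ∏ j, (Polynomial.X - Polynomial.C (y j))

variable [Nontrivial R]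

omit [Nontrivial R] in
lemma pol_monic (y : Fin m → R) : (pol y).Monic :=
  Polynomial.monic_prod_of_monic _ _ fun j _ => Polynomial.monic_X_sub_C (y j)

lemma pol_natDegree (y : Fin m → R) : (pol y).natDegree = m := by
  rw [pol, Polynomial.natDegree_prod_of_monic _ _ fun j _ => Polynomial.monic_X_sub_C (y j)]
  simp

lemma gg_proot (y : Fin m → R) (k : ℕ) : gg (proot y) k = (pol y).coeff k := by
  rw [gg]
  split_ifs with h
  · rfl
  · rw [Polynomial.coeff_eq_zero_of_natDegree_lt]
    rw [pol_natDegree]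
    omega

lemma row_proot (y : Fin m → R) (i k : ℕ) :
    (if i ≤ k then gg (proot y) (k - i) else 0) = (Polynomial.X ^ i * pol y).coeff k := by
  rw [Polynomial.coeff_X_pow_mul', gg_proot]

lemma natDegree_row (y : Fin m → R) (i : ℕ) :
    (Polynomial.X ^ i * pol y).natDegree = i + m := by
  rw [(Polynomial.monic_X_pow i).natDegree_mul (pol_monic y), Polynomial.natDegree_X_pow,
    pol_natDegree]

lemma det_PM_mul (y : Fin m → R) (β : Fin m → ℕ) (hβ : ∀ j, β j < m + N) :
    (PM N (proot y) β).det * (Matrix.vandermonde y).det =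
      (Matrix.of fun j l : Fin m => y l ^ β j).det := by
  rw [← det_WM (N := N), ← Matrix.det_mul]
  set M := PM N (proot y) β * WM N y with hM
  have h11 : M.toBlocks₁₁ = Matrix.of fun j l : Fin m => y l ^ β j := by
    refine Matrix.ext fun j l => ?_
    have h1 : M.toBlocks₁₁ j l = ∑ x : Fin m ⊕ Fin N,
        (fun k : ℕ => (if k = β j then (1 : R) else 0) * y l ^ k) (kk x) := by
      rw [hM]
      rfl
    rw [h1, sum_kk (fun k : ℕ => (if k = β j then (1 : R) else 0) * y l ^ k), Matrix.of_apply]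
    simp [hβ j]
  have h21 : M.toBlocks₂₁ = 0 := by
    refine Matrix.ext fun i l => ?_
    have h1 : M.toBlocks₂₁ i l = ∑ x : Fin m ⊕ Fin N,
        (fun k : ℕ => (if (i : ℕ) ≤ k then gg (proot y) (k - i) else 0) * y l ^ k) (kk x) := by
      rw [hM]
      rfl
    rw [h1, sum_kk (fun k : ℕ => (if (i : ℕ) ≤ k then gg (proot y) (k - i) else 0) * y l ^ k),
      Matrix.zero_apply]
    have h2 : (Polynomial.X ^ (i : ℕ) * pol y).eval (y l) = 0 := by
      rw [Polynomial.eval_mul, pol, Polynomial.eval_prod]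
      rw [Finset.prod_eq_zero (Finset.mem_univ l) (by simp), mul_zero]
    rw [Polynomial.eval_eq_sum_range' (n := m + N) (by rw [natDegree_row]; have := i.2; omega)]
      at h2
    refine Eq.trans (Finset.sum_congr rfl fun k _ => ?_) h2
    rw [row_proot]
  have h22 : M.toBlocks₂₂ = Matrix.of fun i b : Fin N =>
      (Polynomial.X ^ (i : ℕ) * pol y).coeff (m + b) := by
    refine Matrix.ext fun i b => ?_
    have h1 : M.toBlocks₂₂ i b = ∑ x : Fin m ⊕ Fin N,
        (if (i : ℕ) ≤ kk x then gg (proot y) (kk x - i) else 0) *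
          (if x = Sum.inr b then 1 else 0) := by
      rw [hM]
      rfl
    rw [h1, Finset.sum_eq_single (Sum.inr b)]
    · rw [if_pos rfl, mul_one, row_proot]
      rfl
    · intro x _ hx
      rw [if_neg hx, mul_zero]
    · intro h
      exact absurd (Finset.mem_univ _) h
  rw [← Matrix.fromBlocks_toBlocks M, h11, h21, h22, Matrix.det_fromBlocks_zero₂₁]
  have h3 : (Matrix.of fun i b : Fin N => (Polynomial.X ^ (i : ℕ) * pol y).coeff (m + b)).det =
      1 := by
    rw [Matrix.det_of_isLowerTriangular]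
    · apply Finset.prod_eq_one
      intro i _
      rw [Matrix.of_apply, Polynomial.coeff_X_pow_mul]
      have h4 := pol_monic y
      rw [Polynomial.Monic, Polynomial.leadingCoeff, pol_natDegree] at h4
      exact h4
    · intro i b hb
      rw [Matrix.of_apply]
      apply Polynomial.coeff_eq_zero_of_natDegree_lt
      rw [natDegree_row]
      have h5 : (i : ℕ) < b := hb
      omega
  rw [h3, mul_one]

end gen

lemma map_PM {m : ℕ} (N : ℕ) {R R' : Type*} [CommRing R] [CommRing R'] (φ : R →+* R')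
    (g : Fin (m + 1) → R) (β : Fin m → ℕ) :
    φ.mapMatrix (PM N g β) = PM N (fun l => φ (g l)) β := by
  refine Matrix.ext fun r c => ?_
  rw [RingHom.mapMatrix_apply, Matrix.map_apply]
  rcases r with j | i
  · simp only [PM, Matrix.of_apply, Sum.elim_inl]
    split_ifs <;> simp
  · simp only [PM, Matrix.of_apply, Sum.elim_inr, gg]
    split_ifs <;> simp

/-- the value of the operator on a monomial -/
noncomputable def val (m N : ℕ) (β : Fin m →₀ ℕ) : MvPolynomial (Fin (m + 1)) ℂ :=
  if ∀ j, β j < m + N then (PM N X β).det else 0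

lemma val_hom (m N : ℕ) (β : Fin m →₀ ℕ) : (val m N β).IsHomogeneous N := by
  rw [val]
  split_ifs with h
  swap
  · exact isHomogeneous_zero _ _ _
  rw [Matrix.det_apply']
  apply IsHomogeneous.sum
  intro σ _
  have h1 : (((Equiv.Perm.sign σ : ℤˣ) : ℤ) : MvPolynomial (Fin (m + 1)) ℂ) =
      C (((Equiv.Perm.sign σ : ℤˣ) : ℤ) : ℂ) := by simp
  rw [h1]
  have h2 : (∏ i : Fin m ⊕ Fin N, (PM N X β : Matrix _ _ (MvPolynomial (Fin (m + 1)) ℂ))
      (σ i) i).IsHomogeneous (∑ i : Fin m ⊕ Fin N, Sum.elim (fun _ => 0) (fun _ => 1) (σ i)) := by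
    apply IsHomogeneous.prod
    intro i _
    rcases h3 : σ i with j | j
    · simp only [PM, Matrix.of_apply, Sum.elim_inl]
      split_ifs
      · exact isHomogeneous_one _ _
      · exact isHomogeneous_zero _ _ _
    · simp only [PM, Matrix.of_apply, Sum.elim_inr, gg]
      split_ifs
      · exact isHomogeneous_X _ _
      · exact isHomogeneous_zero _ _ _
      · exact isHomogeneous_zero _ _ _
  have h4 : ∑ i : Fin m ⊕ Fin N, Sum.elim (fun _ : Fin m => 0) (fun _ : Fin N => 1) (σ i) = N := by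
    rw [Equiv.sum_comp σ (Sum.elim (fun _ : Fin m => 0) (fun _ : Fin N => 1)),
      Fintype.sum_sum_type]
    simp
  rw [h4] at h2
  simpa using (isHomogeneous_C (Fin (m + 1)) (((Equiv.Perm.sign σ : ℤˣ) : ℤ) : ℂ)).mul h2

lemma alt_monomial (m : ℕ) (β : Fin m →₀ ℕ) :
    alt (monomial β (1 : ℂ)) =
      (Matrix.of fun j l : Fin m => (X l : MvPolynomial (Fin m) ℂ) ^ β j).det := by
  rw [alt, ← Matrix.det_transpose, Matrix.det_apply]
  apply Finset.sum_congr rfl
  intro σ _
  rw [Units.smul_def]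
  congr 1
  rw [rename_monomial, monomial_eq, C_1, one_mul, Finsupp.prod_mapDomain_index_inj σ.injective,
    Finsupp.prod_fintype]
  · rfl
  · intro i
    exact pow_zero _

lemma FY_val (m N : ℕ) (β : Fin m →₀ ℕ) (h : ∀ j, β j < m + N) :
    FY (val m N β) * vdm m = alt (monomial β 1) := by
  rw [val, if_pos h, FY, vdm, alt_monomial, ← det_PM_mul (N := N) X β h]
  congr 1
  have h1 := (aeval (proot (X : Fin m → MvPolynomial (Fin m) ℂ)) :
    MvPolynomial (Fin (m + 1)) ℂ →ₐ[ℂ] MvPolynomial (Fin m) ℂ).toRingHom.map_det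
      (PM N X β : Matrix _ _ (MvPolynomial (Fin (m + 1)) ℂ))
  rw [map_PM] at h1
  simpa using h1

/-- the operator -/
noncomputable def TOp (m N : ℕ) : MvPolynomial (Fin m) ℂ →ₗ[ℂ] MvPolynomial (Fin (m + 1)) ℂ :=
  (basisMonomials (Fin m) ℂ).constr ℂ (val m N)

lemma TOp_apply (m N : ℕ) (h : MvPolynomial (Fin m) ℂ) :
    TOp m N h = ∑ β ∈ h.support, coeff β h • val m N β := by
  have h1 : ∀ β : Fin m →₀ ℕ, ∀ c : ℂ, TOp m N (monomial β c) = c • val m N β := by
    intro β c
    have h2 : (monomial β c : MvPolynomial (Fin m) ℂ) = c • basisMonomials (Fin m) ℂ β := by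
      rw [coe_basisMonomials, smul_monomial, smul_eq_mul, mul_one]
    rw [h2, map_smul, TOp, Module.Basis.constr_basis]
  conv_lhs => rw [h.as_sum]
  rw [map_sum]
  exact Finset.sum_congr rfl fun β _ => h1 β _

lemma alt_sum (m : ℕ) (h : MvPolynomial (Fin m) ℂ) :
    alt h = ∑ β ∈ h.support, coeff β h • alt (monomial β 1) := by
  have h1 : ∀ β : Fin m →₀ ℕ, ∀ c : ℂ, alt (monomial β c) = c • alt (monomial β (1 : ℂ)) := by
    intro β c
    rw [alt, alt, Finset.smul_sum]
    apply Finset.sum_congr rfl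
    intro σ _
    have h2 : (monomial (Finsupp.mapDomain σ β) c : MvPolynomial (Fin m) ℂ) =
        c • monomial (Finsupp.mapDomain σ β) (1 : ℂ) := by
      rw [smul_monomial, smul_eq_mul, mul_one]
    rw [rename_monomial, rename_monomial, h2, smul_comm]
  have h2 : alt h = ∑ β ∈ h.support, alt (monomial β (coeff β h)) := by
    conv_lhs => rw [h.as_sum]
    simp only [alt, map_sum, Finset.smul_sum]
    rw [Finset.sum_comm]
  rw [h2]
  exact Finset.sum_congr rfl fun β _ => h1 β _

end TDETM

open TDETM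

theorem specTDET : SpecTDET := by
  intro m N hm
  refine ⟨TOp m N, ?_, ?_⟩
  · intro h
    rw [TOp_apply]
    apply IsHomogeneous.sum
    intro β _
    rw [smul_eq_C_mul]
    simpa using (isHomogeneous_C (Fin (m + 1)) (coeff β h)).mul (val_hom m N β)
  · intro h hd
    rw [TOp_apply, alt_sum, FY, map_sum, Finset.sum_mul]
    apply Finset.sum_congr rfl
    intro β hβ
    have h1 : ∀ j, β j < m + N := by
      intro j
      have h2 : β j ≤ degreeOf j h := by
        rw [degreeOf_eq_sup]
        exact Finset.le_sup (f := fun γ : Fin m →₀ ℕ => γ j) hβ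
      have h3 := hd j
      omega
    rw [map_smul, smul_mul_assoc]
    congr 1
    exact FY_val m N β h1

end Pool.Agent.Lib.MP_4fcc12_ag.AF
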