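import Pool.Agent.Lib.MP_4fcc12_ag.AF.Spec

/-! # Module UDD: divided differences of a polynomial along the chain -/

open MvPolynomial

namespace Pool.Agent.Lib.MP_4fcc12_ag.AF

namespace UDDM

variable {m : ℕ}

/-- the monomial with exponent `e` in the variables of the chain, without the variable `j` -/
noncomputable def Q (e : Fin m →₀ ℕ) (j : Fin m) : S m :=
  ∏ l ∈ Finset.univ.erase j, (chain m (j : ℕ) l) ^ e l

/-- the geometric sum -/
noncomputable def G (e : Fin m →₀ ℕ) (j : Fin m) : S m :=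
  ∑ i ∈ Finset.range (e j), (X (Sum.inr j) : S m) ^ i * X (Sum.inl j) ^ (e j - 1 - i)

lemma prod_chain (e : Fin m →₀ ℕ) (j : Fin m) :
    (∏ l, (chain m ((j : ℕ) + 1) l) ^ e l) - ∏ l, (chain m (j : ℕ) l) ^ e l =
      (X (Sum.inr j) - X (Sum.inl j)) * (Q e j * G e j) := by
  rw [← Finset.mul_prod_erase _ _ (Finset.mem_univ j), ← Finset.mul_prod_erase _ _
    (Finset.mem_univ j)]
  have h1 : ∏ l ∈ Finset.univ.erase j, (chain m ((j : ℕ) + 1) l) ^ e l = Q e j := by
    refine Finset.prod_congr rfl fun l hl => ?_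
    have h2 : l ≠ j := (Finset.mem_erase.1 hl).1
    have h3 : (l : ℕ) ≠ j := fun h => h2 (Fin.ext h)
    congr 1
    rw [chain, chain]
    by_cases h4 : (l : ℕ) < j
    · rw [if_pos h4, if_pos (by omega)]
    · rw [if_neg h4, if_neg (by omega)]
  rw [h1]
  have h5 : chain m ((j : ℕ) + 1) j = X (Sum.inr j) := by rw [chain, if_pos (by omega)]
  have h6 : chain m (j : ℕ) j = X (Sum.inl j) := by rw [chain, if_neg (by omega)]
  rw [h5, h6]
  have h7 : G e j * (X (Sum.inr j) - X (Sum.inl j)) =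
      X (Sum.inr j) ^ e j - X (Sum.inl j) ^ e j := geom_sum₂_mul _ _ _
  have h8 : (∏ l ∈ Finset.univ.erase j, (chain m (j : ℕ) l) ^ e l) = Q e j := rfl
  rw [h8]
  linear_combination -(Q e j) * h7

lemma tele (e : Fin m →₀ ℕ) : (∏ l, (X (Sum.inr l) : S m) ^ e l) - ∏ l, (X (Sum.inl l) : S m) ^ e l =
    ∑ j : Fin m, (X (Sum.inr j) - X (Sum.inl j)) * (Q e j * G e j) := by
  have h1 := Finset.sum_range_sub (fun k : ℕ => ∏ l, (chain m k l) ^ e l) m
  have h2 : (∏ l, (chain m m l) ^ e l) = ∏ l, (X (Sum.inr l) : S m) ^ e l :=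
    Finset.prod_congr rfl fun l _ => by rw [chain, if_pos l.2]
  have h3 : (∏ l, (chain m 0 l) ^ e l) = ∏ l, (X (Sum.inl l) : S m) ^ e l :=
    Finset.prod_congr rfl fun l _ => by rw [chain, if_neg (by omega)]
  rw [← h2, ← h3, ← h1, ← Fin.sum_univ_eq_sum_range
    (fun k => (∏ l, (chain m (k + 1) l) ^ e l) - ∏ l, (chain m k l) ^ e l) m]
  exact Finset.sum_congr rfl fun j _ => prod_chain e j

lemma degreeOf_X_le (i j : Fin m ⊕ Fin m) : degreeOf i (X j : S m) ≤ 1 := by
  rw [degreeOf_X]
  split_ifs <;> omega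

lemma degQ (e : Fin m →₀ ℕ) (j l : Fin m) :
    degreeOf (Sum.inr l) (Q e j) ≤ if l < j then e l else 0 := by
  rw [Q]
  refine (degreeOf_prod_le _ _ _).trans ?_
  have h1 : ∀ k ∈ Finset.univ.erase j, degreeOf (Sum.inr l) (chain m (j : ℕ) k ^ e k) ≤
      if l < j ∧ k = l then e l else 0 := by
    intro k hk
    refine (degreeOf_pow_le _ _ _).trans ?_
    rw [chain]
    by_cases h2 : (k : ℕ) < j
    · rw [if_pos h2]
      by_cases h3 : k = l
      · subst h3
        rw [degreeOf_X_self, mul_one, if_pos ⟨h2, rfl⟩]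
      · rw [degreeOf_X_of_ne, mul_zero]
        · exact Nat.zero_le _
        · exact fun h => h3 (Sum.inr_injective h).symm
    · rw [if_neg h2, degreeOf_X_of_ne, mul_zero]
      · exact Nat.zero_le _
      · exact Sum.inr_ne_inl
  refine (Finset.sum_le_sum h1).trans ?_
  by_cases h4 : l < j
  · rw [if_pos h4]
    simp only [h4, true_and]
    rw [Finset.sum_ite_eq']
    split_ifs <;> omega
  · rw [if_neg h4]
    simp [h4]

lemma degG (e : Fin m →₀ ℕ) (j l : Fin m) :
    degreeOf (Sum.inr l) (G e j) ≤ if l = j then e j - 1 else 0 := by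
  rw [G]
  refine (degreeOf_sum_le _ _ _).trans (Finset.sup_le fun i hi => ?_)
  refine (degreeOf_mul_le _ _ _).trans ?_
  have h1 : degreeOf (Sum.inr l) ((X (Sum.inl j) : S m) ^ (e j - 1 - i)) = 0 := by
    have h2 := degreeOf_pow_le (Sum.inr l) (X (Sum.inl j) : S m) (e j - 1 - i)
    rw [degreeOf_X_of_ne Sum.inr_ne_inl, mul_zero] at h2
    omega
  rw [h1, add_zero]
  refine (degreeOf_pow_le _ _ _).trans ?_
  by_cases h3 : l = j
  · subst h3
    rw [degreeOf_X_self, mul_one, if_pos rfl]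
    have := Finset.mem_range.1 hi
    omega
  · rw [degreeOf_X_of_ne (fun h => h3 (Sum.inr_injective h)), mul_zero]
    exact Nat.zero_le _

end UDDM

theorem specUDD : SpecUDD := by
  intro m u
  refine ⟨fun j => ∑ e ∈ u.support, C (coeff e u) * (UDDM.Q e j * UDDM.G e j), ?_, ?_⟩
  · have h1 : ∀ f : Fin m → Fin m ⊕ Fin m, rename f u =
        ∑ e ∈ u.support, C (coeff e u) * ∏ l, (X (f l) : S m) ^ e l := by
      intro f
      conv_lhs => rw [u.as_sum]
      rw [map_sum]
      refine Finset.sum_congr rfl fun e _ => ?_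
      rw [monomial_eq, map_mul, rename_C, Finsupp.prod_fintype _ _ (fun i => pow_zero _), map_prod]
      congr 1
      exact Finset.prod_congr rfl fun l _ => by rw [map_pow, rename_X]
    rw [h1, h1, ← Finset.sum_sub_distrib]
    simp only [Finset.mul_sum]
    rw [Finset.sum_comm]
    refine Finset.sum_congr rfl fun e _ => ?_
    rw [← mul_sub, UDDM.tele, Finset.mul_sum]
    exact Finset.sum_congr rfl fun j _ => by ring
  · have key : ∀ (j l : Fin m) (e : Fin m →₀ ℕ), degreeOf (Sum.inr l)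
        (C (coeff e u) * (UDDM.Q e j * UDDM.G e j)) ≤
        (if l < j then e l else 0) + (if l = j then e j - 1 else 0) := by
      intro j l e
      refine (degreeOf_C_mul_le _ _ _).trans ((degreeOf_mul_le _ _ _).trans ?_)
      exact add_le_add (UDDM.degQ e j l) (UDDM.degG e j l)
    intro j
    refine ⟨fun l hl => ?_, ?_, fun l hl => ?_⟩
    · refine (degreeOf_sum_le _ _ _).trans (Finset.sup_le fun e he => (key j l e).trans ?_)
      rw [if_pos hl, if_neg hl.ne, add_zero]
      exact le_degreeOf_of_mem_support _ he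
    · refine (degreeOf_sum_le _ _ _).trans (Finset.sup_le fun e he => (key j j e).trans ?_)
      rw [if_neg (lt_irrefl _), if_pos rfl, zero_add]
      exact Nat.sub_le_sub_right (le_degreeOf_of_mem_support _ he) 1
    · refine Nat.le_zero.1 ((degreeOf_sum_le _ _ _).trans (Finset.sup_le fun e he =>
        (key j l e).trans ?_))
      rw [if_neg (not_lt.2 hl.le), if_neg hl.ne']

end Pool.Agent.Lib.MP_4fcc12_ag.AF
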