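import Pool.Agent.Lib.MP_4fcc12_ag.AF.MUR
import Pool.Agent.Lib.MP_4fcc12_ag.AF.Spec
import Mathlib.Algebra.MvPolynomial.NoZeroDivisors
import Mathlib.LinearAlgebra.Matrix.MvPolynomial
import Pool.Agent.Lib.MP_4fcc12_ag.AF.SOC
import Pool.Agent.Lib.MP_4fcc12_ag.AF.TDET
import Pool.Agent.Lib.MP_4fcc12_ag.AF.DIAG
import Pool.Agent.Lib.MP_4fcc12_ag.AF.UDD
import Pool.Agent.Lib.MP_4fcc12_ag.AF.DESC
import Pool.Agent.Lib.MP_4fcc12_ag.AF.Stmt

section
/-!
# Module K2: a common zero gives `det MD = 0`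
-/
open MvPolynomial

namespace Pool.Agent.Lib.MP_4fcc12_ag.AF

open Pool.Agent.Lib.MP_4fcc12_ag.Quot

namespace K2M

variable {m a : ℕ}

lemma dx_isDix (h2 : SpecDD) (h3 : SpecDIX) (f : Fin (m + 1) → MvPolynomial (Fin (m + 1)) ℂ)
    (hf : ∀ i, (f i).IsHomogeneous a) : IsDix f (DX f) := by
  obtain ⟨δ, hδ, _⟩ := h2 m a f hf
  have hex : ∃ Φ, IsDix f Φ := ⟨_, (h3 m f δ hδ).1⟩
  rw [DX, dif_pos hex]
  exact hex.choose_spec

lemma exists_fun_of_multiset (s : Multiset ℂ) (hs : Multiset.card s = m) :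
    ∃ x : Fin m → ℂ, (Finset.univ : Finset (Fin m)).val.map x = s := by
  subst hs
  refine ⟨fun j => s.toList.get (Fin.cast (by simp) j), ?_⟩
  rw [Fin.univ_val_map]
  conv_rhs => rw [← Multiset.coe_toList s]
  congr 1
  apply List.ext_get
  · simp
  · intro n h1 h2
    simp

/-- a point with last coordinate one is a coefficient vector -/
lemma exists_proot (z : Fin (m + 1) → ℂ) (hz : z (Fin.last m) = 1) :
    ∃ x : Fin m → ℂ, proot x = z := by
  set P : Polynomial ℂ := ∑ i : Fin (m + 1), Polynomial.C (z i) * Polynomial.X ^ (i : ℕ) with hP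
  have hcoeff : ∀ i : Fin (m + 1), P.coeff i = z i := by
    intro i
    rw [hP, Polynomial.finsetSum_coeff, Finset.sum_eq_single i]
    · rw [Polynomial.coeff_C_mul, Polynomial.coeff_X_pow, if_pos rfl, mul_one]
    · intro j _ hj
      rw [Polynomial.coeff_C_mul, Polynomial.coeff_X_pow, if_neg, mul_zero]
      intro h
      exact hj (Fin.ext h.symm)
    · intro h
      exact absurd (Finset.mem_univ _) h
  have hdeg : P.natDegree ≤ m := by
    rw [hP]
    apply Polynomial.natDegree_sum_le_of_forall_le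
    intro i _
    refine (Polynomial.natDegree_C_mul_X_pow_le _ _).trans ?_
    exact Nat.lt_succ_iff.1 i.2
  have hlead : P.coeff m = 1 := by
    have := hcoeff (Fin.last m)
    rw [hz] at this
    exact this
  have hmon : P.Monic := Polynomial.monic_of_natDegree_le_of_coeff_eq_one m hdeg hlead
  have hnd : P.natDegree = m := by
    apply le_antisymm hdeg
    apply Polynomial.le_natDegree_of_ne_zero
    rw [hlead]
    exact one_ne_zero
  have hsp : P.roots.card = P.natDegree := by
    have := IsAlgClosed.splits P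
    exact (Polynomial.splits_iff_card_roots.1 this)
  obtain ⟨x, hx⟩ := exists_fun_of_multiset (m := m) P.roots (hsp.trans hnd)
  refine ⟨x, ?_⟩
  have hprod : ∏ j, (Polynomial.X - Polynomial.C (x j)) = P := by
    have h1 := Polynomial.prod_multiset_X_sub_C_of_monic_of_roots_card_eq hmon hsp
    rw [← hx, Multiset.map_map] at h1
    rw [← h1]
    rfl
  funext i
  rw [proot, hprod, hcoeff]

lemma map_proot {R R' : Type*} [CommRing R] [CommRing R'] (φ : R →+* R') (y : Fin m → R)
    (i : Fin (m + 1)) : φ (proot y i) = proot (fun j => φ (y j)) i := by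
  rw [proot, proot, ← Polynomial.coeff_map, Polynomial.map_prod]
  simp

/-- evaluation of the `x`-variables -/
noncomputable def ex (x : Fin m → ℂ) : S m →ₐ[ℂ] MvPolynomial (Fin m) ℂ :=
  aeval (Sum.elim (fun j => C (x j)) X)

lemma ex_FX_zero (x : Fin m → ℂ) (g : MvPolynomial (Fin (m + 1)) ℂ) :
    ex x (FX g 0) = C (eval (proot x) g) := by
  have h1 : ∀ i, ex x (proot (chain m 0) i) = C (proot x i) := by
    intro i
    have h2 := map_proot (ex x : S m →+* MvPolynomial (Fin m) ℂ) (chain m 0) i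
    have h3 := map_proot (C : ℂ →+* MvPolynomial (Fin m) ℂ) x i
    rw [h3]
    refine h2.trans ?_
    congr 1
    funext j
    simp [chain, ex]
  rw [FX]
  have h2 : ex x (aeval (proot (chain m 0)) g) = aeval (fun i => ex x (proot (chain m 0) i)) g := by
    have := MvPolynomial.comp_aeval (σ := Fin (m + 1)) (R := ℂ) (proot (chain m 0)) (ex x)
    exact congrArg (fun φ => φ g) this
  rw [h2]
  simp only [h1]
  have h4 : (aeval (fun i => (C (proot x i) : MvPolynomial (Fin m) ℂ)) :
      MvPolynomial (Fin (m + 1)) ℂ →ₐ[ℂ] MvPolynomial (Fin m) ℂ) =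
      (Algebra.ofId ℂ (MvPolynomial (Fin m) ℂ)).comp (aeval (proot x)) := by
    apply MvPolynomial.algHom_ext
    intro i
    simp only [aeval_X, AlgHom.comp_apply]
    rfl
  rw [h4]
  rfl

lemma prod_ne (x : Fin m → ℂ) :
    (∏ j : Fin m, (C (x j) - X j) : MvPolynomial (Fin m) ℂ) ≠ 0 := by
  rw [Finset.prod_ne_zero_iff]
  intro j _ h
  have h1 := congrArg (eval fun _ => x j + 1) h
  simp at h1

/-- the kernel vanishes at a common zero -/
lemma ex_kernel {f : Fin (m + 1) → MvPolynomial (Fin (m + 1)) ℂ} {Φ : S m} (hΦ : IsDix f Φ)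
    (x : Fin m → ℂ) (hx : ∀ i, eval (proot x) (f i) = 0) : ex x Φ = 0 := by
  have h1 := congrArg (ex x) hΦ
  rw [map_mul, map_prod] at h1
  have h2 : ex x (Matrix.of fun i k : Fin (m + 1) => FX (f i) k).det = 0 := by
    have h3 := RingHom.map_det (ex x : S m →+* MvPolynomial (Fin m) ℂ)
      (Matrix.of fun i k : Fin (m + 1) => FX (f i) k)
    refine h3.trans ?_
    apply Matrix.det_eq_zero_of_column_eq_zero 0
    intro i
    show ex x (FX (f i) ((0 : Fin (m + 1)) : ℕ)) = 0
    have h4 := ex_FX_zero x (f i)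
    rw [hx, map_zero] at h4
    exact h4
  rw [h2] at h1
  have h5 : (∏ j : Fin m, ex x (X (Sum.inl j) - X (Sum.inr j))) =
      ∏ j : Fin m, (C (x j) - X j) := by
    apply Finset.prod_congr rfl
    intro j _
    simp [ex]
  rw [h5] at h1
  exact (mul_eq_zero.1 h1).resolve_left (prod_ne x)

lemma ex_monomial (x : Fin m → ℂ) (α : BL m a) (β : BR m a) (c : ℂ) :
    ex x (monomial (eLR α β) c) = monomial (eR β) (c * ∏ j, x j ^ (α j : ℕ)) := by
  rw [ex, aeval_monomial, Finsupp.prod_fintype _ _ (by simp), Fintype.prod_sum_type]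
  simp only [Sum.elim_inl, Sum.elim_inr, eLR_inl, eLR_inr]
  rw [monomial_eq, Finsupp.prod_fintype _ _ (by simp), map_mul, map_prod]
  simp only [map_pow, eR_apply, algebraMap_eq]
  ring

lemma det_eq_zero_of_root (h1 : SpecDEG) (h2 : SpecDD) (h3 : SpecDIX) (ha : 1 ≤ a)
    (f : Fin (m + 1) → MvPolynomial (Fin (m + 1)) ℂ) (hf : ∀ i, (f i).IsHomogeneous a)
    (x : Fin m → ℂ) (hx : ∀ i, eval (proot x) (f i) = 0) : (MD a f).det = 0 := by
  have hΦ := dx_isDix h2 h3 f hf
  have hz := ex_kernel hΦ x hx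
  rw [expand ha (h1 m a ha f hf _ hΦ), map_sum] at hz
  have hvec : ∀ β : BR m a, ∑ α : BL m a, coeff (eLR α β) (DX f) * ∏ j, x j ^ (α j : ℕ) = 0 := by
    intro β
    have h4 := congrArg (coeff (eR β)) hz
    rw [coeff_sum, coeff_zero] at h4
    rw [← h4]
    apply Finset.sum_congr rfl
    intro α _
    rw [map_sum, coeff_sum, Finset.sum_eq_single β]
    · rw [ex_monomial, coeff_monomial, if_pos rfl]
    · intro β' _ hβ
      rw [ex_monomial, coeff_monomial, if_neg]
      exact fun h => hβ (eR_injective h)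
    · intro h
      exact absurd (Finset.mem_univ _) h
  rw [← Matrix.exists_vecMul_eq_zero_iff]
  refine ⟨fun α => ∏ j, x j ^ (α j : ℕ), ?_, ?_⟩
  · intro h
    have hpos : ∀ j : Fin m, 0 < ((j : ℕ) + 1) * a := fun j => Nat.mul_pos (by omega) ha
    have h5 := congrFun h fun j => ⟨0, hpos j⟩
    simp at h5
  · funext γ
    rw [Matrix.vecMul, dotProduct, Pi.zero_apply]
    rw [← hvec (eBB m a γ)]
    apply Finset.sum_congr rfl
    intro α _
    rw [mul_comm]
    rfl

/-- the matrix `1 + t E_{m l}` over a ring -/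
noncomputable def gm {R : Type*} [CommRing R] (l : Fin (m + 1)) (t : R) :
    Matrix (Fin (m + 1)) (Fin (m + 1)) R :=
  1 + Matrix.single (Fin.last m) l t

lemma gm_map {R R' : Type*} [CommRing R] [CommRing R'] (φ : R →+* R') (l : Fin (m + 1)) (t : R) :
    (gm l t).map φ = gm l (φ t) := by
  unfold gm
  ext i j
  simp only [Matrix.map_apply, Matrix.add_apply, map_add, Matrix.one_apply, Matrix.single_apply]
  split_ifs <;> simp

lemma gm_mulVec (l : Fin (m + 1)) (t : ℂ) (p : Fin (m + 1) → ℂ) (i : Fin (m + 1)) :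
    (gm l t).mulVec p i = p i + if i = Fin.last m then t * p l else 0 := by
  unfold gm
  rw [Matrix.add_mulVec, Matrix.one_mulVec, Pi.add_apply]
  congr 1
  rw [Matrix.mulVec, dotProduct]
  split_ifs with h
  · rw [Finset.sum_eq_single l]
    · simp [h]
    · intro b _ hb
      simp [Ne.symm hb]
    · intro h
      exact absurd (Finset.mem_univ _) h
  · apply Finset.sum_eq_zero
    intro b _
    simp [Ne.symm h]

/-- a point with nonzero last coordinate -/
lemma det_eq_zero_of_last (h1 : SpecDEG) (h2 : SpecDD) (h3 : SpecDIX) (ha : 1 ≤ a)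
    (f : Fin (m + 1) → MvPolynomial (Fin (m + 1)) ℂ) (hf : ∀ i, (f i).IsHomogeneous a)
    (p : Fin (m + 1) → ℂ) (hp : p (Fin.last m) ≠ 0) (hz : ∀ i, eval p (f i) = 0) :
    (MD a f).det = 0 := by
  obtain ⟨x, hx⟩ := exists_proot (fun i => (p (Fin.last m))⁻¹ * p i) (inv_mul_cancel₀ hp)
  apply det_eq_zero_of_root h1 h2 h3 ha f hf x
  intro i
  rw [hx]
  have h4 := aeval_mul_of_isHomogeneous (hf i) (p (Fin.last m))⁻¹ p
  rw [aeval_eq_eval, aeval_eq_eval] at h4
  rw [h4, hz, mul_zero]

end K2M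

open K2M

theorem specK2 (h1 : SpecDEG) (h2 : SpecDD) (h3 : SpecDIX) (h4 : SpecCHI) : SpecK2 := by
  intro m a hm ha f hf ⟨p, hp, hz⟩
  by_cases hlast : p (Fin.last m) = 0
  swap
  · exact det_eq_zero_of_last h1 h2 h3 (by omega) f hf p hlast hz
  obtain ⟨l, hl⟩ : ∃ l, p l ≠ 0 := by
    by_contra h
    push Not at h
    exact hp (funext h)
  have hlm : l ≠ Fin.last m := by
    intro h
    rw [h] at hl
    exact hl hlast
  choose P hP using h4 m a hm ha
  -- coefficients of the translated tuple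
  set T : Polynomial ℂ := Polynomial.X with hT
  set cT : Fin (m + 1) × Mon (m + 1) a → Polynomial ℂ := fun v =>
    coeff v.2.1 (subst (gm l T) (MvPolynomial.map Polynomial.C (f v.1))) with hcT
  set Q : Matrix (BL m a) (BL m a) (Polynomial ℂ) := Matrix.of fun α β =>
    aeval cT (P α β) with hQ
  have hft : ∀ t : ℂ, ∀ i, (subst (gm l t) (f i)).IsHomogeneous a :=
    fun t i => isHomogeneous_subst _ (hf i)
  have hct : ∀ (t : ℂ) v, (cT v).eval t = coeff v.2.1 (subst (gm l t) (f v.1)) := by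
    intro t v
    rw [hcT]
    show Polynomial.evalRingHom t (coeff v.2.1 _) = _
    rw [← coeff_map, map_subst, gm_map, MvPolynomial.map_map]
    have h5 : (Polynomial.evalRingHom t).comp Polynomial.C = RingHom.id ℂ := by
      ext c
      simp
    rw [h5, MvPolynomial.map_id]
    simp [hT]
  have hev : ∀ t : ℂ, (Q.det).eval t = (MD a fun i => subst (gm l t) (f i)).det := by
    intro t
    show Polynomial.evalRingHom t Q.det = _
    rw [RingHom.map_det]
    congr 1
    refine Matrix.ext fun α β => ?_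
    rw [RingHom.mapMatrix_apply, Matrix.map_apply, hQ, Matrix.of_apply]
    have h5 := hP α β fun i => ⟨subst (gm l t) (f i),
      (mem_homogeneousSubmodule a _).2 (hft t i)⟩
    have h6 : MD a (tp fun i => (⟨subst (gm l t) (f i),
      (mem_homogeneousSubmodule a _).2 (hft t i)⟩ : Form (m + 1) a)) α β =
      MD a (fun i => subst (gm l t) (f i)) α β := rfl
    rw [← h6, ← h5]
    have h7 : (Polynomial.evalRingHom t) (aeval cT (P α β)) =
        eval₂ (RingHom.id ℂ) (fun v => (cT v).eval t) (P α β) := by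
      rw [aeval_def, ← RingHom.coe_coe (Polynomial.evalRingHom t), MvPolynomial.hom_eval₂]
      congr 1
      ext c
      simp
    rw [h7]
    show eval (fun v => (cT v).eval t) (P α β) = _
    congr 1
    congr 1
    funext v
    rw [hct]
    rfl
  have hzero : ∀ t : ℂ, t ≠ 0 → (Q.det).eval t = 0 := by
    intro t ht
    rw [hev]
    apply det_eq_zero_of_last h1 h2 h3 (by omega) _ (hft t)
      ((gm l (-t)).mulVec p)
    · rw [gm_mulVec, if_pos rfl, hlast, zero_add]
      exact mul_ne_zero (neg_ne_zero.2 ht) hl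
    · intro i
      rw [eval_subst]
      have h5 : (gm l t).mulVec ((gm l (-t)).mulVec p) = p := by
        funext j
        rw [gm_mulVec, gm_mulVec, gm_mulVec, if_neg hlm, add_zero]
        split_ifs <;> ring
      rw [h5]
      exact hz i
  have hdet : Q.det = 0 := by
    apply Polynomial.eq_zero_of_infinite_isRoot
    apply Set.Infinite.mono (s := {t : ℂ | t ≠ 0})
    · intro t ht
      exact hzero t ht
    · exact (Set.finite_singleton (0 : ℂ)).infinite_compl
  have h8 := hev 0
  rw [hdet, Polynomial.eval_zero] at h8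
  have h9 : (fun i => subst (gm l (0 : ℂ)) (f i)) = f := by
    funext i
    have h10 : gm l (0 : ℂ) = (1 : Matrix (Fin (m + 1)) (Fin (m + 1)) ℂ) := by
      unfold gm
      simp
    rw [h10, subst_one]
  rw [h9] at h8
  exact h8.symm

end Pool.Agent.Lib.MP_4fcc12_ag.AF
end

section
/-!
# Associated forms, module KEY: the factor is a constant
-/
set_option autoImplicit false

open MvPolynomial

namespace Pool.Agent.Lib.MP_4fcc12_ag.AF

open Pool.Agent.Lib.MP_4fcc12_ag.Quot

namespace KEYM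

/-- the monomial `∏ x_j ^ ((j + 1) a - 1)` -/
noncomputable def mon (m a : ℕ) : MvPolynomial (Fin m) ℂ :=
  ∏ j : Fin m, X j ^ (((j : ℕ) + 1) * a - 1)

lemma eq_C_of_degreeOf {σ : Type*} {w : MvPolynomial σ ℂ} (h : ∀ j, degreeOf j w = 0) :
    w = C (coeff 0 w) := by
  classical
  ext s
  rw [coeff_C]
  split_ifs with hs
  · rw [hs]
  · by_contra hne
    apply hs
    ext j
    have h2 := monomial_le_degreeOf j (mem_support_iff.2 hne)
    rw [h j] at h2
    simp only [Finsupp.coe_zero, Pi.zero_apply]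
    omega

lemma mon_ne_zero (m a : ℕ) : mon m a ≠ 0 :=
  Finset.prod_ne_zero_iff.2 fun j _ => pow_ne_zero _ (X_ne_zero j)

lemma degreeOf_mon (m a : ℕ) (j : Fin m) : degreeOf j (mon m a) = ((j : ℕ) + 1) * a - 1 := by
  classical
  have h1 : mon m a = monomial (Finsupp.equivFunOnFinite.symm fun j : Fin m => ((j : ℕ) + 1) * a - 1)
      (1 : ℂ) := by
    rw [monomial_eq, C_1, one_mul, Finsupp.prod_fintype]
    · rfl
    · intro i
      rw [pow_zero]
  rw [h1, degreeOf_monomial_eq _ _ one_ne_zero]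
  rfl

lemma degreeOf_rename_mon (m a : ℕ) (j : Fin m) :
    degreeOf (Sum.inl j) (rename Sum.inr (mon m a) : S m) = 0 := by
  classical
  rw [mon, map_prod]
  refine Nat.le_zero.1 ((degreeOf_prod_le _ _ _).trans ?_)
  refine le_of_eq (Finset.sum_eq_zero fun l _ => ?_)
  rw [map_pow, rename_X]
  exact degreeOf_X_pow_of_ne _ (by simp)

end KEYM

open KEYM in
theorem specKEY (h1 : SpecTEL) (h2 : SpecTTP) (h3 : SpecDEG) : SpecKEY := by
  intro m a hm ha f hf Φ hΦ H hH
  have htel := h1 m a hm ha f hf Φ hΦ H hH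
  obtain ⟨-, -, t3, -⟩ := h2 m H
  have hdeg : ∀ j, degreeOf j (TT H Φ) = 0 := by
    intro j
    by_cases hw : TT H Φ = 0
    · rw [hw, degreeOf_zero]
    have e1 := htel (mon m a) (fun j => (degreeOf_mon m a j).le)
    have e2 := t3 (rename Sum.inr (mon m a) * Φ) j
    rw [e1, degreeOf_mul_eq (mon_ne_zero m a) hw, degreeOf_mon] at e2
    have e3 := degreeOf_mul_le (Sum.inl j) (rename Sum.inr (mon m a) : S m) Φ
    rw [degreeOf_rename_mon] at e3
    have e4 := (h3 m a (by omega) f hf Φ hΦ j).1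
    omega
  refine ⟨coeff 0 (TT H Φ), fun u hu => ?_⟩
  rw [htel u hu, ← eq_C_of_degreeOf hdeg, mul_comm]

end Pool.Agent.Lib.MP_4fcc12_ag.AF
end

section
/-!
# Associated forms: `MD * BGᵀ = c₁`
-/
open MvPolynomial

namespace Pool.Agent.Lib.MP_4fcc12_ag.AF

open Pool.Agent.Lib.MP_4fcc12_ag.Quot

theorem specMB (h : SpecGF) : SpecMB := by
  intro m a hm ha c₁ hc₁ F hF
  obtain ⟨-, h2, h3⟩ := h m a hm ha F hF
  have e := hc₁.2 (tp F) (fun i => (F i).2) (GC (cc F)) h2
  have hj : jacP (tp F) = jac F := rfl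
  rw [hj, h3, mul_one] at e
  rw [MD, BG, Matrix.transpose_submatrix, Matrix.submatrix_mul_equiv, e]
  ext α β
  simp [Matrix.smul_apply, Matrix.one_apply]

end Pool.Agent.Lib.MP_4fcc12_ag.AF
end

section
/-!
# Module MEM: invariant regular functions on the tuples are quotients by powers of the determinant
-/
open MvPolynomial

namespace Pool.Agent.Lib.MP_4fcc12_ag.AF

open Pool.Agent.Lib.MP_4fcc12_ag.Quot

namespace MEMM

variable {m a : ℕ}

lemma eval_mem {U ι : Type} (B : Subalgebra ℂ (U → ℂ)) (x : ι → U → ℂ) (hx : ∀ i, x i ∈ B)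
    (P : MvPolynomial ι ℂ) : (fun F => eval (fun i => x i F) P) ∈ B := by
  induction P using MvPolynomial.induction_on with
  | C c =>
    have h : (fun F : U => eval (fun i => x i F) (C c)) = algebraMap ℂ (U → ℂ) c := by
      funext F
      rw [eval_C]
      rfl
    rw [h]
    exact B.algebraMap_mem c
  | add p q hp hq =>
    have h : (fun F : U => eval (fun i => x i F) (p + q)) =
        (fun F => eval (fun i => x i F) p) + (fun F => eval (fun i => x i F) q) := by
      funext F
      rw [map_add]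
      rfl
    rw [h]
    exact add_mem hp hq
  | mul_X p i hp =>
    have h : (fun F : U => eval (fun i => x i F) (p * X i)) =
        (fun F => eval (fun i => x i F) p) * x i := by
      funext F
      rw [map_mul, eval_X]
      rfl
    rw [h]
    exact mul_mem hp (hx i)

lemma isDix_DX (h6 : SpecDD) (h7 : SpecDIX) (f : Fin (m + 1) → MvPolynomial (Fin (m + 1)) ℂ)
    (hf : ∀ i, (f i).IsHomogeneous a) : IsDix f (DX f) := by
  obtain ⟨δ, hδ, _⟩ := h6 m a f hf
  have hex : ∃ Φ, IsDix f Φ := ⟨_, (h7 m f δ hδ).1⟩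
  rw [DX, dif_pos hex]
  exact hex.choose_spec

lemma dix_unique (h6 : SpecDD) (h7 : SpecDIX) (f : Fin (m + 1) → MvPolynomial (Fin (m + 1)) ℂ)
    (hf : ∀ i, (f i).IsHomogeneous a) {Φ Φ' : S m} (h : IsDix f Φ) (h' : IsDix f Φ') : Φ = Φ' := by
  obtain ⟨δ, hδ, _⟩ := h6 m a f hf
  have h1 := (h7 m f δ hδ).2
  rw [(h1 Φ h).1, (h1 Φ' h').1]

lemma tp_hom (F : Fin (m + 1) → Form (m + 1) a) (i : Fin (m + 1)) : (tp F i).IsHomogeneous a :=
  (mem_homogeneousSubmodule _ _).1 (F i).2

lemma tp_lcT (A : Matrix (Fin (m + 1)) (Fin (m + 1)) ℂ) (F : Fin (m + 1) → Form (m + 1) a)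
    (i : Fin (m + 1)) : tp (lcT A F) i = ∑ j, A i j • tp F j := by
  rw [tp, lcT, AddSubmonoidClass.coe_finsetSum]
  rfl

lemma isDix_lcT (h6 : SpecDD) (h7 : SpecDIX) (A : Matrix (Fin (m + 1)) (Fin (m + 1)) ℂ)
    (F : Fin (m + 1) → Form (m + 1) a) :
    IsDix (tp (lcT A F)) (C A.det * DX (tp F)) := by
  have h1 := isDix_DX h6 h7 (tp F) (tp_hom F)
  rw [IsDix] at h1 ⊢
  have h2 : (Matrix.of fun i k : Fin (m + 1) => FX (tp (lcT A F) i) k) =
      (C : ℂ →+* S m).mapMatrix A * Matrix.of fun i k : Fin (m + 1) => FX (tp F i) k := by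
    refine Matrix.ext fun i k => ?_
    rw [Matrix.mul_apply, Matrix.of_apply, FX, tp_lcT, map_sum]
    apply Finset.sum_congr rfl
    intro j _
    rw [map_smul, smul_eq_C_mul, RingHom.mapMatrix_apply, Matrix.map_apply]
    rfl
  rw [h2, Matrix.det_mul, ← RingHom.map_det, ← h1]
  ring

lemma MD_lcT (h6 : SpecDD) (h7 : SpecDIX) (A : Matrix (Fin (m + 1)) (Fin (m + 1)) ℂ)
    (F : Fin (m + 1) → Form (m + 1) a) : MD a (tp (lcT A F)) = A.det • MD a (tp F) := by
  have h1 : DX (tp (lcT A F)) = C A.det * DX (tp F) :=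
    dix_unique h6 h7 _ (tp_hom (lcT A F)) (isDix_DX h6 h7 _ (tp_hom (lcT A F)))
      (isDix_lcT h6 h7 A F)
  refine Matrix.ext fun α β => ?_
  rw [MD, MD, h1, Matrix.smul_apply, Matrix.submatrix_apply, Matrix.submatrix_apply, Mm, Mm,
    Matrix.of_apply, Matrix.of_apply, coeff_C_mul, smul_eq_mul]

/-- the matrix of the coefficients in the columns `T` -/
noncomputable def MT (T : Fin (m + 1) → Mon (m + 1) a) (F : Fin (m + 1) → Form (m + 1) a) :
    Matrix (Fin (m + 1)) (Fin (m + 1)) ℂ := Matrix.of fun i j => coeff (T j).1 (tp F i)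

lemma ctL_lcT (T : Fin (m + 1) → Mon (m + 1) a) (F : Fin (m + 1) → Form (m + 1) a)
    (i : Fin (m + 1)) (t : Mon (m + 1) a) :
    ctL (m + 1) a (lcT (MT T F).adjugate F) (i, t) = (MT (Function.update T i t) F).det := by
  have h1 : ctL (m + 1) a (lcT (MT T F).adjugate F) (i, t) =
      coeff t.1 (tp (lcT (MT T F).adjugate F) i) := rfl
  rw [h1, tp_lcT, coeff_sum]
  have h2 := congrFun (Matrix.cramer_eq_adjugate_mulVec (MT T F) fun j => coeff t.1 (tp F j)) i
  rw [Matrix.cramer_apply] at h2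
  have h3 : (MT T F).updateCol i (fun j => coeff t.1 (tp F j)) = MT (Function.update T i t) F := by
    refine Matrix.ext fun i' j' => ?_
    rw [Matrix.updateCol_apply, MT, MT, Matrix.of_apply, Matrix.of_apply]
    split_ifs with h
    · rw [h, Function.update_self]
    · rw [Function.update_of_ne h]
  rw [h3] at h2
  rw [h2, Matrix.mulVec, dotProduct]
  apply Finset.sum_congr rfl
  intro j _
  rw [coeff_smul, smul_eq_mul]

end MEMM

open MEMM in
theorem specMEM (h1 : SpecGLOB) (h2 : SpecPLU) (h3 : SpecUNI) (h4 : SpecBM) (h5 : SpecUUX)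
    (h6 : SpecDD) (h7 : SpecDIX) : SpecMEM := by
  intro m a hm ha φ hφ hinv
  obtain ⟨t, P, hP⟩ := h1 m a hm ha φ hφ
  obtain ⟨b, hb, hb1⟩ := h3 m a hm ha
  have hplu : ∀ T : Fin (m + 1) → Mon (m + 1) a,
      (fun F : UU (m + 1) a => (MT T F.1).det) ∈ BB m a := h2 m a hm ha
  have hchi := (h4 m a hm ha).2.1
  -- the key membership
  have key : ∀ T : Fin (m + 1) → Mon (m + 1) a,
      (fun F : UU (m + 1) a => (MT T F.1).det ^ (m * Fintype.card (BL m a) * t + 1) * φ F) ∈
        BB m a := by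
    intro T
    have hQ : (fun F : UU (m + 1) a =>
        eval (ctL (m + 1) a (lcT (MT T F.1).adjugate F.1)) P) ∈ BB m a := by
      have h8 := eval_mem (BB m a) (fun (p : Fin (m + 1) × Mon (m + 1) a) (F : UU (m + 1) a) =>
        (MT (Function.update T p.1 p.2) F.1).det) (fun p => hplu _) P
      have h9 : (fun F : UU (m + 1) a =>
          eval (ctL (m + 1) a (lcT (MT T F.1).adjugate F.1)) P) =
          fun F => eval (fun p : Fin (m + 1) × Mon (m + 1) a =>
            (MT (Function.update T p.1 p.2) F.1).det) P := by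
        funext F
        congr 2
        funext ⟨i, s⟩
        exact ctL_lcT T F.1 i s
      rw [h9]
      exact h8
    have h10 := mul_mem (mul_mem (hplu T) hQ) (pow_mem hchi t)
    convert h10 using 1
    funext F
    show (MT T F.1).det ^ (m * Fintype.card (BL m a) * t + 1) * φ F =
      (MT T F.1).det * eval (ctL (m + 1) a (lcT (MT T F.1).adjugate F.1)) P *
        (((MD a (tp F.1)).det)⁻¹) ^ t
    by_cases hT : (MT T F.1).det = 0
    · rw [hT]
      simp
    · have hA : (MT T F.1).adjugate.det = (MT T F.1).det ^ m := by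
        rw [Matrix.det_adjugate, Fintype.card_fin, Nat.add_sub_cancel]
      have hA0 : (MT T F.1).adjugate.det ≠ 0 := by
        rw [hA]
        exact pow_ne_zero _ hT
      have hχ : (MD a (tp F.1)).det ≠ 0 := (h5 m a hm ha F.1).1 F.2
      have h11 := hP ⟨lcT (MT T F.1).adjugate F.1, lcT_mem (by omega) hA0 F.2⟩
      rw [hinv _ hA0 F] at h11
      rw [← h11, MD_lcT h6 h7, Matrix.det_smul, hA, mul_pow, pow_succ, inv_pow]
      have h12 : ((MD a (tp F.1)).det) ^ t ≠ 0 := pow_ne_zero _ hχ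
      field_simp
      ring
  -- the ideal
  let B := BB m a
  let I : Ideal B :=
    { carrier := {x | (x : UU (m + 1) a → ℂ) * φ ∈ B}
      add_mem' := by
        intro x y hx hy
        show ((x : UU (m + 1) a → ℂ) + (y : UU (m + 1) a → ℂ)) * φ ∈ B
        rw [add_mul]
        exact add_mem hx hy
      zero_mem' := by
        show (0 : UU (m + 1) a → ℂ) * φ ∈ B
        rw [zero_mul]
        exact zero_mem _
      smul_mem' := by
        intro c x hx
        show ((c : UU (m + 1) a → ℂ) * (x : UU (m + 1) a → ℂ)) * φ ∈ B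
        rw [mul_assoc]
        exact mul_mem c.2 hx }
  let pT : (Fin (m + 1) → Mon (m + 1) a) → B := fun T => ⟨fun F => (MT T F.1).det, hplu T⟩
  have hspan : Ideal.span (Set.range pT) = ⊤ := by
    rw [Ideal.eq_top_iff_one]
    have h13 : (1 : B) = ∑ T, (⟨b T, hb T⟩ : B) * pT T := by
      apply Subtype.ext
      rw [AddSubmonoidClass.coe_finsetSum]
      funext F
      rw [Finset.sum_apply]
      exact (hb1 F).symm
    rw [h13]
    exact Ideal.sum_mem _ fun T _ => Ideal.mul_mem_left _ _ (Ideal.subset_span ⟨T, rfl⟩)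
  have hI : I = ⊤ := by
    rw [eq_top_iff, ← Ideal.span_pow_eq_top _ hspan (m * Fintype.card (BL m a) * t + 1),
      Ideal.span_le]
    rintro _ ⟨_, ⟨T, rfl⟩, rfl⟩
    exact key T
  have h14 : (1 : B) ∈ I := by
    rw [hI]
    trivial
  have h15 : (1 : UU (m + 1) a → ℂ) * φ ∈ B := h14
  rwa [one_mul] at h15

end Pool.Agent.Lib.MP_4fcc12_ag.AF
end

section
/-!
# Associated forms: existence and uniqueness of `μ`
-/
open MvPolynomial

namespace Pool.Agent.Lib.MP_4fcc12_ag.AF

open Pool.Agent.Lib.MP_4fcc12_ag.Quot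

namespace MUM

lemma exists_functional {V : Type*} [AddCommGroup V] [Module ℂ V] (W : Submodule ℂ V) {v : V}
    (hv : v ∉ W) : ∃ G : V →ₗ[ℂ] ℂ, (∀ w ∈ W, G w = 0) ∧ G v = 1 := by
  obtain ⟨G, hG, hW⟩ := Submodule.exists_le_ker_of_notMem hv
  refine ⟨(G v)⁻¹ • G, fun w hw => ?_, ?_⟩
  · rw [LinearMap.smul_apply, LinearMap.mem_ker.1 (hW hw), smul_zero]
  · rw [LinearMap.smul_apply, smul_eq_mul, inv_mul_cancel₀ hG]

lemma eq_zero_of_mul {I J : Type*} [Fintype I] [Fintype J] [DecidableEq I] [DecidableEq J]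
    (e : I ≃ J) {M : Matrix I J ℂ} {B : Matrix J I ℂ} {c : ℂ} (hc : c ≠ 0) (h : M * B = c • 1)
    {Y : Matrix J I ℂ} (hY : M * Y = 0) : Y = 0 := by
  have h1 : M * (c⁻¹ • B) = 1 := by
    rw [Matrix.mul_smul, h, smul_smul, inv_mul_cancel₀ hc, one_smul]
  have h2 : (c⁻¹ • B) * M = 1 := (Matrix.mul_eq_one_comm_of_equiv e).1 h1
  calc Y = (c⁻¹ • B) * M * Y := by rw [h2, Matrix.one_mul]
    _ = 0 := by rw [Matrix.mul_assoc, hY, Matrix.mul_zero]

end MUM

theorem specMU (h1 : SpecSOC) (h2 : SpecK1) (h3 : SpecND) : SpecMU := by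
  intro m a hm ha F hF h hh
  have hjac : jac F ∉ idl F :=
    h1 (m + 1) a (by omega) (fun i => (F i : MvPolynomial (Fin (m + 1)) ℂ)) (fun i => (F i).2) hF.2
  have hjac' : jac F = jacP (tp F) := rfl
  obtain ⟨c₁, hc₁, hK⟩ := h2 m a hm ha
  have hmem : ∀ i q, tp F i * q ∈ idl F := fun i q =>
    Ideal.mul_mem_right _ _ (Ideal.subset_span ⟨i, rfl⟩)
  have htp : ∀ i, (tp F i).IsHomogeneous a := fun i => (F i).2
  -- existence
  have hex : h ∈ (idl F).restrictScalars ℂ ⊔ Submodule.span ℂ {jac F} := by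
    by_contra hcon
    obtain ⟨G, hG, hGh⟩ := MUM.exists_functional _ hcon
    obtain ⟨G₀, hG₀, hG₀j⟩ := MUM.exists_functional ((idl F).restrictScalars ℂ)
      (v := jac F) (fun h' => hjac h')
    have e0 := hK (tp F) htp G₀ (fun i q _ => hG₀ _ (hmem i q))
    have e1 := hK (tp F) htp G (fun i q _ => hG _ (Submodule.mem_sup_left (hmem i q)))
    rw [← hjac', hG₀j, mul_one] at e0
    rw [← hjac', hG _ (Submodule.mem_sup_right (Submodule.mem_span_singleton_self _)), mul_zero,
      zero_smul] at e1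
    have e2 := MUM.eq_zero_of_mul (eBB m a) hc₁ e0 e1
    rw [Matrix.transpose_eq_zero] at e2
    have e3 := h3 m a hm ha G e2 h hh
    rw [hGh] at e3
    exact one_ne_zero e3
  obtain ⟨y, hy, z, hz, hyz⟩ := Submodule.mem_sup.1 hex
  obtain ⟨c, rfl⟩ := Submodule.mem_span_singleton.1 hz
  refine ⟨c, ?_, ?_⟩
  · show h - C c * jac F ∈ idl F
    rw [← hyz, smul_eq_C_mul, add_sub_cancel_right]
    exact hy
  · intro c' hc'
    have hc'' : h - C c' * jac F ∈ idl F := hc'
    rw [← hyz, smul_eq_C_mul] at hc''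
    have h4 : C (c - c') * jac F ∈ idl F := by
      have h5 := Ideal.sub_mem _ hc'' hy
      have h6 : y + C c * jac F - C c' * jac F - y = C (c - c') * jac F := by
        rw [C_sub]
        ring
      rwa [h6] at h5
    by_contra hne
    have hne' : c - c' ≠ 0 := sub_ne_zero.2 fun h => hne h.symm
    apply hjac
    have h7 := Ideal.mul_mem_left _ (C (c - c')⁻¹) h4
    rwa [← mul_assoc, ← C_mul, inv_mul_cancel₀ hne', C_1, one_mul] at h7

end Pool.Agent.Lib.MP_4fcc12_ag.AF
end

section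
/-!
# Associated forms: a functional with `Bm = 0` vanishes on forms of degree `N`
-/
open MvPolynomial

namespace Pool.Agent.Lib.MP_4fcc12_ag.AF

open Pool.Agent.Lib.MP_4fcc12_ag.Quot

namespace NDM

/-- `Top` is an operator as required, if there is one. -/
theorem isT_Top (h : SpecTDET) {m : ℕ} (N : ℕ) (hm : 1 ≤ m) : IsT m N (Top m N) := by
  have h1 := h m N hm
  unfold Top
  rw [dif_pos h1]
  exact h1.choose_spec

/-- a polynomial of bounded degrees is a combination of the monomials with these degrees -/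
theorem map_eq_zero {m D : ℕ} (L : MvPolynomial (Fin m) ℂ →ₗ[ℂ] ℂ)
    (hL : ∀ γ : Fin m →₀ ℕ, (∀ j, γ j ≤ D) → L (monomial γ 1) = 0)
    {p : MvPolynomial (Fin m) ℂ} (hp : ∀ j, degreeOf j p ≤ D) : L p = 0 := by
  rw [p.as_sum, map_sum]
  apply Finset.sum_eq_zero
  intro γ hγ
  have h1 : (monomial γ (coeff γ p) : MvPolynomial (Fin m) ℂ) = coeff γ p • monomial γ 1 := by
    rw [smul_monomial, smul_eq_mul, mul_one]
  rw [h1, map_smul, hL γ fun j => (monomial_le_degreeOf j hγ).trans (hp j), smul_zero]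

end NDM

/-- MODULE ND -/
theorem specND (h1 : SpecTS) (h2 : SpecTDET) : SpecND := by
  intro m a hm ha G hB g hg
  have hT := NDM.isT_Top h2 ((m + 1) * (a - 1)) hm
  obtain ⟨hdeg, hTS⟩ := h1 m _ hm _ hT g hg
  have hNa : (m + 1) * (a - 1) + m - 1 = (m + 1) * a - 2 := by
    obtain ⟨b, rfl⟩ : ∃ b, a = b + 2 := ⟨a - 2, by omega⟩
    rw [show b + 2 - 1 = b + 1 by omega]
    have e1 : (m + 1) * (b + 2) = (m + 1) * (b + 1) + (m + 1) := by ring
    omega
  have h3 : (G ∘ₗ Top m ((m + 1) * (a - 1))) (vdm m * FY g) = 0 := by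
    refine NDM.map_eq_zero _ (D := (m + 1) * a - 2) (fun γ hγ => ?_) fun j => ?_
    · obtain ⟨α, β, rfl⟩ := exists_eL_add_eR (show 1 ≤ a by omega) hγ
      exact congrFun (congrFun hB α) β
    · rw [← hNa]
      exact hdeg j
  rw [LinearMap.comp_apply, hTS, map_smul, smul_eq_mul] at h3
  exact (mul_eq_zero.1 h3).resolve_left (Nat.cast_ne_zero.2 (Nat.factorial_ne_zero m))

end Pool.Agent.Lib.MP_4fcc12_ag.AF
end

section
/-!
# Associated forms: Pluecker coordinates
-/
open MvPolynomial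

namespace Pool.Agent.Lib.MP_4fcc12_ag.AF

open Pool.Agent.Lib.MP_4fcc12_ag.Quot

theorem specPLU (h1 : SpecBAS) (h2 : SpecSPAN) : SpecPLU := by
  intro m a hm ha T
  obtain ⟨ι, _, c, w, hw, h⟩ := h2 (m + 1) a T
  have e : (fun F : UU (m + 1) a => (Matrix.of fun i j => coeff (T j).1 (tp F.1 i)).det) =
      ∑ s, c s • (fun F : UU (m + 1) a =>
        (Matrix.of fun i l => eval (w s l) (tp F.1 i)).det) := by
    funext F
    rw [h F.1, Finset.sum_apply]
    rfl
  rw [e]
  exact Subalgebra.sum_mem _ fun s _ => Subalgebra.smul_mem _ (h1 m a hm ha (w s) (hw s)) _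

end Pool.Agent.Lib.MP_4fcc12_ag.AF
end

section
/-!
# The coefficients of the associated form are regular functions
-/
open MvPolynomial
open Pool.Agent.Lib.MP_4fcc12_ag.Quot

namespace Pool.Agent.Lib.MP_4fcc12_ag.AF

theorem specREG (h1 : SpecMUR) (h2 : SpecMB) (h3 : SpecK1) (h4 : SpecCHI) (h5 : SpecUUX) :
    SpecREG := by
  intro m a hm ha
  obtain ⟨χ, hχ⟩ := GLOBM.exists_det h4 hm ha
  have hne : ∀ F : UU (m + 1) a, (MD a (tp F.1)).det ≠ 0 := fun F => (h5 m a hm ha F.1).1 F.2
  have hcoord : ∀ i : Mon (m + 1) ((m + 1) * (a - 1)),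
      Quot.IsRegular (UU (m + 1) a) fun F => cc F.1 i := by
    intro i u
    obtain ⟨P, hP⟩ := h1 m a hm ha i
    refine ⟨_, polyFun_tuple P, _, polyFun_tuple χ, ?_, ?_⟩
    · show eval (ctL (m + 1) a u.1) χ ≠ 0
      rw [hχ]
      exact hne u
    · intro F hF
      show cc F.1 i = eval (ctL (m + 1) a F.1) P / eval (ctL (m + 1) a F.1) χ
      rw [← hP F.1 F.2, hχ, mul_div_assoc, div_self (hne F), mul_one]
  refine ⟨?_, ?_⟩
  · intro P
    induction P using MvPolynomial.induction_on with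
    | C c =>
      simp only [eval_C]
      exact Quot.IsRegular.const c
    | add P Q hP hQ =>
      simp only [map_add]
      exact Quot.IsRegular.add hP hQ
    | mul_X P i hP =>
      simp only [map_mul, eval_X]
      exact Quot.IsRegular.mul hP (hcoord i)
  · obtain ⟨c₁, hc₁⟩ := h3 m a hm ha
    have hdet : ∀ F : UU (m + 1) a, (MD a (tp F.1)).det * eval (cc F.1) (JJ m a) =
        c₁ ^ Fintype.card (BL m a) := by
      intro F
      have h6 := congrArg Matrix.det (h2 m a hm ha c₁ hc₁ F.1 F.2)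
      rw [Matrix.det_mul, Matrix.det_transpose, ← eval_JJ, Matrix.det_smul, Matrix.det_one,
        mul_one] at h6
      exact h6
    have hc : c₁ ^ Fintype.card (BL m a) ≠ 0 := pow_ne_zero _ hc₁.1
    intro u
    refine ⟨_, polyFun_tuple χ, _, polyFun_tuple (C (c₁ ^ Fintype.card (BL m a))), ?_, ?_⟩
    · show eval (ctL (m + 1) a u.1) (C (c₁ ^ Fintype.card (BL m a))) ≠ 0
      rw [eval_C]
      exact hc
    · intro F hF
      show (eval (cc F.1) (JJ m a))⁻¹ = eval (ctL (m + 1) a F.1) χ /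
        eval (ctL (m + 1) a F.1) (C (c₁ ^ Fintype.card (BL m a)))
      rw [eval_C, hχ, ← hdet F, div_mul_cancel_left₀ (hne F)]

end Pool.Agent.Lib.MP_4fcc12_ag.AF
end

section
/-!
# Associated forms, module REL: `(y_j - x_j) Φ` is in the ideal of the `FX (f i) m`
-/
set_option autoImplicit false

open MvPolynomial

namespace Pool.Agent.Lib.MP_4fcc12_ag.AF

namespace RELM

variable {m : ℕ}

theorem degreeOf_zsmul_le {σ : Type} (x : σ) (u : ℤˣ) (p : MvPolynomial σ ℂ) :
    degreeOf x (u • p) ≤ degreeOf x p := by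
  rcases Int.units_eq_one_or u with rfl | rfl
  · rw [one_smul]
  · rw [Units.neg_smul, one_smul, degreeOf_neg]

/-- the degree of a determinant in a variable -/
theorem degreeOf_det_le {σ : Type} {n : ℕ} (x : σ)
    (A : Matrix (Fin n) (Fin n) (MvPolynomial σ ℂ)) (b : Fin n → ℕ)
    (h : ∀ i q, degreeOf x (A i q) ≤ b q) : degreeOf x A.det ≤ ∑ q, b q := by
  rw [Matrix.det_apply]
  refine (degreeOf_sum_le x Finset.univ _).trans (Finset.sup_le fun τ _ => ?_)
  refine (degreeOf_zsmul_le x _ _).trans ?_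
  refine (degreeOf_prod_le x Finset.univ _).trans ?_
  exact Finset.sum_le_sum fun q _ => h _ q

theorem tele (f : MvPolynomial (Fin (m + 1)) ℂ) :
    ∑ l : Fin m, (FX f ((l : ℕ) + 1) - FX f (l : ℕ)) = FX f m - FX f 0 := by
  rw [Fin.sum_univ_eq_sum_range (fun l => FX f (l + 1) - FX f l) m, Finset.sum_range_sub]

/-- `δ` with `c` at place `j` -/
noncomputable def upd (δ : Fin m → Fin (m + 1) → S m) (j : Fin m) (c : Fin (m + 1) → S m) :
    Fin m → Fin (m + 1) → S m := fun q => if q = j then c else δ q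

theorem dmat_upd (c₀ : Fin (m + 1) → S m) (δ : Fin m → Fin (m + 1) → S m) (j : Fin m)
    (c : Fin (m + 1) → S m) : (dmat c₀ δ).updateCol j.succ c = dmat c₀ (upd δ j c) := by
  ext1 i k
  rw [Matrix.updateCol_apply]
  refine Fin.cases ?_ (fun l => ?_) k
  · rw [if_neg (Fin.succ_ne_zero j).symm]
    rfl
  · show (if l.succ = j.succ then c i else δ l i) = upd δ j c l i
    rw [upd]
    by_cases h : l = j
    · rw [if_pos h, if_pos (congrArg _ h)]
    · rw [if_neg h, if_neg (fun h' => h (Fin.succ_injective _ h'))]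

theorem key (f : Fin (m + 1) → MvPolynomial (Fin (m + 1)) ℂ)
    (δ : Fin m → Fin (m + 1) → S m) (h : IsDiff f δ) (j : Fin m) :
    (X (Sum.inr j) - X (Sum.inl j)) * (dmat (fun i => FX (f i) m) δ).det =
      -(dmat (fun i => FX (f i) m) (upd δ j fun i => FX (f i) 0)).det := by
  set A := dmat (fun i => FX (f i) m) δ with hA
  have h0 : A.cramer (fun i => FX (f i) m) = Pi.single 0 A.det :=
    Matrix.cramer_row_self A _ 0 fun i => rfl
  have hs : ∀ l : Fin m, A.cramer (δ l) = Pi.single l.succ A.det := fun l =>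
    Matrix.cramer_row_self A _ l.succ fun i => rfl
  have h1 : (fun i => FX (f i) 0) = (fun i => FX (f i) m) -
      ∑ l : Fin m, (X (Sum.inr l) - X (Sum.inl l) : S m) • δ l := by
    funext i
    rw [Pi.sub_apply, Finset.sum_apply]
    have h2 : ∀ l : Fin m, ((X (Sum.inr l) - X (Sum.inl l) : S m) • δ l) i =
        FX (f i) ((l : ℕ) + 1) - FX (f i) (l : ℕ) := fun l => h l i
    rw [Finset.sum_congr rfl fun l _ => h2 l, tele]
    ring
  have h2 : A.cramer (fun i => FX (f i) 0) j.succ =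
      -((X (Sum.inr j) - X (Sum.inl j)) * A.det) := by
    rw [h1, map_sub, map_sum, Pi.sub_apply, Finset.sum_apply, h0,
      Pi.single_eq_of_ne (Fin.succ_ne_zero j), zero_sub]
    congr 1
    rw [Finset.sum_eq_single j]
    · rw [map_smul, hs, Pi.smul_apply, Pi.single_eq_same, smul_eq_mul]
    · intro l _ hl
      rw [map_smul, hs, Pi.smul_apply, Pi.single_eq_of_ne, smul_zero]
      exact fun h' => hl (Fin.succ_injective _ h').symm
    · intro h'
      exact absurd (Finset.mem_univ j) h'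
  rw [Matrix.cramer_apply, hA, dmat_upd] at h2
  rw [h2, neg_neg]

/-- bounds for the degrees of the columns of the minors -/
def bd (a : ℕ) (j : Fin m) (l : Fin m) (q : Fin m) : ℕ :=
  if q = j then 0 else if q = l then a - 1 else if l < q then a else 0

theorem sum_Ici (a : ℕ) (l : Fin m) : ∑ q : Fin m, (if l ≤ q then a else 0) = (m - l) * a := by
  rw [← Finset.sum_filter, Finset.sum_const, smul_eq_mul]
  have h : (Finset.univ.filter fun q : Fin m => l ≤ q) = Finset.Ici l := by
    ext q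
    simp
  rw [h, Fin.card_Ici]

theorem sum_bd_lt {a : ℕ} (ha : 1 ≤ a) {j l : Fin m} (h : l < j) :
    ∑ q, bd a j l q + (a + 1) = (m - l) * a := by
  have h1 : ∀ q : Fin m, bd a j l q + ((if q = j then a else 0) + (if q = l then 1 else 0)) =
      if l ≤ q then a else 0 := by
    intro q
    rw [bd]
    by_cases hj : q = j
    · subst hj
      rw [if_pos rfl, if_pos rfl, if_neg h.ne', if_pos h.le]
      omega
    · rw [if_neg hj, if_neg hj]
      by_cases hl : q = l
      · subst hl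
        rw [if_pos rfl, if_pos rfl, if_pos le_rfl]
        omega
      · rw [if_neg hl, if_neg hl]
        by_cases h3 : l < q
        · rw [if_pos h3, if_pos h3.le]
          omega
        · rw [if_neg h3, if_neg (fun h4 => h3 (lt_of_le_of_ne h4 (Ne.symm hl)))]
  rw [← sum_Ici, ← Finset.sum_congr rfl fun q _ => h1 q, Finset.sum_add_distrib,
    Finset.sum_add_distrib, Finset.sum_ite_eq', Finset.sum_ite_eq', if_pos (Finset.mem_univ _),
    if_pos (Finset.mem_univ _)]

theorem sum_bd_eq {a : ℕ} {j : Fin m} : ∑ q, bd a j j q + a = (m - j) * a := by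
  have h1 : ∀ q : Fin m, bd a j j q + (if q = j then a else 0) = if j ≤ q then a else 0 := by
    intro q
    rw [bd]
    by_cases hj : q = j
    · subst hj
      rw [if_pos rfl, if_pos rfl, if_pos le_rfl]
      omega
    · rw [if_neg hj, if_neg hj, if_neg hj]
      by_cases h3 : j < q
      · rw [if_pos h3, if_pos h3.le]
        omega
      · rw [if_neg h3, if_neg (fun h4 => h3 (lt_of_le_of_ne h4 (Ne.symm hj)))]
  rw [← sum_Ici, ← Finset.sum_congr rfl fun q _ => h1 q, Finset.sum_add_distrib,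
    Finset.sum_ite_eq', if_pos (Finset.mem_univ _)]

theorem sum_bd_gt {a : ℕ} (ha : 1 ≤ a) {j l : Fin m} (h : j < l) :
    ∑ q, bd a j l q + 1 = (m - l) * a := by
  have h1 : ∀ q : Fin m, bd a j l q + (if q = l then 1 else 0) = if l ≤ q then a else 0 := by
    intro q
    rw [bd]
    by_cases hj : q = j
    · subst hj
      rw [if_pos rfl, if_neg h.ne, if_neg (not_le.2 h)]
    · rw [if_neg hj]
      by_cases hl : q = l
      · subst hl
        rw [if_pos rfl, if_pos rfl, if_pos le_rfl]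
        omega
      · rw [if_neg hl, if_neg hl]
        by_cases h3 : l < q
        · rw [if_pos h3, if_pos h3.le]
          omega
        · rw [if_neg h3, if_neg (fun h4 => h3 (lt_of_le_of_ne h4 (Ne.symm hl)))]
  rw [← sum_Ici, ← Finset.sum_congr rfl fun q _ => h1 q, Finset.sum_add_distrib,
    Finset.sum_ite_eq', if_pos (Finset.mem_univ _)]

/-- the coefficients -/
noncomputable def co (f : Fin (m + 1) → MvPolynomial (Fin (m + 1)) ℂ)
    (δ : Fin m → Fin (m + 1) → S m) (j : Fin m) (i : Fin (m + 1)) : S m :=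
  (-1) ^ (m + 1 + (i : ℕ)) *
    (Matrix.of fun p q : Fin m => upd δ j (fun i => FX (f i) 0) q (i.succAbove p)).det

theorem degreeOf_neg_one_pow_mul {σ : Type} (x : σ) (n : ℕ) (p : MvPolynomial σ ℂ) :
    degreeOf x ((-1) ^ n * p) ≤ degreeOf x p := by
  rcases neg_one_pow_eq_or (MvPolynomial σ ℂ) n with h | h
  · rw [h, one_mul]
  · rw [h, neg_one_mul, degreeOf_neg]

theorem main_eq (f : Fin (m + 1) → MvPolynomial (Fin (m + 1)) ℂ)
    (δ : Fin m → Fin (m + 1) → S m) (h : IsDiff f δ) (j : Fin m) :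
    (X (Sum.inr j) - X (Sum.inl j)) * ((-1) ^ m * (dmat (fun i => FX (f i) m) δ).det) =
      ∑ i, FX (f i) m * co f δ j i := by
  rw [mul_left_comm, key f δ h j, Matrix.det_succ_column_zero, ← Finset.sum_neg_distrib,
    Finset.mul_sum]
  refine Finset.sum_congr rfl fun i _ => ?_
  rw [co]
  have h1 : (dmat (fun i => FX (f i) m) (upd δ j fun i => FX (f i) 0)).submatrix i.succAbove
      Fin.succ = Matrix.of fun p q : Fin m => upd δ j (fun i => FX (f i) 0) q (i.succAbove p) :=
    rfl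
  have h2 : dmat (fun i => FX (f i) m) (upd δ j fun i => FX (f i) 0) i 0 = FX (f i) m := rfl
  rw [h1, h2, pow_add, pow_succ]
  ring

theorem degreeOf_co_le {a : ℕ} (hX : SpecDEGX) (f : Fin (m + 1) → MvPolynomial (Fin (m + 1)) ℂ)
    (hf : ∀ i, (f i).IsHomogeneous a) (δ : Fin m → Fin (m + 1) → S m)
    (hδ : ∀ (l : Fin m) i, degreeOf (Sum.inr l) (δ l i) ≤ a - 1 ∧
      (∀ j < l, degreeOf (Sum.inr j) (δ l i) ≤ a) ∧ ∀ j, l < j → degreeOf (Sum.inr j) (δ l i) = 0)
    (j l : Fin m) (i : Fin (m + 1)) :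
    degreeOf (Sum.inr l) (co f δ j i) ≤ ∑ q, bd a j l q := by
  refine (degreeOf_neg_one_pow_mul _ _ _).trans (degreeOf_det_le _ _ _ fun p q => ?_)
  rw [Matrix.of_apply, upd, bd]
  by_cases hj : q = j
  · rw [if_pos hj, if_pos hj]
    exact ((hX m a (f (i.succAbove p)) (hf _) 0 l).2.2.2 (Nat.zero_le _)).le
  · rw [if_neg hj, if_neg hj]
    obtain ⟨e1, e2, e3⟩ := hδ q (i.succAbove p)
    rcases lt_trichotomy l q with hl | hl | hl
    · rw [if_neg hl.ne', if_pos hl]
      exact e2 l hl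
    · subst hl
      rw [if_pos rfl]
      exact e1
    · rw [e3 l hl]
      exact Nat.zero_le _

end RELM

open RELM in
theorem specREL (hD : SpecDD) (hX : SpecDIX) (hG : SpecDEGX) : SpecREL := by
  intro m a ha f hf Φ hΦ j
  obtain ⟨δ, h1, h2⟩ := hD m a f hf
  refine ⟨co f δ j, ?_, fun i => ⟨fun l hl => ?_, ?_, fun l hl => ?_⟩⟩
  · rw [← main_eq f δ h1 j, ((hX m f δ h1).2 Φ hΦ).2]
  · refine (degreeOf_co_le hG f hf δ h2 j l i).trans ?_
    have e1 := sum_bd_lt ha hl
    have e2 : (m - (l : ℕ)) * a = (m - 1 - (l : ℕ)) * a + a := by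
      have : m - (l : ℕ) = m - 1 - (l : ℕ) + 1 := by
        have := l.2
        omega
      rw [this]
      ring
    omega
  · refine (degreeOf_co_le hG f hf δ h2 j j i).trans ?_
    have e1 := sum_bd_eq (a := a) (j := j)
    have e2 : (m - (j : ℕ)) * a = (m - 1 - (j : ℕ)) * a + a := by
      have : m - (j : ℕ) = m - 1 - (j : ℕ) + 1 := by
        have := j.2
        omega
      rw [this]
      ring
    omega
  · refine (degreeOf_co_le hG f hf δ h2 j l i).trans ?_
    have e1 := sum_bd_gt ha hl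
    omega

end Pool.Agent.Lib.MP_4fcc12_ag.AF
end

section
/-!
# Reynolds operator for the invariants of `SL_n` on forms
-/
open MvPolynomial Matrix

namespace Pool.Agent.Lib.MP_4fcc12_ag.AF

open Pool.Agent.Lib.MP_4fcc12_ag.Quot

namespace REYM

/-- a polynomial with `P (s x) = s ^ r P (x)` is homogeneous -/
lemma isHomogeneous_of_eval {κ : Type} {r : ℕ} (P : MvPolynomial κ ℂ)
    (h : ∀ (s : ℂ) (x : κ → ℂ), eval (fun j => s * x j) P = s ^ r * eval x P) :
    P.IsHomogeneous r := by
  have key : ∀ x : κ → ℂ, ∀ t : ℂ,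
      Polynomial.eval t (∑ i ∈ Finset.range (P.totalDegree + 1),
        Polynomial.C (eval x (homogeneousComponent i P)) *
          Polynomial.X ^ i) = eval (fun j => t * x j) P := by
    intro x t
    conv_rhs => rw [← sum_homogeneousComponent P]
    rw [map_sum, Polynomial.eval_finsetSum]
    apply Finset.sum_congr rfl
    intro i _
    have h3 := aeval_mul_of_isHomogeneous (homogeneousComponent_isHomogeneous i P) t x
    rw [aeval_eq_eval, aeval_eq_eval] at h3
    rw [h3, Polynomial.eval_mul, Polynomial.eval_C, Polynomial.eval_pow, Polynomial.eval_X, mul_comm]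
  have h1 : ∀ i, i ≠ r → homogeneousComponent i P = 0 := by
    intro i hi
    by_cases hm : i < P.totalDegree + 1
    · apply MvPolynomial.funext
      intro x
      have h2 := Polynomial.funext (p := ∑ i ∈ Finset.range (P.totalDegree + 1),
          Polynomial.C (eval x (homogeneousComponent i P)) * Polynomial.X ^ i)
        (q := Polynomial.C (eval x P) * Polynomial.X ^ r) (by
          intro t
          rw [key, h, Polynomial.eval_mul, Polynomial.eval_C, Polynomial.eval_pow,
            Polynomial.eval_X, mul_comm])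
      have h4 := congrArg (fun p => Polynomial.coeff p i) h2
      simpa [Polynomial.finsetSum_coeff, Polynomial.coeff_C_mul, Polynomial.coeff_X_pow, hm, hi]
        using h4
    · exact homogeneousComponent_eq_zero _ _ (by omega)
  have h2 : P = homogeneousComponent r P := by
    conv_lhs => rw [← sum_homogeneousComponent P]
    by_cases hm : r < P.totalDegree + 1
    · rw [Finset.sum_eq_single r]
      · intro i _ hi
        exact h1 i hi
      · intro hr
        exact absurd (Finset.mem_range.2 hm) hr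
    · rw [homogeneousComponent_eq_zero r P (by omega)]
      apply Finset.sum_eq_zero
      intro i hi
      apply h1
      rw [Finset.mem_range] at hi
      omega
  rw [h2]
  exact homogeneousComponent_isHomogeneous r P

/-- scalar matrices -/
lemma subst_smul_mat {n N : ℕ} {f : MvPolynomial (Fin n) ℂ} (hf : f.IsHomogeneous N) (μ : ℂ)
    (g : Matrix (Fin n) (Fin n) ℂ) : subst (μ • g) f = C (μ ^ N) * subst g f := by
  apply MvPolynomial.funext
  intro p
  have h2 : (μ • g) *ᵥ p = fun j => μ * (g *ᵥ p) j := by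
    funext j
    rw [Matrix.smul_mulVec, Pi.smul_apply, smul_eq_mul]
  have h3 := aeval_mul_of_isHomogeneous hf μ (g *ᵥ p)
  rw [aeval_eq_eval, aeval_eq_eval] at h3
  rw [eval_subst, h2, map_mul, eval_C, eval_subst]
  exact h3

lemma app_smul {n N : ℕ} (x : Mon n N → ℂ) (μ : ℂ) (g a : Matrix (Fin n) (Fin n) ℂ) :
    (actS n N).app x (μ • g) a = fun i => μ ^ N * (actS n N).app x g a i := by
  funext i
  rw [actS_app, actS_app, subst_smul_mat (isHomogeneous_frm x)]
  simp only [cf]
  rw [coeff_C_mul]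

lemma cfL_sub {n N : ℕ} (g : Matrix.SpecialLinearGroup (Fin n) ℂ) (q : Form n N) :
    cfL n N (sub g q) = (actS n N).app (cfL n N q) g.1 1 := by
  rw [actS_app, frm_cfL]
  rfl

/-- the values of `P` on the `GL`-orbit -/
lemma eval_app {n N r w : ℕ} (hn : 0 < n) (hw : N * r = n * w)
    {P : MvPolynomial (Mon n N) ℂ} (hP : P.IsHomogeneous r) (q : Form n N)
    (hq : ∀ g : Matrix.SpecialLinearGroup (Fin n) ℂ,
      eval (cfL n N (sub g q)) P = eval (cfL n N q) P)
    (g a : Matrix (Fin n) (Fin n) ℂ) (hg : g.det ≠ 0) :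
    eval ((actS n N).app (cfL n N q) g a) P = g.det ^ w * eval (cfL n N q) P := by
  obtain ⟨μ, hμ⟩ := IsAlgClosed.exists_pow_nat_eq g.det hn
  have hμ0 : μ ≠ 0 := by
    rintro rfl
    rw [zero_pow (by omega)] at hμ
    exact hg hμ.symm
  let g₁ : Matrix.SpecialLinearGroup (Fin n) ℂ := ⟨μ⁻¹ • g, by
    rw [Matrix.det_smul, Fintype.card_fin, inv_pow, hμ, inv_mul_cancel₀ hg]⟩
  have h1 : g = μ • g₁.1 := by
    show g = μ • (μ⁻¹ • g)
    rw [smul_smul, mul_inv_cancel₀ hμ0, one_smul]
  have h2 : (actS n N).app (cfL n N q) g a = fun i => μ ^ N * cfL n N (sub g₁ q) i := by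
    rw [h1, app_smul, cfL_sub]
    funext i
    rw [actS_app, actS_app]
  have h3 := aeval_mul_of_isHomogeneous hP (μ ^ N) (cfL n N (sub g₁ q))
  rw [aeval_eq_eval, aeval_eq_eval] at h3
  rw [h2]
  refine h3.trans ?_
  show (μ ^ N) ^ r * eval (cfL n N (sub g₁ q)) P = _
  rw [hq, ← pow_mul, hw, pow_mul, hμ]

/-- the polynomial identity behind the Reynolds operator -/
lemma aeval_generic {n N r w : ℕ} (hn : 0 < n) (hw : N * r = n * w)
    {P : MvPolynomial (Mon n N) ℂ} (hP : P.IsHomogeneous r) (q : Form n N)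
    (hq : ∀ g : Matrix.SpecialLinearGroup (Fin n) ℂ,
      eval (cfL n N (sub g q)) P = eval (cfL n N q) P) :
    aeval ((actS n N).app (fun k => C (cfL n N q k)) (gX n ℂ) (aX n ℂ)) P =
      C (eval (cfL n N q) P) * dd ℂ w 0 := by
  have hne : (gX n ℂ).det ≠ 0 := by
    have h := dd_ne_zero (n := n) ℂ 1 0
    simpa [dd] using h
  apply mul_left_cancel₀ hne
  apply MvPolynomial.funext
  intro y
  let g : Matrix (Fin n) (Fin n) ℂ := Matrix.of fun i j => y (Sum.inl (i, j))
  let a : Matrix (Fin n) (Fin n) ℂ := Matrix.of fun i j => y (Sum.inr (i, j))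
  let ev : MvPolynomial (Grp n) ℂ →ₐ[ℂ] ℂ := aeval y
  have hev : ∀ p, eval y p = ev p := fun p => (RingHom.congr_fun (coe_aeval_eq_eval y) p).symm
  have hX : ∀ s, ev (X s) = y s := fun s => aeval_X _ _
  have hg : (gX n ℂ).map ev = g := by
    ext i j
    exact hX _
  have ha : (aX n ℂ).map ev = a := by
    ext i j
    exact hX _
  have hx : ev ∘ (fun k => C (cfL n N q k)) = cfL n N q := by
    funext k
    simp [ev]
  have hgd : ev (gX n ℂ).det = g.det := by
    rw [AlgHom.map_det, AlgHom.mapMatrix_apply, hg]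
  have e1 : ev (aeval ((actS n N).app (fun k => C (cfL n N q k)) (gX n ℂ) (aX n ℂ)) P) =
      eval ((actS n N).app (cfL n N q) g a) P := by
    rw [← AlgHom.comp_apply, comp_aeval]
    have := (actS n N).map_app ev (fun k => C (cfL n N q k)) (gX n ℂ) (aX n ℂ)
    rw [hg, ha, hx] at this
    rw [← this, ← aeval_eq_eval]
    rfl
  have e2 : ev (dd ℂ w 0) = g.det ^ w := by
    rw [dd, pow_zero, mul_one, map_pow, hgd]
  have e3 : ev (C (eval (cfL n N q) P)) = eval (cfL n N q) P := by
    simp [ev]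
  rw [hev, hev, map_mul, map_mul, map_mul, e1, e2, e3, hgd]
  by_cases h0 : g.det = 0
  · rw [h0, zero_mul, zero_mul]
  · rw [eval_app hn hw hP q hq g a h0, mul_comm (eval (cfL n N q) P)]

end REYM

open REYM in
theorem specREY : SpecREY := by
  intro m a hm ha r P hP
  have hN : 0 < (m + 1) * (a - 1) := Nat.mul_pos (by omega) (by omega)
  have hw : (m + 1) * (a - 1) * r = (m + 1) * (r * (a - 1)) := by ring
  have hsemi : (actS (m + 1) ((m + 1) * (a - 1))).Semi (r * (a - 1)) 0
      ((actS (m + 1) ((m + 1) * (a - 1))).rey (r * (a - 1)) 0 0 0 P) :=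
    (actS (m + 1) ((m + 1) * (a - 1))).semi_rey (r * (a - 1)) 0 0 0 P (Nat.zero_le _) le_rfl
  set P' := (actS (m + 1) ((m + 1) * (a - 1))).rey (r * (a - 1)) 0 0 0 P with hP'
  have hinv : P' ∈ invRing (m + 1) ((m + 1) * (a - 1)) := by
    intro g q
    rw [cfL_sub]
    have h1 := hsemi (cfL _ _ q) g.1 1
    rw [aeval_eq_eval, aeval_eq_eval, pow_zero, mul_one, g.2, one_pow, one_mul] at h1
    exact h1
  have hhom : P'.IsHomogeneous r := by
    apply isHomogeneous_of_eval
    intro s x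
    obtain ⟨t, ht⟩ := IsAlgClosed.exists_pow_nat_eq s hN
    have h1 := hsemi x (t • 1) 1
    rw [aeval_eq_eval, aeval_eq_eval, pow_zero, mul_one, app_smul, Actn.app_one, Matrix.det_smul,
      Fintype.card_fin, Matrix.det_one, mul_one, ht] at h1
    rw [h1, ← pow_mul, ← hw, pow_mul, ht]
  refine ⟨⟨P', hinv⟩, hhom, ?_⟩
  intro q hq
  show eval (cfL _ _ q) P' = eval (cfL _ _ q) P
  have h1 := (actS (m + 1) ((m + 1) * (a - 1))).aeval_rey (r * (a - 1)) 0 0 0 P (cfL _ _ q)
  rw [← hP', aeval_eq_eval] at h1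
  rw [aeval_generic (Nat.succ_pos m) hw hP q hq] at h1
  have h2 : dd (n := m + 1) ℂ 0 0 * (C (eval (cfL (m + 1) ((m + 1) * (a - 1)) q) P) *
      dd ℂ (r * (a - 1)) 0) = C (eval (cfL (m + 1) ((m + 1) * (a - 1)) q) P) *
        dd ℂ (r * (a - 1)) 0 := by
    simp [dd]
  rw [h2, ← smul_eq_C_mul, map_smul, Lam_dd, smul_eq_mul, mul_one] at h1
  exact h1

end Pool.Agent.Lib.MP_4fcc12_ag.AF
end

section
/-!
# Module SPAN: Pluecker coordinates are combinations of determinants of values
-/
open MvPolynomial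

namespace Pool.Agent.Lib.MP_4fcc12_ag.AF

open Pool.Agent.Lib.MP_4fcc12_ag.Quot

namespace SPANM

variable {n k : ℕ}

/-- the exponent of the monomial `∏ w_l ^ T l` -/
noncomputable def ex (T : Fin n → Mon n k) : Fin n × Fin n →₀ ℕ :=
  Finsupp.equivFunOnFinite.symm fun p => (T p.1).1 p.2

lemma ex_inj : Function.Injective (ex : (Fin n → Mon n k) → (Fin n × Fin n →₀ ℕ)) := by
  intro T T' h
  funext l
  apply Subtype.ext
  ext i
  exact DFunLike.congr_fun h (l, i)

/-- the value of the monomial -/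
noncomputable def vw (w : Fin n → Fin n → ℂ) (T : Fin n → Mon n k) : ℂ :=
  ∏ l, ∏ i, w l i ^ (T l).1 i

lemma eval_ex (w : Fin n → Fin n → ℂ) (T : Fin n → Mon n k) (c : ℂ) :
    eval (fun p : Fin n × Fin n => w p.1 p.2) (monomial (ex T) c) = c * vw w T := by
  rw [eval_monomial, Finsupp.prod_fintype _ _ (by intro i; simp), Fintype.prod_prod_type, vw]
  rfl

lemma eval_form (f : Form n k) (w : Fin n → ℂ) :
    eval w (f : MvPolynomial (Fin n) ℂ) =
      ∑ t : Mon n k, (∏ i, w i ^ t.1 i) * coeff t.1 (f : MvPolynomial (Fin n) ℂ) := by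
  conv_lhs => rw [← frm_cfL f]
  rw [frm, map_sum]
  apply Finset.sum_congr rfl
  intro t _
  rw [eval_monomial, Finsupp.prod_fintype _ _ (by intro i; simp), mul_comm]
  rfl

lemma det_expand (F : Fin n → Form n k) (w : Fin n → Fin n → ℂ) :
    (Matrix.of fun i l => eval (w l) (tp F i)).det =
      ∑ T : Fin n → Mon n k, vw w T * (Matrix.of fun i j => coeff (T j).1 (tp F i)).det := by
  rw [← Matrix.det_transpose]
  have h1 : (Matrix.of fun i l => eval (w l) (tp F i)).transpose =
      Matrix.of fun l => ∑ t : Mon n k, (∏ i, w l i ^ t.1 i) •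
        (fun i => coeff t.1 (tp F i) : Fin n → ℂ) := by
    refine Matrix.ext fun l i => ?_
    rw [Matrix.transpose_apply, Matrix.of_apply, Matrix.of_apply, Finset.sum_apply]
    exact eval_form (F i) (w l)
  rw [h1]
  have h2 := (Matrix.detRowAlternating (n := Fin n) (R := ℂ)).toMultilinearMap.map_sum
    (fun (l : Fin n) (t : Mon n k) => (∏ i, w l i ^ t.1 i) •
        (fun i => coeff t.1 (tp F i) : Fin n → ℂ))
  refine h2.trans ?_
  apply Finset.sum_congr rfl
  intro T _
  rw [MultilinearMap.map_smul_univ, smul_eq_mul, vw, ← Matrix.det_transpose]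
  rfl

lemma span_top : Submodule.span ℂ (Set.range
    fun w : {w : Fin n → Fin n → ℂ // (Matrix.of w).det ≠ 0} =>
      (vw w.1 : (Fin n → Mon n k) → ℂ)) = ⊤ := by
  by_contra hne
  obtain ⟨f, hf, hle⟩ := Submodule.exists_le_ker_of_lt_top _ (lt_top_iff_ne_top.2 hne)
  apply hf
  have h1 : ∀ w : Fin n → Fin n → ℂ, eval (fun p : Fin n × Fin n => w p.1 p.2)
      (∑ T : Fin n → Mon n k, monomial (ex T) (f (Pi.single T 1))) = f (vw w) := by
    intro w
    rw [map_sum, LinearMap.pi_apply_eq_sum_univ f (vw w)]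
    apply Finset.sum_congr rfl
    intro T _
    rw [eval_ex, smul_eq_mul, mul_comm]
    congr 2
    funext T'
    rw [Pi.single_apply]
    simp only [eq_comm]
  have h2 : (∑ T : Fin n → Mon n k, monomial (ex T) (f (Pi.single T 1))) *
      (Matrix.mvPolynomialX (Fin n) (Fin n) ℂ).det = 0 := by
    apply MvPolynomial.funext
    intro x
    rw [map_mul, map_zero]
    by_cases hx : (Matrix.of fun i j => x (i, j)).det = 0
    · have h3 : eval x (Matrix.mvPolynomialX (Fin n) (Fin n) ℂ).det =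
          (Matrix.of fun i j => x (i, j)).det := by
        rw [RingHom.map_det]
        congr 1
        refine Matrix.ext fun i j => ?_
        simp
      rw [h3, hx, mul_zero]
    · have h4 := h1 fun i j => x (i, j)
      have h5 : f (vw fun i j => x (i, j)) = 0 :=
        hle (Submodule.subset_span ⟨⟨fun i j => x (i, j), hx⟩, rfl⟩)
      rw [h5] at h4
      have h6 : (fun p : Fin n × Fin n => x (p.1, p.2)) = x := rfl
      rw [h6] at h4
      rw [h4, zero_mul]
  have h3 := (mul_eq_zero.1 h2).resolve_right (Matrix.det_mvPolynomialX_ne_zero _ _)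
  have h4 : ∀ T : Fin n → Mon n k, f (Pi.single T 1) = 0 := by
    intro T
    have h5 := congrArg (coeff (ex T)) h3
    rw [coeff_sum, coeff_zero, Finset.sum_eq_single T] at h5
    · rwa [coeff_monomial, if_pos rfl] at h5
    · intro T' _ hne'
      rw [coeff_monomial, if_neg]
      exact fun h => hne' (ex_inj h)
    · intro h
      exact absurd (Finset.mem_univ _) h
  apply LinearMap.pi_ext'
  intro T
  apply LinearMap.ext_ring
  rw [LinearMap.comp_apply, LinearMap.single_apply, h4, LinearMap.zero_comp, LinearMap.zero_apply]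

end SPANM

open SPANM in
theorem specSPAN : SpecSPAN := by
  intro n k T
  have h1 : (Pi.single T 1 : (Fin n → Mon n k) → ℂ) ∈ Submodule.span ℂ (Set.range
    fun w : {w : Fin n → Fin n → ℂ // (Matrix.of w).det ≠ 0} =>
      (vw w.1 : (Fin n → Mon n k) → ℂ)) := by
    rw [span_top]
    trivial
  rw [Finsupp.mem_span_range_iff_exists_finsupp] at h1
  obtain ⟨c, hc⟩ := h1
  refine ⟨c.support, inferInstance, fun s => c s.1, fun s => s.1.1, fun s => s.1.2, ?_⟩
  intro F
  have h2 : ∀ s : c.support, c s.1 * (Matrix.of fun i l => eval (s.1.1 l) (tp F i)).det =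
      ∑ T' : Fin n → Mon n k, (c s.1 • vw s.1.1 : (Fin n → Mon n k) → ℂ) T' *
        (Matrix.of fun i j => coeff (T' j).1 (tp F i)).det := by
    intro s
    rw [det_expand, Finset.mul_sum]
    apply Finset.sum_congr rfl
    intro T' _
    rw [Pi.smul_apply, smul_eq_mul, mul_assoc]
  rw [Finset.sum_congr rfl fun s _ => h2 s, Finset.sum_comm]
  have h3 : ∀ T' : Fin n → Mon n k, ∑ s : c.support, (c s.1 • vw s.1.1 : (Fin n → Mon n k) → ℂ) T' *
        (Matrix.of fun i j => coeff (T' j).1 (tp F i)).det =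
      (Pi.single T 1 : (Fin n → Mon n k) → ℂ) T' *
        (Matrix.of fun i j => coeff (T' j).1 (tp F i)).det := by
    intro T'
    rw [← Finset.sum_mul, ← hc, Finsupp.sum, Finset.sum_apply, ← Finset.sum_coe_sort c.support]
  rw [Finset.sum_congr rfl fun T' _ => h3 T', Finset.sum_eq_single T]
  · rw [Pi.single_eq_same, one_mul]
  · intro T' _ hne
    rw [Pi.single_eq_of_ne hne, zero_mul]
  · intro h
    exact absurd (Finset.mem_univ _) h

end Pool.Agent.Lib.MP_4fcc12_ag.AF
end

section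
/-! # Stability of the algebra `BB` under translations -/
open MvPolynomial

namespace Pool.Agent.Lib.MP_4fcc12_ag.AF

open Pool.Agent.Lib.MP_4fcc12_ag.Quot

namespace STABM

/-- the coordinates of a form as a linear map -/
noncomputable def cfLin (n N : ℕ) : Form n N →ₗ[ℂ] (Mon n N → ℂ) where
  toFun := cfL n N
  map_add' := by
    intro f g
    funext i
    simp [cfL, cf]
  map_smul' := by
    intro t f
    funext i
    simp [cfL, cf]

lemma frmF_cfL {n N : ℕ} (q : Form n N) : frmF (cfL n N q) = q := Subtype.ext (frm_cfL q)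

lemma exists_lin {n N : ℕ} (L : Form n N →ₗ[ℂ] Form n N) (P : MvPolynomial (Mon n N) ℂ) :
    ∃ P' : MvPolynomial (Mon n N) ℂ, ∀ q : Form n N,
      eval (cfL n N q) P' = eval (cfL n N (L q)) P := by
  classical
  refine ⟨aeval (fun i : Mon n N => ∑ j : Mon n N,
    C (cfL n N (L (frmF (Pi.single j 1))) i) * X j) P, fun q => ?_⟩
  have h1 : ∀ i : Mon n N, eval (cfL n N q) (∑ j : Mon n N,
      C (cfL n N (L (frmF (Pi.single j 1))) i) * X j) = cfL n N (L q) i := by
    intro i
    have h2 : q = ∑ j : Mon n N, cfL n N q j • frmF (Pi.single j 1) := by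
      have h3 : cfLin n N q = cfLin n N (∑ j : Mon n N, cfL n N q j • frmF (Pi.single j 1)) := by
        rw [map_sum]
        funext k
        simp only [map_smul, Finset.sum_apply, Pi.smul_apply, smul_eq_mul]
        have h4 : ∀ j, (cfLin n N (frmF (Pi.single j 1))) k = (Pi.single j 1 : Mon n N → ℂ) k :=
          fun j => congrFun (cfL_frmF _) k
        simp only [h4]
        rw [Finset.sum_eq_single k]
        · simp; rfl
        · intro b _ hb
          rw [Pi.single_eq_of_ne (Ne.symm hb), mul_zero]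
        · intro h; exact absurd (Finset.mem_univ k) h
      have h5 := congrArg frmF h3
      exact (frmF_cfL q).symm.trans (h5.trans (frmF_cfL _))
    have h6 : cfL n N (L q) = cfLin n N (L (∑ j : Mon n N, cfL n N q j • frmF (Pi.single j 1))) := by
      conv_lhs => rw [h2]
      rfl
    rw [h6, map_sum L, map_sum (cfLin n N), map_sum]
    simp only [map_smul, Finset.sum_apply, Pi.smul_apply, smul_eq_mul, map_mul, eval_C, eval_X]
    apply Finset.sum_congr rfl
    intro j _
    rw [mul_comm]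
    rfl
  have h7 := comp_aeval_apply (R := ℂ) (fun i : Mon n N => ∑ j : Mon n N,
    C (cfL n N (L (frmF (Pi.single j 1))) i) * X j) (aeval (cfL n N q)) P
  rw [aeval_eq_eval] at h7
  rw [h7, aeval_eq_eval]
  congr 2
  funext i
  exact h1 i

end STABM

theorem specSTAB (h1 : SpecEQV) (h2 : SpecINVJ) : SpecSTAB := by
  intro m a hm ha φ hφ g
  obtain ⟨s, P, hP⟩ := hφ
  obtain ⟨P', hP'⟩ := STABM.exists_lin (sub (g⁻¹).transpose) P
  refine ⟨s, P', fun F => ?_⟩
  have h3 := hP ⟨trT g F.1, trT_mem (by omega) g F.2⟩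
  have h4 : cc (trT g F.1) = cfL _ _ (sub (g⁻¹).transpose (psi F.1)) :=
    congrArg (cfL _ _) ((h1 m a hm ha F.1 F.2).1 g)
  have h5 := h2 m a hm ha F.1 F.2 (g⁻¹).transpose
  rw [show eval (cc (trT g F.1)) P = _ from by rw [h4], ← hP' (psi F.1),
    show eval (cc (trT g F.1)) (JJ m a) = _ from by rw [h4], h5] at h3
  exact h3

end Pool.Agent.Lib.MP_4fcc12_ag.AF
end

section
/-!
# Associated forms, module SYM
-/
open MvPolynomial

namespace Pool.Agent.Lib.MP_4fcc12_ag.AF

namespace SYMM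

/-- `proot` is natural in the ring -/
lemma map_proot {R R' : Type*} [CommRing R] [CommRing R'] (φ : R →+* R') {m : ℕ} (y : Fin m → R)
    (i : Fin (m + 1)) : φ (proot y i) = proot (fun j => φ (y j)) i := by
  unfold proot
  rw [← Polynomial.coeff_map, Polynomial.map_prod]
  congr 2
  funext j
  simp

lemma proot_comp {R : Type*} [CommRing R] {m : ℕ} (y : Fin m → R) (σ : Equiv.Perm (Fin m))
    (i : Fin (m + 1)) : proot (fun j => y (σ j)) i = proot y i := by
  unfold proot
  rw [Equiv.prod_comp σ fun j => (Polynomial.X - Polynomial.C (y j))]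

/-- an algebra map applied to `aeval (proot y) f` -/
lemma map_aeval_proot {R R' : Type*} [CommRing R] [CommRing R'] [Algebra ℂ R] [Algebra ℂ R']
    (φ : R →ₐ[ℂ] R') {m : ℕ} (y : Fin m → R) (f : MvPolynomial (Fin (m + 1)) ℂ) :
    φ (aeval (proot y) f) = aeval (proot fun j => φ (y j)) f := by
  have h : φ.comp (aeval (proot y)) = aeval (proot fun j => φ (y j)) := by
    apply MvPolynomial.algHom_ext
    intro i
    rw [AlgHom.comp_apply, aeval_X, aeval_X]
    exact map_proot φ.toRingHom y i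
  exact congrArg (fun φ => φ f) h

lemma degreeOf_coeff_mul {m : ℕ} (j : Fin m) (P Q : Polynomial (MvPolynomial (Fin m) ℂ))
    (d e : ℕ) (hP : ∀ i, degreeOf j (P.coeff i) ≤ d) (hQ : ∀ i, degreeOf j (Q.coeff i) ≤ e) (i : ℕ) :
    degreeOf j ((P * Q).coeff i) ≤ d + e := by
  rw [Polynomial.coeff_mul]
  refine (degreeOf_sum_le _ _ _).trans ?_
  apply Finset.sup_le
  intro x _
  exact (degreeOf_mul_le _ _ _).trans (add_le_add (hP _) (hQ _))

lemma degreeOf_coeff_prod {m : ℕ} (j : Fin m) (s : Finset (Fin m)) (i : ℕ) :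
    degreeOf j ((∏ l ∈ s, (Polynomial.X - Polynomial.C (X l : MvPolynomial (Fin m) ℂ))).coeff i) ≤
      ∑ l ∈ s, if l = j then 1 else 0 := by
  classical
  induction s using Finset.induction_on generalizing i with
  | empty =>
    rw [Finset.prod_empty, Polynomial.coeff_one]
    split_ifs
    · rw [degreeOf_one]
      exact Nat.zero_le _
    · rw [degreeOf_zero]
      exact Nat.zero_le _
  | insert l s hl ih =>
    rw [Finset.prod_insert hl, Finset.sum_insert hl]
    apply degreeOf_coeff_mul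
    · intro k
      rw [Polynomial.coeff_sub, Polynomial.coeff_X, Polynomial.coeff_C]
      refine (degreeOf_sub_le _ _ _).trans ?_
      apply max_le
      · split_ifs <;> simp
      · split_ifs with h1 h2 h2
        · subst h2
          rw [degreeOf_X, if_pos rfl]
        · rw [degreeOf_X, if_neg (fun h => h2 h.symm)]
        · simp
        · simp
    · exact ih

lemma degreeOf_proot_X {m : ℕ} (j : Fin m) (i : Fin (m + 1)) :
    degreeOf j (proot (X : Fin m → MvPolynomial (Fin m) ℂ) i) ≤ 1 := by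
  have h := degreeOf_coeff_prod j Finset.univ (i : ℕ)
  rw [Finset.sum_ite_eq' Finset.univ j, if_pos (Finset.mem_univ j)] at h
  exact h

lemma degreeOf_FY {m : ℕ} (f : MvPolynomial (Fin (m + 1)) ℂ) (a : ℕ) (hf : f.IsHomogeneous a)
    (j : Fin m) : degreeOf j (FY f) ≤ a := by
  unfold FY
  rw [aeval_def, eval₂_eq']
  refine (degreeOf_sum_le _ _ _).trans ?_
  apply Finset.sup_le
  intro d hd
  refine (degreeOf_mul_le _ _ _).trans ?_
  rw [algebraMap_eq, degreeOf_C, zero_add]
  refine (degreeOf_prod_le _ _ _).trans ?_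
  have h1 : ∑ i, d i = a := by
    have h2 := hf (mem_support_iff.1 hd)
    rw [Finsupp.weight_apply, Finsupp.sum_fintype _ _ (by simp)] at h2
    simpa using h2
  calc ∑ i, degreeOf j (proot (X : Fin m → MvPolynomial (Fin m) ℂ) i ^ d i)
      ≤ ∑ i, d i := by
        apply Finset.sum_le_sum
        intro i _
        refine (degreeOf_pow_le _ _ _).trans ?_
        calc d i * degreeOf j (proot (X : Fin m → MvPolynomial (Fin m) ℂ) i) ≤ d i * 1 :=
              Nat.mul_le_mul_left _ (degreeOf_proot_X j i)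
          _ = d i := mul_one _
    _ = a := h1

end SYMM

open SYMM in
theorem specSYM : SpecSYM := by
  intro m f
  refine ⟨?_, ?_, ?_, ?_⟩
  · intro σ
    unfold FY
    rw [map_aeval_proot (rename σ)]
    congr 2
    funext i
    simp only [rename_X]
    exact proot_comp X σ i
  · intro a hf j
    exact degreeOf_FY f a hf j
  · unfold FX FY
    rw [map_aeval_proot (rename (Sum.inr : Fin m → Fin m ⊕ Fin m))]
    congr 2
    congr 1
    funext j
    simp [chain]
  · unfold FX FY
    rw [map_aeval_proot (rename (Sum.inl : Fin m → Fin m ⊕ Fin m))]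
    congr 2
    congr 1
    funext j
    simp [chain]

end Pool.Agent.Lib.MP_4fcc12_ag.AF
end

section
/-!
# Associated forms, module TEL: `H_y (u(y) Φ(x, y)) = u(x) H_y (Φ)`
-/
set_option autoImplicit false

open MvPolynomial

namespace Pool.Agent.Lib.MP_4fcc12_ag.AF

open Pool.Agent.Lib.MP_4fcc12_ag.Quot

theorem specTEL (h1 : SpecREL) (h2 : SpecTTP) (h3 : SpecUDD) (h4 : SpecSYM) : SpecTEL := by
  intro m a hm ha f hf Φ hΦ H hH u hu
  obtain ⟨t1, -, -, t4⟩ := h2 m H
  obtain ⟨v, hv, hvd⟩ := h3 m u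
  have hrel := fun j => h1 m a (by omega) f hf Φ hΦ j
  choose c hc hcd using hrel
  have key : rename Sum.inr u * Φ = rename Sum.inl u * Φ +
      ∑ j, ∑ i, rename Sum.inr (FY (f i)) * (c j i * v j) := by
    have e1 : rename Sum.inr u = rename Sum.inl u +
        ∑ j, (X (Sum.inr j) - X (Sum.inl j)) * v j := by
      rw [← hv]
      ring
    rw [e1, add_mul, Finset.sum_mul]
    congr 1
    apply Finset.sum_congr rfl
    intro j _
    calc (X (Sum.inr j) - X (Sum.inl j)) * v j * Φ = v j * ((X (Sum.inr j) - X (Sum.inl j)) * Φ) := by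
          ring
      _ = v j * ∑ i, FX (f i) m * c j i := by rw [hc]
      _ = ∑ i, rename Sum.inr (FY (f i)) * (c j i * v j) := by
        rw [Finset.mul_sum]
        apply Finset.sum_congr rfl
        intro i _
        rw [(h4 m (f i)).2.2.1]
        ring
  rw [key, map_add, t1, map_sum, Finset.sum_eq_zero, add_zero]
  intro j _
  rw [map_sum]
  apply Finset.sum_eq_zero
  intro i _
  apply t4 (FY (f i)) (fun _ => m * a - 2) (hH i)
  intro l
  refine (degreeOf_mul_le _ _ _).trans ?_
  show _ ≤ m * a - 2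
  obtain ⟨k, hk⟩ : ∃ k, m = k + ((l : ℕ) + 1) := ⟨m - ((l : ℕ) + 1), by omega⟩
  have e0 : m * a = k * a + ((l : ℕ) + 1) * a := by
    calc m * a = (k + ((l : ℕ) + 1)) * a := by rw [← hk]
      _ = k * a + ((l : ℕ) + 1) * a := by ring
  have e1 : m - 1 - (l : ℕ) = k := by omega
  have e2 : m - (l : ℕ) = k + 1 := by omega
  have e3 : (k + 1) * a = k * a + a := by ring
  have e4 : ((l : ℕ) + 1) * a = (l : ℕ) * a + a := by ring
  have hul := hu l
  rcases lt_trichotomy l j with hl | rfl | hl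
  · have d1 := (hcd j i).1 l hl
    have d2 := (hvd j).1 l hl
    rw [e1] at d1
    have hk1 : a ≤ k * a := Nat.le_mul_of_pos_left _ (by
      have := j.2
      have : (l : ℕ) < j := hl
      omega)
    omega
  · have d1 := (hcd l i).2.1
    have d2 := (hvd l).2.1
    rw [e1] at d1
    omega
  · have d1 := (hcd j i).2.2 l hl
    have d2 := (hvd j).2.2 l hl
    rw [e2] at d1
    have hl1 : a ≤ (l : ℕ) * a := Nat.le_mul_of_pos_left _ (by
      have : (j : ℕ) < l := hl
      omega)
    omega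

end Pool.Agent.Lib.MP_4fcc12_ag.AF
end

section
/-!
# The operators `T` and multiplication by forms
-/
open MvPolynomial

namespace Pool.Agent.Lib.MP_4fcc12_ag.AF

namespace TMM

variable {m : ℕ}

lemma vdm_ne_zero (m : ℕ) : vdm m ≠ 0 := by
  rw [vdm, Matrix.det_vandermonde_ne_zero_iff]
  exact X_injective

lemma FY_mul (f g : MvPolynomial (Fin (m + 1)) ℂ) : FY (f * g) = FY f * FY g := by
  rw [FY, FY, FY, map_mul]

lemma FY_sub (f g : MvPolynomial (Fin (m + 1)) ℂ) : FY (f - g) = FY f - FY g := by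
  rw [FY, FY, FY, map_sub]

lemma alt_mul {p : MvPolynomial (Fin m) ℂ} (hp : ∀ σ : Equiv.Perm (Fin m), rename σ p = p)
    (h : MvPolynomial (Fin m) ℂ) : alt (p * h) = p * alt h := by
  rw [alt, alt, Finset.mul_sum]
  apply Finset.sum_congr rfl
  intro σ _
  rw [map_mul, hp σ, mul_smul_comm]

end TMM

open TMM

theorem specTM (h1 : SpecTDET) (h2 : SpecINJ) (h3 : SpecSYM) : SpecTM := by
  intro m N a hm T hT f hf h hh
  obtain ⟨T', hT'⟩ := h1 m N hm
  refine ⟨T' h, hT'.hom h, ?_⟩
  obtain ⟨hs1, hs2, -, -⟩ := h3 m f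
  have hdeg : ∀ j, degreeOf j (FY f * h) ≤ N + a + m - 1 := by
    intro j
    have e1 := degreeOf_mul_le j (FY f) h
    have e2 := hs2 a hf j
    have e3 := hh j
    omega
  have e4 := hT.alt (FY f * h) hdeg
  rw [alt_mul hs1, ← hT'.alt h hh, ← mul_assoc] at e4
  have e5 := mul_right_cancel₀ (vdm_ne_zero m) e4
  have e6 : FY (T (FY f * h) - f * T' h) = 0 := by
    rw [FY_sub, FY_mul, e5, sub_self]
  have e7 : (T (FY f * h) - f * T' h).IsHomogeneous (N + a) := by
    apply (hT.hom _).sub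
    rw [add_comm N a]
    exact hf.mul (hT'.hom h)
  exact sub_eq_zero.1 (h2 m (N + a) _ e7 e6)

end Pool.Agent.Lib.MP_4fcc12_ag.AF
end

section
/-!
# MP_4fcc12_ag, AF, module TS: `T_N (Δ g(π)) = m! g`
-/
set_option autoImplicit false

open MvPolynomial

namespace Pool.Agent.Lib.MP_4fcc12_ag.AF

namespace TSM

lemma rename_vdm (m : ℕ) (σ : Equiv.Perm (Fin m)) :
    rename σ (vdm m) = ((Equiv.Perm.sign σ : ℤˣ) : ℤ) • vdm m := by
  have h1 : rename σ (vdm m) =
      ((Matrix.vandermonde (X : Fin m → MvPolynomial (Fin m) ℂ)).submatrix σ id).det := by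
    rw [vdm, ← AlgHom.coe_toRingHom, RingHom.map_det]
    congr 1
    ext i j
    simp [Matrix.vandermonde_apply, Matrix.submatrix_apply]
  rw [h1, Matrix.det_permute, vdm]
  rw [zsmul_eq_mul]

lemma vdm_ne_zero (m : ℕ) : vdm m ≠ 0 := by
  rw [vdm, Matrix.det_vandermonde_ne_zero_iff]
  exact X_injective

lemma degreeOf_vdm (m : ℕ) (j : Fin m) : degreeOf j (vdm m) ≤ m - 1 := by
  rw [vdm, Matrix.det_apply]
  refine (degreeOf_sum_le j _ _).trans ?_
  apply Finset.sup_le
  intro σ _
  have h1 : degreeOf j (Equiv.Perm.sign σ • ∏ i, Matrix.vandermonde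
      (X : Fin m → MvPolynomial (Fin m) ℂ) (σ i) i) ≤
      degreeOf j (∏ i, Matrix.vandermonde (X : Fin m → MvPolynomial (Fin m) ℂ) (σ i) i) := by
    rcases Int.units_eq_one_or (Equiv.Perm.sign σ) with h | h
    · rw [h, one_smul]
    · rw [h, Units.neg_smul, one_smul, degreeOf_neg]
  refine h1.trans ?_
  refine (degreeOf_prod_le j _ _).trans ?_
  rw [Finset.sum_eq_single (σ⁻¹ j)]
  · rw [Matrix.vandermonde_apply]
    refine (degreeOf_pow_le _ _ _).trans ?_
    have h2 : degreeOf j (X (σ (σ⁻¹ j)) : MvPolynomial (Fin m) ℂ) ≤ 1 := by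
      rw [degreeOf_X]
      split_ifs <;> omega
    have h3 : ((σ⁻¹ j : Fin m) : ℕ) ≤ m - 1 := by
      have := (σ⁻¹ j).2
      omega
    calc ((σ⁻¹ j : Fin m) : ℕ) * degreeOf j (X (σ (σ⁻¹ j)) : MvPolynomial (Fin m) ℂ)
        ≤ ((σ⁻¹ j : Fin m) : ℕ) * 1 := Nat.mul_le_mul_left _ h2
      _ ≤ m - 1 := by omega
  · intro i _ hi
    rw [Matrix.vandermonde_apply]
    have h2 : degreeOf j (X (σ i) : MvPolynomial (Fin m) ℂ) = 0 := by
      rw [degreeOf_X, if_neg]
      intro h3
      apply hi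
      rw [h3]
      simp
    have h4 := degreeOf_pow_le j (X (σ i) : MvPolynomial (Fin m) ℂ) (i : ℕ)
    rw [h2] at h4
    simpa using h4
  · intro h
    exact absurd (Finset.mem_univ _) h

lemma alt_mul (m : ℕ) (g : MvPolynomial (Fin m) ℂ) (hg : ∀ σ : Equiv.Perm (Fin m),
    rename σ g = g) : alt (vdm m * g) = (m.factorial : ℂ) • (vdm m * g) := by
  have h1 : ∀ σ : Equiv.Perm (Fin m), ((Equiv.Perm.sign σ : ℤˣ) : ℤ) • rename σ (vdm m * g) =
      vdm m * g := by
    intro σ
    rw [map_mul, rename_vdm, hg, smul_mul_assoc, smul_smul]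
    rw [← Units.val_mul, Int.units_mul_self, Units.val_one, one_smul]
  rw [alt, Finset.sum_congr rfl fun σ _ => h1 σ, Finset.sum_const, Finset.card_univ,
    Fintype.card_perm, Fintype.card_fin, ← Nat.cast_smul_eq_nsmul ℂ]

end TSM

open TSM in
theorem specTS (h1 : SpecINJ) (h2 : SpecSYM) : SpecTS := by
  intro m N hm T hT g hg
  obtain ⟨hs, hd, -, -⟩ := h2 m g
  have hdeg : ∀ j, degreeOf j (vdm m * FY g) ≤ N + m - 1 := by
    intro j
    refine (degreeOf_mul_le j _ _).trans ?_
    have h3 := degreeOf_vdm m j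
    have h4 := hd N hg j
    omega
  refine ⟨hdeg, ?_⟩
  have h3 := hT.alt _ hdeg
  rw [alt_mul m _ hs] at h3
  have h5 : FY (T (vdm m * FY g) - (m.factorial : ℂ) • g) * vdm m = 0 := by
    have h6 : FY (T (vdm m * FY g) - (m.factorial : ℂ) • g) =
        FY (T (vdm m * FY g)) - (m.factorial : ℂ) • FY g := by
      simp only [FY, map_sub, map_smul]
    rw [h6, sub_mul, h3, smul_mul_assoc, mul_comm (FY g), sub_self]
  have h7 := (mul_eq_zero.1 h5).resolve_right (vdm_ne_zero m)
  have h8 := h1 m N _ ((hT.hom _).sub (by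
    rw [smul_eq_C_mul]
    have := (isHomogeneous_C (Fin (m + 1)) (m.factorial : ℂ)).mul hg
    rwa [zero_add] at this)) h7
  exact sub_eq_zero.1 h8

end Pool.Agent.Lib.MP_4fcc12_ag.AF
end

section
/-! # Module TTP: properties of the `ℂ[x]`-linear extension `TT H` -/
open MvPolynomial

namespace Pool.Agent.Lib.MP_4fcc12_ag.AF

namespace TTPM

variable {m : ℕ}

lemma exL_apply (γ : Fin m ⊕ Fin m →₀ ℕ) (j : Fin m) : exL γ j = γ (Sum.inl j) := rfl

lemma exR_apply (γ : Fin m ⊕ Fin m →₀ ℕ) (j : Fin m) : exR γ j = γ (Sum.inr j) := rfl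

lemma mapInl_inl (α : Fin m →₀ ℕ) (j : Fin m) :
    Finsupp.mapDomain (Sum.inl : Fin m → Fin m ⊕ Fin m) α (Sum.inl j) = α j :=
  Finsupp.mapDomain_apply Sum.inl_injective _ _

lemma mapInl_inr (α : Fin m →₀ ℕ) (j : Fin m) :
    Finsupp.mapDomain (Sum.inl : Fin m → Fin m ⊕ Fin m) α (Sum.inr j) = 0 :=
  Finsupp.mapDomain_of_notMem_range _ _ (by simp)

lemma mapInr_inr (α : Fin m →₀ ℕ) (j : Fin m) :
    Finsupp.mapDomain (Sum.inr : Fin m → Fin m ⊕ Fin m) α (Sum.inr j) = α j :=
  Finsupp.mapDomain_apply Sum.inr_injective _ _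

lemma mapInr_inl (α : Fin m →₀ ℕ) (j : Fin m) :
    Finsupp.mapDomain (Sum.inr : Fin m → Fin m ⊕ Fin m) α (Sum.inl j) = 0 :=
  Finsupp.mapDomain_of_notMem_range _ _ (by simp)

lemma part1 (H : MvPolynomial (Fin m) ℂ →ₗ[ℂ] ℂ) (p : MvPolynomial (Fin m) ℂ) (h : S m) :
    TT H (rename Sum.inl p * h) = p * TT H h := by
  induction p using MvPolynomial.induction_on' with
  | add p q hp hq => rw [map_add, add_mul, map_add, hp, hq, add_mul]
  | monomial α c =>
    induction h using MvPolynomial.induction_on' with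
    | add p q hp hq => rw [mul_add, map_add, hp, hq, map_add, mul_add]
    | monomial γ d =>
      rw [rename_monomial, monomial_mul, TT_monomial, TT_monomial, monomial_mul]
      have h1 : exL (Finsupp.mapDomain Sum.inl α + γ) = α + exL γ := by
        ext j
        rw [exL_apply, Finsupp.add_apply, Finsupp.add_apply, mapInl_inl, exL_apply]
      have h2 : exR (Finsupp.mapDomain Sum.inl α + γ) = exR γ := by
        ext j
        rw [exR_apply, Finsupp.add_apply, mapInl_inr, exR_apply, zero_add]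
      rw [h1, h2, mul_assoc]

lemma part2 (H : MvPolynomial (Fin m) ℂ →ₗ[ℂ] ℂ) (h : MvPolynomial (Fin m) ℂ) :
    TT H (rename Sum.inr h) = C (H h) := by
  induction h using MvPolynomial.induction_on' with
  | add p q hp hq => rw [map_add, map_add, hp, hq, map_add, map_add]
  | monomial β c =>
    rw [rename_monomial, TT_monomial]
    have h1 : exL (Finsupp.mapDomain (Sum.inr : Fin m → Fin m ⊕ Fin m) β) = 0 := by
      ext j
      rw [exL_apply, mapInr_inl]
      rfl
    have h2 : exR (Finsupp.mapDomain (Sum.inr : Fin m → Fin m ⊕ Fin m) β) = β := by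
      ext j
      rw [exR_apply, mapInr_inr]
    rw [h1, h2]
    have h3 : (monomial β c : MvPolynomial (Fin m) ℂ) = c • monomial β 1 := by
      rw [smul_monomial, smul_eq_mul, mul_one]
    rw [h3, map_smul, smul_eq_mul]
    rfl

lemma degMon {σ : Type*} (j : σ) (α : σ →₀ ℕ) (c : ℂ) :
    degreeOf j (monomial α c : MvPolynomial σ ℂ) ≤ α j := by
  by_cases hc : c = 0
  · rw [hc, map_zero, degreeOf_zero]
    exact Nat.zero_le _
  · rw [degreeOf_monomial_eq _ _ hc]

lemma TT_eq_sum (H : MvPolynomial (Fin m) ℂ →ₗ[ℂ] ℂ) (h : S m) :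
    TT H h = ∑ γ ∈ h.support, monomial (exL γ) (coeff γ h * H (monomial (exR γ) 1)) := by
  conv_lhs => rw [h.as_sum]
  rw [map_sum]
  exact Finset.sum_congr rfl fun γ _ => TT_monomial H γ _

lemma part3 (H : MvPolynomial (Fin m) ℂ →ₗ[ℂ] ℂ) (h : S m) (j : Fin m) :
    degreeOf j (TT H h) ≤ degreeOf (Sum.inl j) h := by
  rw [TT_eq_sum]
  refine (degreeOf_sum_le _ _ _).trans (Finset.sup_le fun γ hγ => ?_)
  refine (TTPM.degMon _ _ _).trans ?_
  exact le_degreeOf_of_mem_support _ hγ

lemma split (γ : Fin m ⊕ Fin m →₀ ℕ) (c : ℂ) : (monomial γ c : S m) =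
    rename Sum.inl (monomial (exL γ) c) * rename Sum.inr (monomial (exR γ) 1) := by
  rw [rename_monomial, rename_monomial, monomial_mul, mul_one]
  have h1 : γ = Finsupp.mapDomain Sum.inl (exL γ) + Finsupp.mapDomain Sum.inr (exR γ) := by
    refine Finsupp.ext fun k => ?_
    rcases k with j | j
    · rw [Finsupp.add_apply, mapInl_inl, mapInr_inl, add_zero, exL_apply]
    · rw [Finsupp.add_apply, mapInl_inr, mapInr_inr, zero_add, exR_apply]
  rw [← h1]

lemma part4 (H : MvPolynomial (Fin m) ℂ →ₗ[ℂ] ℂ) (p : MvPolynomial (Fin m) ℂ) (D : Fin m → ℕ)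
    (hp : ∀ h : MvPolynomial (Fin m) ℂ, (∀ l, degreeOf l h ≤ D l) → H (p * h) = 0) (h : S m)
    (hh : ∀ l, degreeOf (Sum.inr l) h ≤ D l) : TT H (rename Sum.inr p * h) = 0 := by
  conv_lhs => rw [h.as_sum]
  rw [Finset.mul_sum, map_sum]
  refine Finset.sum_eq_zero fun γ hγ => ?_
  rw [split γ, mul_left_comm, part1, ← map_mul, part2, hp, map_zero, mul_zero]
  intro l
  refine (TTPM.degMon _ _ _).trans ?_
  exact (le_degreeOf_of_mem_support _ hγ).trans (hh l)

end TTPM

theorem specTTP : SpecTTP := fun _ H =>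
  ⟨TTPM.part1 H, TTPM.part2 H, TTPM.part3 H, fun p D hp h hh => TTPM.part4 H p D hp h hh⟩

end Pool.Agent.Lib.MP_4fcc12_ag.AF
end

section
/-!
# Module UNI: partition of unity by Pluecker coordinates
-/
open MvPolynomial

namespace Pool.Agent.Lib.MP_4fcc12_ag.AF

open Pool.Agent.Lib.MP_4fcc12_ag.Quot

namespace UNIM

variable {m a : ℕ}

/-- value of a form -/
lemma eval_form {n k : ℕ} (w : Fin n → ℂ) (f : Form n k) :
    eval w (f : MvPolynomial (Fin n) ℂ) =
      ∑ μ : Mon n k, coeff μ.1 (f : MvPolynomial (Fin n) ℂ) * ∏ j, w j ^ μ.1 j := by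
  conv_lhs => rw [← frm_cfL f]
  rw [frm, map_sum]
  apply Finset.sum_congr rfl
  intro μ _
  rw [eval_monomial, Finsupp.prod_fintype _ _ (by simp)]
  rfl

/-- multilinear expansion of a determinant of values -/
lemma det_eval {n k : ℕ} (F : Fin n → Form n k) (w : Fin n → Fin n → ℂ) :
    (Matrix.of fun i l : Fin n => eval (w l) (tp F i)).det =
      ∑ T : Fin n → Mon n k, (∏ l, ∏ j, w l j ^ (T l).1 j) *
        (Matrix.of fun i j => coeff (T j).1 (tp F i)).det := by
  classical
  simp only [Matrix.det_apply, Matrix.of_apply, tp, eval_form]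
  have h1 : ∀ σ : Equiv.Perm (Fin n),
      ∏ l, ∑ μ : Mon n k, coeff μ.1 (F (σ l) : MvPolynomial (Fin n) ℂ) * ∏ j, w l j ^ μ.1 j =
      ∑ T : Fin n → Mon n k, ∏ l, (coeff (T l).1 (F (σ l) : MvPolynomial (Fin n) ℂ) *
        ∏ j, w l j ^ (T l).1 j) := by
    intro σ
    rw [Finset.prod_univ_sum, Fintype.piFinset_univ]
  simp only [h1, Finset.smul_sum, Finset.mul_sum]
  rw [Finset.sum_comm]
  apply Finset.sum_congr rfl
  intro T _
  apply Finset.sum_congr rfl
  intro σ _
  rw [Finset.prod_mul_distrib]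
  simp only [Units.smul_def, zsmul_eq_mul]
  ring

/-- coefficients of the kernel are combinations of Pluecker coordinates -/
lemma exists_kappa (h3 : SpecCOEF) (hm : 1 ≤ m) (ha : 2 ≤ a) (α : BL m a) (β : BR m a) :
    ∃ κ : (Fin (m + 1) → Mon (m + 1) a) → ℂ, ∀ F : Fin (m + 1) → Form (m + 1) a,
      coeff (eLR α β) (DX (tp F)) =
        ∑ T, κ T * (Matrix.of fun i j => coeff (T j).1 (tp F i)).det := by
  obtain ⟨ι, _, c, x, y, h⟩ := h3 m a hm ha α β
  refine ⟨fun T => ∑ s, c s * ∏ l : Fin (m + 1), ∏ j,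
    (proot (fun j => if (j : ℕ) < (l : ℕ) then y s j else x s j) j) ^ (T l).1 j, fun F => ?_⟩
  rw [h (tp F) fun i => (mem_homogeneousSubmodule a _).1 (F i).2]
  simp only [Finset.sum_mul]
  rw [Finset.sum_comm]
  apply Finset.sum_congr rfl
  intro s _
  rw [det_eval F fun l => proot fun j => if (j : ℕ) < (l : ℕ) then y s j else x s j,
    Finset.mul_sum]
  apply Finset.sum_congr rfl
  intro T _
  ring

/-- the entries of `BG` are in `BB` -/
lemma bg_mem (α β : BL m a) : (fun F : UU (m + 1) a => BG m a (cc F.1) α β) ∈ BB m a := by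
  refine ⟨0, ∑ i : Mon (m + 1) ((m + 1) * (a - 1)),
    C (coeff i.1 (Top m ((m + 1) * (a - 1)) (monomial (eL α + eR (eBB m a β)) 1)) /
      (Nat.multinomial Finset.univ i.1 : ℂ)) * X i, fun F => ?_⟩
  rw [pow_zero, mul_one]
  simp only [map_sum, map_mul, eval_C, eval_X, BG, Bm, GC, Matrix.submatrix_apply, id_eq,
    LinearMap.comp_apply, LinearMap.sum_apply, LinearMap.smul_apply, lcoeff_apply, smul_eq_mul,
    Matrix.of_apply]
  apply Finset.sum_congr rfl
  intro i _
  ring

end UNIM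

open UNIM

theorem specUNI (h1 : SpecMB) (h2 : SpecK1) (h3 : SpecCOEF) (_h4 : SpecBM) : SpecUNI := by
  intro m a hm ha
  obtain ⟨c₁, hc₁⟩ := h2 m a hm ha
  have hpos : ∀ j : Fin m, 0 < ((j : ℕ) + 1) * a := fun j => Nat.mul_pos (by omega) (by omega)
  set α₀ : BL m a := fun j => ⟨0, hpos j⟩ with hα₀
  choose κ hκ using fun β : BR m a => exists_kappa h3 hm ha α₀ β
  refine ⟨fun T => ∑ γ : BL m a, (c₁⁻¹ * κ (eBB m a γ) T) •
    (fun F : UU (m + 1) a => BG m a (cc F.1) α₀ γ), fun T => ?_, fun F => ?_⟩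
  · apply Subalgebra.sum_mem
    intro γ _
    exact Subalgebra.smul_mem _ (bg_mem α₀ γ) _
  · have h5 := congrFun (congrFun (h1 m a hm ha c₁ hc₁ F.1 F.2) α₀) α₀
    rw [Matrix.mul_apply, Matrix.smul_apply, Matrix.one_apply_eq, smul_eq_mul, mul_one] at h5
    have h6 : ∀ γ : BL m a, MD a (tp F.1) α₀ γ =
        ∑ T, κ (eBB m a γ) T * (Matrix.of fun i j => coeff (T j).1 (tp F.1 i)).det := by
      intro γ
      exact hκ (eBB m a γ) F.1
    have h7 : c₁⁻¹ * c₁ = 1 := inv_mul_cancel₀ hc₁.1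
    have h8 : c₁⁻¹ * (∑ j, MD a (tp F.1) α₀ j * (BG m a (cc F.1)).transpose j α₀) = 1 := by
      rw [h5, h7]
    rw [← h8, Finset.mul_sum]
    simp only [Finset.sum_apply, Pi.smul_apply, smul_eq_mul, Matrix.transpose_apply, h6,
      Finset.sum_mul, Finset.mul_sum]
    rw [Finset.sum_comm]
    apply Finset.sum_congr rfl
    intro γ _
    apply Finset.sum_congr rfl
    intro T _
    ring

end Pool.Agent.Lib.MP_4fcc12_ag.AF
end

section
/-!
# Morphisms from `Z // SL_n` are determined on tuples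
-/
open MvPolynomial AlgebraicGeometry CategoryTheory
open Pool.Agent.Lib.MP_4fcc12_ag.Quot

namespace Pool.Agent.Lib.MP_4fcc12_ag.AF

namespace UNIQM

lemma spanStar_injective (n k : ℕ) : Function.Injective (spanStar n k) := by
  intro ψ ψ' h
  apply Subtype.ext
  funext W
  obtain ⟨W, F, hF, rfl⟩ := W
  exact congrFun (congrArg Subtype.val h) ⟨F, hF⟩

end UNIQM

theorem specUNIQ : SpecUNIQ := by
  intro n k N φ φ' h
  have hsep : (quotSS n N).IsSeparated :=
    inferInstanceAs (Proj (invGr n N)).IsSeparated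
  have hred : IsReduced (quotZZ n k) := by
    have h1 : _root_.IsReduced (ringZZ n k) := by
      constructor
      rintro ψ ⟨r, hr⟩
      apply Subtype.ext
      funext W
      have h3 : (ψ.1 W) ^ r = 0 := congrFun (congrArg Subtype.val hr) W
      exact eq_zero_of_pow_eq_zero h3
    have h2 : _root_.IsReduced (catZZ n k) := h1
    exact inferInstanceAs (IsReduced (Spec (catZZ n k)))
  have hdom : IsDominant (projZZ n k) := by
    constructor
    show DenseRange (PrimeSpectrum.comap (spanStar n k))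
    rw [PrimeSpectrum.denseRange_comap_iff_ker_le_nilRadical]
    rw [(RingHom.injective_iff_ker_eq_bot _).1 (UNIQM.spanStar_injective n k)]
    exact bot_le
  exact ext_of_isDominant (ι := projZZ n k) h

end Pool.Agent.Lib.MP_4fcc12_ag.AF
end

section
/-! # Tuples with nonzero resultant: `det MD ≠ 0` -/
open MvPolynomial

namespace Pool.Agent.Lib.MP_4fcc12_ag.AF

open Pool.Agent.Lib.MP_4fcc12_ag.Quot

theorem specUUX (h1 : SpecMB) (h2 : SpecK1) (h3 : SpecK2) : SpecUUX := by
  intro m a hm ha F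
  obtain ⟨c₁, hc⟩ := h2 m a hm ha
  constructor
  · intro hF hdet
    have h4 := congrArg Matrix.det (h1 m a hm ha c₁ hc F hF)
    rw [Matrix.det_mul, hdet, zero_mul, Matrix.det_smul, Matrix.det_one, mul_one] at h4
    exact pow_ne_zero _ hc.1 h4.symm
  · intro hdet
    have h4 : NoCommonZero F := by
      intro p hp
      by_contra hp0
      exact hdet (h3 m a hm ha (tp F) (fun i => (mem_homogeneousSubmodule a _).1 (F i).2) ⟨p, hp0, hp⟩)
    exact ⟨linearIndependent_of_noCommonZero (by omega) h4, h4⟩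

end Pool.Agent.Lib.MP_4fcc12_ag.AF
end

section
/-!
# Associated forms, module WR: the Jacobian of the coefficients of a split polynomial
-/
open MvPolynomial

namespace Pool.Agent.Lib.MP_4fcc12_ag.AF

namespace WRM

variable {m : ℕ}

/-- `∏_{j ∈ s} (t - y_j)` -/
noncomputable def PP (s : Finset (Fin m)) : Polynomial (MvPolynomial (Fin m) ℂ) :=
  ∏ j ∈ s, (Polynomial.X - Polynomial.C (X j))

lemma coeff_zero (Q : Polynomial (MvPolynomial (Fin m) ℂ)) (a : MvPolynomial (Fin m) ℂ) :
    ((Polynomial.X - Polynomial.C a) * Q).coeff 0 = -(a * Q.coeff 0) := by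
  rw [sub_mul, Polynomial.coeff_sub, Polynomial.coeff_X_mul_zero, Polynomial.coeff_C_mul, zero_sub]

lemma coeff_succ (Q : Polynomial (MvPolynomial (Fin m) ℂ)) (a : MvPolynomial (Fin m) ℂ) (i : ℕ) :
    ((Polynomial.X - Polynomial.C a) * Q).coeff (i + 1) = Q.coeff i - a * Q.coeff (i + 1) := by
  rw [sub_mul, Polynomial.coeff_sub, Polynomial.coeff_X_mul, Polynomial.coeff_C_mul]

lemma pderiv_PP (l : Fin m) (s : Finset (Fin m)) (hl : l ∉ s) (i : ℕ) :
    pderiv l ((PP s).coeff i) = 0 := by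
  induction s using Finset.induction_on generalizing i with
  | empty =>
    unfold PP
    rw [Finset.prod_empty, Polynomial.coeff_one]
    split_ifs <;> simp
  | insert a s ha ih =>
    have h1 : l ∉ s := fun h => hl (Finset.mem_insert_of_mem h)
    have h2 : a ≠ l := fun h => hl (h ▸ Finset.mem_insert_self a s)
    have h3 : pderiv l (X a : MvPolynomial (Fin m) ℂ) = 0 := pderiv_X_of_ne h2
    have h4 : PP (insert a s) = (Polynomial.X - Polynomial.C (X a)) * PP s := Finset.prod_insert ha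
    rw [h4]
    cases i with
    | zero => rw [coeff_zero, map_neg, pderiv_mul, h3, ih h1]; simp
    | succ i => rw [coeff_succ, map_sub, pderiv_mul, h3, ih h1, ih h1]; simp

lemma PP_univ (l : Fin m) :
    PP (Finset.univ : Finset (Fin m)) = (Polynomial.X - Polynomial.C (X l)) * PP {l}ᶜ := by
  unfold PP
  rw [← Finset.mul_prod_erase _ _ (Finset.mem_univ l), ← Finset.compl_singleton]

lemma pderiv_coeff (l : Fin m) (i : ℕ) :
    pderiv l ((PP (Finset.univ : Finset (Fin m))).coeff i) = -((PP {l}ᶜ).coeff i) := by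
  have h0 : l ∉ ({l}ᶜ : Finset (Fin m)) := by simp
  rw [PP_univ l]
  cases i with
  | zero => rw [coeff_zero, map_neg, pderiv_mul, pderiv_PP l _ h0, pderiv_X_self]; simp
  | succ i =>
    rw [coeff_succ, map_sub, pderiv_mul, pderiv_PP l _ h0, pderiv_PP l _ h0, pderiv_X_self]; simp

lemma natDegree_PP (s : Finset (Fin m)) : (PP s).natDegree = s.card := by
  unfold PP
  exact Polynomial.natDegree_finsetProd_X_sub_C_eq_card _ _

lemma monic_PP (s : Finset (Fin m)) : (PP s).Monic := by
  unfold PP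
  exact Polynomial.monic_prod_X_sub_C _ _

lemma coeff_last : (PP (Finset.univ : Finset (Fin m))).coeff m = 1 := by
  have h1 := (monic_PP (Finset.univ : Finset (Fin m)))
  have h2 := natDegree_PP (Finset.univ : Finset (Fin m))
  rw [Finset.card_univ, Fintype.card_fin] at h2
  rw [Polynomial.Monic, Polynomial.leadingCoeff, h2] at h1
  exact h1

/-- the matrix of the coefficients of the `P_l` -/
noncomputable def AA (m : ℕ) : Matrix (Fin m) (Fin m) (MvPolynomial (Fin m) ℂ) :=
  Matrix.of fun i l => (PP {l}ᶜ).coeff i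

lemma vand_mul (m : ℕ) :
    Matrix.vandermonde (X : Fin m → MvPolynomial (Fin m) ℂ) * AA m =
      Matrix.diagonal fun l => ∏ k ∈ {l}ᶜ, (X l - X k) := by
  ext1 j l
  rw [Matrix.mul_apply]
  have h1 : ∑ i, Matrix.vandermonde (X : Fin m → MvPolynomial (Fin m) ℂ) j i * AA m i l =
      (PP {l}ᶜ).eval (X j) := by
    rw [Polynomial.eval_eq_sum_range' (n := m), Finset.sum_range]
    · refine Finset.sum_congr rfl fun i _ => ?_
      rw [Matrix.vandermonde_apply, AA, Matrix.of_apply, mul_comm]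
    · rw [natDegree_PP, Finset.card_compl, Finset.card_singleton, Fintype.card_fin]
      have := l.2
      omega
  rw [h1]
  unfold PP
  rw [Polynomial.eval_prod]
  simp only [Polynomial.eval_sub, Polynomial.eval_X, Polynomial.eval_C]
  by_cases h : j = l
  · subst h
    rw [Matrix.diagonal_apply_eq]
  · rw [Matrix.diagonal_apply_ne _ h]
    exact Finset.prod_eq_zero (i := j) (by simpa using h) (sub_self _)

lemma prod_diag (m : ℕ) :
    ∏ l : Fin m, ∏ k ∈ {l}ᶜ, (X l - X k : MvPolynomial (Fin m) ℂ) =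
      C (∏ l : Fin m, ∏ _k ∈ Finset.Ioi l, (-1 : ℂ)) * (vdm m * vdm m) := by
  have h1 : ∀ l : Fin m, ∏ k ∈ {l}ᶜ, (X l - X k : MvPolynomial (Fin m) ℂ) =
      (∏ k ∈ Finset.Ioi l, (X l - X k)) * ∏ k ∈ Finset.Iio l, (X l - X k) := by
    intro l
    rw [← Finset.Ioi_disjUnion_Iio l, Finset.prod_disjUnion]
  have hv : vdm m = ∏ i : Fin m, ∏ j ∈ Finset.Ioi i, (X j - X i : MvPolynomial (Fin m) ℂ) := by
    unfold vdm
    rw [Matrix.det_vandermonde]
  have h2 : ∏ l : Fin m, ∏ k ∈ Finset.Iio l, (X l - X k : MvPolynomial (Fin m) ℂ) = vdm m := by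
    rw [hv]
    apply Finset.prod_comm'
    intro x y
    simp
  have h3 : ∏ l : Fin m, ∏ k ∈ Finset.Ioi l, (X l - X k : MvPolynomial (Fin m) ℂ) =
      C (∏ l : Fin m, ∏ _k ∈ Finset.Ioi l, (-1 : ℂ)) * vdm m := by
    rw [hv, map_prod, ← Finset.prod_mul_distrib]
    refine Finset.prod_congr rfl fun l _ => ?_
    rw [map_prod, ← Finset.prod_mul_distrib]
    refine Finset.prod_congr rfl fun k _ => ?_
    rw [map_neg, map_one]
    ring
  rw [Finset.prod_congr rfl fun l _ => h1 l, Finset.prod_mul_distrib, h2, h3]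
  ring

lemma vdm_ne_zero (m : ℕ) : vdm m ≠ 0 := by
  unfold vdm
  rw [Matrix.det_vandermonde_ne_zero_iff]
  exact X_injective

lemma det_AA (m : ℕ) : (AA m).det = C (∏ l : Fin m, ∏ _k ∈ Finset.Ioi l, (-1 : ℂ)) * vdm m := by
  have h1 : vdm m * (AA m).det =
      C (∏ l : Fin m, ∏ _k ∈ Finset.Ioi l, (-1 : ℂ)) * (vdm m * vdm m) := by
    rw [← prod_diag, ← Matrix.det_diagonal, ← vand_mul, Matrix.det_mul]
    rfl
  have h2 : vdm m * (AA m).det =
      vdm m * (C (∏ l : Fin m, ∏ _k ∈ Finset.Ioi l, (-1 : ℂ)) * vdm m) := by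
    rw [h1]; ring
  exact mul_left_cancel₀ (vdm_ne_zero m) h2

end WRM

open WRM in
theorem specWR : SpecWR := by
  intro m
  refine ⟨∏ l : Fin m, ∏ _k ∈ Finset.Ioi l, (-1 : ℂ), ?_, ?_⟩
  · rw [Finset.prod_ne_zero_iff]
    intro l _
    rw [Finset.prod_ne_zero_iff]
    intro k _
    norm_num
  rw [← det_AA]
  have hp : ∀ i : Fin (m + 1), proot (X : Fin m → MvPolynomial (Fin m) ℂ) i =
      (PP (Finset.univ : Finset (Fin m))).coeff i := fun i => rfl
  rw [Matrix.det_succ_row _ (Fin.last m), Fin.sum_univ_succ]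
  have h1 : ∀ l : Fin m, (Matrix.of fun i k : Fin (m + 1) =>
      Fin.cases (motive := fun _ => MvPolynomial (Fin m) ℂ)
      (proot X i) (fun l => pderiv l (proot X i)) k) (Fin.last m) l.succ = 0 := by
    intro l
    rw [Matrix.of_apply, Fin.cases_succ, hp, Fin.val_last, pderiv_coeff, neg_eq_zero]
    apply Polynomial.coeff_eq_zero_of_natDegree_lt
    rw [natDegree_PP, Finset.card_compl, Finset.card_singleton, Fintype.card_fin]
    have := l.2
    omega
  have h2 : (Matrix.of fun i k : Fin (m + 1) =>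
      Fin.cases (motive := fun _ => MvPolynomial (Fin m) ℂ)
      (proot X i) (fun l => pderiv l (proot X i)) k) (Fin.last m) 0 = 1 := by
    rw [Matrix.of_apply, Fin.cases_zero, hp, Fin.val_last, coeff_last]
  have h3 : (Matrix.of fun i k : Fin (m + 1) =>
      Fin.cases (motive := fun _ => MvPolynomial (Fin m) ℂ)
      (proot X i) (fun l => pderiv l (proot X i)) k).submatrix (Fin.last m).succAbove
      (0 : Fin (m + 1)).succAbove = -AA m := by
    ext1 i l
    rw [Matrix.submatrix_apply, Matrix.of_apply, Fin.succAbove_last, Fin.succAbove_zero,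
      Fin.cases_succ, hp, pderiv_coeff, Matrix.neg_apply, AA, Matrix.of_apply]
    rfl
  rw [h2, h3, Matrix.det_neg, Fintype.card_fin]
  have h4 : ∀ l : Fin m, (-1 : MvPolynomial (Fin m) ℂ) ^ (((Fin.last m : Fin (m + 1)) : ℕ) +
      ((l.succ : Fin (m + 1)) : ℕ)) * (Matrix.of fun i k : Fin (m + 1) =>
      Fin.cases (motive := fun _ => MvPolynomial (Fin m) ℂ)
      (proot X i) (fun l => pderiv l (proot X i)) k) (Fin.last m) l.succ *
      ((Matrix.of fun i k : Fin (m + 1) =>
      Fin.cases (motive := fun _ => MvPolynomial (Fin m) ℂ)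
      (proot X i) (fun l => pderiv l (proot X i)) k).submatrix (Fin.last m).succAbove
      l.succ.succAbove).det = 0 := by
    intro l
    rw [h1 l, mul_zero, zero_mul]
  rw [Finset.sum_eq_zero fun l _ => h4 l, add_zero, Fin.val_last, Fin.val_zero, add_zero, mul_one,
    ← mul_assoc, ← pow_add, ← two_mul, pow_mul, neg_one_sq, one_pow, one_mul]

end Pool.Agent.Lib.MP_4fcc12_ag.AF
end

section
/-!
# Associated forms: all modules together, and the morphism of quotients
-/
open MvPolynomial AlgebraicGeometry CategoryTheory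
open Pool.Agent.Lib.MP_4fcc12_ag.Quot

namespace Pool.Agent.Lib.MP_4fcc12_ag.AF

namespace All

theorem tSOC : SpecSOC := specSOC 
theorem tTDET : SpecTDET := specTDET 
theorem tINJ : SpecINJ := specINJ 
theorem tSYM : SpecSYM := specSYM 
theorem tTM : SpecTM := specTM tTDET tINJ tSYM
theorem tTS : SpecTS := specTS tINJ tSYM
theorem tDEGX : SpecDEGX := specDEGX 
theorem tDD : SpecDD := specDD tDEGX
theorem tDIX : SpecDIX := specDIX 
theorem tDEG : SpecDEG := specDEG tDEGX
theorem tREL : SpecREL := specREL tDD tDIX tDEGX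
theorem tWR : SpecWR := specWR 
theorem tDIAG : SpecDIAG := specDIAG tDD tDIX tSYM tWR
theorem tTTP : SpecTTP := specTTP 
theorem tUDD : SpecUDD := specUDD 
theorem tTEL : SpecTEL := specTEL tREL tTTP tUDD tSYM
theorem tKEY : SpecKEY := specKEY tTEL tTTP tDEG
theorem tMAT : SpecMAT := specMAT tKEY tTTP tDEG
theorem tK1 : SpecK1 := specK1 tMAT tDIAG tTM tTS tTDET tDD tDIX
theorem tND : SpecND := specND tTS tTDET
theorem tMU : SpecMU := specMU tSOC tK1 tND
theorem tGF : SpecGF := specGF tMU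
theorem tMB : SpecMB := specMB tGF
theorem tCOEF : SpecCOEF := specCOEF tDEG tDD tDIX
theorem tCHI : SpecCHI := specCHI tCOEF
theorem tK2 : SpecK2 := specK2 tDEG tDD tDIX tCHI
theorem tEVAL : SpecEVAL := specEVAL tDEG tDD tDIX
theorem tCH : SpecCH := specCH 
theorem tUUX : SpecUUX := specUUX tMB tK1 tK2
theorem tGLOB : SpecGLOB := specGLOB tUUX tCHI
theorem tMUR : SpecMUR := specMUR tMB tK1 tTS tTDET tCHI
theorem tEQV : SpecEQV := specEQV tMU tGF
theorem tINVJ : SpecINVJ := specINVJ tEQV tMB tK1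
theorem tBM : SpecBM := specBM tMB tK1
theorem tSTAB : SpecSTAB := specSTAB tEQV tINVJ
theorem tBAS : SpecBAS := specBAS tCH tEVAL tBM tSTAB
theorem tSPAN : SpecSPAN := specSPAN 
theorem tPLU : SpecPLU := specPLU tBAS tSPAN
theorem tUNI : SpecUNI := specUNI tMB tK1 tCOEF tBM
theorem tMEM : SpecMEM := specMEM tGLOB tPLU tUNI tBM tUUX tDD tDIX
theorem tREY : SpecREY := specREY 
theorem tFIN : SpecFIN := specFIN tMEM tEQV tINVJ tREY tBM
theorem tJN : SpecJN := specJN tREY tINVJ tBM
theorem tREG : SpecREG := specREG tMUR tMB tK1 tCHI tUUX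
theorem tDESC : SpecDESC := specDESC tREG tEQV tINVJ tBM
theorem tFOG : SpecFOG := specFOG 
theorem tUNIQ : SpecUNIQ := specUNIQ 

end All

/-- The ring homomorphism `P ↦ P ∘ Ψ` from `SL_n`-invariant polynomials on `ℂ[e]_N` to regular
functions on the variety of tuples with nonzero resultant. -/
noncomputable def psiStar (n : ℕ) {k : ℕ} (hn : 2 ≤ n) (hk : 2 ≤ k) :
    invRing n (n * (k - 1)) →+* ringUU n k :=
  (psiFun n k).codRestrict (ringUU n k) (psiFun_mem All.tREG hn hk)

/-- The morphism from the variety of tuples with nonzero resultant to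
`ℙ(ℂ[e]_N)^{ss} // SL_n`, `N = n (k - 1)`, given by `Ψ`. -/
noncomputable def psiMor (n : ℕ) {k : ℕ} (hn : 2 ≤ n) (hk : 2 ≤ k) :
    Spec (catUU n k) ⟶ quotSS n (n * (k - 1)) :=
  Proj.fromOfGlobalSections (invGr n (n * (k - 1)))
    ((Scheme.ΓSpecIso (catUU n k)).inv.hom.comp (psiStar n hn hk))
    (irrelevant_map All.tREG All.tJN hn hk)

theorem main {n k : ℕ} (hn : 2 ≤ n) (hk : 2 ≤ k) :
    ∃ φ : quotZZ n k ⟶ quotSS n (n * (k - 1)),
      (projZZ n k ≫ φ = psiMor n hn hk ∧ ∀ φ', projZZ n k ≫ φ' = psiMor n hn hk → φ' = φ) ∧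
      ∃ (r : ℕ) (J : invRing n (n * (k - 1))), r = (n - 1).factorial * k ^ (n - 1) ∧ 0 < r ∧
        J ∈ invGr n (n * (k - 1)) r ∧
        IsAffineOpen (Proj.basicOpen (invGr n (n * (k - 1))) J) ∧
        ∃ i : quotZZ n k ⟶ (Proj.basicOpen (invGr n (n * (k - 1))) J).toScheme,
          IsClosedImmersion i ∧ i ≫ (Proj.basicOpen (invGr n (n * (k - 1))) J).ι = φ :=
  final All.tREG All.tJN All.tFIN All.tDESC All.tFOG All.tUNIQ hn hk

theorem mu_unique {n k : ℕ} (hn : 2 ≤ n) (hk : 2 ≤ k) {F : Fin n → Form n k} (hF : F ∈ UU n k)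
    (i : Fin n →₀ ℕ) (hi : i.degree = n * (k - 1)) :
    (∃! c : ℂ, monomial i 1 - C c * jac F ∈ idl F) ∧ monomial i 1 - C (mu F i) * jac F ∈ idl F := by
  obtain ⟨m, rfl⟩ : ∃ m, n = m + 1 := ⟨n - 1, by omega⟩
  have h1 := All.tMU m k (by omega) hk F hF (monomial i 1) (isHomogeneous_monomial _ hi)
  exact ⟨h1, Classical.epsilon_spec h1.exists⟩

end Pool.Agent.Lib.MP_4fcc12_ag.AF
end

section
/-!
# Associated forms: the theorem for the graded ring of invariants in short form
-/
open MvPolynomial AlgebraicGeometry CategoryTheory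
open Pool.Agent.Lib.MP_4fcc12_ag.Quot

namespace Pool.Agent.Lib.MP_4fcc12_ag.AFS

open Pool.Agent.Lib.MP_4fcc12_ag.AF

/-- the grading by homogeneous components -/
noncomputable def grInst (n N : ℕ) : GradedRing (gr n N) :=
  (inferInstance : GradedRing (invGr n N))

lemma inst_eq {n N : ℕ} (i j : GradedRing (gr n N)) : i = j := by
  have h1 : i.toDecomposition = j.toDecomposition := Subsingleton.elim _ _
  cases i
  cases j
  cases h1
  rfl

theorem main_inst {n k : ℕ} (hn : 2 ≤ n) (hk : 2 ≤ k)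
    [inst : GradedRing (gr n (n * (k - 1)))] :
    ∃ (ψ : Inv n (n * (k - 1)) →+* catUU n k)
      (h : (HomogeneousIdeal.irrelevant (gr n (n * (k - 1)))).toIdeal.map
        ((Scheme.ΓSpecIso (catUU n k)).inv.hom.comp ψ) = ⊤),
      (∀ P F, ev F (ψ P) = eval (cfL n (n * (k - 1)) (psi F.1)) (val n (n * (k - 1)) P)) ∧
      ∃ φ : quotZZ n k ⟶ Proj (gr n (n * (k - 1))),
        (∀ φ', projZZ n k ≫ φ' = Proj.fromOfGlobalSections (gr n (n * (k - 1)))
          ((Scheme.ΓSpecIso (catUU n k)).inv.hom.comp ψ) h ↔ φ' = φ) ∧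
        ∃ J ∈ gr n (n * (k - 1)) ((n - 1).factorial * k ^ (n - 1)),
          ClosedInto φ (Proj.basicOpen (gr n (n * (k - 1))) J) := by
  have hi : inst = grInst n (n * (k - 1)) := inst_eq _ _
  subst hi
  obtain ⟨φ, ⟨h1, h2⟩, r, J, hr, -, hJ, hA, i, hi, hi'⟩ := main hn hk
  refine ⟨psiStar n hn hk, irrelevant_map All.tREG All.tJN hn hk, fun P F => rfl, φ, fun φ' => ?_,
    J, ?_, ?_⟩
  · constructor
    · exact fun h => h2 φ' h
    · rintro rfl
      exact h1
  · rw [← hr]
    exact hJ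
  · exact ⟨hA, i, hi, hi'⟩

end Pool.Agent.Lib.MP_4fcc12_ag.AFS
end
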